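import Pool.Agent.Lib.SSG.F.D3

/-! # SSG/F/D4 : several variables (definitions) -/

open Polynomial
open scoped Classical

namespace SSF

variable {p : ℕ} [Fact p.Prime] {R : ℕ → Type} [∀ N, CommRing (R N)] [∀ N, Fintype (R N)]
  {L : Type} [NormedField L] [IsUltrametricDist L] (D : LTD p R L)

/-- uniform limits (on the finite set `(R N)^ι`) of integral polynomials in the coordinates. -/
def LTD.CalF (D : LTD p R L) {K : Type} [NormedField K] (j : L →+* K) (N : ℕ) (ι : Type) [Fintype ι]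
    (H : (ι → R N) → K) : Prop :=
  ∀ ε > 0, ∃ P : MvPolynomial ι K, (∀ m, ‖P.coeff m‖ ≤ 1) ∧
    ∀ x, ‖H x - MvPolynomial.eval (fun i => j (D.X N (x i))) P‖ < ε

/-- `S(H) = sum of prod χ(N x_i) H(x)` -/
noncomputable def LTD.SK (D : LTD p R L) {K : Type} [NormedField K] (j : L →+* K) (N : ℕ)
    (ι : Type) [Fintype ι] (χ : DirichletCharacter L (p ^ N)) (H : (ι → R N) → K) : K :=
  ∑ x : ι → R N, (∏ i, j (χ (D.nm N (x i)))) * H x

/-- `T_e(H) = prod (-p)^(-e_i) sum of H over prod p^(N - e_i) R N` -/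
noncomputable def LTD.TK (_D : LTD p R L) {K : Type} [NormedField K] (N : ℕ) (ι : Type) [Fintype ι]
    (e : ι → ℕ) (H : (ι → R N) → K) : K :=
  (∏ i, ((-(p : K)) ^ (e i))⁻¹) * ∑ x ∈ Finset.univ.filter
    (fun x : ι → R N => ∀ i, ∃ y : R N, x i = (p : R N) ^ (N - e i) * y), H x

/-- `rho = -(-1)^((N+1)/2)` -/
def rho (N : ℕ) : ℤ := -(-1) ^ ((N + 1) / 2)

end SSF
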