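import Pool.Agent.Lib.SSG.F.Defs
import Pool.Agent.Lib.SSG.F.D4

/-! # SSG/F/D5 : the rings `𝓞 F / p ^ N`, the predicate `LTF.Good` (no sorry) -/

open NumberField

namespace SSF

/-- the ring `𝓞 F / p ^ N` -/
abbrev RF (F : Type) [Field F] [NumberField F] (p N : ℕ) : Type :=
  𝓞 F ⧸ Ideal.span {((p : 𝓞 F)) ^ N}

noncomputable instance RF.fintype (F : Type) [Field F] [NumberField F] (p : ℕ) [hp : Fact p.Prime]
    (N : ℕ) : Fintype (RF F p N) := by
  have h : Ideal.span {((p : 𝓞 F)) ^ N} ≠ ⊥ := by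
    rw [Ne, Ideal.span_singleton_eq_bot]
    exact pow_ne_zero _ (by exact_mod_cast hp.out.ne_zero)
  haveI : Finite (RF F p N) := Ring.HasFiniteQuotients.finiteQuotient h
  exact Fintype.ofFinite _

/-- the class of `a` modulo `p ^ N` -/
abbrev mkF {F : Type} [Field F] [NumberField F] (p N : ℕ) (a : 𝓞 F) : RF F p N :=
  Ideal.Quotient.mk _ a

end SSF

namespace SSG

open SSF

/-- A Lubin-Tate frame which comes from Galois data `SSF.LTD` over some ultrametric normed field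
`L₀` (in practice `PadicAlgCl p`), by an isometric embedding `j` (in practice into `ℂ_[p]`). -/
def LTF.Good (p : ℕ) [Fact p.Prime] {F : Type} [Field F] [NumberField F] {C : Type} [NormedField C]
    (L : LTF F C) : Prop :=
  ∃ (L₀ : Type) (_ : NormedField L₀) (_ : IsUltrametricDist L₀) (D : LTD p (RF F p) L₀)
    (j : L₀ →+* C), (∀ x, ‖j x‖ = ‖x‖) ∧ (∀ N a, L.X N a = j (D.X N (mkF p N a))) ∧
      (∀ N, L.z N = j (D.ζ N)) ∧ (∀ N a, D.nm N (mkF p N a) = ((nrm a : ℕ) : ZMod (p ^ N))) ∧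
      (∀ N a, D.red N (mkF p (N + 1) a) = mkF p N a)

end SSG
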