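import Mathlib

/-!
SSG, module (F): the one-variable functional at a supersingular prime.
Lubin-Tate frame `LTF`, functions `Fn`, and the target `F_main` (file `Main.lean`).
-/

open NumberField

namespace SSG

/-- J_k = floor (p^k / (p+1)) -/
def Jn (p k : ℕ) : ℕ := p ^ k / (p + 1)

/-- the coordinates of the points `a t_N` (`a : 𝓞 F`, `t_N` a generator of `E[p^N]`,
`-p t_(N+1) = t_N`) and a coherent system of roots of unity -/
structure LTF (F : Type) [Field F] [NumberField F] (C : Type) [NormedField C] where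
  X : ℕ → 𝓞 F → C
  z : ℕ → C

/-- norm to `ℕ` (F imaginary quadratic) -/
noncomputable def nrm {F : Type} [Field F] [NumberField F] (a : 𝓞 F) : ℕ := (Algebra.norm ℤ a).natAbs

/-- Lubin-Tate frame: `[-p](X) = -p X + X^(p^2)`, and `z_N ^ (norm a)` is, for `a` prime to `p`, a polynomial in
`X_N(a)` with coefficients in an unramified ring (a coefficient which is not a unit is divisible by `p`). -/
structure LTF.Ok (p : ℕ) {F : Type} [Field F] [NumberField F] {C : Type} [NormedField C] (L : LTF F C) : Prop where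
  small : ∀ N a, ‖L.X N a‖ < 1
  inj : ∀ N a b, L.X N a = L.X N b ↔ (p : 𝓞 F) ^ N ∣ a - b
  down : ∀ N a, L.X N a = L.X (N + 1) (-(p : 𝓞 F) * a)
  g : ∀ N a, L.X N a = -(p : C) * L.X (N + 1) a + L.X (N + 1) a ^ (p ^ 2)
  prim : ∀ N, IsPrimitiveRoot (L.z N) (p ^ N)
  zdown : ∀ N, L.z (N + 1) ^ p = L.z N
  w : ∀ N, 1 ≤ N → ∃ w : Polynomial C, (∀ i, ‖w.coeff i‖ ≤ 1) ∧
    (∀ i, ‖(w - 1).coeff i‖ < 1 → ‖(w - 1).coeff i‖ ≤ ‖(p : C)‖) ∧
    ∀ a : 𝓞 F, ¬ (p : 𝓞 F) ∣ a → w.eval (L.X N a) = L.z N ^ nrm a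

/-- representatives modulo `p^N` -/
def Rep (p N : ℕ) {F : Type} [Field F] [NumberField F] (T : Finset (𝓞 F)) : Prop :=
  ∀ x : 𝓞 F, ∃! a, a ∈ T ∧ (p : 𝓞 F) ^ N ∣ x - a

/-- uniform limits of polynomials with integral coefficients in the coordinates of level `N` -/
def LTF.Fn {F : Type} [Field F] [NumberField F] {C : Type} [NormedField C] (L : LTF F C) (N : ℕ)
    (ι : Type) [Fintype ι] (H : (ι → 𝓞 F) → C) : Prop :=
  ∀ ε : ℝ, 0 < ε → ∃ Q : MvPolynomial ι C, (∀ m, ‖Q.coeff m‖ ≤ 1) ∧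
    ∀ a : ι → 𝓞 F, ‖H a - MvPolynomial.eval (fun i => L.X N (a i)) Q‖ ≤ ε

/-- the exponents `e` with `|2 e - N| ≤ 1` -/
def EN (N : ℕ) : Finset ℕ := (Finset.range (N + 1)).filter (fun e => N ≤ 2 * e + 1 ∧ 2 * e ≤ N + 1)

/-- `S(H)`: the sum over the units with a character of the norms -/
noncomputable def SH {F : Type} [Field F] [NumberField F] {C : Type} [NormedField C] {p N : ℕ}
    (χ : DirichletCharacter C (p ^ N)) (ι : Type) [Fintype ι] [DecidableEq ι] (T : Finset (𝓞 F))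
    (H : (ι → 𝓞 F) → C) : C :=
  ∑ a ∈ Fintype.piFinset (fun _ : ι => T), (∏ i, χ ((nrm (a i) : ℕ) : ZMod (p ^ N))) * H a

open Classical in
/-- `T_e(H)` -/
noncomputable def TH {F : Type} [Field F] [NumberField F] {C : Type} [NormedField C] (p N : ℕ)
    (ι : Type) [Fintype ι] (T : Finset (𝓞 F)) (e : ι → ℕ)
    (H : (ι → 𝓞 F) → C) : C :=
  (∏ i, (-(p : C)) ^ e i)⁻¹ *
    ∑ a ∈ (Fintype.piFinset (fun _ : ι => T)).filter (fun a => ∀ i, (p : 𝓞 F) ^ (N - e i) ∣ a i), H a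

end SSG
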