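import Pool.Agent.Lib.SSG.F.X1

/-! # SSG/F/X1B : a good frame satisfies `LTF.Ok` -/

open Polynomial NumberField
open scoped Classical

namespace SSF

open SSG

variable {F : Type} [Field F] [NumberField F] {p : ℕ} [Fact p.Prime]

/-- `LTF.Ok` from good data. PROOF. small: `X_lt` (`j` isometric); inj: `D.Xinj`, `j` injective,
`Ideal.Quotient.eq`; down, g: `D.Xpi`, `D.Xg` with `red (mk a) = mk a`; prim, zdown: `D.ζprim`,
`D.ζp`, `IsPrimitiveRoot.map_of_injective`; w: `exists_w (N-1)`, map the coefficients by `j`; a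
coefficient of `w - 1` is an element of `D.W`, so of norm `< 1` implies `≤ ‖p‖` (`D.kval`: a power
`‖p‖^n`, `n ≥ 1`); for `p ∤ a` the class of `a` is a unit. -/
theorem good_ok {C : Type} [NormedField C] [IsUltrametricDist C] (hin : (Ideal.span {(p : 𝓞 F)}).IsPrime)
    (L : LTF F C) (hL : L.Good p) : L.Ok p := by
  obtain ⟨L₀, i1, i2, D, j, hj, hX, hz, hnm, hred⟩ := hL
  have hp : p.Prime := Fact.out
  have hinj : Function.Injective j := j.injective
  refine ⟨?_, ?_, ?_, ?_, ?_, ?_, ?_⟩
  · intro N a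
    rw [hX, hj]
    exact X_lt D hin N _
  · intro N a b
    rw [hX, hX, hinj.eq_iff, (D.Xinj N).eq_iff, Ideal.Quotient.eq, Ideal.mem_span_singleton]
  · intro N a
    rw [hX, hX]
    have h1 : mkF p (N + 1) (-(p : 𝓞 F) * a) = -(p : RF F p (N + 1)) * mkF p (N + 1) a := by
      simp [mkF]
    rw [h1, D.Xpi, hred]
  · intro N a
    have h1 := congrArg j (D.Xg N (mkF p (N + 1) a))
    rw [hred, map_sub, map_pow, map_mul, map_natCast] at h1
    rw [hX, hX, ← h1]
    ring
  · intro N
    rw [hz]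
    exact (D.ζprim N).map_of_injective hinj
  · intro N
    rw [hz, hz, ← map_pow, D.ζp]
  · intro N hN
    obtain ⟨M, rfl⟩ : ∃ M, N = M + 1 := ⟨N - 1, by omega⟩
    obtain ⟨w, hw⟩ := exists_w D M
    refine ⟨w.map (j.comp D.W.subtype), ?_, ?_, ?_⟩
    · intro i
      rw [Polynomial.coeff_map]
      change ‖j (w.coeff i : L₀)‖ ≤ 1
      rw [hj]
      exact (w.coeff i).2.2
    · intro i hi
      have h1 : (w.map (j.comp D.W.subtype) - 1).coeff i = j (((w - 1).coeff i : D.W) : L₀) := by
        have h2 : w.map (j.comp D.W.subtype) - 1 = (w - 1).map (j.comp D.W.subtype) := by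
          rw [Polynomial.map_sub, Polynomial.map_one]
        rw [h2, Polynomial.coeff_map]
        rfl
      rw [h1, hj] at hi ⊢
      have hpn : ‖(p : C)‖ = ‖(p : L₀)‖ := by rw [← map_natCast j p, hj]
      rw [hpn]
      by_cases h0 : (((w - 1).coeff i : D.W) : L₀) = 0
      · rw [h0, norm_zero]; exact norm_nonneg _
      · obtain ⟨n, hn⟩ := D.kval _ ((w - 1).coeff i).2.1 h0
        rw [hn] at hi ⊢
        have hpos : 0 < ‖(p : L₀)‖ := norm_pos_iff.2 D.hp0
        have hn1 : 1 ≤ n := by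
          by_contra hc
          have h3 : n ≤ 0 := by omega
          have h4 : (1 : ℝ) ≤ ‖(p : L₀)‖ ^ n := by
            obtain ⟨m, hm⟩ := Int.eq_ofNat_of_zero_le (show (0 : ℤ) ≤ -n by omega)
            have h5 : n = -(m : ℤ) := by omega
            rw [h5, zpow_neg, zpow_natCast]
            exact (one_le_inv₀ (pow_pos hpos m)).2 (pow_le_one₀ hpos.le D.hp1.le)
          linarith
        obtain ⟨m, hm⟩ := Int.eq_ofNat_of_zero_le (show (0 : ℤ) ≤ n - 1 by omega)
        have h5 : n = ((m + 1 : ℕ) : ℤ) := by push_cast; omega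
        rw [h5, zpow_natCast, pow_succ]
        exact mul_le_of_le_one_left hpos.le (pow_le_one₀ hpos.le D.hp1.le)
    · intro a ha
      have h1 := congrArg j (hw.2 (mkF p (M + 1) a) (x1_unit hin (M + 1) a ha))
      rw [Polynomial.eval_map, hX, hz]
      have h2 : Polynomial.eval₂ (j.comp D.W.subtype) (j (D.X (M + 1) (mkF p (M + 1) a))) w =
          j (D.ev w (D.X (M + 1) (mkF p (M + 1) a))) := by
        unfold LTD.ev
        rw [Polynomial.hom_eval₂]
      rw [h2, h1, map_pow, hnm, ZMod.val_natCast]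
      exact (pow_eq_pow_mod _ ((D.ζprim (M + 1)).map_of_injective hinj).pow_eq_one).symm

end SSF
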