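import Pool.Agent.Lib.SSG.F.R3B

/-! # SSG/F/R4 : good frames from data on `𝓞 F` -/

open Polynomial NumberField
open scoped Classical

namespace SSF

open SSG

variable {F : Type} [Field F] [NumberField F] {p : ℕ} [Fact p.Prime]

/-- THE CONSTRUCTOR: a frame is good if its coordinates come from functions `x N : 𝓞 F → L₀` with a
Galois group. PROOF. Build `D : LTD p (RF F p) L₀` with `red = redF`, `nm = nmF`, `X N y = x N (out y)`
(so `X N (mk a) = x N a` by `hinj`), the ring fields are `fib_RF, nmred_RF, nmu_RF, card0_RF,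
card1_RF, norm1_RF`; `Xinj`: `hinj`, `Ideal.Quotient.eq`; `Xg, Xpi`: choose a representative of the
class (`Ideal.Quotient.mk_surjective`), `redF_mk`; `gal`: the class of `u` is a unit because
`¬ p ∣ u` and `(p)` is prime (as in `X_lt`: maximal ideal, nilpotent), and
`ζ^(nrm u) = ζ^((nm u).val)` (exponents mod `p^N`, `nrm u = norm u` by `hpos`,
`nmF_mk`). -/
theorem good_of_data (h2 : Module.finrank ℚ F = 2) (hin : (Ideal.span {(p : 𝓞 F)}).IsPrime)
    (hpos : ∀ a : 𝓞 F, 0 ≤ Algebra.norm ℤ a)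
    {L₀ : Type} [NormedField L₀] [IsUltrametricDist L₀] {C : Type} [NormedField C]
    (j : L₀ →+* C) (hj : ∀ x, ‖j x‖ = ‖x‖) (hp0 : (p : L₀) ≠ 0) (hp1 : ‖(p : L₀)‖ < 1)
    (k : Subfield L₀) (G : Subgroup (RingAut L₀))
    (kval : ∀ x ∈ k, x ≠ 0 → ∃ n : ℤ, ‖x‖ = ‖(p : L₀)‖ ^ n)
    (giso : ∀ σ ∈ G, ∀ x : L₀, ‖σ x‖ = ‖x‖) (gk : ∀ σ ∈ G, ∀ x ∈ k, σ x = x)
    (gfix : ∀ x : L₀, (∀ σ ∈ G, σ x = x) → x ∈ k)
    (x : ℕ → 𝓞 F → L₀) (ζ : ℕ → L₀)
    (hinj : ∀ N a b, x N a = x N b ↔ (p : 𝓞 F) ^ N ∣ a - b) (h0 : ∀ N, x N 0 = 0)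
    (hg : ∀ N a, x (N + 1) a ^ (p ^ 2) - (p : L₀) * x (N + 1) a = x N a)
    (hpi : ∀ N a, x (N + 1) (-(p : 𝓞 F) * a) = x N a)
    (ζprim : ∀ N, IsPrimitiveRoot (ζ N) (p ^ N)) (ζp : ∀ N, ζ (N + 1) ^ p = ζ N)
    (gal : ∀ σ ∈ G, ∀ N, ∃ u : 𝓞 F, ¬ (p : 𝓞 F) ∣ u ∧ (∀ a, σ (x N a) = x N (u * a)) ∧
      σ (ζ N) = ζ N ^ nrm u)
    (L : LTF F C) (hX : ∀ N a, L.X N a = j (x N a)) (hz : ∀ N, L.z N = j (ζ N)) :
    L.Good p := by
  have hpF : (p : 𝓞 F) ≠ 0 := by exact_mod_cast (Fact.out : p.Prime).ne_zero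
  let X : ∀ N, RF F p N → L₀ := fun N y =>
    x N (Function.surjInv (Ideal.Quotient.mk_surjective (I := Ideal.span {((p : 𝓞 F)) ^ N})) y)
  have hXmk : ∀ N a, X N (mkF p N a) = x N a := by
    intro N a
    apply (hinj N _ _).2
    have h := Function.surjInv_eq
      (Ideal.Quotient.mk_surjective (I := Ideal.span {((p : 𝓞 F)) ^ N})) (mkF p N a)
    exact Ideal.mem_span_singleton.mp (Ideal.Quotient.eq.mp h)
  have hnm : ∀ N (a : 𝓞 F), nmF F p N (mkF p N a) = ((nrm a : ℕ) : ZMod (p ^ N)) := by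
    intro N a
    rw [nmF_mk]
    have h1 : (Algebra.norm ℤ a : ℤ) = ((nrm a : ℕ) : ℤ) := by
      unfold nrm
      rw [Int.natCast_natAbs, abs_of_nonneg (hpos a)]
    rw [h1]
    simp
  have hunit : ∀ N (u : 𝓞 F), ¬ (p : 𝓞 F) ∣ u → IsUnit (mkF p N u) := by
    intro N u hu
    have hmax : (Ideal.span {(p : 𝓞 F)}).IsMaximal := by
      apply Ideal.IsPrime.isMaximal hin
      rw [Ne, Ideal.span_singleton_eq_bot]
      exact hpF
    have hnot : u ∉ Ideal.span {(p : 𝓞 F)} := by
      rwa [Ideal.mem_span_singleton]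
    obtain ⟨b, c, hc, hbc⟩ := hmax.exists_inv hnot
    obtain ⟨d, rfl⟩ := Ideal.mem_span_singleton'.mp hc
    have hnil : IsNilpotent (mkF p N (d * (p : 𝓞 F))) := by
      refine ⟨N, ?_⟩
      rw [← map_pow, mul_pow]
      apply Ideal.Quotient.eq_zero_iff_mem.mpr
      exact Ideal.mem_span_singleton.mpr (Dvd.intro_left _ rfl)
    have h1 : mkF p N b * mkF p N u = 1 - mkF p N (d * (p : 𝓞 F)) := by
      rw [← map_mul, eq_sub_iff_add_eq, ← map_add, hbc, map_one]
    have h2 : IsUnit (mkF p N b * mkF p N u) := by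
      rw [h1]
      exact hnil.isUnit_one_sub
    exact isUnit_of_mul_isUnit_right h2
  let D : LTD p (RF F p) L₀ :=
    { red := redF F p
      nm := nmF F p
      k := k
      G := G
      X := X
      ζ := ζ
      hp0 := hp0
      hp1 := hp1
      kval := kval
      giso := giso
      gk := gk
      gfix := gfix
      fib := fib_RF F p h2
      nmred := nmred_RF F p
      nmu := nmu_RF F p
      card0 := card0_RF F p h2
      card1 := card1_RF F p h2 hin
      norm1 := norm1_RF F p h2 hin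
      X0 := by
        intro N
        have h := hXmk N 0
        have hz0 : mkF p N (0 : 𝓞 F) = 0 := map_zero (Ideal.Quotient.mk _)
        rw [hz0] at h
        rw [h, h0]
      Xinj := by
        intro N y y' h
        obtain ⟨a, rfl⟩ := Ideal.Quotient.mk_surjective y
        obtain ⟨b, rfl⟩ := Ideal.Quotient.mk_surjective y'
        have h' : x N a = x N b := by
          rw [← hXmk N a, ← hXmk N b]; exact h
        exact Ideal.Quotient.eq.mpr (Ideal.mem_span_singleton.mpr ((hinj N a b).1 h'))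
      Xg := by
        intro N y
        obtain ⟨a, rfl⟩ := Ideal.Quotient.mk_surjective y
        have h1 := hXmk (N + 1) a
        have h2 := hXmk N a
        change X (N + 1) (mkF p (N + 1) a) ^ (p ^ 2) - (p : L₀) * X (N + 1) (mkF p (N + 1) a) =
          X N (redF F p N (mkF p (N + 1) a))
        rw [redF_mk, h1, h2]
        exact hg N a
      Xpi := by
        intro N y
        obtain ⟨a, rfl⟩ := Ideal.Quotient.mk_surjective y
        have h1 := hXmk (N + 1) (-(p : 𝓞 F) * a)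
        have h2 := hXmk N a
        have h3 : -(p : RF F p (N + 1)) * mkF p (N + 1) a = mkF p (N + 1) (-(p : 𝓞 F) * a) := by
          simp only [mkF, map_mul, map_neg, map_natCast]
        change X (N + 1) (-(p : RF F p (N + 1)) * mkF p (N + 1) a) =
          X N (redF F p N (mkF p (N + 1) a))
        rw [redF_mk, h3, h1, h2]
        exact hpi N a
      ζprim := ζprim
      ζp := ζp
      gal := by
        intro σ hσ N
        obtain ⟨u, hu, hux, huz⟩ := gal σ hσ N
        refine ⟨mkF p N u, hunit N u hu, ?_, ?_⟩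
        · intro y
          obtain ⟨a, rfl⟩ := Ideal.Quotient.mk_surjective y
          have h1 := hXmk N a
          have h2 := hXmk N (u * a)
          change σ (X N (mkF p N a)) = X N (mkF p N u * mkF p N a)
          have h3 : mkF p N u * mkF p N a = mkF p N (u * a) := (map_mul (Ideal.Quotient.mk _) u a).symm
          rw [h3, h1, h2]
          exact hux a
        · rw [huz, hnm, ZMod.val_natCast]
          exact pow_eq_pow_mod _ (ζprim N).pow_eq_one }
  refine ⟨L₀, inferInstance, inferInstance, D, j, hj, ?_, hz, ?_, ?_⟩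
  · intro N a
    rw [hX]
    exact congrArg j (hXmk N a).symm
  · intro N a
    exact hnm N a
  · intro N a
    rfl

end SSF
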