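import Pool.Agent.Lib.SSG.F.D5

/-! # SSG/F/Y4 : the functions `Fn` descend to `𝓞 F / p^N` -/

open Polynomial NumberField
open scoped Classical

namespace SSF

open SSG

variable {F : Type} [Field F] [NumberField F] {p : ℕ} [Fact p.Prime]
  {L₀ : Type} [NormedField L₀] [IsUltrametricDist L₀] (D : LTD p (RF F p) L₀)
  {C : Type} [NormedField C] (j : L₀ →+* C) (L : LTF F C)

/-- `H` depends only on the classes (it is a limit of functions of the `X N (a i) = j (D.X N (class))`:
if `a i ≡ b i` for all `i` then `‖H a - H b‖ ≤ 2 ε` for all `ε > 0`). Define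
`H' x = H (fun i => representative of x i)` (`Quotient.out`, `Ideal.Quotient.mk_out`/
`Ideal.Quotient.mk_surjective`); `CalF` with `ε/2` (`≤` versus `<`). -/
theorem Fn_descend (hX : ∀ N a, L.X N a = j (D.X N (mkF p N a))) (N : ℕ) (ι : Type) [Fintype ι]
    (H : (ι → 𝓞 F) → C) (hH : L.Fn N ι H) :
    ∃ H' : (ι → RF F p N) → C, (∀ a, H a = H' (fun i => mkF p N (a i))) ∧ D.CalF j N ι H' := by
  have hout : ∀ x : RF F p N, ∃ r : 𝓞 F, mkF p N r = x := Ideal.Quotient.mk_surjective
  choose r hr using hout
  refine ⟨fun x => H (fun i => r (x i)), fun a => ?_, fun ε hε => ?_⟩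
  · have h1 : ∀ ε > 0, ‖H a - H (fun i => r (mkF p N (a i)))‖ ≤ ε := by
      intro ε hε
      obtain ⟨Q, _, hQ⟩ := hH (ε / 2) (by positivity)
      have h2 := hQ a
      have h3 := hQ (fun i => r (mkF p N (a i)))
      have h4 : (fun i => L.X N (r (mkF p N (a i)))) = fun i => L.X N (a i) := by
        funext i
        rw [hX, hX, hr]
      rw [h4] at h3
      have h5 : H a - H (fun i => r (mkF p N (a i))) =
          (H a - MvPolynomial.eval (fun i => L.X N (a i)) Q) -
            (H (fun i => r (mkF p N (a i))) - MvPolynomial.eval (fun i => L.X N (a i)) Q) := by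
        ring
      rw [h5]
      refine (norm_sub_le _ _).trans ?_
      linarith
    have h2 : ‖H a - H (fun i => r (mkF p N (a i)))‖ ≤ 0 := le_of_forall_pos_le_add (by
      intro ε hε
      rw [zero_add]
      exact h1 ε hε)
    exact sub_eq_zero.1 (norm_le_zero_iff.1 h2)
  · obtain ⟨Q, hQ1, hQ⟩ := hH (ε / 2) (by positivity)
    refine ⟨Q, hQ1, fun x => ?_⟩
    have h3 := hQ (fun i => r (x i))
    have h4 : (fun i => L.X N (r (x i))) = fun i => j (D.X N (x i)) := by
      funext i
      rw [hX, hr]
    rw [h4] at h3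
    exact h3.trans_lt (by linarith)

end SSF
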