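import Pool.Agent.Lib.SSG.F.Y3
import Pool.Agent.Lib.SSG.F.D5

/-! # SSG/F/Y5 : `SH`, `TH` are `SK`, `TK` -/

open Polynomial NumberField
open scoped Classical

namespace SSF

open SSG

variable {F : Type} [Field F] [NumberField F] {p : ℕ} [Fact p.Prime]
  {L₀ : Type} [NormedField L₀] [IsUltrametricDist L₀] (D : LTD p (RF F p) L₀)
  {C : Type} [NormedField C] (j : L₀ →+* C)

/-- `rep_sum` for `f x = (prod_i j(χ₀(nm (x i)))) H' x`, `D.nm N (mkF p N a) = nrm a`. -/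
theorem SH_eq (hn : ∀ N a, D.nm N (mkF p N a) = ((nrm a : ℕ) : ZMod (p ^ N)))
    (N : ℕ) (χ : DirichletCharacter C (p ^ N)) (χ₀ : DirichletCharacter L₀ (p ^ N))
    (hχ : ∀ a, j (χ₀ a) = χ a) (ι : Type) [Fintype ι] [DecidableEq ι] (T : Finset (𝓞 F))
    (hT : Rep p N T) (H : (ι → 𝓞 F) → C) (H' : (ι → RF F p N) → C)
    (hH : ∀ a, H a = H' (fun i => mkF p N (a i))) :
    SH χ ι T H = D.SK j N ι χ₀ H' := by
  unfold SH LTD.SK
  refine Eq.trans ?_ ((rep_sum N T hT ι (fun x => (∏ i, j (χ₀ (D.nm N (x i)))) * H' x)).trans ?_)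
  · refine Finset.sum_congr rfl fun a _ => ?_
    rw [hH a]
    refine congrArg (fun z => z * H' (fun i => mkF p N (a i))) (Finset.prod_congr rfl fun i _ => ?_)
    rw [hn, hχ]
  · refine Finset.sum_congr (Finset.ext fun x => iff_of_true (@Finset.mem_univ _ (_) x)
      (@Finset.mem_univ _ (_) x)) fun _ _ => rfl

/-- For `e ≤ N`: `(p : 𝓞 F)^(N-e)` divides `a` iff the class of `a` is `p^(N-e) y` (if
`a = p^(N-e) b + p^N c` then it is divisible by `p^(N-e)`). Then write both sums as sums with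
`if` (`Finset.sum_filter`) and use `rep_sum` with `f x = if (∀ i, ∃ y, x i = ..) then H' x else 0`;
`prod_i (-p)^(e i)` inverted is the product of the inverses (`Finset.prod_inv_distrib`). -/
theorem TH_eq (N : ℕ) (ι : Type) [Fintype ι] (T : Finset (𝓞 F)) (hT : Rep p N T) (e : ι → ℕ)
    (he : ∀ i, e i ≤ N) (H : (ι → 𝓞 F) → C) (H' : (ι → RF F p N) → C)
    (hH : ∀ a, H a = H' (fun i => mkF p N (a i))) :
    TH p N ι T e H = D.TK N ι e H' := by
  have key : ∀ (i : ι) (a : 𝓞 F), (p : 𝓞 F) ^ (N - e i) ∣ a ↔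
      ∃ y : RF F p N, mkF p N a = (p : RF F p N) ^ (N - e i) * y := by
    intro i a
    have hmul : ∀ b : 𝓞 F, mkF p N ((p : 𝓞 F) ^ (N - e i) * b) =
        (p : RF F p N) ^ (N - e i) * mkF p N b := by
      intro b
      change (Ideal.Quotient.mk (Ideal.span {((p : 𝓞 F)) ^ N})) _ = _
      rw [map_mul, map_pow, map_natCast]
    constructor
    · rintro ⟨b, rfl⟩
      exact ⟨mkF p N b, hmul b⟩
    · rintro ⟨y, hy⟩
      obtain ⟨b, rfl⟩ := Ideal.Quotient.mk_surjective y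
      have h1 : mkF p N a = mkF p N ((p : 𝓞 F) ^ (N - e i) * b) := hy.trans (hmul b).symm
      rw [Ideal.Quotient.eq, Ideal.mem_span_singleton] at h1
      have h2 : (p : 𝓞 F) ^ (N - e i) ∣ a - (p : 𝓞 F) ^ (N - e i) * b :=
        (pow_dvd_pow _ (Nat.sub_le _ _)).trans h1
      exact (dvd_sub_left (dvd_mul_right _ _)).1 h2
  unfold TH LTD.TK
  rw [Finset.prod_inv_distrib]
  refine congrArg (fun z => (∏ i, (-(p : C)) ^ e i)⁻¹ * z) ?_
  rw [Finset.sum_filter, Finset.sum_filter]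
  refine Eq.trans ?_ (rep_sum N T hT ι (fun x =>
    if (∀ i, ∃ y : RF F p N, x i = (p : RF F p N) ^ (N - e i) * y) then H' x else 0))
  refine Finset.sum_congr rfl fun a _ => ?_
  rw [hH a]
  by_cases h : ∀ i, (p : 𝓞 F) ^ (N - e i) ∣ a i
  · rw [if_pos h, if_pos fun i => (key i (a i)).1 (h i)]
  · rw [if_neg h, if_neg fun h1 => h fun i => (key i (a i)).2 (h1 i)]

end SSF
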