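import Pool.Agent.Lib.SSG.F.Z3

/-! # SSG/F/Z4 : the main theorem -/

open Polynomial
open scoped Classical

namespace SSF

variable {p : ℕ} [Fact p.Prime] {R : ℕ → Type} [∀ N, CommRing (R N)] [∀ N, Fintype (R N)]
  {L : Type} [NormedField L] [IsUltrametricDist L] (D : LTD p R L)

variable {K : Type} [NormedField K] [IsUltrametricDist K] (j : L →+* K) (hj : ∀ x, ‖j x‖ = ‖x‖)

omit [Fact p.Prime] [∀ N, CommRing (R N)] [∀ N, Fintype (R N)] in
theorem z4_sum_lt {α K' : Type} [NormedField K'] [IsUltrametricDist K'] (s : Finset α) (g : α → K')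
    (C : ℝ) (hC : 0 < C) (h : ∀ v ∈ s, ‖g v‖ < C) :
    ‖∑ v ∈ s, g v‖ < C := by
  rcases s.eq_empty_or_nonempty with rfl | hne
  · simpa using hC
  · haveI : Nonempty α := ⟨hne.choose⟩
    obtain ⟨v, hv, hle⟩ := IsUltrametricDist.exists_norm_finsetSum_le s g
    exact hle.trans_lt (h v (hv hne))

omit [Fact p.Prime] [∀ N, CommRing (R N)] [∀ N, Fintype (R N)] in
theorem z4_sum_le {α K' : Type} [NormedField K'] [IsUltrametricDist K'] (s : Finset α) (g : α → K')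
    (C : ℝ) (hC : 0 ≤ C) (h : ∀ v ∈ s, ‖g v‖ ≤ C) :
    ‖∑ v ∈ s, g v‖ ≤ C := by
  rcases s.eq_empty_or_nonempty with rfl | hne
  · simpa using hC
  · haveI : Nonempty α := ⟨hne.choose⟩
    obtain ⟨v, hv, hle⟩ := IsUltrametricDist.exists_norm_finsetSum_le s g
    exact hle.trans (h v (hv hne))

omit [Fact p.Prime] [IsUltrametricDist L] in
theorem z4_SK_sum {K' : Type} [NormedField K'] (j' : L →+* K') (N : ℕ) (ι : Type) [Fintype ι]
    (χ : DirichletCharacter L (p ^ N)) {α : Type} (s : Finset α) (F : α → (ι → R N) → K') :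
    D.SK j' N ι χ (fun x => ∑ d ∈ s, F d x) = ∑ d ∈ s, D.SK j' N ι χ (F d) := by
  unfold LTD.SK
  simp only [Finset.mul_sum]
  exact Finset.sum_comm

omit [Fact p.Prime] [IsUltrametricDist L] in
theorem z4_TK_sum {K' : Type} [NormedField K'] (N : ℕ) (ι : Type) [Fintype ι]
    (e : ι → ℕ) {α : Type} (s : Finset α) (F : α → (ι → R N) → K') :
    D.TK N ι e (fun x => ∑ d ∈ s, F d x) = ∑ d ∈ s, D.TK N ι e (F d) := by
  unfold LTD.TK
  rw [← Finset.mul_sum]
  congr 1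
  exact Finset.sum_comm

theorem z4_SK_add {K' : Type} [NormedField K'] (j' : L →+* K') (N : ℕ) (ι : Type) [Fintype ι]
    (χ : DirichletCharacter L (p ^ N)) (F G : (ι → R N) → K') :
    D.SK j' N ι χ F = D.SK j' N ι χ G + D.SK j' N ι χ (fun x => F x - G x) := by
  unfold LTD.SK
  rw [← Finset.sum_add_distrib]
  refine Finset.sum_congr rfl fun x _ => ?_
  ring

theorem z4_TK_add {K' : Type} [NormedField K'] (N : ℕ) (ι : Type) [Fintype ι]
    (e : ι → ℕ) (F G : (ι → R N) → K') :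
    D.TK N ι e F = D.TK N ι e G + D.TK N ι e (fun x => F x - G x) := by
  unfold LTD.TK
  rw [← mul_add, ← Finset.sum_add_distrib]
  congr 1
  refine Finset.sum_congr rfl fun x _ => ?_
  ring

omit [∀ N, CommRing (R N)] [∀ N, Fintype (R N)] [IsUltrametricDist L] in
theorem z4_chi (N m : ℕ) (hm : m ≠ 0) (χ : DirichletCharacter L (p ^ N)) (h1 : χ ^ m = 1)
    (a : ZMod (p ^ N)) : ‖χ a‖ ≤ 1 := by
  by_cases ha : IsUnit a
  · have h2 : (χ a) ^ m = 1 := by
      rw [← MulChar.pow_apply' χ hm, h1, MulChar.one_apply ha]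
    have h3 : ‖χ a‖ ^ m = 1 := by rw [← norm_pow, h2, norm_one]
    exact ((pow_eq_one_iff_of_nonneg (norm_nonneg _) hm).1 h3).le
  · rw [MulChar.map_nonunit χ ha, norm_zero]
    exact zero_le_one

omit [Fact p.Prime] [∀ N, CommRing (R N)] [∀ N, Fintype (R N)] in
theorem z4_rho {K' : Type} [NormedField K'] (N : ℕ) : ‖((rho N : ℤ) : K')‖ = 1 := by
  unfold rho
  push_cast
  rw [norm_neg, norm_pow, norm_neg, norm_one, one_pow]

include hj in
/-- The main theorem for polynomials with coefficients of norm `≤ 1`. PROOF. `P = sum of monomials`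
(`MvPolynomial.eval_eq'`: `eval f P = sum over d ∈ support of coeff d P * prod_i f i ^ d i`), `SK` and
`TK` are additive (finite sums commute), `main_mono` for every monomial and the ultrametric bound
of a finite sum (`IsUltrametricDist.norm_sum_lt`-type; if the support is empty the sum is `0`). -/
theorem main_poly (hp3 : 3 ≤ p) (n : ℕ) (hn : 1 ≤ n) (χ : DirichletCharacter L (p ^ (n + 1)))
    (hχ : χ.IsPrimitive) (h1 : χ ^ (p ^ n) = 1) (ι : Type) [Fintype ι] (P : MvPolynomial ι K)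
    (hP : ∀ m, ‖P.coeff m‖ ≤ 1) :
    (∀ e : ι → ℕ, (∀ i, e i ≤ n + 1) →
      ‖D.TK (n + 1) ι e (fun x => MvPolynomial.eval (fun i => j (D.X (n + 1) (x i))) P)‖ ≤ 1) ∧
    ‖D.SK j (n + 1) ι χ (fun x => MvPolynomial.eval (fun i => j (D.X (n + 1) (x i))) P) /
        j (D.kap n χ) ^ Fintype.card ι -
      (rho (n + 1) : K) ^ Fintype.card ι * ∑ e ∈ Fintype.piFinset (fun _ : ι => Eset (n + 1)),
        D.TK (n + 1) ι e (fun x => MvPolynomial.eval (fun i => j (D.X (n + 1) (x i))) P)‖ < 1 := by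
  have hcard := fun (d : ι →₀ ℕ) => main_mono D j hj hp3 n hn χ hχ h1 ι (fun i => d i) (P.coeff d) (hP d)
  have hev : (fun x : ι → R (n + 1) => MvPolynomial.eval (fun i => j (D.X (n + 1) (x i))) P) =
      fun x => ∑ d ∈ P.support, P.coeff d * ∏ i, j (D.X (n + 1) (x i)) ^ d i := by
    funext x
    rw [MvPolynomial.eval_eq']
  rw [hev]
  constructor
  · intro e he
    rw [z4_TK_sum]
    exact z4_sum_le _ _ 1 zero_le_one fun d _ => (hcard d).1 e he
  · rw [z4_SK_sum]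
    have h3 : ∑ e ∈ Fintype.piFinset (fun _ : ι => Eset (n + 1)),
        D.TK (n + 1) ι e (fun x => ∑ d ∈ P.support,
          P.coeff d * ∏ i, j (D.X (n + 1) (x i)) ^ d i) =
        ∑ d ∈ P.support, ∑ e ∈ Fintype.piFinset (fun _ : ι => Eset (n + 1)),
          D.TK (n + 1) ι e (fun x => P.coeff d * ∏ i, j (D.X (n + 1) (x i)) ^ d i) := by
      rw [Finset.sum_comm]
      refine Finset.sum_congr rfl fun e _ => ?_
      rw [z4_TK_sum]
    rw [h3, Finset.sum_div, Finset.mul_sum, ← Finset.sum_sub_distrib]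
    exact z4_sum_lt _ _ 1 zero_lt_one fun d _ => (hcard d).2

include hj in
/-- THE MAIN THEOREM of module F. PROOF. Given `H`, choose `ε > 0` with `ε < ‖kap‖^g` and
`ε < ‖p‖^(g (n+1))`, and `P` from `CalF`. `H - P` has values of norm `< ε`, so
`‖SK (H - P)‖ < ε < ‖kap‖^g` (the values of `χ` have norm `≤ 1`: zero or roots of unity) and
`‖TK e (H - P)‖ ≤ ‖p‖^(-sum e_i) ε < 1` (`e_i ≤ n + 1`, `‖(-p)^(-e)‖ = ‖p‖^(-e)`). `SK`, `TK` are
additive; `main_poly` for `P`; `‖rho‖ = 1`; `Eset (n+1) ⊆ {e ≤ n + 1}`. The bound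
`‖SK H‖ ≤ ‖kap‖^g` follows since all terms of the last formula have norm `≤ 1`. -/
theorem F_main (hp3 : 3 ≤ p) (n : ℕ) (hn : 1 ≤ n) (χ : DirichletCharacter L (p ^ (n + 1)))
    (hχ : χ.IsPrimitive) (h1 : χ ^ (p ^ n) = 1) (ι : Type) [Fintype ι] (H : (ι → R (n + 1)) → K)
    (hH : D.CalF j (n + 1) ι H) :
    ‖D.SK j (n + 1) ι χ H‖ ≤ ‖D.kap n χ‖ ^ Fintype.card ι ∧
    (∀ e : ι → ℕ, (∀ i, e i ≤ n + 1) → ‖D.TK (n + 1) ι e H‖ ≤ 1) ∧
    ‖D.SK j (n + 1) ι χ H / j (D.kap n χ) ^ Fintype.card ι -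
      (rho (n + 1) : K) ^ Fintype.card ι * ∑ e ∈ Fintype.piFinset (fun _ : ι => Eset (n + 1)),
        D.TK (n + 1) ι e H‖ < 1 := by
  obtain ⟨hk0, -⟩ := kap_norm D hp3 n hn χ hχ h1
  set κ : L := D.kap n χ with hκ
  set g : ℕ := Fintype.card ι with hg
  have hpn : p ^ n ≠ 0 := (pow_pos (Fact.out : p.Prime).pos n).ne'
  have hp0 : 0 < ‖(p : L)‖ := norm_pos_iff.2 D.hp0
  have hp1 : ‖(p : L)‖ < 1 := D.hp1
  have hpK : ‖(p : K)‖ = ‖(p : L)‖ := by
    rw [← hj (p : L), map_natCast]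
  have hkpos : 0 < ‖κ‖ ^ g := pow_pos (norm_pos_iff.2 hk0) g
  have hppos : 0 < ‖(p : L)‖ ^ (g * (n + 1)) := pow_pos hp0 _
  obtain ⟨P, hP, hHP⟩ := hH (min (‖κ‖ ^ g) (‖(p : L)‖ ^ (g * (n + 1)))) (lt_min hkpos hppos)
  obtain ⟨hT, hS⟩ := main_poly D j hj hp3 n hn χ hχ h1 ι P hP
  set Q : (ι → R (n + 1)) → K :=
    fun x => MvPolynomial.eval (fun i => j (D.X (n + 1) (x i))) P with hQ
  have hj0 : ‖j κ ^ g‖ = ‖κ‖ ^ g := by rw [norm_pow, hj]
  have hjne : j κ ^ g ≠ 0 := by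
    rw [← norm_pos_iff, hj0]
    exact hkpos
  have hSΔ : ‖D.SK j (n + 1) ι χ (fun x => H x - Q x)‖ < ‖κ‖ ^ g := by
    unfold LTD.SK
    refine z4_sum_lt _ _ _ hkpos fun x _ => ?_
    rw [norm_mul, norm_prod]
    have h3 : ∏ i, ‖j (χ (D.nm (n + 1) (x i)))‖ ≤ 1 := by
      refine Finset.prod_le_one (fun i _ => norm_nonneg _) fun i _ => ?_
      rw [hj]
      exact z4_chi (n + 1) (p ^ n) hpn χ h1 _
    calc (∏ i, ‖j (χ (D.nm (n + 1) (x i)))‖) * ‖H x - Q x‖ ≤ 1 * ‖H x - Q x‖ :=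
          mul_le_mul_of_nonneg_right h3 (norm_nonneg _)
      _ = ‖H x - Q x‖ := one_mul _
      _ < ‖κ‖ ^ g := (hHP x).trans_le (min_le_left _ _)
  have hTΔ : ∀ e : ι → ℕ, (∀ i, e i ≤ n + 1) →
      ‖D.TK (n + 1) ι e (fun x => H x - Q x)‖ < 1 := by
    intro e he
    unfold LTD.TK
    have h3 : ‖∑ x ∈ Finset.univ.filter
        (fun x : ι → R (n + 1) => ∀ i, ∃ y : R (n + 1), x i = (p : R (n + 1)) ^ (n + 1 - e i) * y),
        (H x - Q x)‖ < ‖(p : L)‖ ^ (g * (n + 1)) :=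
      z4_sum_lt _ _ _ hppos fun x _ => (hHP x).trans_le (min_le_right _ _)
    rw [norm_mul, norm_prod]
    have h4 : ∏ i, ‖((-(p : K)) ^ (e i))⁻¹‖ = (‖(p : L)‖ ^ (∑ i, e i))⁻¹ := by
      rw [← Finset.prod_pow_eq_pow_sum, ← Finset.prod_inv_distrib]
      refine Finset.prod_congr rfl fun i _ => ?_
      rw [norm_inv, norm_pow, norm_neg, hpK]
    rw [h4]
    have h5 : ∑ i, e i ≤ g * (n + 1) := by
      calc ∑ i, e i ≤ ∑ _i : ι, (n + 1) := Finset.sum_le_sum fun i _ => he i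
        _ = g * (n + 1) := by
          rw [Finset.sum_const, Finset.card_univ, smul_eq_mul]
    have h6 : ‖(p : L)‖ ^ (g * (n + 1)) ≤ ‖(p : L)‖ ^ (∑ i, e i) :=
      pow_le_pow_of_le_one hp0.le hp1.le h5
    have h7 : 0 < ‖(p : L)‖ ^ (∑ i, e i) := pow_pos hp0 _
    rw [inv_mul_lt_iff₀ h7, mul_one]
    exact h3.trans_le h6
  have hSH := z4_SK_add D j (n + 1) ι χ H Q
  have hTH := fun e : ι → ℕ => z4_TK_add D (n + 1) ι e H Q
  have hT' : ∀ e : ι → ℕ, (∀ i, e i ≤ n + 1) → ‖D.TK (n + 1) ι e H‖ ≤ 1 := by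
    intro e he
    rw [hTH e]
    exact (IsUltrametricDist.norm_add_le_max _ _).trans (max_le (hT e he) (hTΔ e he).le)
  have hE : ∀ e ∈ Fintype.piFinset (fun _ : ι => Eset (n + 1)), ∀ i, e i ≤ n + 1 := by
    intro e he i
    have h3 := Fintype.mem_piFinset.1 he i
    unfold Eset at h3
    rw [Finset.mem_insert, Finset.mem_singleton] at h3
    omega
  have hρ : ‖((rho (n + 1) : ℤ) : K) ^ g‖ = 1 := by
    rw [norm_pow, z4_rho, one_pow]
  have h3rd : ‖D.SK j (n + 1) ι χ H / j κ ^ g -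
      (rho (n + 1) : K) ^ g * ∑ e ∈ Fintype.piFinset (fun _ : ι => Eset (n + 1)),
        D.TK (n + 1) ι e H‖ < 1 := by
    have h4 : D.SK j (n + 1) ι χ H / j κ ^ g -
        (rho (n + 1) : K) ^ g * ∑ e ∈ Fintype.piFinset (fun _ : ι => Eset (n + 1)),
          D.TK (n + 1) ι e H =
        (D.SK j (n + 1) ι χ Q / j κ ^ g -
        (rho (n + 1) : K) ^ g * ∑ e ∈ Fintype.piFinset (fun _ : ι => Eset (n + 1)),
          D.TK (n + 1) ι e Q) +
        (D.SK j (n + 1) ι χ (fun x => H x - Q x) / j κ ^ g +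
        -((rho (n + 1) : K) ^ g * ∑ e ∈ Fintype.piFinset (fun _ : ι => Eset (n + 1)),
          D.TK (n + 1) ι e (fun x => H x - Q x))) := by
      have h5 : ∑ e ∈ Fintype.piFinset (fun _ : ι => Eset (n + 1)), D.TK (n + 1) ι e H =
          ∑ e ∈ Fintype.piFinset (fun _ : ι => Eset (n + 1)), D.TK (n + 1) ι e Q +
          ∑ e ∈ Fintype.piFinset (fun _ : ι => Eset (n + 1)),
            D.TK (n + 1) ι e (fun x => H x - Q x) := by
        rw [← Finset.sum_add_distrib]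
        exact Finset.sum_congr rfl fun e _ => hTH e
      rw [h5, hSH, add_div]
      ring
    rw [h4]
    refine (IsUltrametricDist.norm_add_le_max _ _).trans_lt (max_lt hS ?_)
    refine (IsUltrametricDist.norm_add_le_max _ _).trans_lt (max_lt ?_ ?_)
    · rw [norm_div, hj0, div_lt_one hkpos]
      exact hSΔ
    · rw [norm_neg, norm_mul, hρ, one_mul]
      exact z4_sum_lt _ _ 1 zero_lt_one fun e he => hTΔ e (hE e he)
  refine ⟨?_, hT', h3rd⟩
  have h4 : ‖D.SK j (n + 1) ι χ H / j κ ^ g‖ ≤ 1 := by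
    have h5 : D.SK j (n + 1) ι χ H / j κ ^ g = (D.SK j (n + 1) ι χ H / j κ ^ g -
      (rho (n + 1) : K) ^ g * ∑ e ∈ Fintype.piFinset (fun _ : ι => Eset (n + 1)),
        D.TK (n + 1) ι e H) + (rho (n + 1) : K) ^ g *
        ∑ e ∈ Fintype.piFinset (fun _ : ι => Eset (n + 1)), D.TK (n + 1) ι e H := by ring
    rw [h5]
    refine (IsUltrametricDist.norm_add_le_max _ _).trans (max_le h3rd.le ?_)
    rw [norm_mul, hρ, one_mul]
    exact z4_sum_le _ _ 1 zero_le_one fun e he => hT' e (hE e he)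
  rwa [norm_div, hj0, div_le_one hkpos] at h4

end SSF
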