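import Pool.Agent.Lib.SSG.F.B2B

/-! # SSG/F/B2C : sums over `p ^ (N - e) R N` -/

open Polynomial
open scoped Classical

namespace SSF

variable {p : ℕ} {R : ℕ → Type} [∀ N, CommRing (R N)] [∀ N, Fintype (R N)]
  {L : Type} [NormedField L] [IsUltrametricDist L] (D : LTD p R L)

/-- The sum over `p ^ (N - e) R N`. PROOF: the sets `{X N x | x in p^(N-e) R N}` and
`{X e z | z : R e}` coincide by `exists_level` (`(-p)^d y` and `p^d y'` run through the same
elements), `X` is injective, so the sum equals the sum over `R e` (`Finset.sum_image` on both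
sides), then `total_sum`. -/
theorem sub_sum [Fact p.Prime] (N e : ℕ) (he : e ≤ N) (h : D.W[X]) :
    ∑ x ∈ Finset.univ.filter (fun x : R N => ∃ y : R N, x = (p : R N) ^ (N - e) * y),
      D.ev h (D.X N x) = (p : L) ^ e * (((Ct p)^[e] h).coeff 0 : L) := by
  obtain ⟨d, rfl⟩ := Nat.exists_eq_add_of_le he
  rw [Nat.add_sub_cancel_left]
  obtain ⟨h1, h2⟩ := exists_level D e d
  have hsg : ∀ y : R (e + d), (-(p : R (e + d))) ^ d * ((-1) ^ d * y) = (p : R (e + d)) ^ d * y := by
    intro y
    rw [← mul_assoc, ← mul_pow]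
    congr 2
    ring
  have himg : (Finset.univ.filter (fun x : R (e + d) => ∃ y : R (e + d),
      x = (p : R (e + d)) ^ d * y)).image (D.X (e + d)) =
      (Finset.univ : Finset (R e)).image (D.X e) := by
    ext t
    simp only [Finset.mem_image, Finset.mem_filter, Finset.mem_univ, true_and]
    constructor
    · rintro ⟨x, ⟨y, rfl⟩, rfl⟩
      obtain ⟨z, hz⟩ := h1 ((-1) ^ d * y)
      rw [hsg] at hz
      exact ⟨z, hz.symm⟩
    · rintro ⟨z, rfl⟩
      obtain ⟨y, hy⟩ := h2 z
      refine ⟨_, ⟨(-1) ^ d * y, ?_⟩, hy⟩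
      rw [← hsg, ← mul_assoc ((-1 : R (e + d)) ^ d), ← mul_pow, neg_one_mul, neg_neg, one_pow, one_mul]
  have e1 := Finset.sum_image (f := fun t => D.ev h t)
    (s := Finset.univ.filter (fun x : R (e + d) => ∃ y : R (e + d), x = (p : R (e + d)) ^ d * y))
    (g := D.X (e + d)) (D.Xinj (e + d)).injOn
  have e2 := Finset.sum_image (f := fun t => D.ev h t) (s := (Finset.univ : Finset (R e)))
    (g := D.X e) (D.Xinj e).injOn
  rw [himg, e2] at e1
  rw [← e1]
  exact total_sum D (Fact.out : p.Prime).two_le e h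

end SSF
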