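import Pool.Agent.Lib.SSG.F.D1

/-! # SSG/F/E0 : arithmetic of `r n = p^n / (p+1)` -/

open Polynomial
open scoped Classical

namespace SSF

variable {p : ℕ} [Fact p.Prime] {R : ℕ → Type} [∀ N, CommRing (R N)] [∀ N, Fintype (R N)]
  {L : Type} [NormedField L] [IsUltrametricDist L] (D : LTD p R L)

omit [Fact p.Prime] in
theorem e0_mod_even (n : ℕ) (hn : Even n) (hp : 2 ≤ p) : p ^ n % (p + 1) = 1 := by
  obtain ⟨m, rfl⟩ := hn
  have h1 : p ^ 2 ≡ 1 [MOD p + 1] := by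
    obtain ⟨q, rfl⟩ : ∃ q, p = q + 1 := ⟨p - 1, by omega⟩
    have h2 : (q + 1) ^ 2 = (q + 1 + 1) * q + 1 := by ring
    unfold Nat.ModEq
    rw [h2, Nat.mul_add_mod]
  have h3 : p ^ (m + m) ≡ 1 [MOD p + 1] := by
    rw [← two_mul, pow_mul]
    have h4 := h1.pow m
    rwa [one_pow] at h4
  have h5 : 1 % (p + 1) = 1 := Nat.mod_eq_of_lt (by omega)
  exact Eq.trans h3 h5

omit [Fact p.Prime] in
theorem e0_mod_odd (n : ℕ) (hn : Odd n) (hp : 2 ≤ p) : p ^ n % (p + 1) = p := by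
  obtain ⟨m, rfl⟩ := hn
  have h1 := e0_mod_even (2 * m) (even_two_mul m) hp
  rw [pow_succ, Nat.mul_mod, h1, one_mul, Nat.mod_mod]
  exact Nat.mod_eq_of_lt (by omega)

omit [Fact p.Prime] in
/-- `n` even: `p^n = (p+1) r + 1` (`p^2 = 1` mod `p+1`, induction), so
`p^(n+1) = (p+1) p r + p` and the quotient is `p r`. -/
theorem r_even (n : ℕ) (hn : Even n) (hp : 2 ≤ p) :
    p ^ (n + 1) / (p + 1) = p * (p ^ n / (p + 1)) := by
  have h1 := e0_mod_even n hn hp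
  have h2 := Nat.div_add_mod (p ^ n) (p + 1)
  rw [h1] at h2
  have h3 : p ^ (n + 1) = (p + 1) * (p * (p ^ n / (p + 1))) + p := by
    rw [pow_succ, ← h2]
    have h4 : ((p + 1) * (p ^ n / (p + 1)) + 1) / (p + 1) = p ^ n / (p + 1) := by rw [h2]
    rw [h4]
    ring
  refine Nat.div_eq_of_lt_le ?_ ?_
  · rw [h3]
    nlinarith
  · rw [h3]
    nlinarith

omit [Fact p.Prime] in
/-- `n` odd: `p^n = (p+1) r + p`, so `p^(n+1) = (p+1) p r + p^2 = (p+1)(p r + p - 1) + 1`. -/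
theorem r_odd (n : ℕ) (hn : Odd n) (hp : 2 ≤ p) :
    p ^ (n + 1) / (p + 1) = p * (p ^ n / (p + 1)) + (p - 1) := by
  have h1 := e0_mod_odd n hn hp
  have h2 := Nat.div_add_mod (p ^ n) (p + 1)
  rw [h1] at h2
  obtain ⟨q, rfl⟩ : ∃ q, p = q + 1 := ⟨p - 1, by omega⟩
  have h3 : (q + 1) ^ (n + 1) = (q + 1 + 1) * ((q + 1) * ((q + 1) ^ n / (q + 1 + 1)) + q) + 1 := by
    rw [pow_succ, ← h2]
    have h4 : ((q + 1 + 1) * ((q + 1) ^ n / (q + 1 + 1)) + (q + 1)) / (q + 1 + 1) =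
        (q + 1) ^ n / (q + 1 + 1) := by rw [h2]
    rw [h4]
    ring
  rw [Nat.add_sub_cancel]
  refine Nat.div_eq_of_lt_le ?_ ?_
  · rw [h3]
    nlinarith
  · rw [h3]
    nlinarith

omit [Fact p.Prime] in
/-- `p - 1` divides `p^n / (p+1)`: induction with `r_even`, `r_odd` (`p^0/(p+1) = 0`). -/
theorem r_dvd (n : ℕ) (hp : 2 ≤ p) : (p - 1) ∣ p ^ n / (p + 1) := by
  induction n with
  | zero =>
    rw [pow_zero, Nat.div_eq_of_lt (by omega)]
    exact dvd_zero _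
  | succ n ih =>
    rcases Nat.even_or_odd n with h | h
    · rw [r_even n h hp]
      exact ih.mul_left p
    · rw [r_odd n h hp]
      exact dvd_add (ih.mul_left p) dvd_rfl

/-- coefficients: `res a = res b` implies `‖a - b‖ < 1` (and conversely). -/
theorem res_eq_iff (a b : D.W) : D.res a = D.res b ↔ ‖(a : L) - (b : L)‖ < 1 := by
  rw [LTD.res, Ideal.Quotient.eq]
  exact Iff.rfl

end SSF
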