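import Pool.Agent.Lib.SSG.F.M3
import Pool.Agent.Lib.SSG.F.B2C
import Pool.Agent.Lib.SSG.F.E0

/-! # SSG/F/M5 : the functionals `T_e` on polynomials -/

open Polynomial
open scoped Classical

namespace SSF

variable {p : ℕ} [Fact p.Prime] {R : ℕ → Type} [∀ N, CommRing (R N)] [∀ N, Fintype (R N)]
  {L : Type} [NormedField L] [IsUltrametricDist L] (D : LTD p R L)

/-- `T_e(h) = (-p)^(-e) sum over p^(N-e) R N of h(X x)` is congruent to `h_(q^e-1)`. PROOF.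
`sub_sum`: the sum is `p^e ((Ct p)^[e] h).coeff 0`, so `T_e(h) = (-1)^e (..).coeff 0`
(`(-p)^(-e) p^e = (-1)^e`, `D.hp0`), and `res_Ct_iter`: its residue is
`(-1)^e (-1)^e h_(p^(2e)-1)`; `res_eq_iff`. -/
theorem Te_congr (N e : ℕ) (he : e ≤ N) (h : D.W[X]) :
    ‖((-(p : L)) ^ e)⁻¹ * ∑ x ∈ Finset.univ.filter
        (fun x : R N => ∃ y : R N, x = (p : R N) ^ (N - e) * y), D.ev h (D.X N x) -
      (h.coeff (p ^ (2 * e) - 1) : L)‖ < 1 := by
  have hp : p.Prime := Fact.out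
  rw [sub_sum D N e he h]
  have h1 : ((-(p : L)) ^ e)⁻¹ * ((p : L) ^ e * (((Ct p)^[e] h).coeff 0 : L)) =
      (((-1 : D.W) ^ e * ((Ct p)^[e] h).coeff 0 : D.W) : L) := by
    rw [Subring.coe_mul, Subring.coe_pow, Subring.coe_neg, Subring.coe_one, neg_pow, mul_inv,
      ← inv_pow, inv_neg, inv_one]
    have hpe : ((p : L) ^ e) ≠ 0 := pow_ne_zero _ D.hp0
    field_simp
  rw [h1, ← res_eq_iff, map_mul, res_Ct_iter D hp.two_le, map_pow, map_neg, map_one]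
  rw [← mul_assoc, ← mul_pow]
  simp

end SSF
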