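import Pool.Agent.Lib.SSG.F.D1

/-! # SSG/F/Z2 : products of approximations -/

open Polynomial
open scoped Classical

namespace SSF

variable {p : ℕ} [Fact p.Prime] {R : ℕ → Type} [∀ N, CommRing (R N)] [∀ N, Fintype (R N)]
  {L : Type} [NormedField L] [IsUltrametricDist L] (D : LTD p R L)

omit [Fact p.Prime] in
/-- ultrametric: `‖a_i - b_i‖ < 1`, `‖b_i‖ ≤ 1` for all `i` imply `‖prod a_i - prod b_i‖ < 1`
and `‖prod a_i‖ ≤ 1`. Induction on the finite set (`‖a_i‖ ≤ 1` follows). -/
theorem prod_approx {K : Type} [NormedField K] [IsUltrametricDist K] {ι : Type} (s : Finset ι)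
    (a b : ι → K) (h : ∀ i ∈ s, ‖a i - b i‖ < 1) (hb : ∀ i ∈ s, ‖b i‖ ≤ 1) :
    ‖∏ i ∈ s, a i - ∏ i ∈ s, b i‖ < 1 ∧ ‖∏ i ∈ s, a i‖ ≤ 1 := by
  classical
  induction s using Finset.induction_on with
  | empty => simp
  | insert i s hi ih =>
    obtain ⟨h1, h2⟩ := ih (fun j hj => h j (Finset.mem_insert_of_mem hj))
      (fun j hj => hb j (Finset.mem_insert_of_mem hj))
    have h3 := h i (Finset.mem_insert_self i s)
    have h4 := hb i (Finset.mem_insert_self i s)
    have h5 : ‖a i‖ ≤ 1 := by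
      have h6 := IsUltrametricDist.norm_add_le_max (a i - b i) (b i)
      rw [sub_add_cancel] at h6
      exact h6.trans (max_le h3.le h4)
    rw [Finset.prod_insert hi, Finset.prod_insert hi]
    constructor
    · have h6 : a i * ∏ j ∈ s, a j - b i * ∏ j ∈ s, b j =
          (a i - b i) * ∏ j ∈ s, a j + b i * (∏ j ∈ s, a j - ∏ j ∈ s, b j) := by ring
      rw [h6]
      refine (IsUltrametricDist.norm_add_le_max _ _).trans_lt (max_lt ?_ ?_)
      · rw [norm_mul]
        exact (mul_le_of_le_one_right (norm_nonneg _) h2).trans_lt h3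
      · rw [norm_mul]
        exact (mul_le_of_le_one_left (norm_nonneg _) h4).trans_lt h1
    · rw [norm_mul]
      exact mul_le_one₀ h5 (norm_nonneg _) h2

end SSF
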