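import Pool.Agent.Lib.SSG.F.Z1
import Pool.Agent.Lib.SSG.F.Z2
import Pool.Agent.Lib.SSG.F.M5

/-! # SSG/F/Z5 : `T_e` is integral at every level -/

open Polynomial
open scoped Classical

namespace SSF

variable {p : ℕ} [Fact p.Prime] {R : ℕ → Type} [∀ N, CommRing (R N)] [∀ N, Fintype (R N)]
  {L : Type} [NormedField L] [IsUltrametricDist L] (D : LTD p R L)

variable {K : Type} [NormedField K] [IsUltrametricDist K] (j : L →+* K) (hj : ∀ x, ‖j x‖ = ‖x‖)

include hj in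
theorem z5_mono (N : ℕ) (ι : Type) [Fintype ι] (e : ι → ℕ) (he : ∀ i, e i ≤ N) (m : ι → ℕ) (c : K)
    (hc : ‖c‖ ≤ 1) : ‖D.TK N ι e (fun x => c * ∏ i, j (D.X N (x i)) ^ m i)‖ ≤ 1 := by
  rw [TK_mono, norm_mul]
  refine mul_le_one₀ hc (norm_nonneg _) ?_
  refine (prod_approx Finset.univ _
    (fun i => j (((X : D.W[X]) ^ m i).coeff (p ^ (2 * e i) - 1) : L)) (fun i _ => ?_)
    (fun i _ => ?_)).2
  · rw [← map_sub, hj]
    exact Te_congr D N (e i) (he i) (X ^ m i)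
  · rw [hj]
    exact (((X : D.W[X]) ^ m i).coeff (p ^ (2 * e i) - 1)).2.2

theorem z5_add (N : ℕ) (ι : Type) [Fintype ι] (e : ι → ℕ) {α : Type} (s : Finset α)
    (F : α → (ι → R N) → K) :
    D.TK N ι e (fun x => ∑ a ∈ s, F a x) = ∑ a ∈ s, D.TK N ι e (F a) := by
  unfold LTD.TK
  rw [Finset.sum_comm, Finset.mul_sum]

theorem z5_sub (N : ℕ) (ι : Type) [Fintype ι] (e : ι → ℕ) (F G : (ι → R N) → K) :
    D.TK N ι e F = D.TK N ι e G + D.TK N ι e (fun x => F x - G x) := by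
  unfold LTD.TK
  rw [← mul_add, ← Finset.sum_add_distrib]
  congr 1
  refine Finset.sum_congr rfl fun x _ => ?_
  ring

include hj in
theorem z5_small (N : ℕ) (ι : Type) [Fintype ι] (e : ι → ℕ) (he : ∀ i, e i ≤ N)
    (F : (ι → R N) → K) (hF : ∀ x, ‖F x‖ < ‖(p : K)‖ ^ (N * Fintype.card ι)) :
    ‖D.TK N ι e F‖ ≤ 1 := by
  have hp : ‖(p : K)‖ = ‖(p : L)‖ := by rw [← map_natCast j, hj]
  have hp0 : 0 < ‖(p : K)‖ := by rw [hp]; exact norm_pos_iff.2 D.hp0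
  have hp1 : ‖(p : K)‖ < 1 := by rw [hp]; exact D.hp1
  unfold LTD.TK
  rw [norm_mul, norm_prod]
  have h1 : ∏ i, ‖((-(p : K)) ^ (e i))⁻¹‖ = (‖(p : K)‖ ^ ∑ i, e i)⁻¹ := by
    rw [← Finset.prod_pow_eq_pow_sum, ← Finset.prod_inv_distrib]
    refine Finset.prod_congr rfl fun i _ => ?_
    rw [norm_inv, norm_pow, norm_neg]
  have h2 : ‖∑ x ∈ Finset.univ.filter
      (fun x : ι → R N => ∀ i, ∃ y : R N, x i = (p : R N) ^ (N - e i) * y), F x‖ ≤
      ‖(p : K)‖ ^ (N * Fintype.card ι) :=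
    IsUltrametricDist.norm_sum_le_of_forall_le_of_nonneg (by positivity) fun x _ => (hF x).le
  have h3 : ∑ i, e i ≤ N * Fintype.card ι := by
    have h4 : ∑ i, e i ≤ ∑ _i : ι, N := Finset.sum_le_sum fun i _ => he i
    rw [Finset.sum_const, Finset.card_univ, smul_eq_mul, mul_comm] at h4
    exact h4
  have h5 : ‖(p : K)‖ ^ (N * Fintype.card ι) ≤ ‖(p : K)‖ ^ ∑ i, e i :=
    pow_le_pow_of_le_one hp0.le hp1.le h3
  rw [h1, inv_mul_le_iff₀ (by positivity), mul_one]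
  exact h2.trans h5

include hj in
/-- `‖TK N ι e H‖ ≤ 1` for `H` in `CalF`, at every level `N`, `e i ≤ N`. PROOF. For a monomial
`c prod X^(m_i)`, `‖c‖ ≤ 1`: `TK_mono`, `Te_congr` (every factor has norm `≤ 1`), `prod_approx`. For
polynomials by additivity and the ultrametric inequality (`MvPolynomial.eval_eq'`); in general
choose `P` with error `< ‖p‖^(N card ι)` (`‖(prod (-p)^(e i))⁻¹‖ ≤ ‖p‖^(-N card ι)`). -/
theorem TK_int (N : ℕ) (ι : Type) [Fintype ι] (H : (ι → R N) → K) (hH : D.CalF j N ι H)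
    (e : ι → ℕ) (he : ∀ i, e i ≤ N) : ‖D.TK N ι e H‖ ≤ 1 := by
  have hp : ‖(p : K)‖ = ‖(p : L)‖ := by rw [← map_natCast j, hj]
  have hp0 : 0 < ‖(p : K)‖ := by rw [hp]; exact norm_pos_iff.2 D.hp0
  obtain ⟨P, hP, hx⟩ := hH (‖(p : K)‖ ^ (N * Fintype.card ι)) (by positivity)
  rw [z5_sub D N ι e H (fun x => MvPolynomial.eval (fun i => j (D.X N (x i))) P)]
  refine (IsUltrametricDist.norm_add_le_max _ _).trans (max_le ?_ ?_)
  · have h1 : (fun x : ι → R N => MvPolynomial.eval (fun i => j (D.X N (x i))) P) =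
        fun x => ∑ m ∈ P.support, P.coeff m * ∏ i, j (D.X N (x i)) ^ m i := by
      funext x
      rw [MvPolynomial.eval_eq']
    rw [h1, z5_add]
    exact IsUltrametricDist.norm_sum_le_of_forall_le_of_nonneg zero_le_one fun m _ =>
      z5_mono D j hj N ι e he (fun i => m i) _ (hP m)
  · exact z5_small D j hj N ι e he _ hx

end SSF
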