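import Pool.Agent.Lib.SSG.F.Y2
import Pool.Agent.Lib.SSG.F.Y4
import Pool.Agent.Lib.SSG.F.Y5
import Pool.Agent.Lib.SSG.F.Z4
import Pool.Agent.Lib.SSG.F.Z5
import Pool.Agent.Lib.SSG.F.X1B

/-! # SSG/F/Main2 : the theorems of module F for good frames -/

open NumberField

namespace SSG

open SSF

/-- (F) integrality of the functionals `T_e`. PROOF. Unfold `Good`; `Fn_descend`, `TH_eq`,
`TK_int`. -/
theorem F_int_good {F : Type} [Field F] [NumberField F]
    {C : Type} [NormedField C] [IsUltrametricDist C]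
    {p : ℕ} [hp : Fact p.Prime] (h3 : 3 ≤ p)
    (L : LTF F C) (hL : L.Good p) {N : ℕ}
    {ι : Type} [Fintype ι] {T : Finset (𝓞 F)} (hT : Rep p N T) (e : ι → ℕ) (he : ∀ i, e i ≤ N)
    {H : (ι → 𝓞 F) → C} (hH : L.Fn N ι H) : ‖TH p N ι T e H‖ ≤ 1 := by
  obtain ⟨L₀, i1, i2, D, j, hj, hX, hz, hn, hred⟩ := hL
  obtain ⟨H', hH', hC⟩ := Fn_descend D j L hX N ι H hH
  rw [TH_eq D N ι T hT e he H H' hH']
  exact TK_int D j hj N ι H' hC e he

/-- (F) the main theorem for good frames. PROOF. Unfold `Good`: `D`, `j`. `N = n + 1`, `n ≥ 1`.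
`char_descent` gives `χ₀`; `κ = j (rho (n+1) * D.kap n χ₀)`; its norm is `kap_norm` (`‖rho‖ = 1`,
`n - 1 = N - 2`, `Jn p (N-1) = p^n/(p+1)`, `‖j x‖ = ‖x‖`, `j (p : L₀) = p`; the exponents are equal by
`ring`). For `H`: `Fn_descend`, `SH_eq`, `TH_eq` (for `e ∈ piFinset (EN N)` all `e i ≤ N`), `EN_eq`
(`EN N = Eset N`), `SSF.F_main` multiplied by `‖κ‖^card` (`κ ≠ 0`). -/
theorem F_main_good {F : Type} [Field F] [NumberField F]
    {C : Type} [NormedField C] [IsUltrametricDist C]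
    {p : ℕ} [hp : Fact p.Prime] (h3 : 3 ≤ p)
    (L : LTF F C) (hL : L.Good p) {N : ℕ} (hN : 2 ≤ N)
    (χ : DirichletCharacter C (p ^ N)) (hχ : orderOf χ = p ^ (N - 1)) :
    ∃ κ : C, ‖κ‖ ^ (2 * (p - 1) * p ^ (N - 2)) = ‖(p : C)‖ ^ (N * (p - 1) * p ^ (N - 2) + 2 * Jn p (N - 1)) ∧
      ∀ (ι : Type) [Fintype ι] [DecidableEq ι] (T : Finset (𝓞 F)), Rep p N T → ∀ H : (ι → 𝓞 F) → C, L.Fn N ι H →
        ‖SH χ ι T H - κ ^ Fintype.card ι * ∑ e ∈ Fintype.piFinset (fun _ : ι => EN N), TH p N ι T e H‖ <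
          ‖κ‖ ^ Fintype.card ι := by
  obtain ⟨L₀, i1, i2, D, j, hj, hX, hz, hn, hred⟩ := hL
  obtain ⟨n, rfl⟩ : ∃ n, N = n + 1 := ⟨N - 1, by omega⟩
  have hn1 : 1 ≤ n := by omega
  obtain ⟨χ₀, hχ₀, hprim, hpow⟩ := char_descent j (n + 1) hN (D.ζ (n + 1)) (D.ζprim (n + 1)) χ hχ
  have hpow' : χ₀ ^ (p ^ n) = 1 := by simpa using hpow
  obtain ⟨hk0, hkn⟩ := kap_norm D h3 n hn1 χ₀ hprim hpow'
  have hrho : ((rho (n + 1) : ℤ) : C) = 1 ∨ ((rho (n + 1) : ℤ) : C) = -1 := by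
    unfold rho
    rcases neg_one_pow_eq_or ℤ ((n + 1 + 1) / 2) with h | h
    · right; rw [h]; norm_num
    · left; rw [h]; norm_num
  have hrho1 : ‖((rho (n + 1) : ℤ) : C)‖ = 1 := by
    rcases hrho with h | h
    · rw [h]; simp
    · rw [h]; simp
  have hrho2 : ((rho (n + 1) : ℤ) : C) * ((rho (n + 1) : ℤ) : C) = 1 := by
    rcases hrho with h | h
    · rw [h]; ring
    · rw [h]; ring
  have hjk : j (D.kap n χ₀) ≠ 0 := by
    intro h
    apply hk0
    have : ‖D.kap n χ₀‖ = 0 := by rw [← hj, h, norm_zero]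
    exact norm_eq_zero.mp this
  refine ⟨((rho (n + 1) : ℤ) : C) * j (D.kap n χ₀), ?_, ?_⟩
  · rw [norm_mul, hrho1, one_mul, hj]
    have e1 : 2 * (p - 1) * p ^ (n + 1 - 2) = 2 * (p ^ (n - 1) * (p - 1)) := by
      rw [show n + 1 - 2 = n - 1 from by omega]; ring
    have e2 : (n + 1) * (p - 1) * p ^ (n + 1 - 2) + 2 * Jn p (n + 1 - 1) =
        (n + 1) * (p ^ (n - 1) * (p - 1)) + 2 * (p ^ n / (p + 1)) := by
      rw [show n + 1 - 2 = n - 1 from by omega]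
      unfold Jn
      rw [show n + 1 - 1 = n from rfl]
      ring
    rw [e1, e2, hkn]
    congr 1
    rw [← hj, map_natCast]
  · intro ι _ _ T hT H hH
    obtain ⟨H', hH', hC⟩ := Fn_descend D j L hX (n + 1) ι H hH
    obtain ⟨_, _, hmain⟩ := SSF.F_main D j hj h3 n hn1 χ₀ hprim hpow' ι H' hC
    have hE : EN (n + 1) = Eset (n + 1) := EN_eq (n + 1) (by omega)
    have hTH : ∀ e ∈ Fintype.piFinset (fun _ : ι => EN (n + 1)),
        TH p (n + 1) ι T e H = D.TK (n + 1) ι e H' := by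
      intro e he
      rw [Fintype.mem_piFinset] at he
      refine TH_eq D (n + 1) ι T hT e (fun i => ?_) H H' hH'
      have := he i
      unfold EN at this
      rw [Finset.mem_filter, Finset.mem_range] at this
      omega
    rw [Finset.sum_congr rfl hTH, SH_eq D j hn (n + 1) χ χ₀ hχ₀ ι T hT H H' hH', hE]
    set S := D.SK j (n + 1) ι χ₀ H' with hS
    set κ := j (D.kap n χ₀) with hκ
    set r := ((rho (n + 1) : ℤ) : C) with hr
    have hsum : ∑ e ∈ Fintype.piFinset (fun _ : ι => Eset (n + 1)), D.TK (n + 1) ι e H' =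
        ∑ e ∈ @Fintype.piFinset ι (Classical.decEq ι) _ (fun _ => ℕ) (fun _ : ι => Eset (n + 1)),
          D.TK (n + 1) ι e H' := by
      apply Finset.sum_congr _ (fun _ _ => rfl)
      ext e
      simp only [Fintype.mem_piFinset]
    have hκg : κ ^ Fintype.card ι ≠ 0 := pow_ne_zero _ hjk
    rw [hsum]
    set Z := ∑ e ∈ @Fintype.piFinset ι (Classical.decEq ι) _ (fun _ => ℕ) (fun _ : ι => Eset (n + 1)),
          D.TK (n + 1) ι e H' with hZ
    have hmain' : ‖S / κ ^ Fintype.card ι - r ^ Fintype.card ι * Z‖ < 1 := by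
      have h := hmain
      simpa [hZ, hS, hκ, hr] using h
    have key : S - (r * κ) ^ Fintype.card ι * Z =
        κ ^ Fintype.card ι * (S / κ ^ Fintype.card ι - r ^ Fintype.card ι * Z) := by
      rw [mul_sub, mul_div_cancel₀ _ hκg, mul_pow]
      ring
    rw [key, norm_mul, norm_mul, hrho1, one_mul, norm_pow]
    have hpos : 0 < ‖κ‖ ^ Fintype.card ι := pow_pos (norm_pos_iff.mpr hjk) _
    calc ‖κ‖ ^ Fintype.card ι * ‖S / κ ^ Fintype.card ι - r ^ Fintype.card ι * Z‖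
        < ‖κ‖ ^ Fintype.card ι * 1 := by
          exact mul_lt_mul_of_pos_left hmain' hpos
      _ = ‖κ‖ ^ Fintype.card ι := mul_one _

end SSG
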