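import Pool.Agent.Lib.SSG.F.A1

/-! # SSG/F/A2 : power sums of the roots (Newton) -/

open Polynomial

namespace SSF

/-- The power sums of the roots of `P = T ^ q - p T - y`, `q = p ^ 2`, when all `q` roots are in `L`.

PROOF. Put `q = p ^ 2 ≥ 4`. `P = T ^ q - C p * T - C y` is monic of degree `q` and vanishes on the
`q` elements of `s`, so `P = prod over z in s of (T - C z)` (both monic of degree `q`; the product
divides `P`, or `Polynomial.eq_of_degree_sub_lt_of_eval_finset_eq`/`Lagrange`).
For `z` in `s` the polynomial `Q_z = (sum over j < q of T^j z^(q-1-j)) - C p` satisfies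
`(T - C z) Q_z = T^q - z^q - p (T - z) = P` (`P(z) = 0`, `Commute.geom_sum₂_mul`), so `Q_z` is the
product over `s.erase z`. Derivative of the product (`Polynomial.derivative_prod` /
`Finset.derivative_prod`): `P' = sum over z of Q_z`, i.e.
`q T^(q-1) - p = sum_(j<q) T^j (sum_z z^(q-1-j)) - q p`.
Compare coefficients: of `T^0`: `sum z^(q-1) = (q-1) p`; of `T^j`, `0 < j < q-1`:
`sum z^(q-1-j) = 0`; and `sum z^0 = q`. This is the claim for `m < q` (`p * (q - 1) = ..`,
`p * p = q`). For `m = m' + q`: `z^m = z^m' (p z + y)`, so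
`sum z^m = p sum z^(m'+1) + y sum z^m'`, strong induction with `ctm_rec`. -/
theorem newton {L : Type} [Field L] (p : ℕ) (hp : 2 ≤ p) (s : Finset L) (hs : s.card = p ^ 2)
    (y : L) (h : ∀ z ∈ s, z ^ (p ^ 2) - (p : L) * z = y) (m : ℕ) :
    ∑ z ∈ s, z ^ m = (p : L) * (ctm L p m).eval y := by
  classical
  have h4 : 2 * 2 ≤ p ^ 2 := by nlinarith
  obtain ⟨q, hq⟩ : ∃ q, q = p ^ 2 := ⟨_, rfl⟩
  rw [← hq] at h4
  obtain ⟨P, hP⟩ : ∃ P : L[X], P = X ^ q - C (p : L) * X - C y := ⟨_, rfl⟩
  have hdeg : (C (p : L) * X + C y).degree < ((q : ℕ) : WithBot ℕ) := by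
    refine lt_of_le_of_lt (degree_linear_le) ?_
    exact_mod_cast (by omega : 1 < q)
  have hPe : P = X ^ q - (C (p : L) * X + C y) := by rw [hP]; ring
  have hmon : P.Monic := by
    rw [hPe]
    exact (monic_X_pow q).sub_of_left (by rwa [degree_X_pow])
  have hPdeg : P.degree = ((q : ℕ) : WithBot ℕ) := by
    rw [hPe, degree_sub_eq_left_of_degree_lt (by rwa [degree_X_pow]), degree_X_pow]
  have hprod : ∏ z ∈ s, (X - C z) = P := by
    refine eq_of_degree_sub_lt_of_eval_finset_eq s ?_ ?_
    · have h5 : (∏ z ∈ s, (X - C z) : L[X]).degree = ((q : ℕ) : WithBot ℕ) := by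
        rw [degree_prod_of_monic _ _ fun z _ => monic_X_sub_C z,
          Finset.sum_congr rfl fun z _ => degree_X_sub_C z, Finset.sum_const, hs, hq]
        simp
      have h6 := degree_sub_lt_left (h5.trans hPdeg.symm) (monic_prod_of_monic _ _ fun z _ =>
        monic_X_sub_C z).ne_zero (by
          rw [(monic_prod_of_monic _ _ fun z _ => monic_X_sub_C z).leadingCoeff,
            hmon.leadingCoeff])
      rw [h5] at h6
      rw [hs, ← hq]
      exact h6
    · intro z hz
      rw [eval_prod, Finset.prod_eq_zero hz (by rw [eval_sub, eval_X, eval_C, sub_self]), hP]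
      have h5 := h z hz
      rw [← hq] at h5
      rw [eval_sub, eval_sub, eval_pow, eval_mul, eval_X, eval_C, eval_C, h5, sub_self]
  have hQ : ∀ z ∈ s, ∏ a ∈ s.erase z, (X - C a) =
      ∑ j ∈ Finset.range q, X ^ j * C z ^ (q - 1 - j) - C (p : L) := by
    intro z hz
    have h5 : (X - C z) * ∏ a ∈ s.erase z, (X - C a) = P := by
      rw [Finset.mul_prod_erase s (fun a => X - C a) hz, hprod]
    have h6 : (X - C z) * (∑ j ∈ Finset.range q, X ^ j * C z ^ (q - 1 - j) - C (p : L)) = P := by
      rw [mul_sub, (Commute.all _ _).mul_geom_sum₂, hP]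
      have h7 := h z hz
      rw [← hq] at h7
      rw [← h7, C_sub, C_mul, C_pow]
      ring
    exact mul_left_cancel₀ (X_sub_C_ne_zero z) (h5.trans h6.symm)
  have hder : ∑ z ∈ s, (∑ j ∈ Finset.range q, X ^ j * C z ^ (q - 1 - j) - C (p : L)) =
      C (q : L) * X ^ (q - 1) - C (p : L) := by
    have h5 := congrArg derivative hprod
    rw [derivative_prod_finset] at h5
    rw [← Finset.sum_congr rfl fun z hz => hQ z hz]
    have h6 : derivative P = C (q : L) * X ^ (q - 1) - C (p : L) := by
      rw [hP, derivative_sub, derivative_sub, derivative_X_pow, derivative_C_mul, derivative_X,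
        derivative_C, mul_one, sub_zero]
    rw [← h6, ← h5]
    refine Finset.sum_congr rfl fun z _ => ?_
    rw [derivative_X_sub_C, mul_one]
  have hcoef : ∀ j < q, ∑ z ∈ s, z ^ (q - 1 - j) =
      (if j = q - 1 then (q : L) else 0) + (if j = 0 then (q : L) * p - p else 0) := by
    intro j hj
    have h5 := congrArg (fun f : L[X] => f.coeff j) hder
    simp only [finsetSum_coeff, coeff_sub, coeff_C_mul, coeff_X_pow] at h5
    have h6 : ∀ z : L, ∑ i ∈ Finset.range q, (X ^ i * C z ^ (q - 1 - i) : L[X]).coeff j =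
        z ^ (q - 1 - j) := by
      intro z
      rw [Finset.sum_eq_single j]
      · rw [← C_pow, coeff_mul_C, coeff_X_pow, if_pos rfl, one_mul]
      · intro i _ hij
        rw [← C_pow, coeff_mul_C, coeff_X_pow, if_neg (Ne.symm hij), zero_mul]
      · intro h7
        exact absurd (Finset.mem_range.2 hj) h7
    rw [Finset.sum_sub_distrib, Finset.sum_congr rfl fun z _ => h6 z, Finset.sum_const, hs, ← hq,
      nsmul_eq_mul, coeff_C] at h5
    have h7 : ∑ z ∈ s, z ^ (q - 1 - j) =
        (q : L) * (if j = q - 1 then 1 else 0) - (if j = 0 then (p : L) else 0) +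
          (q : L) * (if j = 0 then (p : L) else 0) := by
      linear_combination h5
    rw [h7]
    split_ifs <;> ring
  induction m using Nat.strong_induction_on with
  | _ m ih =>
    by_cases hm : m < q
    · have h5 := hcoef (q - 1 - m) (by omega)
      have h6 : q - 1 - (q - 1 - m) = m := by omega
      rw [h6] at h5
      rw [h5]
      by_cases hm0 : m = 0
      · rw [hm0, ctm_zero, eval_C, if_pos (by omega), if_neg (by omega), hq, Nat.cast_pow]
        ring
      by_cases hm1 : m = q - 1
      · rw [hm1, if_neg (by omega), if_pos (by omega), hq, ctm_q1 p hp, eval_C,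
          Nat.cast_sub (by omega), Nat.cast_pow, Nat.cast_one]
        ring
      · rw [if_neg (by omega), if_neg (by omega), ctm_small p m hm0 (by omega), eval_zero]
        ring
    · obtain ⟨k, rfl⟩ : ∃ k, m = k + p ^ 2 := ⟨m - p ^ 2, by omega⟩
      rw [ctm_rec p hp, eval_add, eval_mul, eval_mul, eval_C, eval_X, mul_add]
      have h5 := ih (k + 1) (by omega)
      have h6 := ih k (by omega)
      have h7 : ∑ z ∈ s, z ^ (k + p ^ 2) = (p : L) * ∑ z ∈ s, z ^ (k + 1) + y * ∑ z ∈ s, z ^ k := by
        rw [Finset.mul_sum, Finset.mul_sum, ← Finset.sum_add_distrib]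
        refine Finset.sum_congr rfl fun z hz => ?_
        have h8 : z ^ (p ^ 2) = y + p * z := by rw [← h z hz]; ring
        rw [pow_add, h8, pow_succ]
        ring
      rw [h7, h5, h6]
      ring

end SSF
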