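import Pool.Agent.Lib.SSG.F.D0

/-! # SSG/F/A1 : the operator `Ct` is linear, recursion of `ctm`, base change. -/

open Polynomial

namespace SSF

variable {S S' : Type} [CommRing S] [CommRing S']

/-- unfold `ctm`. -/
theorem ctm_zero (p : ℕ) : ctm S p 0 = C (p : S) := by
  rw [ctm, if_pos rfl]

/-- unfold `ctm`. -/
theorem ctm_small (p m : ℕ) (h0 : m ≠ 0) (h : m < p ^ 2 - 1) : ctm S p m = 0 := by
  rw [ctm, if_neg h0, if_pos h]

/-- unfold `ctm` (`2 ≤ p`, so `p ^ 2 - 1 ≠ 0`). -/
theorem ctm_q1 (p : ℕ) (hp : 2 ≤ p) : ctm S p (p ^ 2 - 1) = C (((p ^ 2 - 1 : ℕ)) : S) := by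
  have h4 : 2 * 2 ≤ p ^ 2 := by nlinarith
  rw [ctm, if_neg (by omega), if_neg (lt_irrefl _), if_pos rfl]

/-- unfold `ctm` at `m + p ^ 2` (`m + p^2 + 1 - p^2 = m + 1`, `m + p^2 - p^2 = m`). -/
theorem ctm_rec (p : ℕ) (hp : 2 ≤ p) (m : ℕ) :
    ctm S p (m + p ^ 2) = C (p : S) * ctm S p (m + 1) + X * ctm S p m := by
  have h4 : 2 * 2 ≤ p ^ 2 := by nlinarith
  have h1 : m + p ^ 2 + 1 - p ^ 2 = m + 1 := by omega
  have h2 : m + p ^ 2 - p ^ 2 = m := by omega
  rw [ctm, if_neg (by omega), if_neg (by omega), if_neg (by omega), if_pos hp, h1, h2]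

/-- `Polynomial.sum_add_index`. -/
theorem Ct_add (p : ℕ) (f g : S[X]) : Ct p (f + g) = Ct p f + Ct p g := by
  unfold Ct
  refine Polynomial.sum_add_index f g (fun m (a : S) => C a * ctm S p m) (fun i => ?_) (fun i a b => ?_)
  · rw [C_0, zero_mul]
  · rw [C_add, add_mul]

/-- `Polynomial.sum_monomial_index`. -/
theorem Ct_monomial (p m : ℕ) (a : S) : Ct p (monomial m a) = C a * ctm S p m := by
  unfold Ct
  refine Polynomial.sum_monomial_index a (fun m (a : S) => C a * ctm S p m) ?_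
  rw [C_0, zero_mul]

/-- `Polynomial.induction_on'` (sums of monomials), `Ct_add`, `Ct_monomial`, `C_mul_monomial`. -/
theorem Ct_C_mul (p : ℕ) (c : S) (f : S[X]) : Ct p (C c * f) = C c * Ct p f := by
  induction f using Polynomial.induction_on' with
  | add f g hf hg => rw [mul_add, Ct_add, hf, hg, Ct_add, mul_add]
  | monomial n a => rw [C_mul_monomial, Ct_monomial, Ct_monomial, C_mul, mul_assoc]

/-- induction on `s` with `Ct_add` (and `Ct 0 = 0`). -/
theorem Ct_sum (p : ℕ) {ι : Type} (s : Finset ι) (f : ι → S[X]) :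
    Ct p (∑ i ∈ s, f i) = ∑ i ∈ s, Ct p (f i) := by
  classical
  induction s using Finset.induction_on with
  | empty => rw [Finset.sum_empty, Finset.sum_empty]; exact Polynomial.sum_zero_index _
  | insert a s ha ih => rw [Finset.sum_insert ha, Finset.sum_insert ha, Ct_add, ih]

/-- strong induction on `m` with the recursion (`ctm` has three base cases and, for `m ≥ p ^ 2`,
`m = (m - p^2) + p^2`, the case `ctm_rec`; for `p < 2` unfold directly: `ctm` is `C p`, `0`,
`C (p^2-1)` or `0`). -/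
theorem ctm_map (p m : ℕ) (f : S →+* S') : (ctm S p m).map f = ctm S' p m := by
  induction m using Nat.strong_induction_on with
  | _ m ih =>
    by_cases h0 : m = 0
    · rw [h0, ctm_zero, ctm_zero, map_C, map_natCast]
    by_cases h1 : m < p ^ 2 - 1
    · rw [ctm_small p m h0 h1, ctm_small p m h0 h1, Polynomial.map_zero]
    by_cases h2 : m = p ^ 2 - 1
    · rw [ctm, if_neg h0, if_neg h1, if_pos h2, ctm, if_neg h0, if_neg h1, if_pos h2, map_C,
        map_natCast]
    by_cases hp : 2 ≤ p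
    · have h4 : 2 * 2 ≤ p ^ 2 := by nlinarith
      obtain ⟨k, rfl⟩ : ∃ k, m = k + p ^ 2 := ⟨m - p ^ 2, by omega⟩
      rw [ctm_rec p hp, ctm_rec p hp, Polynomial.map_add, Polynomial.map_mul, Polynomial.map_mul,
        map_C, map_X, map_natCast, ih (k + 1) (by omega), ih k (by omega)]
    · rw [ctm, if_neg h0, if_neg h1, if_neg h2, if_neg hp, ctm, if_neg h0, if_neg h1, if_neg h2,
        if_neg hp, Polynomial.map_zero]

/-- from `ctm_map`, `Polynomial.induction_on'`. -/
theorem Ct_map (p : ℕ) (h : S[X]) (f : S →+* S') : (Ct p h).map f = Ct p (h.map f) := by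
  induction h using Polynomial.induction_on' with
  | add f g hf hg => rw [Ct_add, Polynomial.map_add, hf, hg, Polynomial.map_add, Ct_add]
  | monomial n a =>
    rw [Ct_monomial, Polynomial.map_mul, map_C, ctm_map, Polynomial.map_monomial, Ct_monomial]

end SSF
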