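import Pool.Agent.Lib.SSG.F.A2

/-! # SSG/F/A2B : sums of polynomials over the roots -/

open Polynomial

namespace SSF

/-- by linearity of both sides in `h` (`Polynomial.induction_on'`: sums and monomials;
`eval₂ f z (monomial m a) = f a * z ^ m`; `Ct_monomial`, `ctm_map` : `eval₂ f y (ctm S p m) =
(ctm L p m).eval y` through `Polynomial.eval_map`). -/
theorem newton_ev {L S : Type} [Field L] [CommRing S] (f : S →+* L) (p : ℕ) (hp : 2 ≤ p)
    (s : Finset L) (hs : s.card = p ^ 2)
    (y : L) (h : ∀ z ∈ s, z ^ (p ^ 2) - (p : L) * z = y) (g : S[X]) :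
    ∑ z ∈ s, eval₂ f z g = (p : L) * eval₂ f y (Ct p g) := by
  induction g using Polynomial.induction_on' with
  | add g g' hg hg' =>
    rw [Ct_add, eval₂_add, mul_add, ← hg, ← hg', ← Finset.sum_add_distrib]
    exact Finset.sum_congr rfl fun z _ => eval₂_add _ _
  | monomial m a =>
    rw [Ct_monomial, eval₂_mul, eval₂_C, ← eval_map, ctm_map]
    rw [Finset.sum_congr rfl fun z _ => eval₂_monomial f z, ← Finset.mul_sum,
      newton p hp s hs y h m]
    ring

end SSF
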