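import Pool.Agent.Lib.SSG.F.D0

/-!
# SSG/F : definitions, part 2 (no sorry)
-/

open Polynomial
open scoped Classical

namespace SSF

noncomputable section

variable {p : ℕ} {R : ℕ → Type} [∀ N, CommRing (R N)] [∀ N, Fintype (R N)]
  {L : Type} [NormedField L]

section W

variable [IsUltrametricDist L]

/-- the valuation ring of `k` -/
def LTD.W (D : LTD p R L) : Subring L where
  carrier := {x | x ∈ D.k ∧ ‖x‖ ≤ 1}
  mul_mem' := by
    rintro a b ⟨ha, ha'⟩ ⟨hb, hb'⟩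
    exact ⟨D.k.mul_mem ha hb, by rw [norm_mul]; exact mul_le_one₀ ha' (norm_nonneg _) hb'⟩
  one_mem' := ⟨D.k.one_mem, by simp⟩
  add_mem' := by
    rintro a b ⟨ha, ha'⟩ ⟨hb, hb'⟩
    exact ⟨D.k.add_mem ha hb, (IsUltrametricDist.norm_add_le_max a b).trans (max_le ha' hb')⟩
  zero_mem' := ⟨D.k.zero_mem, by simp⟩
  neg_mem' := by
    rintro a ⟨ha, ha'⟩
    exact ⟨D.k.neg_mem ha, by rwa [norm_neg]⟩

/-- the maximal ideal of `W` -/
def LTD.m (D : LTD p R L) : Ideal D.W where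
  carrier := {x | ‖(x : L)‖ < 1}
  add_mem' := by
    intro a b ha hb
    exact (IsUltrametricDist.norm_add_le_max (a : L) (b : L)).trans_lt (max_lt ha hb)
  zero_mem' := by simp
  smul_mem' := by
    intro c x hx
    have hc : ‖(c : L)‖ ≤ 1 := c.2.2
    have hx' : ‖(x : L)‖ < 1 := hx
    change ‖((c * x : D.W) : L)‖ < 1
    rw [Subring.coe_mul, norm_mul]
    calc ‖(c : L)‖ * ‖(x : L)‖ ≤ 1 * ‖(x : L)‖ := by gcongr
      _ < 1 := by rwa [one_mul]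

/-- the residue ring of `W` (a field of characteristic `p`) -/
abbrev LTD.κ (D : LTD p R L) : Type := D.W ⧸ D.m

/-- reduction `W → κ` -/
abbrev LTD.res (D : LTD p R L) : D.W →+* D.κ := Ideal.Quotient.mk D.m

/-- evaluation of a polynomial with coefficients in `W` -/
def LTD.ev (D : LTD p R L) (h : D.W[X]) (x : L) : L := eval₂ D.W.subtype x h

/-- the sum of `h(X x)` over the elements of norm `a` -/
def LTD.T (D : LTD p R L) (N : ℕ) (a : ZMod (p ^ N)) (h : D.W[X]) : L :=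
  ∑ x ∈ Finset.univ.filter (fun x : R N => D.nm N x = a), D.ev h (D.X N x)

/-- `T` as a function on the units modulo `p ^ n` -/
def LTD.Tf (D : LTD p R L) (n : ℕ) (h : D.W[X]) : (ZMod (p ^ n))ˣ → L :=
  fun a => D.T n (a : ZMod (p ^ n)) h

/-- `ζ_n - 1` and its conjugates -/
def LTD.φ (D : LTD p R L) (n : ℕ) : (ZMod (p ^ n))ˣ → L :=
  fun a => D.ζ n ^ (a : ZMod (p ^ n)).val - 1

/-- the ring `W[ζ_n]`, as a ring of functions on the Galois group -/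
def LTD.O (D : LTD p R L) (n : ℕ) : Subring ((ZMod (p ^ n))ˣ → L) where
  carrier := {f | ∃ B : D.W[X], ∀ a, f a = D.ev B (D.ζ n ^ (a : ZMod (p ^ n)).val)}
  mul_mem' := by
    rintro f g ⟨B, hB⟩ ⟨B', hB'⟩
    exact ⟨B * B', fun a => by rw [Pi.mul_apply, hB, hB']; simp [LTD.ev, eval₂_mul]⟩
  one_mem' := ⟨1, fun a => by simp [LTD.ev]⟩
  add_mem' := by
    rintro f g ⟨B, hB⟩ ⟨B', hB'⟩
    exact ⟨B + B', fun a => by rw [Pi.add_apply, hB, hB']; simp [LTD.ev, eval₂_add]⟩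
  zero_mem' := ⟨0, fun a => by simp [LTD.ev]⟩
  neg_mem' := by
    rintro f ⟨B, hB⟩
    exact ⟨-B, fun a => by rw [Pi.neg_apply, hB]; simp [LTD.ev, eval₂_neg]⟩

/-- the functions with the equivariance of elements of `k(ζ_n)` -/
def LTD.Eqv (D : LTD p R L) (n : ℕ) (f : (ZMod (p ^ n))ˣ → L) : Prop :=
  ∀ σ ∈ D.G, ∀ c : (ZMod (p ^ n))ˣ, σ (D.ζ n) = D.ζ n ^ (c : ZMod (p ^ n)).val →
    ∀ a, σ (f a) = f (c * a)

/-- `w` expresses `ζ_N` by the coordinate -/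
def LTD.IsW (D : LTD p R L) (N : ℕ) (w : D.W[X]) : Prop :=
  w.natDegree < p ^ (2 * (N - 1)) * (p ^ 2 - 1) ∧
    ∀ x : R N, IsUnit x → D.ev w (D.X N x) = D.ζ N ^ (D.nm N x).val

end W

/-- the Gauss sum -/
def LTD.tau [Fact p.Prime] (D : LTD p R L) (N : ℕ) (χ : DirichletCharacter L (p ^ N)) : L :=
  ∑ a : ZMod (p ^ N), χ a * D.ζ N ^ a.val

/-- the functional `f ↦ tau⁻¹ * sum of χ(a) ζ_(n+1)^(a i) f(a mod p^n)` -/
def LTD.ell [Fact p.Prime] (D : LTD p R L) (n : ℕ) (χ : DirichletCharacter L (p ^ (n + 1)))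
    (i : ℕ) (f : (ZMod (p ^ n))ˣ → L) : L :=
  (D.tau (n + 1) χ)⁻¹ * ∑ a : (ZMod (p ^ (n + 1)))ˣ,
    χ (a : ZMod (p ^ (n + 1))) * D.ζ (n + 1) ^ ((a : ZMod (p ^ (n + 1))).val * i) *
      f (ZMod.unitsMap (pow_dvd_pow p (Nat.le_succ n)) a)

/-- `χ⁻¹(1 + p) - 1` -/
def LTD.eta [Fact p.Prime] (_D : LTD p R L) (N : ℕ) (χ : DirichletCharacter L (p ^ N)) : L :=
  χ⁻¹ (1 + (p : ZMod (p ^ N))) - 1

/-- the sum over the whole tower level with a character -/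
def LTD.S [IsUltrametricDist L] (D : LTD p R L) (N : ℕ) (χ : DirichletCharacter L (p ^ N))
    (h : D.W[X]) : L :=
  ∑ x : R N, χ (D.nm N x) * D.ev h (D.X N x)

end

end SSF
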