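import Pool.Agent.Lib.SSG.F.A1
import Pool.Agent.Lib.SSG.F.D1

/-! # SSG/F/A4 : `Ct` modulo `p` -/

open Polynomial

namespace SSF

/-- strong induction on `m`: `m = 0`, `0 < m < q-1`: `ctm = 0` as `(p : S) = 0` (`m % q = m ≠ q-1`);
`m = q - 1`: `ctm = C (q - 1) = - 1` as `q = p ^ 2 = 0` in `S`; `m = m' + q`: `ctm = X * ctm m'`,
`m % q = m' % q`, `m / q = m' / q + 1`. -/
theorem ctm_mod {S : Type} [CommRing S] (p : ℕ) (hp : 2 ≤ p) (h0 : (p : S) = 0) (m : ℕ) :
    ctm S p m = if m % p ^ 2 = p ^ 2 - 1 then - X ^ (m / p ^ 2) else 0 := by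
  have h4 : 2 * 2 ≤ p ^ 2 := by nlinarith
  induction m using Nat.strong_induction_on with
  | _ m ih =>
    by_cases hm0 : m = 0
    · subst hm0
      rw [ctm_zero, h0, C_0, Nat.zero_mod, if_neg (by omega)]
    by_cases h1 : m < p ^ 2 - 1
    · rw [ctm_small p m hm0 h1, Nat.mod_eq_of_lt (by omega), if_neg (by omega)]
    by_cases h2 : m = p ^ 2 - 1
    · rw [h2, ctm_q1 p hp, Nat.mod_eq_of_lt (by omega), if_pos rfl, Nat.div_eq_of_lt (by omega),
        pow_zero, Nat.cast_sub (by omega), Nat.cast_pow, h0, Nat.cast_one]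
      simp
    · obtain ⟨k, rfl⟩ : ∃ k, m = k + p ^ 2 := ⟨m - p ^ 2, by omega⟩
      rw [ctm_rec p hp, h0, C_0, zero_mul, zero_add, ih k (by omega), Nat.add_mod_right,
        Nat.add_div_right k (by omega)]
      split_ifs
      · rw [pow_succ]
        ring
      · rw [mul_zero]

/-- linearity (`Polynomial.induction_on'`): for `h = monomial m a` both sides are `-a` if
`m = q k + (q - 1)` and `0` otherwise (`ctm_mod`). -/
theorem Ct_coeff_mod {S : Type} [CommRing S] (p : ℕ) (hp : 2 ≤ p) (h0 : (p : S) = 0) (h : S[X])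
    (k : ℕ) : (Ct p h).coeff k = - h.coeff (p ^ 2 * k + (p ^ 2 - 1)) := by
  have h4 : 2 * 2 ≤ p ^ 2 := by nlinarith
  induction h using Polynomial.induction_on' with
  | add f g hf hg => rw [Ct_add, coeff_add, hf, hg, coeff_add]; ring
  | monomial m a =>
    rw [Ct_monomial, ctm_mod p hp h0, coeff_C_mul, coeff_monomial]
    by_cases h1 : m = p ^ 2 * k + (p ^ 2 - 1)
    · have h2 : m % p ^ 2 = p ^ 2 - 1 := by
        rw [h1, Nat.mul_add_mod, Nat.mod_eq_of_lt (by omega)]
      have h3 : m / p ^ 2 = k := by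
        rw [h1, Nat.mul_add_div (by omega), Nat.div_eq_of_lt (by omega), add_zero]
      rw [if_pos h2, if_pos h1, h3, coeff_neg, coeff_X_pow, if_pos rfl]
      ring
    · rw [if_neg h1]
      split_ifs with h2
      · have h3 : k ≠ m / p ^ 2 := by
          intro h3
          apply h1
          rw [h3, ← h2, Nat.div_add_mod]
        rw [coeff_neg, coeff_X_pow, if_neg h3]
        ring
      · rw [coeff_zero]
        ring

/-- induction on `e` generalizing the coefficient: for all `k`,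
`((Ct p)^[e] h).coeff k = (-1)^e h.coeff (q^e k + (q^e - 1))`; take `k = 0`. -/
theorem Ct_iter_mod {S : Type} [CommRing S] (p : ℕ) (hp : 2 ≤ p) (h0 : (p : S) = 0) (h : S[X])
    (e : ℕ) : ((Ct p)^[e] h).coeff 0 = (-1) ^ e * h.coeff (p ^ (2 * e) - 1) := by
  have h4 : 2 * 2 ≤ p ^ 2 := by nlinarith
  have key : ∀ (e : ℕ) (h : S[X]) (k : ℕ), ((Ct p)^[e] h).coeff k =
      (-1) ^ e * h.coeff (p ^ (2 * e) * k + (p ^ (2 * e) - 1)) := by
    intro e
    induction e with
    | zero => intro h k; simp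
    | succ e ih =>
      intro h k
      rw [Function.iterate_succ_apply, ih, Ct_coeff_mod p hp h0]
      have h5 : 0 < p ^ (2 * e) := by positivity
      have h6 : p ^ 2 * (p ^ (2 * e) * k + (p ^ (2 * e) - 1)) + (p ^ 2 - 1) =
          p ^ (2 * (e + 1)) * k + (p ^ (2 * (e + 1)) - 1) := by
        have h7 : p ^ (2 * (e + 1)) = p ^ 2 * p ^ (2 * e) := by rw [mul_add, pow_add, mul_one, mul_comm]
        rw [h7]
        obtain ⟨a, ha⟩ : ∃ a, p ^ (2 * e) = a + 1 := ⟨p ^ (2 * e) - 1, by omega⟩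
        obtain ⟨b, hb⟩ : ∃ b, p ^ 2 = b + 1 := ⟨p ^ 2 - 1, by omega⟩
        rw [ha, hb, Nat.add_sub_cancel, Nat.add_sub_cancel]
        have h8 : (b + 1) * (a + 1) - 1 = (b + 1) * a + b := by
          have : (b + 1) * (a + 1) = (b + 1) * a + b + 1 := by ring
          omega
        rw [h8]
        ring
      rw [h6, pow_succ]
      ring
  rw [key, mul_zero, zero_add]

end SSF
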