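import Pool.Agent.Lib.SSG.F.A4

/-! # SSG/F/A4B : `Ct` modulo the maximal ideal -/

open Polynomial

namespace SSF

variable {p : ℕ} {R : ℕ → Type} [∀ N, CommRing (R N)] [∀ N, Fintype (R N)]
  {L : Type} [NormedField L] [IsUltrametricDist L] (D : LTD p R L)

/-- `Ideal.Quotient.eq_zero_iff_mem` and the definition of `D.m` (`rfl`). -/
theorem res_eq_zero_iff (x : D.W) : D.res x = 0 ↔ ‖(x : L)‖ < 1 := by
  rw [Ideal.Quotient.eq_zero_iff_mem]
  rfl

/-- `‖(p : L)‖ < 1` (`D.hp1`), `res_eq_zero_iff`. -/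
theorem kappa_p : ((p : ℕ) : D.κ) = 0 := by
  rw [← map_natCast D.res p, res_eq_zero_iff]
  exact D.hp1

/-- `Ct_map` with `f = D.res`, `coeff_map`, `Ct_coeff_mod` for `S = D.κ`. -/
theorem res_Ct (hp : 2 ≤ p) (h : D.W[X]) (k : ℕ) :
    D.res ((Ct p h).coeff k) = - D.res (h.coeff (p ^ 2 * k + (p ^ 2 - 1))) := by
  rw [← coeff_map, Ct_map, Ct_coeff_mod p hp (kappa_p D), coeff_map]

/-- the same with `Ct_iter_mod` (`Ct_map` iterated, `Function.iterate_succ`). -/
theorem res_Ct_iter (hp : 2 ≤ p) (h : D.W[X]) (e : ℕ) :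
    D.res (((Ct p)^[e] h).coeff 0) = (-1) ^ e * D.res (h.coeff (p ^ (2 * e) - 1)) := by
  have key : ∀ (e : ℕ) (h : D.W[X]), ((Ct p)^[e] h).map D.res = (Ct p)^[e] (h.map D.res) := by
    intro e
    induction e with
    | zero => intro h; rfl
    | succ e ih =>
      intro h
      rw [Function.iterate_succ_apply, ih, Ct_map, Function.iterate_succ_apply]
  rw [← coeff_map, key, Ct_iter_mod p hp (kappa_p D), coeff_map]

end SSF
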