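import Pool.Agent.Lib.SSG.F.D1

/-! # SSG/F/B1 : units and cardinalities of the tower. -/

namespace SSF

theorem b1_zmod {p : ℕ} [Fact p.Prime] (N : ℕ) (hN : 1 ≤ N) (a : ZMod (p ^ (N + 1))) :
    IsUnit (ZMod.castHom (pow_dvd_pow p (Nat.le_succ N)) (ZMod (p ^ N)) a) ↔ IsUnit a := by
  have hp : p.Prime := Fact.out
  have : NeZero (p ^ (N + 1)) := ⟨pow_ne_zero _ hp.ne_zero⟩
  have h1 : a = ((a.val : ℕ) : ZMod (p ^ (N + 1))) := (ZMod.natCast_zmod_val a).symm
  rw [h1, map_natCast, ZMod.isUnit_iff_coprime, ZMod.isUnit_iff_coprime,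
    Nat.coprime_pow_right_iff (by omega), Nat.coprime_pow_right_iff (by omega)]

variable {p : ℕ} {R : ℕ → Type} [∀ N, CommRing (R N)] [∀ N, Fintype (R N)]
  {L : Type} [NormedField L] (D : LTD p R L)

include D

/-- `nm N` is a monoid homomorphism; converse `D.nmu`. -/
theorem isUnit_iff (N : ℕ) (x : R N) : IsUnit x ↔ IsUnit (D.nm N x) :=
  ⟨fun h => h.map (D.nm N), D.nmu N x⟩

/-- `isUnit_iff`, `D.nmred`, and: for `N ≥ 1` an element of `ZMod (p ^ (N+1))` is a unit iff its
image in `ZMod (p ^ N)` is one (write it as a natural number; `ZMod.isUnit_iff_coprime`,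
`Nat.Coprime.pow_right`: both mean coprime to `p`). -/
theorem isUnit_red [Fact p.Prime] (N : ℕ) (hN : 1 ≤ N) (x : R (N + 1)) :
    IsUnit (D.red N x) ↔ IsUnit x := by
  rw [isUnit_iff D N, isUnit_iff D (N + 1), ← D.nmred, b1_zmod N hN]

/-- every fibre of `red` has `p ^ 2 ≠ 0` elements (`D.fib`). -/
theorem red_surj [Fact p.Prime] (N : ℕ) : Function.Surjective (D.red N) := by
  have hp : p.Prime := Fact.out
  intro y
  have h := D.fib N y
  by_contra hne
  push Not at hne
  have : IsEmpty {x : R (N + 1) // D.red N x = y} := ⟨fun x => hne x.1 x.2⟩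
  rw [Nat.card_of_isEmpty] at h
  exact (pow_ne_zero 2 hp.ne_zero) h.symm

/-- cardinality of a set over a subset -/
theorem b1_card (N : ℕ) (P : R N → Prop) :
    Nat.card {x : R (N + 1) // P (D.red N x)} = Nat.card {y : R N // P y} * p ^ 2 := by
  classical
  have e : {x : R (N + 1) // P (D.red N x)} ≃
      Σ y : {y : R N // P y}, {x : R (N + 1) // D.red N x = y.1} :=
    { toFun := fun x => ⟨⟨D.red N x.1, x.2⟩, ⟨x.1, rfl⟩⟩
      invFun := fun s => ⟨s.2.1, by rw [s.2.2]; exact s.1.2⟩
      left_inv := fun x => rfl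
      right_inv := by
        rintro ⟨⟨y, hy⟩, ⟨x, hx⟩⟩
        obtain rfl : D.red N x = y := hx
        rfl }
  rw [Nat.card_congr e, Nat.card_sigma]
  simp only [D.fib]
  rw [Finset.sum_const, Finset.card_univ, smul_eq_mul, Nat.card_eq_fintype_card]

/-- induction on `N`: `D.card0`; `card (R (N+1))` = sum over `y : R N` of the cardinality of the
fibre (`Fintype.card_congr (Equiv.sigmaFiberEquiv _).symm`, `D.fib`). -/
theorem card_R (N : ℕ) : Nat.card (R N) = p ^ (2 * N) := by
  induction N with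
  | zero => rw [D.card0]; simp
  | succ N ih =>
    have h := b1_card D N (fun _ => True)
    have e1 : Nat.card {x : R (N + 1) // True} = Nat.card (R (N + 1)) :=
      Nat.card_congr (Equiv.subtypeUnivEquiv fun _ => trivial)
    have e2 : Nat.card {x : R N // True} = Nat.card (R N) :=
      Nat.card_congr (Equiv.subtypeUnivEquiv fun _ => trivial)
    rw [e1, e2, ih] at h
    rw [h, ← pow_add]
    congr 1

/-- induction on `N`, start `D.card1`; the units of `R (N+2)` are the elements over the units of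
`R (N+1)` (`isUnit_red`), and every fibre has `p ^ 2` elements. -/
theorem card_units [Fact p.Prime] (N : ℕ) :
    Nat.card {x : R (N + 1) // IsUnit x} = p ^ (2 * N) * (p ^ 2 - 1) := by
  induction N with
  | zero => rw [D.card1]; simp
  | succ N ih =>
    have h := b1_card D (N + 1) (fun y => IsUnit y)
    have e1 : Nat.card {x : R (N + 1 + 1) // IsUnit (D.red (N + 1) x)} =
        Nat.card {x : R (N + 1 + 1) // IsUnit x} :=
      Nat.card_congr (Equiv.subtypeEquivRight fun x => isUnit_red D (N + 1) (by omega) x)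
    rw [e1, ih] at h
    rw [h, show 2 * (N + 1) = 2 * N + 2 by ring, pow_add]
    ring

/-- `0` is not a unit of `R (N+1)`: `card_R` gives more than one element. -/
theorem not_isUnit_zero [Fact p.Prime] (N : ℕ) : ¬ IsUnit (0 : R (N + 1)) := by
  have hp : p.Prime := Fact.out
  intro h
  have : Subsingleton (R (N + 1)) := isUnit_zero_iff.1 h |> fun h0 => subsingleton_of_zero_eq_one h0
  have h1 := card_R D (N + 1)
  have h2 : Nat.card (R (N + 1)) = 1 := Nat.card_unique
  rw [h2] at h1
  have h3 : 1 < p ^ (2 * (N + 1)) := Nat.one_lt_pow (by omega) hp.one_lt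
  omega

end SSF
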