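import Pool.Agent.Lib.SSG.F.A2B
import Pool.Agent.Lib.SSG.F.B1

/-! # SSG/F/B2 : sums over the fibres of `red` and total sums -/

open Polynomial
open scoped Classical

namespace SSF

variable {p : ℕ} {R : ℕ → Type} [∀ N, CommRing (R N)] [∀ N, Fintype (R N)]
  {L : Type} [NormedField L] [IsUltrametricDist L] (D : LTD p R L)

/-- apply `newton_ev` with `f = D.W.subtype`, `s` = image of the fibre under `D.X (N+1)` (injective,
so `p ^ 2` elements by `D.fib`), `y = D.X N y`, `D.Xg`. -/
theorem fib_sum (hp : 2 ≤ p) (N : ℕ) (y : R N) (h : D.W[X]) :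
    ∑ x ∈ Finset.univ.filter (fun x : R (N + 1) => D.red N x = y), D.ev h (D.X (N + 1) x) =
      (p : L) * D.ev (Ct p h) (D.X N y) := by
  have hinj : Set.InjOn (D.X (N + 1))
      (Finset.univ.filter (fun x : R (N + 1) => D.red N x = y) : Finset (R (N + 1))) :=
    (D.Xinj (N + 1)).injOn
  have hcard : (Finset.univ.filter (fun x : R (N + 1) => D.red N x = y)).card = p ^ 2 := by
    rw [← D.fib N y, Nat.card_eq_fintype_card, Fintype.card_subtype]
  have h1 := newton_ev D.W.subtype p hp
    ((Finset.univ.filter (fun x : R (N + 1) => D.red N x = y)).image (D.X (N + 1)))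
    (by rw [Finset.card_image_of_injOn hinj, hcard]) (D.X N y) (by
      intro z hz
      obtain ⟨x, hx, rfl⟩ := Finset.mem_image.1 hz
      rw [D.Xg, (Finset.mem_filter.1 hx).2]) h
  rw [Finset.sum_image hinj] at h1
  exact h1

/-- induction on `N` generalizing `h`: `N = 0`: `R 0` has one element, `X 0 0 = 0`,
`ev h 0 = h.coeff 0`. `N + 1`: `Finset.sum_fiberwise` over `red N`, `fib_sum`,
`Function.iterate_succ_apply`. -/
theorem total_sum (hp : 2 ≤ p) (N : ℕ) (h : D.W[X]) :
    ∑ x : R N, D.ev h (D.X N x) = (p : L) ^ N * (((Ct p)^[N] h).coeff 0 : L) := by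
  induction N generalizing h with
  | zero =>
    have h0 : Subsingleton (R 0) := (Nat.card_eq_one_iff_unique.1 D.card0).1
    rw [Fintype.sum_eq_single (0 : R 0) fun x hx => absurd (Subsingleton.elim x 0) hx, D.X0,
      pow_zero, one_mul, Function.iterate_zero_apply]
    unfold LTD.ev
    rw [eval₂_at_zero]
    rfl
  | succ N ih =>
    rw [← Finset.sum_fiberwise (s := Finset.univ) (g := D.red N)]
    simp only [fib_sum D hp]
    rw [← Finset.mul_sum, ih, Function.iterate_succ_apply, pow_succ]
    ring

end SSF
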