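import Pool.Agent.Lib.SSG.F.B2

/-! # SSG/F/B2B : the sub-levels -/

open Polynomial
open scoped Classical

namespace SSF

variable {p : ℕ} {R : ℕ → Type} [∀ N, CommRing (R N)] [∀ N, Fintype (R N)]
  {L : Type} [NormedField L] [IsUltrametricDist L] (D : LTD p R L)

/-- for `e ≤ N` and `y : R N` there is `z : R e` with `X N ((-p)^(N-e) y) = X e z`, and every `z`
occurs. PROOF: induction on `N - e` (write `N = e + d`, induction on `d`):
`X (N+1) ((-p)^(d+1) y) = X N (red ((-p)^d y)) = X N ((-p)^d red y)` by `D.Xpi`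
(`map_mul, map_pow, map_neg, map_natCast`), `red_surj`. -/
theorem exists_level [Fact p.Prime] (e d : ℕ) :
    (∀ y : R (e + d), ∃ z : R e, D.X (e + d) ((-(p : R (e + d))) ^ d * y) = D.X e z) ∧
      (∀ z : R e, ∃ y : R (e + d), D.X (e + d) ((-(p : R (e + d))) ^ d * y) = D.X e z) := by
  induction d with
  | zero =>
    refine ⟨fun y => ⟨y, ?_⟩, fun z => ⟨z, ?_⟩⟩
    · change D.X e ((-(p : R e)) ^ 0 * y) = D.X e y
      rw [pow_zero, one_mul]
    · change D.X e ((-(p : R e)) ^ 0 * z) = D.X e z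
      rw [pow_zero, one_mul]
  | succ d ih =>
    have key : ∀ y : R (e + d + 1), D.X (e + d + 1) ((-(p : R (e + d + 1))) ^ (d + 1) * y) =
        D.X (e + d) ((-(p : R (e + d))) ^ d * D.red (e + d) y) := by
      intro y
      rw [pow_succ', mul_assoc, D.Xpi, map_mul, map_pow, map_neg, map_natCast]
    refine ⟨fun y => ?_, fun z => ?_⟩
    · obtain ⟨z, hz⟩ := ih.1 (D.red (e + d) y)
      exact ⟨z, (key y).trans hz⟩
    · obtain ⟨y, hy⟩ := ih.2 z
      obtain ⟨y', rfl⟩ := red_surj D (e + d) y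
      exact ⟨y', (key y').trans hy⟩

end SSF
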