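import Pool.Agent.Lib.SSG.F.B2

/-! # SSG/F/B3 : orthogonality -/

open Polynomial
open scoped Classical

namespace SSF

variable {p : ℕ} [Fact p.Prime] {R : ℕ → Type} [∀ N, CommRing (R N)] [∀ N, Fintype (R N)]
  {L : Type} [NormedField L] [IsUltrametricDist L] (D : LTD p R L)

/-- Orthogonality: for `a, c` in `ZMod (p ^ (N+1))` with the same image in `ZMod (p ^ N)`,
`sum over b < p of ζ^(a b) ζ^(c (p^(N+1) - b))` is `p` if `a = c` and `0` otherwise
(`ζ = ζ_(N+1)`, exponents `a.val`, `c.val`). PROOF: `ζ^(c (p^(N+1) - b)) = ζ^(-c b)` (as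
`ζ^(p^(N+1)) = 1`, `b ≤ p ≤ p^(N+1)`), so the sum is `sum_b z^b`, `z = ζ^(a.val) / ζ^(c.val)`.
`z^p = 1` because `p ^ N` divides `a.val - c.val`; if `a ≠ c` then `z ≠ 1` (primitive root,
`IsPrimitiveRoot.zpow_eq_one_iff_dvd` or `pow_inj`), and `(z - 1) sum z^b = z^p - 1 = 0`. -/
theorem ortho (N : ℕ) (a c : ZMod (p ^ (N + 1)))
    (h : ZMod.castHom (pow_dvd_pow p (Nat.le_succ N)) (ZMod (p ^ N)) a =
      ZMod.castHom (pow_dvd_pow p (Nat.le_succ N)) (ZMod (p ^ N)) c) :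
    ∑ b ∈ Finset.range p, D.ζ (N + 1) ^ (a.val * b) * D.ζ (N + 1) ^ (c.val * (p ^ (N + 1) - b)) =
      if a = c then (p : L) else 0 := by
  have hP : 0 < p ^ (N + 1) := pow_pos (Fact.out : p.Prime).pos _
  have : NeZero (p ^ (N + 1)) := ⟨hP.ne'⟩
  have hz := D.ζprim (N + 1)
  have h1 : D.ζ (N + 1) ^ (p ^ (N + 1)) = 1 := hz.pow_eq_one
  have hz0 : D.ζ (N + 1) ≠ 0 := hz.ne_zero hP.ne'
  have hterm : ∀ b ∈ Finset.range p, D.ζ (N + 1) ^ (a.val * b) * D.ζ (N + 1) ^ (c.val * (p ^ (N + 1) - b)) =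
      (D.ζ (N + 1) ^ a.val * (D.ζ (N + 1) ^ c.val)⁻¹) ^ b := by
    intro b hb
    have hb1 : b ≤ p ^ (N + 1) := by
      have h2 := Finset.mem_range.1 hb
      have h3 : p ≤ p ^ (N + 1) := Nat.le_self_pow (by omega) p
      omega
    have h4 : D.ζ (N + 1) ^ (c.val * (p ^ (N + 1) - b)) * D.ζ (N + 1) ^ (c.val * b) = 1 := by
      rw [← pow_add, ← mul_add, Nat.sub_add_cancel hb1, mul_comm, pow_mul, h1, one_pow]
    have h5 : D.ζ (N + 1) ^ (c.val * (p ^ (N + 1) - b)) = (D.ζ (N + 1) ^ (c.val * b))⁻¹ :=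
      eq_inv_of_mul_eq_one_left h4
    rw [h5, mul_pow, inv_pow, ← pow_mul, ← pow_mul]
  rw [Finset.sum_congr rfl hterm]
  have hc0 : D.ζ (N + 1) ^ c.val ≠ 0 := pow_ne_zero _ hz0
  split_ifs with hac
  · rw [hac, mul_inv_cancel₀ hc0]
    simp
  · set z := D.ζ (N + 1) ^ a.val * (D.ζ (N + 1) ^ c.val)⁻¹ with hzdef
    have hz1 : z ≠ 1 := by
      intro h6
      rw [hzdef, mul_inv_eq_one₀ hc0] at h6
      exact hac (ZMod.val_injective _ (hz.pow_inj (ZMod.val_lt a) (ZMod.val_lt c) h6))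
    have hzp : z ^ p = 1 := by
      have h7 : a.val ≡ c.val [MOD p ^ N] := by
        rw [← ZMod.natCast_eq_natCast_iff]
        rw [ZMod.castHom_apply, ZMod.castHom_apply] at h
        rw [ZMod.natCast_val, ZMod.natCast_val]
        exact h
      have h8 : (a.val * p) % (p ^ N * p) = (c.val * p) % (p ^ N * p) := h7.mul_right' p
      rw [← pow_succ] at h8
      have h9 : D.ζ (N + 1) ^ (a.val * p) = D.ζ (N + 1) ^ (c.val * p) := by
        rw [pow_eq_pow_mod (a.val * p) h1, pow_eq_pow_mod (c.val * p) h1, h8]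
      rw [hzdef, mul_pow, inv_pow, ← pow_mul, ← pow_mul, h9, mul_inv_cancel₀ (pow_ne_zero _ hz0)]
    have h10 := geom_sum_mul z p
    rw [hzp, sub_self] at h10
    rcases mul_eq_zero.1 h10 with h11 | h11
    · exact h11
    · exact absurd (sub_eq_zero.1 h11) hz1

end SSF
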