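import Pool.Agent.Lib.SSG.F.B3

/-! # SSG/F/B3B : the recursion for `T` -/

open Polynomial
open scoped Classical

namespace SSF

variable {p : ℕ} [Fact p.Prime] {R : ℕ → Type} [∀ N, CommRing (R N)] [∀ N, Fintype (R N)]
  {L : Type} [NormedField L] [IsUltrametricDist L] (D : LTD p R L)

theorem b3b_ev (w h : D.W[X]) (k : ℕ) (x : L) :
    D.ev (w ^ k * h) x = D.ev w x ^ k * D.ev h x := by
  simp only [LTD.ev, eval₂_mul, eval₂_pow]

/-- The recursion. PROOF. Let `a'` be the image of `a`. For `x : R (N+1)` with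
`nm N (red x) = a'` (a unit, `isUnit_iff`, `isUnit_red`: `x` is a unit, as `N ≥ 1`) one has
`ev (w^(p^(N+1)-b) h) (X x) = ζ^((nm x).val (p^(N+1)-b)) ev h (X x)`, so by `ortho`
`sum_b ζ^(a b) sum over x with nm (red x) = a' of ev (w^(p^(N+1)-b) h) (X x) = p T (N+1) a h`.
The inner sum is, fibre by fibre (`D.nmred`, `Finset.sum_fiberwise`-type rearrangement: sum over
`x' : R N` with `nm x' = a'` of the sum over `x` with `red x = x'`, `fib_sum`),
`p T N a' (Ct (w^(p^(N+1)-b) h))`. Divide by `p ≠ 0` (`D.hp0`). -/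
theorem T_rec (N : ℕ) (hN : 1 ≤ N) (w : D.W[X]) (hw : D.IsW (N + 1) w)
    (a : (ZMod (p ^ (N + 1)))ˣ) (h : D.W[X]) :
    D.T (N + 1) (a : ZMod (p ^ (N + 1))) h =
      ∑ b ∈ Finset.range p, D.ζ (N + 1) ^ ((a : ZMod (p ^ (N + 1))).val * b) *
        D.T N (ZMod.castHom (pow_dvd_pow p (Nat.le_succ N)) (ZMod (p ^ N))
          (a : ZMod (p ^ (N + 1)))) (Ct p (w ^ (p ^ (N + 1) - b) * h)) := by
  have hp2 : 2 ≤ p := (Fact.out : p.Prime).two_le
  apply mul_left_cancel₀ D.hp0
  set a' : ZMod (p ^ N) := ZMod.castHom (pow_dvd_pow p (Nat.le_succ N)) (ZMod (p ^ N))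
          (a : ZMod (p ^ (N + 1))) with ha'
  have ha'u : IsUnit a' := a.isUnit.map _
  -- the set of x
  set A : Finset (R (N + 1)) := Finset.univ.filter (fun x => D.nm N (D.red N x) = a') with hA
  have key : ∀ g : D.W[X], (p : L) * D.T N a' (Ct p g) = ∑ x ∈ A, D.ev g (D.X (N + 1) x) := by
    intro g
    unfold LTD.T
    rw [Finset.mul_sum]
    rw [← Finset.sum_fiberwise_of_maps_to (s := A)
      (t := Finset.univ.filter (fun x : R N => D.nm N x = a')) (g := fun x => D.red N x)]
    · refine Finset.sum_congr rfl fun y hy => ?_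
      rw [← fib_sum D hp2 N y g]
      refine Finset.sum_congr ?_ fun _ _ => rfl
      ext x
      simp only [Finset.mem_filter, Finset.mem_univ, true_and, hA] at hy ⊢
      constructor
      · intro hx
        exact ⟨by rw [hx]; exact hy, hx⟩
      · intro hx
        exact hx.2
    · intro x hx
      simp only [Finset.mem_filter, Finset.mem_univ, true_and, hA] at hx ⊢
      exact hx
  have hxu : ∀ x ∈ A, IsUnit x := by
    intro x hx
    simp only [Finset.mem_filter, Finset.mem_univ, true_and, hA] at hx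
    rw [← isUnit_red D N hN, isUnit_iff D, hx]
    exact ha'u
  have h1 : (p : L) * ∑ b ∈ Finset.range p, D.ζ (N + 1) ^ ((a : ZMod (p ^ (N + 1))).val * b) *
        D.T N a' (Ct p (w ^ (p ^ (N + 1) - b) * h)) =
      ∑ x ∈ A, D.ev h (D.X (N + 1) x) * (if (a : ZMod (p ^ (N + 1))) = D.nm (N + 1) x then (p : L)
        else 0) := by
    calc (p : L) * ∑ b ∈ Finset.range p, D.ζ (N + 1) ^ ((a : ZMod (p ^ (N + 1))).val * b) *
        D.T N a' (Ct p (w ^ (p ^ (N + 1) - b) * h))
        = ∑ b ∈ Finset.range p, D.ζ (N + 1) ^ ((a : ZMod (p ^ (N + 1))).val * b) *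
          ∑ x ∈ A, D.ev (w ^ (p ^ (N + 1) - b) * h) (D.X (N + 1) x) := by
          rw [Finset.mul_sum]
          refine Finset.sum_congr rfl fun b _ => ?_
          rw [← key]
          ring
      _ = ∑ x ∈ A, ∑ b ∈ Finset.range p, D.ζ (N + 1) ^ ((a : ZMod (p ^ (N + 1))).val * b) *
          D.ev (w ^ (p ^ (N + 1) - b) * h) (D.X (N + 1) x) := by
          rw [Finset.sum_comm]
          refine Finset.sum_congr rfl fun b _ => ?_
          rw [Finset.mul_sum]
      _ = _ := by
          refine Finset.sum_congr rfl fun x hx => ?_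
          rw [← ortho D N (a : ZMod (p ^ (N + 1))) (D.nm (N + 1) x)]
          · rw [Finset.mul_sum]
            refine Finset.sum_congr rfl fun b _ => ?_
            rw [b3b_ev, hw.2 x (hxu x hx), ← pow_mul]
            ring
          · rw [D.nmred]
            simp only [Finset.mem_filter, Finset.mem_univ, true_and, hA] at hx
            rw [hx]
  rw [h1]
  unfold LTD.T
  rw [Finset.mul_sum]
  rw [Finset.sum_filter]
  have h2 : ∀ x ∈ A, D.ev h (D.X (N + 1) x) * (if (a : ZMod (p ^ (N + 1))) = D.nm (N + 1) x then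
      (p : L) else 0) = if D.nm (N + 1) x = (a : ZMod (p ^ (N + 1))) then
        (p : L) * D.ev h (D.X (N + 1) x) else 0 := by
    intro x _
    by_cases hx : D.nm (N + 1) x = (a : ZMod (p ^ (N + 1)))
    · rw [if_pos hx, if_pos hx.symm]; ring
    · rw [if_neg hx, if_neg (fun h => hx h.symm)]; ring
  rw [Finset.sum_congr rfl h2]
  symm
  apply Finset.sum_subset (Finset.subset_univ A)
  intro x _ hx
  rw [if_neg]
  intro hx2
  apply hx
  simp only [Finset.mem_filter, Finset.mem_univ, true_and, hA]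
  rw [← D.nmred, hx2]

end SSF
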