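import Pool.Agent.Lib.SSG.F.B1

/-! # SSG/F/C1 : one step of the norm computation -/

namespace SSF

variable {p : ℕ} [Fact p.Prime] {R : ℕ → Type} [∀ N, CommRing (R N)] [∀ N, Fintype (R N)]
  {L : Type} [NormedField L] [IsUltrametricDist L] (D : LTD p R L)

theorem c1_sub {a b : L} (h : ‖b‖ < ‖a‖) : ‖a - b‖ = ‖a‖ := by
  have h1 : ‖a - b‖ ≤ ‖a‖ := by
    have h2 := IsUltrametricDist.norm_add_le_max a (-b)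
    rw [norm_neg, max_eq_left h.le, ← sub_eq_add_neg] at h2
    exact h2
  have h3 : ‖a‖ ≤ ‖a - b‖ := by
    have h2 := IsUltrametricDist.norm_add_le_max (a - b) b
    rw [sub_add_cancel] at h2
    rcases le_max_iff.1 h2 with h4 | h4
    · exact h4
    · exact absurd h (not_lt.2 h4)
  exact le_antisymm h1 h3

/-- One step: if `y ^ q - p y = s`, `0 < ‖s‖ < 1` and `‖p‖ ^ q < ‖s‖ ^ (q - 1)` then
`‖y‖ < 1` and `‖y‖ ^ q = ‖s‖`. PROOF. If `‖y‖ > 1` then `‖y^q‖ > ‖p y‖`, so `‖s‖ = ‖y‖^q > 1`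
(`IsUltrametricDist.norm_add_eq_max_of_norm_ne_norm` / `norm_sub`); if `‖y‖ = 1` then `‖s‖ = 1`.
So `‖y‖ < 1`. If `‖y‖^(q-1) ≤ ‖p‖` then `‖y^q‖ ≤ ‖p‖‖y‖`, so `‖s‖ ≤ ‖p‖ ‖y‖` and
`‖s‖^(q-1) ≤ ‖p‖^(q-1) ‖y‖^(q-1) ≤ ‖p‖^q`, a contradiction. So `‖y^q‖ > ‖p y‖` (`y ≠ 0` as
`s ≠ 0`) and `‖s‖ = ‖y‖^q`. Here `q = p ^ 2`. -/
theorem norm_step (y s : L) (h : y ^ (p ^ 2) - (p : L) * y = s) (h0 : 0 < ‖s‖) (h1 : ‖s‖ < 1)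
    (h2 : ‖(p : L)‖ ^ (p ^ 2) < ‖s‖ ^ (p ^ 2 - 1)) (hp1 : ‖(p : L)‖ < 1) :
    ‖y‖ < 1 ∧ ‖y‖ ^ (p ^ 2) = ‖s‖ := by
  have hpp : 2 ≤ p := (Fact.out : p.Prime).two_le
  have hq : 4 ≤ p ^ 2 := by nlinarith
  obtain ⟨q, hq1⟩ : ∃ q, p ^ 2 = q + 1 := ⟨p ^ 2 - 1, by omega⟩
  have hq2 : 3 ≤ q := by omega
  rw [hq1] at h h2 ⊢
  rw [Nat.add_sub_cancel] at h2
  have hpy : ‖(p : L) * y‖ = ‖(p : L)‖ * ‖y‖ := norm_mul _ _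
  have hyq : ‖y ^ (q + 1)‖ = ‖y‖ ^ (q + 1) := norm_pow _ _
  have hp0 : 0 ≤ ‖(p : L)‖ := norm_nonneg _
  have hy0 : y ≠ 0 := by
    rintro rfl
    rw [zero_pow (by omega), mul_zero, sub_zero] at h
    rw [← h, norm_zero] at h0
    exact lt_irrefl _ h0
  have hyp : 0 < ‖y‖ := norm_pos_iff.2 hy0
  have hy1 : ‖y‖ < 1 := by
    by_contra hcon
    rw [not_lt] at hcon
    have h3 : ‖(p : L) * y‖ < ‖y ^ (q + 1)‖ := by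
      rw [hpy, hyq]
      calc ‖(p : L)‖ * ‖y‖ < 1 * ‖y‖ := mul_lt_mul_of_pos_right hp1 hyp
        _ = ‖y‖ ^ 1 := by rw [one_mul, pow_one]
        _ ≤ ‖y‖ ^ (q + 1) := pow_le_pow_right₀ hcon (by omega)
    have h4 := c1_sub h3
    rw [h, hyq] at h4
    have h5 : 1 ≤ ‖y‖ ^ (q + 1) := one_le_pow₀ hcon
    linarith
  refine ⟨hy1, ?_⟩
  have h3 : ‖(p : L) * y‖ < ‖y ^ (q + 1)‖ := by
    by_contra hcon
    rw [not_lt, hpy, hyq, pow_succ] at hcon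
    have h4 : ‖y‖ ^ q ≤ ‖(p : L)‖ := le_of_mul_le_mul_right hcon hyp
    have h5 : ‖s‖ ≤ ‖(p : L)‖ * ‖y‖ := by
      have h6 := IsUltrametricDist.norm_add_le_max (y ^ (q + 1)) (-((p : L) * y))
      rw [norm_neg, ← sub_eq_add_neg, h, hpy, hyq, pow_succ, max_eq_right hcon] at h6
      exact h6
    have h6 : ‖s‖ ^ q ≤ ‖(p : L)‖ ^ (q + 1) := by
      calc ‖s‖ ^ q ≤ (‖(p : L)‖ * ‖y‖) ^ q := pow_le_pow_left₀ (norm_nonneg _) h5 q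
        _ = ‖(p : L)‖ ^ q * ‖y‖ ^ q := mul_pow _ _ _
        _ ≤ ‖(p : L)‖ ^ q * ‖(p : L)‖ := mul_le_mul_of_nonneg_left h4 (pow_nonneg hp0 q)
        _ = ‖(p : L)‖ ^ (q + 1) := (pow_succ _ _).symm
    exact absurd h2 (not_lt.2 h6)
  have h4 := c1_sub h3
  rw [h, hyq] at h4
  exact h4.symm

end SSF
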