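import Pool.Agent.Lib.SSG.F.C9B

/-! # SSG/F/C10 : division by powers of `φ` -/

open Polynomial

namespace SSF

variable {p : ℕ} [Fact p.Prime] {R : ℕ → Type} [∀ N, CommRing (R N)] [∀ N, Fintype (R N)]
  {L : Type} [NormedField L] [IsUltrametricDist L] (D : LTD p R L)

theorem c10_phi_mem (n : ℕ) : D.φ n ∈ D.O n := by
  refine ⟨Polynomial.X - 1, fun a => ?_⟩
  simp [LTD.φ, LTD.ev]

theorem c10_phi_one (n : ℕ) (hn : 1 ≤ n) : D.φ n 1 = D.ζ n - 1 := by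
  unfold LTD.φ
  haveI : Fact (1 < p ^ n) := ⟨Nat.one_lt_pow (by omega) (Fact.out : p.Prime).one_lt⟩
  rw [Units.val_one, ZMod.val_one, pow_one]

theorem c10_phi_norm (n : ℕ) (hn : 1 ≤ n) (a : (ZMod (p ^ n))ˣ) : ‖D.φ n a‖ = ‖D.ζ n - 1‖ := by
  rw [(O_norm D n hn _ (c10_phi_mem D n) a).2, c10_phi_one D n hn]

/-- Division by powers of `φ`. PROOF. `f' = f / φ^m` (pointwise; `φ a ≠ 0`) is equivariant
(`Eqv_of_mem` for `f`; `φ` is equivariant) and `‖f' 1‖ ≤ 1`; `mem_O_of_Eqv`. -/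
theorem O_div (n : ℕ) (hn : 1 ≤ n) (m : ℕ) (f : (ZMod (p ^ n))ˣ → L) (hf : f ∈ D.O n)
    (h : ‖f 1‖ ≤ ‖D.ζ n - 1‖ ^ m) : ∃ f' ∈ D.O n, f = D.φ n ^ m * f' := by
  have hφn := c10_phi_norm D n hn
  have hpos := (phi_pos D n hn).1
  have hφ0 : ∀ a, D.φ n a ≠ 0 := fun a h0 => by
    have := hφn a
    rw [h0, norm_zero] at this
    linarith
  have hφe := Eqv_of_mem D n _ (c10_phi_mem D n)
  have hfe := Eqv_of_mem D n f hf
  refine ⟨fun a => f a / D.φ n a ^ m, ?_, ?_⟩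
  · apply mem_O_of_Eqv D n hn
    · intro σ hσ c hc a
      change σ (f a / D.φ n a ^ m) = f (c * a) / D.φ n (c * a) ^ m
      rw [map_div₀, map_pow, hφe σ hσ c hc a, hfe σ hσ c hc a]
    · change ‖f 1 / D.φ n 1 ^ m‖ ≤ 1
      rw [norm_div, norm_pow, hφn]
      exact div_le_one_of_le₀ h (by positivity)
  · funext a
    change f a = D.φ n a ^ m * (f a / D.φ n a ^ m)
    rw [mul_div_cancel₀ _ (pow_ne_zero _ (hφ0 a))]

end SSF
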