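import Pool.Agent.Lib.SSG.F.C9B

/-! # SSG/F/C12 : gaps of the norm on `O n` -/

open Polynomial

namespace SSF

variable {p : ℕ} [Fact p.Prime] {R : ℕ → Type} [∀ N, CommRing (R N)] [∀ N, Fintype (R N)]
  {L : Type} [NormedField L] [IsUltrametricDist L] (D : LTD p R L)

theorem c12_phi_mem (n : ℕ) : D.φ n ∈ D.O n := by
  refine ⟨Polynomial.X - 1, fun a => ?_⟩
  simp [LTD.φ, LTD.ev]

theorem c12_phi_one (n : ℕ) (hn : 1 ≤ n) : D.φ n 1 = D.ζ n - 1 := by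
  unfold LTD.φ
  haveI : Fact (1 < p ^ n) := ⟨Nat.one_lt_pow (by omega) (Fact.out : p.Prime).one_lt⟩
  rw [Units.val_one, ZMod.val_one, pow_one]

theorem c12_phi_inj (n : ℕ) : Function.Injective (D.φ n) := by
  intro a b hab
  haveI : NeZero (p ^ n) := ⟨pow_ne_zero _ (Fact.out : p.Prime).ne_zero⟩
  unfold LTD.φ at hab
  have h1 : D.ζ n ^ (a : ZMod (p ^ n)).val = D.ζ n ^ (b : ZMod (p ^ n)).val := by
    linear_combination hab
  have h2 := (D.ζprim n).pow_inj (ZMod.val_lt _) (ZMod.val_lt _) h1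
  exact Units.ext (ZMod.val_injective _ h2)

/-- The values of the norm on `O n` are powers of `‖φ_n‖`. PROOF. Write `f 1 = B'(φ_n)` with `B'` of
degree `< E` over `k` (as in `mem_O_of_Eqv`: `interp`), `basis_norm` (second part):
`‖f 1‖ = ‖a_i‖ ‖φ_n‖^i = ‖φ_n‖^(E j + i)` with `‖a_i‖ = ‖p‖^j = ‖φ_n‖^(E j)`, `j ∈ ℤ`; as
`‖f 1‖ ≤ 1` the exponent is `≥ 0`. Hence an element of norm `< ‖φ_n‖^m` has norm
`≤ ‖φ_n‖^(m+1)`. -/
theorem O_gap (n : ℕ) (hn : 1 ≤ n) (m : ℕ) (f : (ZMod (p ^ n))ˣ → L) (hf : f ∈ D.O n)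
    (h : ‖f 1‖ < ‖D.ζ n - 1‖ ^ m) : ‖f 1‖ ≤ ‖D.ζ n - 1‖ ^ (m + 1) := by
  have hpos := (phi_pos D n hn).1
  have hlt := (phi_pos D n hn).2
  have hφe := Eqv_of_mem D n _ (c12_phi_mem D n)
  have hfe := Eqv_of_mem D n f hf
  haveI : NeZero (p ^ n) := ⟨pow_ne_zero _ (Fact.out : p.Prime).ne_zero⟩
  obtain ⟨P, hPd, hPk, hP⟩ := interp D (ZMod (p ^ n))ˣ (D.φ n) f (c12_phi_inj D n) (by
    intro σ hσ
    obtain ⟨u, hu, -, hζ⟩ := D.gal σ hσ n
    obtain ⟨c, hc⟩ : ∃ c : (ZMod (p ^ n))ˣ, (c : ZMod (p ^ n)) = D.nm n u :=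
      ⟨(hu.map (D.nm n)).unit, IsUnit.unit_spec _⟩
    have hζ' : σ (D.ζ n) = D.ζ n ^ (c : ZMod (p ^ n)).val := by rw [hc, hζ]
    exact ⟨fun v => c * v, fun v => ⟨c⁻¹ * v, by simp⟩, fun v => hφe σ hσ c hζ' v,
      fun v => hfe σ hσ c hζ' v⟩)
  have hcard : Fintype.card (ZMod (p ^ n))ˣ = p ^ (n - 1) * (p - 1) := by
    rw [ZMod.card_units_eq_totient, Nat.totient_prime_pow (Fact.out : p.Prime) (by omega)]
  rw [hcard] at hPd
  set E := p ^ (n - 1) * (p - 1) with hE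
  have hp2 := (Fact.out : p.Prime).two_le
  have hE0 : 0 < E := Nat.mul_pos (pow_pos (by omega) _) (by omega)
  have hnat : P.natDegree < E := by
    rcases eq_or_ne P 0 with h0 | h0
    · rw [h0, natDegree_zero]; exact hE0
    · exact (natDegree_lt_iff_degree_lt h0).2 hPd
  have hf1 : f 1 = ∑ j ∈ Finset.range E, P.coeff j * (D.ζ n - 1) ^ j := by
    rw [← hP 1, c12_phi_one D n hn, eval_eq_sum_range' hnat]
  obtain ⟨i, hi, hval⟩ := (basis_norm D (D.ζ n - 1) E hE0 (phi_e D n hn) P.coeff hPk).2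
  rw [← hf1] at hval
  by_cases ha : P.coeff i = 0
  · rw [hval, ha, norm_zero, zero_mul]
    positivity
  · obtain ⟨j, hj⟩ := D.kval _ (hPk i) ha
    have h3 : ‖f 1‖ = ‖D.ζ n - 1‖ ^ ((E : ℤ) * j + i) := by
      rw [hval, hj, ← phi_e D n hn, zpow_add₀ hpos.ne', zpow_mul, zpow_natCast, zpow_natCast]
    rw [h3, ← zpow_natCast] at h
    rw [h3, ← zpow_natCast]
    have h4 := (zpow_lt_zpow_iff_right_of_lt_one₀ hpos hlt).1 h
    apply zpow_le_zpow_right_of_le_one₀ hpos hlt.le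
    push_cast
    omega

end SSF
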