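import Pool.Agent.Lib.SSG.F.C9B

/-! # SSG/F/C13 : `T` is in `O n` -/

open Polynomial

namespace SSF

variable {p : ℕ} [Fact p.Prime] {R : ℕ → Type} [∀ N, CommRing (R N)] [∀ N, Fintype (R N)]
  {L : Type} [NormedField L] [IsUltrametricDist L] (D : LTD p R L)

theorem c13_ev_gal (h : D.W[X]) (σ : RingAut L) (hσ : σ ∈ D.G) (x : L) :
    σ (D.ev h x) = D.ev h (σ x) := by
  unfold LTD.ev
  have h1 : σ (eval₂ D.W.subtype x h) = eval₂ ((σ : L →+* L).comp D.W.subtype) (σ x) h :=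
    hom_eval₂ h D.W.subtype (σ : L →+* L) x
  have h2 : (σ : L →+* L).comp D.W.subtype = D.W.subtype := by
    ext w
    exact D.gk σ hσ _ w.2.1
  rw [h1, h2]

theorem c13_ev_norm (h : D.W[X]) (x : L) (hx : ‖x‖ ≤ 1) : ‖D.ev h x‖ ≤ 1 := by
  unfold LTD.ev
  rw [eval₂_eq_sum_range]
  apply IsUltrametricDist.norm_sum_le_of_forall_le_of_nonneg zero_le_one
  intro i _
  rw [norm_mul, norm_pow]
  exact mul_le_one₀ (h.coeff i).2.2 (by positivity) (pow_le_one₀ (norm_nonneg _) hx)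

/-- `T` is in `O n`. PROOF. Equivariance: for `σ ∈ G` with `σ ζ = ζ^c` let `u` be its unit
(`D.gal`), so `nm u = c` (primitive root), and `σ (T n a h) = sum over nm x = a of ev h (X (u x))
= T n (c a) h` (reindex by `x ↦ u x`, a bijection from norm `a` to norm `c a`; `σ` fixes the
coefficients of `h`). Norm `≤ 1`: each `X x`, `x` a unit, has norm `< 1` (`norm_X_lt`, `n = m+1`;
`nm x = 1` implies `x` unit by `D.nmu`). `mem_O_of_Eqv`. -/
theorem Tf_mem (n : ℕ) (hn : 1 ≤ n) (h : D.W[X]) : D.Tf n h ∈ D.O n := by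
  classical
  haveI : NeZero (p ^ n) := ⟨pow_ne_zero _ (Fact.out : p.Prime).ne_zero⟩
  apply mem_O_of_Eqv D n hn
  · intro σ hσ c hc a
    obtain ⟨u, hu, hX, hζ⟩ := D.gal σ hσ n
    have hnu : D.nm n u = (c : ZMod (p ^ n)) := by
      rw [hc] at hζ
      exact (ZMod.val_injective _ ((D.ζprim n).pow_inj (ZMod.val_lt _) (ZMod.val_lt _) hζ)).symm
    unfold LTD.Tf LTD.T
    rw [map_sum]
    refine Finset.sum_bij' (fun x _ => u * x) (fun y _ => hu.unit⁻¹ * y) ?_ ?_ ?_ ?_ ?_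
    · intro x hx
      rw [Finset.mem_filter] at hx ⊢
      refine ⟨Finset.mem_univ _, ?_⟩
      rw [map_mul, hnu, hx.2, Units.val_mul]
    · intro y hy
      rw [Finset.mem_filter] at hy ⊢
      refine ⟨Finset.mem_univ _, ?_⟩
      have h1 : D.nm n u * D.nm n (hu.unit⁻¹ * y) = D.nm n u * (a : ZMod (p ^ n)) := by
        rw [← map_mul, ← mul_assoc, IsUnit.mul_val_inv, one_mul, hy.2, hnu, Units.val_mul]
      exact (hu.map (D.nm n)).mul_left_cancel h1
    · intro x _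
      change (hu.unit⁻¹ : (R n)ˣ) * (u * x) = x
      rw [← mul_assoc, IsUnit.val_inv_mul, one_mul]
    · intro y _
      change u * ((hu.unit⁻¹ : (R n)ˣ) * y) = y
      rw [← mul_assoc, IsUnit.mul_val_inv, one_mul]
    · intro x _
      rw [c13_ev_gal D h σ hσ, hX]
  · unfold LTD.Tf LTD.T
    apply IsUltrametricDist.norm_sum_le_of_forall_le_of_nonneg zero_le_one
    intro x hx
    rw [Finset.mem_filter] at hx
    have hxu : IsUnit x := by
      apply D.nmu n x
      rw [hx.2]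
      exact Units.isUnit _
    obtain ⟨k, rfl⟩ : ∃ k, n = k + 1 := ⟨n - 1, by omega⟩
    exact c13_ev_norm D h _ (norm_X_lt D k x hxu).le

end SSF
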