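import Pool.Agent.Lib.SSG.F.C1

/-! # SSG/F/C1B : the norm of the torsion coordinates -/

namespace SSF

variable {p : ℕ} [Fact p.Prime] {R : ℕ → Type} [∀ N, CommRing (R N)] [∀ N, Fintype (R N)]
  {L : Type} [NormedField L] [IsUltrametricDist L] (D : LTD p R L)

include D

theorem c1b_norm_pos : 0 < ‖(p : L)‖ := norm_pos_iff.2 D.hp0

/-- The norm of `X (N+1) x`, `x` a unit. Induction on `N`. `N = 0`: `y = X 1 x ≠ 0` (`D.Xinj`,
`D.X0`, `not_isUnit_zero`), `y^q - p y = X 0 (red x) = 0` (`R 0` has one element, `D.card0`), so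
`y ^ (q-1) = p`. Step: `s = X (N+1) (red x)`, `red x` is a unit, `‖s‖^(q^N (q-1)) = ‖p‖`
(`p^(2N) = q^N`), so `0 < ‖s‖ < 1`; and `‖p‖^q < ‖s‖^(q-1)`: otherwise
`‖p‖ = (‖s‖^(q-1))^(q^N) ≤ ‖p‖^(q^(N+1)) < ‖p‖`. By `norm_step` `‖y‖^q = ‖s‖`, hence
`‖y‖^(q^(N+1)(q-1)) = ‖s‖^(q^N(q-1)) = ‖p‖`. -/
theorem norm_X (N : ℕ) (x : R (N + 1)) (hx : IsUnit x) :
    ‖D.X (N + 1) x‖ ^ (p ^ (2 * N) * (p ^ 2 - 1)) = ‖(p : L)‖ := by
  have hp : p.Prime := Fact.out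
  have hq : 2 * 2 ≤ p ^ 2 := by nlinarith [hp.two_le]
  have hpos := c1b_norm_pos D
  induction N with
  | zero =>
    have hy : D.X 1 x ≠ 0 := by
      intro h
      rw [← D.X0 1] at h
      rw [D.Xinj 1 h] at hx
      exact not_isUnit_zero D 0 hx
    have h0 : Subsingleton (R 0) := (Nat.card_eq_one_iff_unique.1 D.card0).1
    have h1 := D.Xg 0 x
    rw [Subsingleton.elim (D.red 0 x) 0, D.X0, sub_eq_zero] at h1
    have h2 : D.X 1 x ^ (p ^ 2 - 1) = (p : L) := by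
      have h3 : D.X 1 x ^ (p ^ 2 - 1) * D.X 1 x = (p : L) * D.X 1 x := by
        rw [← pow_succ, Nat.sub_add_cancel (by omega)]
        exact h1
      exact mul_right_cancel₀ hy h3
    rw [mul_zero, pow_zero, one_mul, ← norm_pow, h2]
  | succ N ih =>
    have hu : IsUnit (D.red (N + 1) x) := (isUnit_red D (N + 1) (by omega) x).2 hx
    have hs := ih (D.red (N + 1) x) hu
    set s := D.X (N + 1) (D.red (N + 1) x) with hsdef
    have hE : p ^ (2 * N) * (p ^ 2 - 1) ≠ 0 :=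
      mul_ne_zero (pow_ne_zero _ hp.ne_zero) (by omega)
    have hs0 : 0 < ‖s‖ := by
      rw [norm_pos_iff]
      intro h
      rw [h, norm_zero, zero_pow hE] at hs
      rw [← hs] at hpos
      exact lt_irrefl _ hpos
    have hs1 : ‖s‖ < 1 := by
      by_contra h
      have h1 : 1 ≤ ‖s‖ ^ (p ^ (2 * N) * (p ^ 2 - 1)) := one_le_pow₀ (not_lt.1 h)
      rw [hs] at h1
      exact absurd D.hp1 (not_lt.2 h1)
    have hlt : ‖(p : L)‖ ^ (p ^ 2) < ‖s‖ ^ (p ^ 2 - 1) := by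
      by_contra h
      have h1 : ‖s‖ ^ (p ^ 2 - 1) ≤ ‖(p : L)‖ ^ (p ^ 2) := not_lt.1 h
      have h2 : (‖s‖ ^ (p ^ 2 - 1)) ^ (p ^ (2 * N)) ≤ (‖(p : L)‖ ^ (p ^ 2)) ^ (p ^ (2 * N)) :=
        pow_le_pow_left₀ (by positivity) h1 _
      rw [← pow_mul, ← pow_mul, mul_comm (p ^ 2 - 1), hs] at h2
      have h3 : ‖(p : L)‖ ^ (p ^ 2 * p ^ (2 * N)) < ‖(p : L)‖ ^ 1 := by
        apply pow_lt_pow_right_of_lt_one₀ hpos D.hp1
        have h4 : 0 < p ^ (2 * N) := pow_pos hp.pos _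
        nlinarith
      rw [pow_one] at h3
      exact absurd h2 (not_le.2 h3)
    have h5 := (norm_step (p := p) (D.X (N + 1 + 1) x) s (D.Xg (N + 1) x) hs0 hs1 hlt D.hp1).2
    have h6 : p ^ (2 * (N + 1)) * (p ^ 2 - 1) = p ^ 2 * (p ^ (2 * N) * (p ^ 2 - 1)) := by
      rw [show 2 * (N + 1) = 2 + 2 * N by ring, pow_add]
      ring
    rw [h6, pow_mul, h5, hs]

theorem c1b_E (N : ℕ) : p ^ (2 * N) * (p ^ 2 - 1) ≠ 0 := by
  have hp : p.Prime := Fact.out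
  have hq : 2 * 2 ≤ p ^ 2 := by nlinarith [hp.two_le]
  exact mul_ne_zero (pow_ne_zero _ hp.ne_zero) (by omega)

/-- from `norm_X`: `‖X‖^E = ‖p‖ < 1`, `E ≠ 0`. -/
theorem norm_X_lt (N : ℕ) (x : R (N + 1)) (hx : IsUnit x) : ‖D.X (N + 1) x‖ < 1 := by
  by_contra h
  have h1 : 1 ≤ ‖D.X (N + 1) x‖ ^ (p ^ (2 * N) * (p ^ 2 - 1)) := one_le_pow₀ (not_lt.1 h)
  rw [norm_X D N x hx] at h1
  exact absurd D.hp1 (not_lt.2 h1)

/-- both have the same `E`-th power, `E ≠ 0` (`pow_left_injective`-type). -/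
theorem norm_X_eq (N : ℕ) (x y : R (N + 1)) (hx : IsUnit x) (hy : IsUnit y) :
    ‖D.X (N + 1) x‖ = ‖D.X (N + 1) y‖ := by
  have h1 := norm_X D N x hx
  rw [← norm_X D N y hy] at h1
  exact (pow_left_inj₀ (norm_nonneg _) (norm_nonneg _) (c1b_E D N)).1 h1

end SSF
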