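import Pool.Agent.Lib.SSG.F.D1

/-! # SSG/F/C2 : the norm of `z - 1` -/

namespace SSF

variable {p : ℕ} [Fact p.Prime] {L : Type} [NormedField L] [IsUltrametricDist L]

/-- `‖z ^ a - 1‖ ≤ ‖z - 1‖` if `‖z‖ = 1` (`z^a - 1 = (z-1)(1 + z + .. + z^(a-1))`,
`mul_geom_sum`, ultrametric bound of the sum by `1`). -/
theorem norm_pow_sub_one_le (z : L) (hz : ‖z‖ = 1) (a : ℕ) : ‖z ^ a - 1‖ ≤ ‖z - 1‖ := by
  induction a with
  | zero => simp
  | succ a ih =>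
    have e : z ^ (a + 1) - 1 = z ^ a * (z - 1) + (z ^ a - 1) := by ring
    rw [e]
    refine (IsUltrametricDist.norm_add_le_max _ _).trans (max_le ?_ ih)
    rw [norm_mul, norm_pow, hz, one_pow, one_mul]

/-- a root of unity has norm one (`z ^ m = 1`, `m ≠ 0`: `‖z‖ ^ m = 1`). -/
theorem norm_root (z : L) (m : ℕ) (hm : m ≠ 0) (hz : z ^ m = 1) : ‖z‖ = 1 := by
  have h1 : ‖z‖ ^ m = 1 := by rw [← norm_pow, hz, norm_one]
  exact (pow_eq_one_iff_of_nonneg (norm_nonneg z) hm).1 h1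

/-- `‖z - 1‖ ^ (p^n (p-1)) = ‖p‖` for a primitive `p ^ (n+1)`-th root of unity. PROOF.
`Polynomial.eval_one_cyclotomic_prime_pow` : `eval 1 (cyclotomic (p^(n+1)) L) = p`, and
`cyclotomic = prod over primitive roots μ of (X - C μ)` (`Polynomial.cyclotomic_eq_prod_X_sub_primitiveRoots`),
so `p = prod (1 - μ)`. Every primitive root `μ` is `z ^ a` and `z = μ ^ b`
(`IsPrimitiveRoot.eq_pow_of_pow_eq_one`), hence `‖1 - μ‖ = ‖z - 1‖` by `norm_pow_sub_one_le`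
twice; their number is `φ(p^(n+1)) = p^n (p-1)` (`IsPrimitiveRoot.card_primitiveRoots`,
`Nat.totient_prime_pow_succ`). -/
theorem norm_prim (n : ℕ) (z : L) (hz : IsPrimitiveRoot z (p ^ (n + 1))) :
    ‖z - 1‖ ^ (p ^ n * (p - 1)) = ‖(p : L)‖ := by
  have hp : p.Prime := Fact.out
  have hpos : 0 < p ^ (n + 1) := pow_pos hp.pos _
  have h1 : Polynomial.eval 1 (Polynomial.cyclotomic (p ^ (n + 1)) L) = (p : L) :=
    Polynomial.eval_one_cyclotomic_prime_pow n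
  have h2 := Polynomial.cyclotomic_eq_prod_X_sub_primitiveRoots hz
  rw [h2, Polynomial.eval_prod] at h1
  have h3 : ∀ μ ∈ primitiveRoots (p ^ (n + 1)) L, ‖Polynomial.eval 1 (Polynomial.X - Polynomial.C μ)‖ = ‖z - 1‖ := by
    intro μ hμ
    have hμ' : IsPrimitiveRoot μ (p ^ (n + 1)) := (mem_primitiveRoots hpos).1 hμ
    have n1 : ‖z‖ = 1 := norm_root z _ hpos.ne' hz.pow_eq_one
    have n2 : ‖μ‖ = 1 := norm_root μ _ hpos.ne' hμ'.pow_eq_one
    haveI : NeZero (p ^ (n + 1)) := ⟨hpos.ne'⟩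
    obtain ⟨i, -, hi⟩ := hz.eq_pow_of_pow_eq_one hμ'.pow_eq_one
    obtain ⟨j, -, hj⟩ := hμ'.eq_pow_of_pow_eq_one hz.pow_eq_one
    have e1 : ‖μ - 1‖ ≤ ‖z - 1‖ := by rw [← hi]; exact norm_pow_sub_one_le z n1 i
    have e2 : ‖z - 1‖ ≤ ‖μ - 1‖ := by
      conv_lhs => rw [← hj]
      exact norm_pow_sub_one_le μ n2 j
    rw [Polynomial.eval_sub, Polynomial.eval_X, Polynomial.eval_C, norm_sub_rev]
    exact le_antisymm e1 e2
  have h4 : ‖∏ μ ∈ primitiveRoots (p ^ (n + 1)) L, Polynomial.eval 1 (Polynomial.X - Polynomial.C μ)‖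
      = ‖z - 1‖ ^ (p ^ n * (p - 1)) := by
    rw [norm_prod, Finset.prod_congr rfl h3, Finset.prod_const, hz.card_primitiveRoots,
      Nat.totient_prime_pow_succ hp]
  rw [← h4, h1]

end SSF
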