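import Pool.Agent.Lib.SSG.F.C2

/-! # SSG/F/C2B : `(z - 1)^(p-1)` for a primitive `p`-th root of unity -/

namespace SSF

variable {p : ℕ} [Fact p.Prime] {L : Type} [NormedField L] [IsUltrametricDist L]

/-- The binomial formula up to the middle terms. -/
theorem c2b_binom (x : L) (hx : ‖x‖ ≤ 1) :
    ‖(x + 1) ^ p - 1 - (p : L) * x - x ^ p‖ ≤ ‖(p : L)‖ * ‖x‖ ^ 2 := by
  have hp : p.Prime := Fact.out
  have h2 : 2 ≤ p := hp.two_le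
  have e : (x + 1) ^ p - 1 - (p : L) * x - x ^ p = ∑ m ∈ Finset.Ico 2 p, x ^ m * (p.choose m : L) := by
    rw [add_pow, Finset.sum_range_succ, Finset.range_eq_Ico,
      Finset.sum_eq_sum_Ico_succ_bot (show 0 < p by omega),
      Finset.sum_eq_sum_Ico_succ_bot (show 0 + 1 < p by omega)]
    simp only [one_pow, mul_one, pow_zero, zero_add, pow_one, Nat.choose_zero_right, Nat.choose_one_right,
      Nat.choose_self, Nat.cast_one]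
    ring
  rw [e]
  refine IsUltrametricDist.norm_sum_le_of_forall_le_of_nonneg (by positivity) ?_
  intro m hm
  obtain ⟨hm1, hm2⟩ := Finset.mem_Ico.1 hm
  obtain ⟨c, hc⟩ := hp.dvd_choose_self (by omega : m ≠ 0) hm2
  rw [hc, Nat.cast_mul, norm_mul, norm_mul, norm_pow]
  have e1 : ‖(c : L)‖ ≤ 1 := IsUltrametricDist.norm_natCast_le_one L c
  have e2 : ‖x‖ ^ m ≤ ‖x‖ ^ 2 := pow_le_pow_of_le_one (norm_nonneg _) hx hm1
  calc ‖x‖ ^ m * (‖(p : L)‖ * ‖(c : L)‖) ≤ ‖x‖ ^ 2 * (‖(p : L)‖ * 1) := by gcongr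
    _ = ‖(p : L)‖ * ‖x‖ ^ 2 := by ring

/-- `(z - 1)^(p-1) = - p` up to smaller terms. PROOF. Put `φ = z - 1 ≠ 0`. `(1 + φ)^p = 1` gives
`sum_(j=1)^p binom(p,j) φ^j = 0`; divide by `φ`: `φ^(p-1) + p + sum_(j=2)^(p-1) binom(p,j) φ^(j-1) = 0`
and the middle terms have norm `≤ ‖p‖ ‖φ‖ < ‖p‖` (`p ∣ binom(p,j)`, `‖φ‖ < 1` by
`norm_prim`). -/
theorem prim_one (z : L) (hz : IsPrimitiveRoot z p) (hp0 : (p : L) ≠ 0) (hp1 : ‖(p : L)‖ < 1) :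
    ‖(z - 1) ^ (p - 1) + (p : L)‖ < ‖(p : L)‖ := by
  have hp : p.Prime := Fact.out
  have h2 : 2 ≤ p := hp.two_le
  have hp0' : 0 < ‖(p : L)‖ := norm_pos_iff.2 hp0
  obtain ⟨φ, hφ⟩ : ∃ φ : L, φ = z - 1 := ⟨_, rfl⟩
  have h1 : ‖φ‖ ^ (p - 1) = ‖(p : L)‖ := by
    have := norm_prim (p := p) 0 z (by rwa [zero_add, pow_one])
    rwa [pow_zero, one_mul, ← hφ] at this
  have hφ0 : 0 < ‖φ‖ := by
    rcases (norm_nonneg φ).eq_or_lt with h | h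
    · rw [← h, zero_pow (by omega)] at h1
      exact absurd h1 hp0'.ne
    · exact h
  have hφ1 : ‖φ‖ < 1 := by
    by_contra hc
    have h3 : 1 ≤ ‖φ‖ ^ (p - 1) := one_le_pow₀ (not_lt.1 hc)
    rw [h1] at h3
    exact absurd hp1 (not_lt.2 h3)
  have h3 := c2b_binom (p := p) φ hφ1.le
  have h4 : (φ + 1) ^ p = 1 := by rw [hφ, sub_add_cancel, hz.pow_eq_one]
  have h5 : (φ + 1) ^ p - 1 - (p : L) * φ - φ ^ p = -(φ * (φ ^ (p - 1) + (p : L))) := by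
    have : φ ^ p = φ * φ ^ (p - 1) := by
      rw [← pow_succ', Nat.sub_add_cancel hp.one_le]
    rw [h4, this]
    ring
  rw [h5, norm_neg, norm_mul] at h3
  rw [← hφ]
  have h6 : ‖φ‖ * ‖φ ^ (p - 1) + (p : L)‖ ≤ ‖φ‖ * (‖(p : L)‖ * ‖φ‖) := by
    calc _ ≤ _ := h3
      _ = _ := by ring
  have h7 := le_of_mul_le_mul_left h6 hφ0
  calc _ ≤ _ := h7
    _ < ‖(p : L)‖ * 1 := mul_lt_mul_of_pos_left hφ1 hp0'
    _ = _ := mul_one _

end SSF
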