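import Pool.Agent.Lib.SSG.F.C2

/-! # SSG/F/C3 : the elements `φ_n = ζ_n - 1`. -/

namespace SSF

variable {p : ℕ} [Fact p.Prime] {R : ℕ → Type} [∀ N, CommRing (R N)] [∀ N, Fintype (R N)]
  {L : Type} [NormedField L] [IsUltrametricDist L] (D : LTD p R L)

/-- `(x + 1)^p = 1 + x^p` up to `p x`. -/
theorem c3_binom (x : L) (hx : ‖x‖ ≤ 1) :
    ‖(x + 1) ^ p - 1 - x ^ p‖ ≤ ‖(p : L)‖ * ‖x‖ := by
  have hp : p.Prime := Fact.out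
  have h2 : 2 ≤ p := hp.two_le
  have e : (x + 1) ^ p - 1 - x ^ p = ∑ m ∈ Finset.Ico 1 p, x ^ m * (p.choose m : L) := by
    rw [add_pow, Finset.sum_range_succ, Finset.range_eq_Ico,
      Finset.sum_eq_sum_Ico_succ_bot (show 0 < p by omega)]
    simp only [one_pow, mul_one, pow_zero, zero_add, Nat.choose_zero_right,
      Nat.choose_self, Nat.cast_one]
    ring
  rw [e]
  refine IsUltrametricDist.norm_sum_le_of_forall_le_of_nonneg (by positivity) ?_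
  intro m hm
  obtain ⟨hm1, hm2⟩ := Finset.mem_Ico.1 hm
  obtain ⟨c, hc⟩ := hp.dvd_choose_self (by omega : m ≠ 0) hm2
  rw [hc, Nat.cast_mul, norm_mul, norm_mul, norm_pow]
  have e1 : ‖(c : L)‖ ≤ 1 := IsUltrametricDist.norm_natCast_le_one L c
  have e2 : ‖x‖ ^ m ≤ ‖x‖ := by
    calc ‖x‖ ^ m ≤ ‖x‖ ^ 1 := pow_le_pow_of_le_one (norm_nonneg _) hx hm1
      _ = ‖x‖ := pow_one _
  calc ‖x‖ ^ m * (‖(p : L)‖ * ‖(c : L)‖) ≤ ‖x‖ * (‖(p : L)‖ * 1) := by gcongr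
    _ = ‖(p : L)‖ * ‖x‖ := by ring

/-- `norm_prim` for `ζ n` (`n - 1 + 1 = n`). -/
theorem c3_phi_e (n : ℕ) (hn : 1 ≤ n) : ‖D.ζ n - 1‖ ^ (p ^ (n - 1) * (p - 1)) = ‖(p : L)‖ := by
  obtain ⟨m, rfl⟩ : ∃ m, n = m + 1 := ⟨n - 1, by omega⟩
  rw [Nat.add_sub_cancel]
  exact norm_prim m _ (D.ζprim (m + 1))

/-- `0 < ‖φ_n‖ < 1` for `n ≥ 1`. (`norm_prim`, `D.hp0`, `D.hp1`, write `n = m + 1`.) -/
theorem phi_pos (n : ℕ) (hn : 1 ≤ n) : 0 < ‖D.ζ n - 1‖ ∧ ‖D.ζ n - 1‖ < 1 := by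
  have hp : p.Prime := Fact.out
  have h2 : 2 ≤ p := hp.two_le
  have h1 := c3_phi_e D n hn
  have hp0' : 0 < ‖(p : L)‖ := norm_pos_iff.2 D.hp0
  have hE : p ^ (n - 1) * (p - 1) ≠ 0 := (mul_pos (pow_pos hp.pos _) (by omega)).ne'
  constructor
  · rcases (norm_nonneg (D.ζ n - 1)).eq_or_lt with h | h
    · rw [← h, zero_pow hE] at h1
      exact absurd h1 hp0'.ne
    · exact h
  · by_contra hc
    have h3 := one_le_pow₀ (n := p ^ (n - 1) * (p - 1)) (not_lt.1 hc)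
    rw [h1] at h3
    exact absurd D.hp1 (not_lt.2 h3)

/-- `norm_prim` for `ζ n` (`n - 1 + 1 = n`). -/
theorem phi_e (n : ℕ) (hn : 1 ≤ n) : ‖D.ζ n - 1‖ ^ (p ^ (n - 1) * (p - 1)) = ‖(p : L)‖ :=
  c3_phi_e D n hn

/-- `φ_n ≈ φ_(n+1)^p`. PROOF. `1 + φ_n = (1 + φ_(n+1))^p`, so
`φ_n - φ_(n+1)^p = sum_(0<j<p) binom(p,j) φ_(n+1)^j`, of norm `≤ ‖p‖ ‖φ_(n+1)‖`, and
`‖p‖ = ‖φ_(n+1)‖^(p^n(p-1))` with `p^n (p-1) + 1 > p` (`n ≥ 1`). -/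
theorem phi_step (n : ℕ) (hn : 1 ≤ n) :
    ‖(D.ζ n - 1) - (D.ζ (n + 1) - 1) ^ p‖ < ‖D.ζ (n + 1) - 1‖ ^ p := by
  have hp : p.Prime := Fact.out
  have h2 : 2 ≤ p := hp.two_le
  obtain ⟨h0, h1⟩ := phi_pos D (n + 1) (by omega)
  have he := phi_e D (n + 1) (by omega)
  rw [Nat.add_sub_cancel] at he
  have hb := c3_binom (p := p) (D.ζ (n + 1) - 1) h1.le
  rw [sub_add_cancel, D.ζp n, ← he] at hb
  refine hb.trans_lt ?_
  rw [← pow_succ]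
  refine pow_lt_pow_right_of_lt_one₀ h0 h1 ?_
  have h3 : 2 ≤ p ^ n := by
    calc 2 ≤ p := h2
      _ = p ^ 1 := (pow_one p).symm
      _ ≤ p ^ n := Nat.pow_le_pow_right hp.pos hn
  have h4 : 1 ≤ p - 1 := by omega
  calc p < 2 * (p - 1) + 1 := by omega
    _ ≤ p ^ n * (p - 1) + 1 := by gcongr

/-- from `phi_step` (`‖a - b‖ < ‖b‖` implies `‖a‖ = ‖b‖`). -/
theorem phi_norm_succ (n : ℕ) (hn : 1 ≤ n) : ‖D.ζ n - 1‖ = ‖D.ζ (n + 1) - 1‖ ^ p := by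
  have h1 := phi_step D n hn
  rw [← norm_pow] at h1
  have h2 : D.ζ n - 1 = ((D.ζ n - 1) - (D.ζ (n + 1) - 1) ^ p) + (D.ζ (n + 1) - 1) ^ p := by ring
  rw [h2, IsUltrametricDist.norm_add_eq_max_of_norm_ne_norm h1.ne, max_eq_right h1.le, norm_pow]

/-- `φ_n^m ≈ φ_(n+1)^(p m)`: induction on `m` with `phi_step`, `phi_norm_succ`
(`a^(m+1) - b^(m+1) = a (a^m - b^m) + (a - b) b^m`; for `m = 0` it is `0 < 1`). -/
theorem phi_pow (n m : ℕ) (hn : 1 ≤ n) :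
    ‖(D.ζ n - 1) ^ m - (D.ζ (n + 1) - 1) ^ (p * m)‖ < ‖D.ζ (n + 1) - 1‖ ^ (p * m) := by
  obtain ⟨h0, -⟩ := phi_pos D (n + 1) (by omega)
  induction m with
  | zero => simp
  | succ m ih =>
    have hs := phi_step D n hn
    have hn' := phi_norm_succ D n hn
    obtain ⟨a, ha⟩ : ∃ a : L, a = D.ζ n - 1 := ⟨_, rfl⟩
    obtain ⟨b, hb⟩ : ∃ b : L, b = (D.ζ (n + 1) - 1) := ⟨_, rfl⟩
    rw [← ha, ← hb] at hs ih ⊢
    rw [← ha, ← hb] at hn'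
    rw [← hb] at h0
    have e : a ^ (m + 1) - b ^ (p * (m + 1)) = a * (a ^ m - b ^ (p * m)) + (a - b ^ p) * b ^ (p * m) := by
      rw [mul_add, mul_one, pow_add]
      ring
    rw [e]
    refine (IsUltrametricDist.norm_add_le_max _ _).trans_lt (max_lt ?_ ?_)
    · rw [norm_mul, hn', mul_add, mul_one, pow_add, mul_comm]
      exact mul_lt_mul_of_pos_right ih (pow_pos h0 _)
    · rw [norm_mul, norm_pow, mul_add, mul_one, pow_add, mul_comm]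
      exact mul_lt_mul_of_pos_left hs (pow_pos h0 _)

end SSF
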