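import Pool.Agent.Lib.SSG.F.D1

/-! # SSG/F/C4 : norms in a totally ramified basis -/

open Polynomial

namespace SSF

variable {p : ℕ} {R : ℕ → Type} [∀ N, CommRing (R N)] [∀ N, Fintype (R N)]
  {L : Type} [NormedField L] [IsUltrametricDist L] (D : LTD p R L)

/-- A finite sum of terms with pairwise different norms (where nonzero): the norm is the largest one. -/
theorem c4_sum (f : ℕ → L) (E : ℕ) (hne : ∀ i < E, ∀ j < E, i ≠ j → f i ≠ 0 → f j ≠ 0 → ‖f i‖ ≠ ‖f j‖) :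
    ∀ i < E, ‖f i‖ ≤ ‖∑ j ∈ Finset.range E, f j‖ := by
  intro i hi
  -- the index with the largest norm
  obtain ⟨m, hm, hmax⟩ := Finset.exists_max_image (Finset.range E) (fun j => ‖f j‖) ⟨i, Finset.mem_range.2 hi⟩
  have hmE := Finset.mem_range.1 hm
  refine (hmax i (Finset.mem_range.2 hi)).trans ?_
  by_cases h0 : f m = 0
  · rw [h0, norm_zero]; exact norm_nonneg _
  have hrest : ‖∑ j ∈ (Finset.range E).erase m, f j‖ < ‖f m‖ := by
    have hmp : 0 < ‖f m‖ := norm_pos_iff.2 h0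
    by_cases hemp : ((Finset.range E).erase m).Nonempty
    · obtain ⟨j, hj, hj'⟩ := IsUltrametricDist.exists_norm_finsetSum_le_of_nonempty hemp f
      refine hj'.trans_lt ?_
      have hjE := Finset.mem_range.1 (Finset.mem_of_mem_erase hj)
      have hjm : j ≠ m := Finset.ne_of_mem_erase hj
      by_cases hj0 : f j = 0
      · rw [hj0, norm_zero]; exact hmp
      · exact lt_of_le_of_ne (hmax j (Finset.mem_range.2 hjE)) (hne j hjE m hmE hjm hj0 h0)
    · rw [Finset.not_nonempty_iff_eq_empty.1 hemp, Finset.sum_empty, norm_zero]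
      exact hmp
  rw [← Finset.add_sum_erase _ _ hm, IsUltrametricDist.norm_add_eq_max_of_norm_ne_norm hrest.ne']
  exact le_max_left _ _

/-- If `‖y‖ ^ E = ‖p‖` and `a i` are in `k`, the nonzero terms of `sum_(j<E) a_j y^j` have
pairwise different norms, so the norm of the sum is the maximum of the norms of the terms.
PROOF. `‖a_j‖ = ‖p‖^(n_j) = ‖y‖^(E n_j)` (`D.kval`), so `‖a_j y^j‖ = ‖y‖^(E n_j + j)` (zpow) and
`0 < ‖y‖ < 1` (its `E`-th power is `‖p‖`, `0 < ‖p‖ < 1`), so equal norms for `i ≠ j < E` would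
give `E n_i + i = E n_j + j`, impossible modulo `E`. A finite sum of terms with pairwise different
nonzero norms (or zero terms) has as norm the maximum: induction on the number of terms, or choose
`i0` with the largest norm: all other terms have smaller norm, so the rest has smaller norm
(`IsUltrametricDist.norm_sum_le..` / `exists_norm_finset_sum_le`), and
`‖a + b‖ = ‖a‖` if `‖b‖ < ‖a‖`. -/
theorem basis_norm (y : L) (E : ℕ) (hE : 0 < E) (hy : ‖y‖ ^ E = ‖(p : L)‖) (a : ℕ → L)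
    (ha : ∀ i, a i ∈ D.k) :
    (∀ i < E, ‖a i‖ * ‖y‖ ^ i ≤ ‖∑ j ∈ Finset.range E, a j * y ^ j‖) ∧
      ∃ i < E, ‖∑ j ∈ Finset.range E, a j * y ^ j‖ = ‖a i‖ * ‖y‖ ^ i := by
  have hp0 : 0 < ‖(p : L)‖ := norm_pos_iff.2 D.hp0
  have hy0 : 0 < ‖y‖ := by
    rcases (norm_nonneg y).eq_or_lt with h | h
    · rw [← h, zero_pow hE.ne'] at hy
      exact absurd hy hp0.ne
    · exact h
  have hy1 : ‖y‖ < 1 := by
    by_contra hc
    have h1 : 1 ≤ ‖y‖ ^ E := one_le_pow₀ (not_lt.1 hc)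
    rw [hy] at h1
    exact absurd D.hp1 (not_lt.2 h1)
  have key : ∀ i < E, ∀ j < E, i ≠ j → a i * y ^ i ≠ 0 → a j * y ^ j ≠ 0 →
      ‖a i * y ^ i‖ ≠ ‖a j * y ^ j‖ := by
    intro i hi j hj hij h1 h2 h3
    have ai : a i ≠ 0 := left_ne_zero_of_mul h1
    have aj : a j ≠ 0 := left_ne_zero_of_mul h2
    obtain ⟨n, hn⟩ := D.kval _ (ha i) ai
    obtain ⟨m, hm⟩ := D.kval _ (ha j) aj
    rw [norm_mul, norm_mul, norm_pow, norm_pow, hn, hm, ← hy, ← zpow_natCast, ← zpow_mul, ← zpow_mul,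
      ← zpow_natCast, ← zpow_natCast, ← zpow_add₀ hy0.ne', ← zpow_add₀ hy0.ne'] at h3
    have h4 := zpow_right_injective₀ hy0 hy1.ne h3
    have h5 : ((E : ℤ)) ∣ (i : ℤ) - j := ⟨m - n, by linarith⟩
    have h6 := Int.eq_zero_of_abs_lt_dvd h5 (by rw [abs_lt]; constructor <;> omega)
    omega
  have hmain := c4_sum (fun j => a j * y ^ j) E key
  have hmain' : ∀ i < E, ‖a i‖ * ‖y‖ ^ i ≤ ‖∑ j ∈ Finset.range E, a j * y ^ j‖ := by
    intro i hi
    have := hmain i hi
    rwa [norm_mul, norm_pow] at this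
  refine ⟨hmain', ?_⟩
  obtain ⟨i, hi, hi'⟩ := IsUltrametricDist.exists_norm_finsetSum_le_of_nonempty
    (t := Finset.range E) ⟨0, Finset.mem_range.2 hE⟩ (fun j => a j * y ^ j)
  refine ⟨i, Finset.mem_range.1 hi, le_antisymm ?_ (hmain' i (Finset.mem_range.1 hi))⟩
  rwa [norm_mul, norm_pow] at hi'

end SSF
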