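import Pool.Agent.Lib.SSG.F.C4

/-! # SSG/F/C4B : integrality in a totally ramified basis -/

open Polynomial

namespace SSF

variable {p : ℕ} {R : ℕ → Type} [∀ N, CommRing (R N)] [∀ N, Fintype (R N)]
  {L : Type} [NormedField L] [IsUltrametricDist L] (D : LTD p R L)

include D in
theorem c4b_y (y : L) (E : ℕ) (hE : 0 < E) (hy : ‖y‖ ^ E = ‖(p : L)‖) : 0 < ‖y‖ ∧ ‖y‖ < 1 := by
  have hp0 : 0 < ‖(p : L)‖ := norm_pos_iff.2 D.hp0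
  constructor
  · rcases (norm_nonneg y).eq_or_lt with h | h
    · rw [← h, zero_pow hE.ne'] at hy
      exact absurd hy hp0.ne
    · exact h
  · by_contra hc
    have h1 : 1 ≤ ‖y‖ ^ E := one_le_pow₀ (not_lt.1 hc)
    rw [hy] at h1
    exact absurd D.hp1 (not_lt.2 h1)

/-- If moreover the sum has norm `≤ 1` then all `a i`, `i < E`, have norm `≤ 1`. PROOF.
`‖a_i‖ ≤ ‖y‖^(-i)` and `‖y‖^(-i) < ‖y‖^(-E) = ‖p‖⁻¹`; `‖a_i‖` is a power `‖p‖^n` (or `0`), so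
`n > -1`, `n ≥ 0`. -/
theorem basis_int (y : L) (E : ℕ) (hE : 0 < E) (hy : ‖y‖ ^ E = ‖(p : L)‖) (a : ℕ → L)
    (ha : ∀ i, a i ∈ D.k) (h : ‖∑ j ∈ Finset.range E, a j * y ^ j‖ ≤ 1) (i : ℕ) (hi : i < E) :
    ‖a i‖ ≤ 1 := by
  have hp0 : 0 < ‖(p : L)‖ := norm_pos_iff.2 D.hp0
  obtain ⟨hy0, hy1⟩ := c4b_y D y E hE hy
  by_cases h0 : a i = 0
  · rw [h0, norm_zero]; exact zero_le_one
  obtain ⟨n, hn⟩ := D.kval _ (ha i) h0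
  have h1 := ((basis_norm D y E hE hy a ha).1 i hi).trans h
  -- `‖p‖ ^ (n + 1) < 1`
  have h2 : ‖(p : L)‖ ^ (n + 1) < 1 := by
    rw [zpow_add₀ hp0.ne', zpow_one, ← hn, ← hy]
    calc ‖a i‖ * ‖y‖ ^ E < ‖a i‖ * ‖y‖ ^ i :=
          mul_lt_mul_of_pos_left (pow_lt_pow_right_of_lt_one₀ hy0 hy1 hi) (norm_pos_iff.2 h0)
      _ ≤ 1 := h1
  have h3 : 0 < n + 1 := by
    by_contra hc
    have : 1 ≤ ‖(p : L)‖ ^ (n + 1) := one_le_zpow_of_nonpos₀ hp0 D.hp1.le (not_lt.1 hc)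
    exact absurd h2 (not_lt.2 this)
  rw [hn]
  obtain ⟨m, rfl⟩ := Int.eq_ofNat_of_zero_le (show 0 ≤ n by omega)
  rw [zpow_natCast]
  exact pow_le_one₀ hp0.le D.hp1.le

/-- If the sum has norm `≤ ‖p‖` then all `a i`, `i < E`, have norm `< 1`: `‖a_i‖ ‖y‖^i ≤ ‖y‖^E`,
so `‖a_i‖ ≤ ‖y‖^(E-i) < 1`. -/
theorem basis_small (y : L) (E : ℕ) (hE : 0 < E) (hy : ‖y‖ ^ E = ‖(p : L)‖) (a : ℕ → L)
    (ha : ∀ i, a i ∈ D.k) (h : ‖∑ j ∈ Finset.range E, a j * y ^ j‖ ≤ ‖(p : L)‖) (i : ℕ)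
    (hi : i < E) : ‖a i‖ < 1 := by
  obtain ⟨hy0, hy1⟩ := c4b_y D y E hE hy
  have h1 := ((basis_norm D y E hE hy a ha).1 i hi).trans h
  rw [← hy] at h1
  by_contra hc
  have h2 : ‖y‖ ^ i ≤ ‖a i‖ * ‖y‖ ^ i := le_mul_of_one_le_left (pow_nonneg hy0.le _) (not_lt.1 hc)
  have h3 : ‖y‖ ^ E < ‖y‖ ^ i := pow_lt_pow_right_of_lt_one₀ hy0 hy1 hi
  linarith

end SSF
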