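import Pool.Agent.Lib.SSG.F.C1B
import Pool.Agent.Lib.SSG.F.C3

/-! # SSG/F/C5 : the Galois group is everything -/

namespace SSF

variable {p : ℕ} [Fact p.Prime] {R : ℕ → Type} [∀ N, CommRing (R N)] [∀ N, Fintype (R N)]
  {L : Type} [NormedField L] [IsUltrametricDist L] (D : LTD p R L)

/-- Every unit `u` of `R (N+1)` comes from an element of `G`. PROOF. Let `S` be the finite set of
the units `u` for which `σ` exists with `σ (X x) = X (u x)` for all `x`. `1 ∈ S`, `S` is closed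
under products (`σ τ`: `σ (τ (X x)) = X (u_σ u_τ x)`), and for every `σ ∈ G` the unit of `D.gal`
is in `S`, multiplication by it maps `S` injectively (so bijectively) to `S`. So
`P = prod_(u ∈ S) X u` satisfies `σ P = prod X (u_σ u) = P`: `P ∈ k` (`D.gfix`), `P ≠ 0`, and
`‖P‖ = τ ^ |S|`, `τ = ‖X 1‖` (`norm_X_eq`), `τ ^ E = ‖p‖`, `E = p^(2N)(p^2-1)` (`norm_X`).
By `D.kval` `τ ^ |S| = ‖p‖^n = τ^(E n)`, `0 < τ < 1`, so `E` divides `|S|`, and `0 < |S| ≤ E =`
number of units (`card_units`): `S` = all units. Finally the `ζ`-part: for `u` take the `σ` found;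
`D.gal` gives a unit `u'` with `σ (X x) = X (u' x)` and `σ ζ = ζ ^ (nm u')`; `X (u') = σ (X 1) =
X u`, so `u' = u` (`D.Xinj`). -/
theorem gal_surj (N : ℕ) (u : R (N + 1)) (hu : IsUnit u) :
    ∃ σ ∈ D.G, (∀ x, σ (D.X (N + 1) x) = D.X (N + 1) (u * x)) ∧
      σ (D.ζ (N + 1)) = D.ζ (N + 1) ^ (D.nm (N + 1) u).val := by
  classical
  set S : Finset (R (N + 1)) := Finset.univ.filter (fun v => IsUnit v ∧
    ∃ σ ∈ D.G, ∀ x, σ (D.X (N + 1) x) = D.X (N + 1) (v * x)) with hS
  set U : Finset (R (N + 1)) := Finset.univ.filter (fun v => IsUnit v) with hU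
  have hSU : S ⊆ U := by
    intro v hv
    simp only [hS, hU, Finset.mem_filter, Finset.mem_univ, true_and] at hv ⊢
    exact hv.1
  have hUcard : U.card = p ^ (2 * N) * (p ^ 2 - 1) := by
    rw [← card_units D N, Nat.card_eq_fintype_card, Fintype.card_subtype]
  have h1S : (1 : R (N + 1)) ∈ S := by
    simp only [hS, Finset.mem_filter, Finset.mem_univ, true_and]
    exact ⟨isUnit_one, 1, D.G.one_mem, fun x => by rw [one_mul]; rfl⟩
  have hmul : ∀ v ∈ S, ∀ w ∈ S, v * w ∈ S := by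
    intro v hv w hw
    simp only [hS, Finset.mem_filter, Finset.mem_univ, true_and] at hv hw ⊢
    obtain ⟨hv1, σ, hσ, hσx⟩ := hv
    obtain ⟨hw1, τ, hτ, hτx⟩ := hw
    refine ⟨hv1.mul hw1, σ * τ, D.G.mul_mem hσ hτ, fun x => ?_⟩
    change σ (τ (D.X (N + 1) x)) = _
    rw [hτx, hσx, mul_assoc]
  set P : L := ∏ v ∈ S, D.X (N + 1) v with hP
  have hXne : ∀ v ∈ S, D.X (N + 1) v ≠ 0 := by
    intro v hv h0
    rw [← D.X0 (N + 1)] at h0
    have := D.Xinj (N + 1) h0
    rw [this] at hv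
    simp only [hS, Finset.mem_filter, Finset.mem_univ, true_and] at hv
    exact not_isUnit_zero D N hv.1
  have hP0 : P ≠ 0 := Finset.prod_ne_zero_iff.2 hXne
  have hPk : P ∈ D.k := by
    apply D.gfix
    intro σ hσ
    obtain ⟨v, hv, hvx, _⟩ := D.gal σ hσ (N + 1)
    have hvS : v ∈ S := by
      simp only [hS, Finset.mem_filter, Finset.mem_univ, true_and]
      exact ⟨hv, σ, hσ, hvx⟩
    have hinj : Set.InjOn (fun x : R (N + 1) => v * x) (S : Set (R (N + 1))) :=
      fun x _ y _ hxy => hv.mul_left_cancel hxy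
    have himg : S.image (fun x => v * x) = S := by
      apply Finset.eq_of_subset_of_card_le
      · intro y hy
        rw [Finset.mem_image] at hy
        obtain ⟨x, hx, rfl⟩ := hy
        exact hmul v hvS x hx
      · rw [Finset.card_image_of_injOn hinj]
    rw [hP, map_prod]
    calc ∏ x ∈ S, σ (D.X (N + 1) x) = ∏ x ∈ S, D.X (N + 1) (v * x) :=
          Finset.prod_congr rfl fun x _ => hvx x
      _ = ∏ y ∈ S.image (fun x => v * x), D.X (N + 1) y := by
          rw [Finset.prod_image hinj]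
      _ = ∏ y ∈ S, D.X (N + 1) y := by rw [himg]
  have hnorm : ‖P‖ = ‖D.X (N + 1) 1‖ ^ S.card := by
    rw [hP, norm_prod]
    rw [Finset.prod_congr rfl (fun v hv => norm_X_eq D N v 1 (by
      simp only [hS, Finset.mem_filter, Finset.mem_univ, true_and] at hv
      exact hv.1) isUnit_one)]
    rw [Finset.prod_const]
  have hE := norm_X D N 1 isUnit_one
  have hlt := norm_X_lt D N 1 isUnit_one
  have hpos : 0 < ‖D.X (N + 1) 1‖ := norm_pos_iff.2 (hXne 1 h1S)
  obtain ⟨n, hn⟩ := D.kval P hPk hP0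
  rw [hnorm, ← hE, ← zpow_natCast, ← zpow_natCast, ← zpow_mul] at hn
  have hn2 := zpow_right_injective₀ hpos (ne_of_lt hlt) hn
  have hScard : S.card = U.card := by
    apply le_antisymm (Finset.card_le_card hSU)
    rw [hUcard]
    have hSpos : 0 < S.card := Finset.card_pos.2 ⟨1, h1S⟩
    have hdvd : p ^ (2 * N) * (p ^ 2 - 1) ∣ S.card := by
      have : ((p ^ (2 * N) * (p ^ 2 - 1) : ℕ) : ℤ) ∣ (S.card : ℤ) := ⟨n, hn2⟩
      exact Int.natCast_dvd_natCast.1 this
    exact Nat.le_of_dvd hSpos hdvd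
  have hSeq : S = U := Finset.eq_of_subset_of_card_le hSU (le_of_eq hScard.symm)
  have huS : u ∈ S := by
    rw [hSeq]
    simp only [hU, Finset.mem_filter, Finset.mem_univ, true_and]
    exact hu
  simp only [hS, Finset.mem_filter, Finset.mem_univ, true_and] at huS
  obtain ⟨_, σ, hσ, hσx⟩ := huS
  obtain ⟨v, _, hvx, hvz⟩ := D.gal σ hσ (N + 1)
  have huv : v = u := by
    have h2 := hvx 1
    rw [hσx 1, mul_one, mul_one] at h2
    exact (D.Xinj (N + 1) h2).symm
  rw [huv] at hvz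
  exact ⟨σ, hσ, hσx, hvz⟩

end SSF
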