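import Pool.Agent.Lib.SSG.F.C1B
import Pool.Agent.Lib.SSG.F.C3

/-! # SSG/F/C6 : the Galois group is everything, cyclotomic part -/

namespace SSF

variable {p : ℕ} [Fact p.Prime] {R : ℕ → Type} [∀ N, CommRing (R N)] [∀ N, Fintype (R N)]
  {L : Type} [NormedField L] [IsUltrametricDist L] (D : LTD p R L)

omit [IsUltrametricDist L] in
/-- exponents modulo `p ^ n`. -/
theorem c6_mul (n : ℕ) (a b : ZMod (p ^ n)) :
    (D.ζ n ^ a.val) ^ b.val = D.ζ n ^ (a * b).val := by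
  have hne : NeZero (p ^ n) := ⟨pow_ne_zero _ (Fact.out : p.Prime).ne_zero⟩
  rw [← pow_mul, ZMod.val_mul]
  exact pow_eq_pow_mod _ (D.ζprim n).pow_eq_one

theorem c6_norm (n : ℕ) (hn : 1 ≤ n) (a : (ZMod (p ^ n))ˣ) :
    ‖D.ζ n ^ (a : ZMod (p ^ n)).val - 1‖ = ‖D.ζ n - 1‖ := by
  have hne : NeZero (p ^ n) := ⟨pow_ne_zero _ (Fact.out : p.Prime).ne_zero⟩
  have hp := (Fact.out : p.Prime)
  have h1 : IsPrimitiveRoot (D.ζ n ^ (a : ZMod (p ^ n)).val) (p ^ n) :=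
    (D.ζprim n).pow_of_coprime _ (ZMod.val_coe_unit_coprime a)
  obtain ⟨m, rfl⟩ : ∃ m, n = m + 1 := ⟨n - 1, by omega⟩
  have h2 := norm_prim m _ h1
  have h3 := norm_prim m _ (D.ζprim (m + 1))
  have hE : p ^ m * (p - 1) ≠ 0 := by
    have := hp.two_le
    exact mul_ne_zero (pow_ne_zero _ hp.ne_zero) (by omega)
  exact (pow_left_inj₀ (norm_nonneg _) (norm_nonneg _) hE).1 (h2.trans h3.symm)

/-- Every `a` occurs as `σ ζ = ζ^a`. PROOF. The same argument with the set `S` of the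
`a : (ZMod (p^n))ˣ` for which `σ` exists, `P = prod_(a ∈ S) (ζ^a - 1)`; all factors have norm
`‖φ_n‖` (`norm_prim` for the primitive root `ζ^a`, equal `E`-th powers), `‖φ_n‖^E = ‖p‖`,
`E = p^(n-1)(p-1) =` number of units of `ZMod (p^n)` (`ZMod.card_units_eq_totient`,
`Nat.totient_prime_pow`). Every `σ ∈ G` maps `ζ` to `ζ^c`, `c = nm u` a unit (`D.gal`), and
`σ (ζ^a - 1) = ζ^(c a) - 1` (exponents modulo `p^n`: `ζ ^ (c.val * a.val) = ζ ^ (c * a).val`,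
`ZMod.val_mul`, `pow_mod_orderOf`). -/
theorem gal_cyc (n : ℕ) (hn : 1 ≤ n) (a : (ZMod (p ^ n))ˣ) :
    ∃ σ ∈ D.G, σ (D.ζ n) = D.ζ n ^ (a : ZMod (p ^ n)).val := by
  classical
  have hne : NeZero (p ^ n) := ⟨pow_ne_zero _ (Fact.out : p.Prime).ne_zero⟩
  have hp := (Fact.out : p.Prime)
  let S : Finset (ZMod (p ^ n))ˣ := Finset.univ.filter fun a =>
    ∃ σ ∈ D.G, σ (D.ζ n) = D.ζ n ^ (a : ZMod (p ^ n)).val
  have hS : ∀ b, b ∈ S ↔ ∃ σ ∈ D.G, σ (D.ζ n) = D.ζ n ^ (b : ZMod (p ^ n)).val := by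
    intro b
    simp [S]
  suffices h : S = Finset.univ by
    exact (hS a).1 (h ▸ Finset.mem_univ a)
  have h1S : (1 : (ZMod (p ^ n))ˣ) ∈ S := by
    rw [hS]
    refine ⟨1, D.G.one_mem, ?_⟩
    rw [Units.val_one]
    have h1 : (1 : ZMod (p ^ n)).val = 1 := by
      have : Fact (1 < p ^ n) := ⟨Nat.one_lt_pow (by omega) hp.one_lt⟩
      exact ZMod.val_one _
    rw [h1, pow_one]
    rfl
  have hmul : ∀ σ ∈ D.G, ∀ c : (ZMod (p ^ n))ˣ, σ (D.ζ n) = D.ζ n ^ (c : ZMod (p ^ n)).val → ∀ b ∈ S, c * b ∈ S := by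
    intro σ hσ c hc b hb
    rw [hS] at hb ⊢
    obtain ⟨τ, hτ, hb⟩ := hb
    refine ⟨σ * τ, D.G.mul_mem hσ hτ, ?_⟩
    show σ (τ (D.ζ n)) = _
    rw [hb, map_pow, hc, c6_mul, Units.val_mul]
  let P : L := ∏ b ∈ S, (D.ζ n ^ (b : ZMod (p ^ n)).val - 1)
  have hPk : P ∈ D.k := by
    apply D.gfix
    intro σ hσ
    obtain ⟨u, hu, -, huζ⟩ := D.gal σ hσ n
    obtain ⟨c, hc⟩ := hu.map (D.nm n)
    rw [← hc] at huζ
    have himg : S.image (fun b => c * b) = S := by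
      apply Finset.eq_of_subset_of_card_le
      · intro b hb
        rw [Finset.mem_image] at hb
        obtain ⟨b', hb', rfl⟩ := hb
        exact hmul σ hσ c huζ b' hb'
      · rw [Finset.card_image_of_injective _ (mul_right_injective c)]
    calc σ P = ∏ b ∈ S, (D.ζ n ^ ((c * b : (ZMod (p ^ n))ˣ) : ZMod (p ^ n)).val - 1) := by
          rw [map_prod]
          refine Finset.prod_congr rfl fun b _ => ?_
          rw [map_sub, map_pow, map_one, huζ, c6_mul, Units.val_mul]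
      _ = ∏ b ∈ S.image (fun b => c * b), (D.ζ n ^ (b : ZMod (p ^ n)).val - 1) := by
          rw [Finset.prod_image fun x _ y _ h => mul_right_injective c h]
      _ = P := by rw [himg]
  obtain ⟨h0, h1⟩ := phi_pos D n hn
  have hPn : ‖P‖ = ‖D.ζ n - 1‖ ^ S.card := by
    rw [show ‖P‖ = ∏ b ∈ S, ‖D.ζ n ^ (b : ZMod (p ^ n)).val - 1‖ from norm_prod _ _,
      Finset.prod_congr rfl fun b _ => c6_norm D n hn b, Finset.prod_const]
  have hP0 : P ≠ 0 := by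
    rw [← norm_pos_iff, hPn]
    exact pow_pos h0 _
  obtain ⟨z, hz⟩ := D.kval P hPk hP0
  rw [hPn, ← phi_e D n hn, ← zpow_natCast, ← zpow_natCast, ← zpow_mul] at hz
  have hz' := zpow_right_injective₀ h0 h1.ne hz
  have hcard : Fintype.card (ZMod (p ^ n))ˣ = p ^ (n - 1) * (p - 1) := by
    rw [ZMod.card_units_eq_totient, Nat.totient_prime_pow hp (by omega)]
  have hSc : 0 < S.card := Finset.card_pos.2 ⟨1, h1S⟩
  have hdvd : p ^ (n - 1) * (p - 1) ∣ S.card := by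
    have h3 : ((p ^ (n - 1) * (p - 1) : ℕ) : ℤ) ∣ (S.card : ℤ) := ⟨z, hz'⟩
    exact Int.natCast_dvd_natCast.1 h3
  have hle := Nat.le_of_dvd hSc hdvd
  rw [← hcard] at hle
  exact Finset.eq_univ_of_card S (le_antisymm (Finset.card_le_univ S) hle)

/-- every unit of `ZMod (p ^ (N+1))` is a norm: `gal_cyc`, then `D.gal` (`ζ^a = ζ^(nm u)` implies
`a = nm u`, primitive root). -/
theorem nm_surj (N : ℕ) (a : (ZMod (p ^ (N + 1)))ˣ) :
    ∃ u : R (N + 1), IsUnit u ∧ D.nm (N + 1) u = a := by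
  have hne : NeZero (p ^ (N + 1)) := ⟨pow_ne_zero _ (Fact.out : p.Prime).ne_zero⟩
  obtain ⟨σ, hσ, h⟩ := gal_cyc D (N + 1) (by omega) a
  obtain ⟨u, hu, -, h2⟩ := D.gal σ hσ (N + 1)
  refine ⟨u, hu, ?_⟩
  rw [h2] at h
  have h3 := (D.ζprim (N + 1)).pow_inj (ZMod.val_lt _) (ZMod.val_lt _) h
  exact ZMod.val_injective _ h3

end SSF
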