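import Pool.Agent.Lib.SSG.F.D1

/-! # SSG/F/C7 : interpolation with coefficients in `k` -/

open Polynomial

namespace SSF

variable {p : ℕ} [Fact p.Prime] {R : ℕ → Type} [∀ N, CommRing (R N)] [∀ N, Fintype (R N)]
  {L : Type} [NormedField L] [IsUltrametricDist L] (D : LTD p R L)

omit [Fact p.Prime] in
/-- Interpolation. PROOF. `P = Lagrange.interpolate univ y f` (`degree < card V`,
`Lagrange.degree_interpolate_lt`, `eval_interpolate_at_node`). For `σ ∈ G` the polynomial
`P.map σ` takes at `y (π v) = σ (y v)` the value `σ (P (y v)) = σ (f v) = f (π v)`; `π` is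
surjective, so `P.map σ` and `P` agree at all `card V` points and have degree `< card V`:
equal (`Polynomial.eq_of_degrees_lt_of_eval_index_eq`). So all coefficients are fixed by `G`:
in `k` (`D.gfix`). -/
theorem interp (V : Type) [Fintype V] (y f : V → L) (hy : Function.Injective y)
    (hσ : ∀ σ ∈ D.G, ∃ π : V → V, Function.Surjective π ∧ (∀ v, σ (y v) = y (π v)) ∧
      ∀ v, σ (f v) = f (π v)) :
    ∃ P : L[X], P.degree < Fintype.card V ∧ (∀ i, P.coeff i ∈ D.k) ∧ ∀ v, P.eval (y v) = f v := by
  classical
  have hinj : Set.InjOn y (↑(Finset.univ : Finset V) : Set V) := hy.injOn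
  set P : L[X] := Lagrange.interpolate Finset.univ y f with hP
  have hdeg : P.degree < (Fintype.card V : WithBot ℕ) := by
    have := Lagrange.degree_interpolate_lt (r := f) hinj
    rwa [Finset.card_univ] at this
  have hev : ∀ v, P.eval (y v) = f v := fun v =>
    Lagrange.eval_interpolate_at_node (r := f) hinj (Finset.mem_univ v)
  refine ⟨P, hdeg, ?_, hev⟩
  intro i
  apply D.gfix
  intro σ hs
  obtain ⟨π, hπ, h1, h2⟩ := hσ σ hs
  have hmap : P.map (σ : L →+* L) = P := by
    apply Polynomial.eq_of_degrees_lt_of_eval_index_eq (v := y) Finset.univ hinj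
    · rw [Polynomial.degree_map, Finset.card_univ]
      exact hdeg
    · rw [Finset.card_univ]
      exact hdeg
    · intro w _
      obtain ⟨v, rfl⟩ := hπ w
      rw [hev, ← h1 v, ← h2 v]
      have : (P.map (σ : L →+* L)).eval ((σ : L →+* L) (y v)) = (σ : L →+* L) (P.eval (y v)) :=
        Polynomial.eval_map_apply _ _ 
      rw [hev] at this
      exact this
  have := congrArg (fun Q : L[X] => Q.coeff i) hmap
  simp only [Polynomial.coeff_map] at this
  exact this

end SSF
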