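import Pool.Agent.Lib.SSG.F.C4B
import Pool.Agent.Lib.SSG.F.D1

/-! # SSG/F/C7B : lifting to `W` -/

open Polynomial

namespace SSF

variable {p : ℕ} [Fact p.Prime] {R : ℕ → Type} [∀ N, CommRing (R N)] [∀ N, Fintype (R N)]
  {L : Type} [NormedField L] [IsUltrametricDist L] (D : LTD p R L)

/-- A polynomial of degree `< E` with coefficients in `k` whose value at `y` (`‖y‖^E = ‖p‖`) has
norm `≤ 1` has coefficients in `W` (`basis_int`), so it comes from `D.W[X]`
(`Polynomial.sum_over_range'`, define the polynomial over `W` by its coefficients, or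
`Polynomial.toSubring`/`Polynomial.lifts`). -/
theorem lift_W (P : L[X]) (E : ℕ) (hE : 0 < E) (hd : P.degree < E) (hk : ∀ i, P.coeff i ∈ D.k)
    (y : L) (hy : ‖y‖ ^ E = ‖(p : L)‖) (h1 : ‖P.eval y‖ ≤ 1) :
    ∃ B : D.W[X], B.map D.W.subtype = P ∧ B.natDegree < E := by
  have hnd : P.natDegree < E := by
    by_cases h0 : P = 0
    · rw [h0, natDegree_zero]; exact hE
    · exact (natDegree_lt_iff_degree_lt h0).2 hd
  have hev : P.eval y = ∑ j ∈ Finset.range E, P.coeff j * y ^ j := eval_eq_sum_range' hnd y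
  rw [hev] at h1
  have hc : ∀ i, P.coeff i ∈ D.W := by
    intro i
    refine ⟨hk i, ?_⟩
    by_cases hi : i < E
    · exact basis_int D y E hE hy P.coeff hk h1 i hi
    · rw [coeff_eq_zero_of_natDegree_lt (by omega), norm_zero]
      exact zero_le_one
  have hsub : (↑P.coeffs : Set L) ⊆ D.W := by
    intro c hc'
    obtain ⟨n, -, rfl⟩ := mem_coeffs_iff.1 hc'
    exact hc n
  refine ⟨P.toSubring D.W hsub, map_toSubring P D.W hsub, ?_⟩
  rw [natDegree_toSubring]
  exact hnd

end SSF
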