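import Pool.Agent.Lib.SSG.F.C7
import Pool.Agent.Lib.SSG.F.C7B
import Pool.Agent.Lib.SSG.F.C5

/-! # SSG/F/C8 : `w` exists -/

open Polynomial

namespace SSF

variable {p : ℕ} [Fact p.Prime] {R : ℕ → Type} [∀ N, CommRing (R N)] [∀ N, Fintype (R N)]
  {L : Type} [NormedField L] [IsUltrametricDist L] (D : LTD p R L)

theorem c8_pow (n : ℕ) (x y : ZMod (p ^ n)) : (D.ζ n ^ x.val) ^ y.val = D.ζ n ^ (x * y).val := by
  have hp : NeZero (p ^ n) := ⟨pow_ne_zero _ (Fact.out : p.Prime).ne_zero⟩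
  rw [ZMod.val_mul, ← pow_mul]
  exact pow_eq_pow_mod _ (D.ζprim n).pow_eq_one

/-- `w` exists. PROOF. `interp` with `V` = units of `R (N+1)` (the subtype), `y = X`,
`f v = ζ ^ (nm v).val`; for `σ ∈ G` with its unit `u` (`D.gal`) `π v = u v` and
`σ (ζ^(nm v)) = ζ^(nm u nm v)` (exponents mod `p^(N+1)`). `card V = E` (`card_units`). Then
`lift_W` with `y = X 1` (`norm_X`), the value is a root of unity. -/
theorem exists_w (N : ℕ) : ∃ w : D.W[X], D.IsW (N + 1) w := by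
  classical
  have hp : NeZero (p ^ (N + 1)) := ⟨pow_ne_zero _ (Fact.out : p.Prime).ne_zero⟩
  have hp2 := (Fact.out : p.Prime).two_le
  have hy : Function.Injective (fun v : {x : R (N + 1) // IsUnit x} => D.X (N + 1) v.1) :=
    fun a b h => Subtype.ext (D.Xinj (N + 1) h)
  obtain ⟨P, hP1, hP2, hP3⟩ := interp D {x : R (N + 1) // IsUnit x} (fun v => D.X (N + 1) v.1)
    (fun v => D.ζ (N + 1) ^ (D.nm (N + 1) v.1).val) hy (by
      intro σ hσ
      obtain ⟨u, hu, hX, hz⟩ := D.gal σ hσ (N + 1)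
      refine ⟨fun v => ⟨u * v.1, hu.mul v.2⟩, ?_, fun v => hX v.1, ?_⟩
      · intro w
        refine ⟨⟨↑(hu.unit⁻¹) * w.1, (Units.isUnit _).mul w.2⟩, ?_⟩
        apply Subtype.ext
        show u * (↑(hu.unit⁻¹) * w.1) = w.1
        rw [← mul_assoc]
        have : u * ↑(hu.unit⁻¹) = 1 := by
          have := hu.unit.mul_inv
          rwa [IsUnit.unit_spec] at this
        rw [this, one_mul]
      · intro v
        show σ (D.ζ (N + 1) ^ (D.nm (N + 1) v.1).val) = D.ζ (N + 1) ^ (D.nm (N + 1) (u * v.1)).val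
        rw [map_mul, map_pow, hz, c8_pow])
  have hcard : Fintype.card {x : R (N + 1) // IsUnit x} = p ^ (2 * N) * (p ^ 2 - 1) := by
    rw [← Nat.card_eq_fintype_card]
    exact card_units D N
  have hE : 0 < p ^ (2 * N) * (p ^ 2 - 1) := by
    apply Nat.mul_pos (pow_pos (by omega) _)
    have : 2 * 2 ≤ p ^ 2 := by nlinarith
    omega
  have h1 : ‖D.ζ (N + 1)‖ = 1 := by
    have h2 : ‖D.ζ (N + 1)‖ ^ (p ^ (N + 1)) = 1 := by rw [← norm_pow, (D.ζprim _).pow_eq_one, norm_one]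
    exact (pow_eq_one_iff_of_nonneg (norm_nonneg _) hp.out).1 h2
  rw [hcard] at hP1
  obtain ⟨B, hB1, hB2⟩ := lift_W D P _ hE hP1 hP2 (D.X (N + 1) 1) (norm_X D N 1 isUnit_one) (by
    have := hP3 ⟨1, isUnit_one⟩
    simp only at this
    rw [this, norm_pow, h1, one_pow])
  refine ⟨B, ?_, ?_⟩
  · rw [Nat.add_sub_cancel]
    exact hB2
  · intro x hx
    have := hP3 ⟨x, hx⟩
    simp only at this
    rw [← this, ← hB1, Polynomial.eval_map]
    rfl

end SSF
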