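import Pool.Agent.Lib.SSG.F.C6

/-! # SSG/F/C9 : the rings `O n` -/

open Polynomial

namespace SSF

variable {p : ℕ} [Fact p.Prime] {R : ℕ → Type} [∀ N, CommRing (R N)] [∀ N, Fintype (R N)]
  {L : Type} [NormedField L] [IsUltrametricDist L] (D : LTD p R L)

theorem c9_pow (n : ℕ) (x y : ZMod (p ^ n)) : (D.ζ n ^ x.val) ^ y.val = D.ζ n ^ (x * y).val := by
  have hp : NeZero (p ^ n) := ⟨pow_ne_zero _ (Fact.out : p.Prime).ne_zero⟩
  rw [ZMod.val_mul, ← pow_mul]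
  exact pow_eq_pow_mod _ (D.ζprim n).pow_eq_one

/-- elements of `O n` are equivariant: `σ (B(ζ^a)) = B(ζ^(c a))` as `σ` fixes the coefficients of
`B` (`D.gk`) (`Polynomial.hom_eval₂`; exponents mod `p^n`). -/
theorem Eqv_of_mem (n : ℕ) (f : (ZMod (p ^ n))ˣ → L) (hf : f ∈ D.O n) : D.Eqv n f := by
  obtain ⟨B, hB⟩ := hf
  intro σ hσ c hc a
  rw [hB, hB]
  unfold LTD.ev
  have h1 := Polynomial.hom_eval₂ B D.W.subtype (σ : L →+* L) (D.ζ n ^ (a : ZMod (p ^ n)).val)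
  have h2 : (σ : L →+* L).comp D.W.subtype = D.W.subtype := by
    ext x
    exact D.gk σ hσ _ x.2.1
  have h3 : (σ : L →+* L) (D.ζ n ^ (a : ZMod (p ^ n)).val) = D.ζ n ^ ((c * a : (ZMod (p ^ n))ˣ) : ZMod (p ^ n)).val := by
    rw [map_pow, Units.val_mul, ← c9_pow D]
    exact congrArg (· ^ (a : ZMod (p ^ n)).val) hc
  rw [h2, h3] at h1
  exact h1

/-- values of elements of `O n` have norm `≤ 1` (ultrametric, coefficients in `W`, roots of unity)
and all conjugates have the same norm (`Eqv_of_mem`, `gal_cyc`, `D.giso`). -/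
theorem O_norm (n : ℕ) (hn : 1 ≤ n) (f : (ZMod (p ^ n))ˣ → L) (hf : f ∈ D.O n)
    (a : (ZMod (p ^ n))ˣ) : ‖f a‖ ≤ 1 ∧ ‖f a‖ = ‖f 1‖ := by
  constructor
  · obtain ⟨B, hB⟩ := hf
    rw [hB]
    unfold LTD.ev
    rw [Polynomial.eval₂_eq_sum_range]
    apply IsUltrametricDist.norm_sum_le_of_forall_le_of_nonneg zero_le_one
    intro i _
    have h1 : ‖D.ζ n‖ = 1 := by
      have hp : NeZero (p ^ n) := ⟨pow_ne_zero _ (Fact.out : p.Prime).ne_zero⟩
      have h2 : ‖D.ζ n‖ ^ (p ^ n) = 1 := by rw [← norm_pow, (D.ζprim n).pow_eq_one, norm_one]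
      exact (pow_eq_one_iff_of_nonneg (norm_nonneg _) hp.out).1 h2
    rw [norm_mul, norm_pow, norm_pow, h1, one_pow, one_pow, mul_one]
    exact (B.coeff i).2.2
  · obtain ⟨σ, hσ, h1⟩ := gal_cyc D n hn a
    have h2 := Eqv_of_mem D n f hf σ hσ a h1 1
    rw [mul_one] at h2
    rw [← h2]
    exact D.giso σ hσ _

end SSF
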