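import Pool.Agent.Lib.SSG.F.C9
import Pool.Agent.Lib.SSG.F.C7
import Pool.Agent.Lib.SSG.F.C7B

/-! # SSG/F/C9B : equivariant functions of norm `≤ 1` -/

open Polynomial

namespace SSF

variable {p : ℕ} [Fact p.Prime] {R : ℕ → Type} [∀ N, CommRing (R N)] [∀ N, Fintype (R N)]
  {L : Type} [NormedField L] [IsUltrametricDist L] (D : LTD p R L)

/-- Conversely: equivariant and of norm `≤ 1` implies in `O n`. PROOF. `interp` with
`V = (ZMod (p^n))ˣ`, `y a = ζ^a - 1`, the given `f`; for `σ ∈ G` with `σ ζ = ζ^c`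
(`D.gal`, `c = nm u`, a unit) `π a = c a`. `E = card V = p^(n-1)(p-1)` (`phi_e` at `y 1`,
`ZMod.card_units_eq_totient`, `Nat.totient_prime_pow`). `lift_W` at `y 1 = φ_n` gives `B` over `W`
with `B(ζ^a - 1) = f a`; compose with `X - 1` (`Polynomial.eval₂_comp`). -/
theorem mem_O_of_Eqv (n : ℕ) (hn : 1 ≤ n) (f : (ZMod (p ^ n))ˣ → L) (hf : D.Eqv n f)
    (h1 : ‖f 1‖ ≤ 1) : f ∈ D.O n := by
  classical
  have hp : NeZero (p ^ n) := ⟨pow_ne_zero _ (Fact.out : p.Prime).ne_zero⟩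
  have hpp : p.Prime := Fact.out
  have hy : Function.Injective (fun a : (ZMod (p ^ n))ˣ => D.ζ n ^ (a : ZMod (p ^ n)).val - 1) := by
    intro a b h
    have h2 : D.ζ n ^ (a : ZMod (p ^ n)).val = D.ζ n ^ (b : ZMod (p ^ n)).val := sub_left_inj.1 h
    have h3 := (D.ζprim n).pow_inj (ZMod.val_lt _) (ZMod.val_lt _) h2
    exact Units.ext (ZMod.val_injective _ h3)
  obtain ⟨P, hP1, hP2, hP3⟩ := interp D (ZMod (p ^ n))ˣ
    (fun a => D.ζ n ^ (a : ZMod (p ^ n)).val - 1) f hy (by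
      intro σ hσ
      obtain ⟨u, hu, hX, hz⟩ := D.gal σ hσ n
      set c : (ZMod (p ^ n))ˣ := (hu.map (D.nm n)).unit with hc
      have hcv : (c : ZMod (p ^ n)) = D.nm n u := IsUnit.unit_spec _
      refine ⟨fun a => c * a, ?_, ?_, ?_⟩
      · intro w
        exact ⟨c⁻¹ * w, by simp⟩
      · intro a
        show σ (D.ζ n ^ (a : ZMod (p ^ n)).val - 1) = D.ζ n ^ ((c * a : (ZMod (p ^ n))ˣ) : ZMod (p ^ n)).val - 1
        rw [map_sub, map_one, map_pow, hz, Units.val_mul, ← hcv, c9_pow]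
      · intro a
        exact hf σ hσ c (by rw [hcv]; exact hz) a)
  have hcard : Fintype.card (ZMod (p ^ n))ˣ = p ^ (n - 1) * (p - 1) := by
    rw [ZMod.card_units_eq_totient, Nat.totient_prime_pow hpp hn]
  have hE : 0 < p ^ (n - 1) * (p - 1) := Nat.mul_pos (pow_pos hpp.pos _) (by have := hpp.two_le; omega)
  rw [hcard] at hP1
  have h1v : ((1 : (ZMod (p ^ n))ˣ) : ZMod (p ^ n)).val = 1 := by
    have : Fact (1 < p ^ n) := ⟨Nat.one_lt_pow (by omega) hpp.one_lt⟩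
    rw [Units.val_one, ZMod.val_one]
  obtain ⟨B, hB1, hB2⟩ := lift_W D P _ hE hP1 hP2 (D.ζ n - 1) (phi_e D n hn) (by
    have := hP3 1
    simp only [h1v, pow_one] at this
    rw [this]
    exact h1)
  refine ⟨B.comp (Polynomial.X - 1), ?_⟩
  intro a
  unfold LTD.ev
  rw [Polynomial.eval₂_comp, ← hP3 a, ← hB1, Polynomial.eval_map]
  simp

end SSF
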