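import Mathlib

/-!
# SSG/F : the one-variable functional of Lubin-Tate torsion points (module F of the supersingular
theorem, MP_f50388).  Definitions.

`q = p ^ 2`, `varpi = - p`, `g(Z) = Z ^ q - p Z`.
-/

open Polynomial

namespace SSF

noncomputable section

/-- `C~ (Z ^ m)` where `(C~ h)(y) = p⁻¹ * sum of h(z) over the roots z of z ^ q - p z = y`. -/
def ctm (S : Type) [CommRing S] (p m : ℕ) : S[X] :=
  if m = 0 then C (p : S)
  else if m < p ^ 2 - 1 then 0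
  else if m = p ^ 2 - 1 then C (((p ^ 2 - 1 : ℕ)) : S)
  else if 2 ≤ p then C (p : S) * ctm S p (m + 1 - p ^ 2) + X * ctm S p (m - p ^ 2)
  else 0
termination_by m
decreasing_by
  all_goals
    have h4 : 2 * 2 ≤ p ^ 2 := by nlinarith
    omega

/-- the operator `C~` on polynomials. -/
def Ct {S : Type} [CommRing S] (p : ℕ) (h : S[X]) : S[X] :=
  h.sum fun m a => C a * ctm S p m

/-- The tower `R N = O_F / p ^ N` (`F` quadratic, `p` inert), its norms, the Lubin-Tate coordinates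
`X N x` = coordinate of `[x] t_N`, the roots of unity `ζ N`, the field `k` (the closure of `F`),
the group `G` of automorphisms over `k`. -/
structure LTD (p : ℕ) (R : ℕ → Type) [∀ N, CommRing (R N)] [∀ N, Fintype (R N)]
    (L : Type) [NormedField L] where
  /-- reduction modulo `p ^ N` -/
  red : ∀ N, R (N + 1) →+* R N
  /-- the norm modulo `p ^ N` -/
  nm : ∀ N, R N →* ZMod (p ^ N)
  /-- the closure of `F` (unramified quadratic extension of `Q_p`) -/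
  k : Subfield L
  /-- automorphisms of `L` over `k` -/
  G : Subgroup (RingAut L)
  /-- the Lubin-Tate coordinate of `[x] t_N` -/
  X : ∀ N, R N → L
  /-- primitive `p ^ N`-th roots of unity -/
  ζ : ℕ → L
  hp0 : (p : L) ≠ 0
  hp1 : ‖(p : L)‖ < 1
  kval : ∀ x ∈ k, x ≠ 0 → ∃ n : ℤ, ‖x‖ = ‖(p : L)‖ ^ n
  giso : ∀ σ ∈ G, ∀ x : L, ‖σ x‖ = ‖x‖
  gk : ∀ σ ∈ G, ∀ x ∈ k, σ x = x
  gfix : ∀ x : L, (∀ σ ∈ G, σ x = x) → x ∈ k
  fib : ∀ N (y : R N), Nat.card {x : R (N + 1) // red N x = y} = p ^ 2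
  nmred : ∀ N (x : R (N + 1)),
    ZMod.castHom (pow_dvd_pow p (Nat.le_succ N)) (ZMod (p ^ N)) (nm (N + 1) x) = nm N (red N x)
  nmu : ∀ N (x : R N), IsUnit (nm N x) → IsUnit x
  card0 : Nat.card (R 0) = 1
  card1 : Nat.card {x : R 1 // IsUnit x} = p ^ 2 - 1
  norm1 : Nat.card {x : R 1 // nm 1 x = 1} = p + 1
  X0 : ∀ N, X N 0 = 0
  Xinj : ∀ N, Function.Injective (X N)
  Xg : ∀ N (x : R (N + 1)), X (N + 1) x ^ (p ^ 2) - (p : L) * X (N + 1) x = X N (red N x)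
  Xpi : ∀ N (x : R (N + 1)), X (N + 1) (-(p : R (N + 1)) * x) = X N (red N x)
  ζprim : ∀ N, IsPrimitiveRoot (ζ N) (p ^ N)
  ζp : ∀ N, ζ (N + 1) ^ p = ζ N
  gal : ∀ σ ∈ G, ∀ N, ∃ u : R N, IsUnit u ∧ (∀ x, σ (X N x) = X N (u * x)) ∧
    σ (ζ N) = ζ N ^ (nm N u).val

end

end SSF
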