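import Pool.Agent.Lib.SSG.F.D1

/-! # SSG/F/D2 : the leading term statement (definition) -/

open Polynomial
open scoped Classical

namespace SSF

variable {p : ℕ} [Fact p.Prime] {R : ℕ → Type} [∀ N, CommRing (R N)] [∀ N, Fintype (R N)]
  {L : Type} [NormedField L] [IsUltrametricDist L] (D : LTD p R L)

/-- the leading term of `T n 1 h` is `(-1)^(n/2) h_(q^(n/2) - 1) φ_n^(r_n)`. -/
def LTD.Lead (D : LTD p R L) (n : ℕ) : Prop :=
  ∀ h : D.W[X], ‖D.T n 1 h - (-1) ^ (n / 2) * (h.coeff (p ^ (2 * (n / 2)) - 1) : L) *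
    (D.ζ n - 1) ^ (p ^ n / (p + 1))‖ < ‖D.ζ n - 1‖ ^ (p ^ n / (p + 1))

/-- the polynomials `h_b = Ct (w^(p^(n+1) - b) h)` of the recursion. -/
noncomputable def LTD.hb (D : LTD p R L) (n : ℕ) (w h : D.W[X]) (b : ℕ) : D.W[X] :=
  Ct p (w ^ (p ^ (n + 1) - b) * h)

end SSF
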