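import Pool.Agent.Lib.SSG.F.D2

/-! # SSG/F/D3 : the unit `1 + p` (no sorry) -/

open Polynomial
open scoped Classical

namespace SSF

variable {p : ℕ} [Fact p.Prime] {R : ℕ → Type} [∀ N, CommRing (R N)] [∀ N, Fintype (R N)]
  {L : Type} [NormedField L] [IsUltrametricDist L] (D : LTD p R L)

omit [Fact p.Prime] in
theorem cop_onep (p n : ℕ) : Nat.Coprime (1 + p) (p ^ n) :=
  Nat.Coprime.pow_right n (by simp)

/-- the unit `1 + p` of `ZMod (p ^ n)` -/
noncomputable def onep (p n : ℕ) : (ZMod (p ^ n))ˣ := ZMod.unitOfCoprime (1 + p) (cop_onep p n)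

end SSF
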