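import Pool.Agent.Lib.SSG.F.C1B

/-! # SSG/F/E1 : the leading term at level one -/

open Polynomial
open scoped Classical

namespace SSF

variable {p : ℕ} [Fact p.Prime] {R : ℕ → Type} [∀ N, CommRing (R N)] [∀ N, Fintype (R N)]
  {L : Type} [NormedField L] [IsUltrametricDist L] (D : LTD p R L)

/-- `T 1 1 h` is the sum of `h(X x)` over the `p + 1` elements of norm one (`D.norm1`), all units
(`D.nmu`), `‖X x‖ < 1` (`norm_X_lt`), so `‖ev h (X x) - h.coeff 0‖ < 1` (`h = C (h.coeff 0) + X h'`,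
`Polynomial.divX_mul_X_add`); so the sum is congruent to `(p+1) h.coeff 0`, and `‖p‖ < 1`. -/
theorem lead_one (h : D.W[X]) : ‖D.T 1 1 h - (h.coeff 0 : L)‖ < 1 := by
  have hsum : ∀ (s : Finset (R 1)) (f : R 1 → L), (∀ x ∈ s, ‖f x‖ < 1) → ‖∑ x ∈ s, f x‖ < 1 := by
    intro s f hf
    induction s using Finset.induction_on with
    | empty => simp
    | insert a s ha ih =>
      rw [Finset.sum_insert ha]
      refine (IsUltrametricDist.norm_add_le_max _ _).trans_lt (max_lt (hf a (Finset.mem_insert_self a s)) ?_)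
      exact ih fun x hx => hf x (Finset.mem_insert_of_mem hx)
  have hev : ∀ (g : D.W[X]) (y : L), ‖y‖ ≤ 1 → ‖D.ev g y‖ ≤ 1 := by
    intro g y hy
    unfold LTD.ev
    rw [eval₂_eq_sum_range]
    refine IsUltrametricDist.norm_sum_le_of_forall_le_of_nonneg zero_le_one fun i _ => ?_
    rw [norm_mul, norm_pow]
    exact mul_le_one₀ (g.coeff i).2.2 (by positivity) (pow_le_one₀ (norm_nonneg _) hy)
  have hx : ∀ x ∈ Finset.univ.filter (fun x : R 1 => D.nm 1 x = 1),
      ‖D.ev h (D.X 1 x) - (h.coeff 0 : L)‖ < 1 := by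
    intro x hx
    have hn : D.nm 1 x = 1 := (Finset.mem_filter.1 hx).2
    have hu : IsUnit x := D.nmu 1 x (by rw [hn]; exact isUnit_one)
    have hy : ‖D.X 1 x‖ < 1 := norm_X_lt D 0 x hu
    have e1 : D.ev h (D.X 1 x) = D.ev (divX h) (D.X 1 x) * D.X 1 x + (h.coeff 0 : L) := by
      have e2 := congrArg (fun g => D.ev g (D.X 1 x)) (divX_mul_X_add h)
      simp only [LTD.ev, eval₂_add, eval₂_mul, eval₂_X, eval₂_C] at e2
      rw [LTD.ev, ← e2]
      rfl
    rw [e1, add_sub_cancel_right, norm_mul]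
    calc ‖D.ev (divX h) (D.X 1 x)‖ * ‖D.X 1 x‖ ≤ 1 * ‖D.X 1 x‖ :=
          mul_le_mul_of_nonneg_right (hev _ _ hy.le) (norm_nonneg _)
      _ < 1 := by rwa [one_mul]
  have hcard : (Finset.univ.filter (fun x : R 1 => D.nm 1 x = 1)).card = p + 1 := by
    rw [← D.norm1, Nat.card_eq_fintype_card, Fintype.card_subtype]
  have e3 : D.T 1 1 h - (h.coeff 0 : L) =
      (∑ x ∈ Finset.univ.filter (fun x : R 1 => D.nm 1 x = 1), (D.ev h (D.X 1 x) - (h.coeff 0 : L))) +
        (p : L) * (h.coeff 0 : L) := by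
    rw [Finset.sum_sub_distrib, Finset.sum_const, hcard, nsmul_eq_mul]
    unfold LTD.T
    push_cast
    ring
  rw [e3]
  refine (IsUltrametricDist.norm_add_le_max _ _).trans_lt (max_lt (hsum _ _ hx) ?_)
  rw [norm_mul]
  calc ‖(p : L)‖ * ‖(h.coeff 0 : L)‖ ≤ ‖(p : L)‖ * 1 := mul_le_mul_of_nonneg_left (h.coeff 0).2.2 (norm_nonneg _)
    _ < 1 := by rw [mul_one]; exact D.hp1

end SSF
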