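import Pool.Agent.Lib.SSG.F.E2A
import Pool.Agent.Lib.SSG.F.C12
import Pool.Agent.Lib.SSG.F.C13
import Pool.Agent.Lib.SSG.F.B3B
import Pool.Agent.Lib.SSG.F.C3

/-! # SSG/F/E2 : the leading term, step from odd to even level -/

open Polynomial
open scoped Classical

namespace SSF

variable {p : ℕ} [Fact p.Prime] {R : ℕ → Type} [∀ N, CommRing (R N)] [∀ N, Fintype (R N)]
  {L : Type} [NormedField L] [IsUltrametricDist L] (D : LTD p R L)

/-- Step from `n = 2M + 1` to `n + 1 = 2 (M + 1)`. PROOF. Let `r = p^n/(p+1)`, `φ = ζ n - 1`,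
`ψ = ζ (n+1) - 1`, `w` from `exists_w`, `c = h.coeff (p^(2(M+1)) - 1)`. For `b < p` let
`e_b : (ZMod (p^n))ˣ → L`, `e_b = Tf n (hb b) - ((-1)^(M+1) c) φ_n^r` (`D.φ n ^ r`): it is in `D.O n`
(`Tf_mem`; constants of `W` and `D.φ n` are in `D.O n`), and `‖e_b 1‖ < ‖φ‖^r`, by the hypothesis
(`(-1)^M coeff_(q^M - 1)(h_b)`, `n/2 = M`) and `hb_coeff_odd` + `res_eq_iff`. So
`‖e_b 1‖ ≤ ‖φ‖^(r+1)` (`O_gap`). By `T_rec` (`a = 1`, `(1 : ZMod _).val = 1`, `castHom 1 = 1`):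
`T (n+1) 1 h = (-1)^(M+1) c φ^r sum_(b<p) ζ_(n+1)^b + sum_b ζ_(n+1)^b e_b 1`, and
`ψ sum_b ζ_(n+1)^b = ζ_(n+1)^p - 1 = φ`. So the main term is `(-1)^(M+1) c φ^(r+1)/ψ`; by
`phi_pow` with `m = r + 1`: `φ^(r+1) ≈ ψ^(p(r+1))`, and `p (r+1) - 1 = r_(n+1)` (`r_odd`); the
errors have norm `≤ ‖φ‖^(r+1) = ‖ψ‖^(p(r+1)) < ‖ψ‖^(r_(n+1))` (`phi_norm_succ`, `phi_pos`). -/
theorem lead_odd_even (hp3 : 3 ≤ p) (M : ℕ) (H : D.Lead (2 * M + 1)) : D.Lead (2 * M + 2) := by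
  intro h
  have hp2 : 2 ≤ p := by omega
  set n : ℕ := 2 * M + 1 with hn
  have hn1 : 1 ≤ n := by omega
  have hn2 : 2 * M + 2 = n + 1 := by omega
  have hd1 : n / 2 = M := by omega
  have hd2 : (n + 1) / 2 = M + 1 := by omega
  rw [hn2, hd2]
  obtain ⟨w, hw⟩ := exists_w D n
  set r : ℕ := p ^ n / (p + 1) with hr
  have hr' : p ^ (n + 1) / (p + 1) = p * r + (p - 1) := r_odd n ⟨M, hn⟩ hp2
  rw [hr']
  set cW : D.W := h.coeff (p ^ (2 * (M + 1)) - 1) with hcW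
  set φ : L := D.ζ n - 1 with hφ
  set ψ : L := D.ζ (n + 1) - 1 with hψ
  obtain ⟨hψ0, hψ1⟩ := phi_pos D (n + 1) (by omega)
  have hψne : ψ ≠ 0 := norm_pos_iff.1 hψ0
  obtain ⟨hφ0, hφ1⟩ := phi_pos D n hn1
  set K : L := (-1) ^ (M + 1) * (cW : L) with hK
  have hKn : ‖K‖ ≤ 1 := by
    rw [hK, norm_mul, norm_pow, norm_neg, norm_one, one_pow, one_mul]
    exact cW.2.2
  have hlt1 : 1 < p ^ n := Nat.one_lt_pow (by omega) (by omega)
  have hlt2 : 1 < p ^ (n + 1) := Nat.one_lt_pow (by omega) (by omega)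
  have hF1 : Fact (1 < p ^ n) := ⟨hlt1⟩
  have hF2 : Fact (1 < p ^ (n + 1)) := ⟨hlt2⟩
  -- the recursion
  have hrec : D.T (n + 1) 1 h =
      ∑ b ∈ Finset.range p, D.ζ (n + 1) ^ b * D.T n 1 (D.hb n w h b) := by
    have h1 := T_rec D n hn1 w hw 1 h
    rw [Units.val_one, map_one] at h1
    rw [h1]
    refine Finset.sum_congr rfl fun b _ => ?_
    rw [ZMod.val_one, one_mul]
    rfl
  -- the errors
  have hcoef : ∀ b, ‖D.T n 1 (D.hb n w h b) - K * φ ^ r‖ < ‖φ‖ ^ r := by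
    intro b
    have h1 := H (D.hb n w h b)
    rw [hd1] at h1
    have h2 : D.res ((D.hb n w h b).coeff (p ^ (2 * M) - 1)) = D.res (-cW) := by
      rw [map_neg]
      exact hb_coeff_odd D hp3 M w h (by rw [hn2]; exact hw) b
    rw [res_eq_iff] at h2
    set x : L := ((D.hb n w h b).coeff (p ^ (2 * M) - 1) : L) with hx
    have e : D.T n 1 (D.hb n w h b) - K * φ ^ r =
        (D.T n 1 (D.hb n w h b) - (-1) ^ M * x * φ ^ r) +
          (-1) ^ M * (x - ((-cW : D.W) : L)) * φ ^ r := by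
      have e2 : ((-cW : D.W) : L) = -(cW : L) := rfl
      rw [e2, hK]
      ring
    rw [e]
    refine (IsUltrametricDist.norm_add_le_max _ _).trans_lt (max_lt h1 ?_)
    rw [norm_mul, norm_mul, norm_pow, norm_neg, norm_one, one_pow, one_mul, norm_pow]
    have h3 : 0 < ‖φ‖ ^ r := pow_pos hφ0 r
    nlinarith
  have hgap : ∀ b, ‖D.T n 1 (D.hb n w h b) - K * φ ^ r‖ ≤ ‖φ‖ ^ (r + 1) := by
    intro b
    set eb : (ZMod (p ^ n))ˣ → L := D.Tf n (D.hb n w h b) - (fun _ => K) * D.φ n ^ r with heb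
    have hc : (fun _ => K : (ZMod (p ^ n))ˣ → L) ∈ D.O n := by
      refine ⟨C ((-1) ^ (M + 1) * cW), fun a => ?_⟩
      rw [LTD.ev, eval₂_C]
      rw [hK]
      push_cast
      rfl
    have hφm : D.φ n ∈ D.O n := by
      refine ⟨X - 1, fun a => ?_⟩
      simp [LTD.ev, LTD.φ]
    have hmem : eb ∈ D.O n :=
      (D.O n).sub_mem (Tf_mem D n hn1 _) ((D.O n).mul_mem hc ((D.O n).pow_mem hφm r))
    have heb1 : eb 1 = D.T n 1 (D.hb n w h b) - K * φ ^ r := by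
      rw [heb]
      simp only [Pi.sub_apply, Pi.mul_apply, Pi.pow_apply, LTD.Tf, LTD.φ, Units.val_one]
      rw [ZMod.val_one, pow_one]
    have h1 := O_gap D n hn1 r eb hmem (by rw [heb1]; exact hcoef b)
    rw [heb1] at h1
    exact h1
  have hζ1 : ‖D.ζ (n + 1)‖ = 1 :=
    norm_root (D.ζ (n + 1)) (p ^ (n + 1)) (by positivity) (D.ζprim (n + 1)).pow_eq_one
  have herr : ‖∑ b ∈ Finset.range p, D.ζ (n + 1) ^ b * (D.T n 1 (D.hb n w h b) - K * φ ^ r)‖ ≤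
      ‖φ‖ ^ (r + 1) := by
    refine IsUltrametricDist.norm_sum_le_of_forall_le_of_nonneg (by positivity) fun b _ => ?_
    rw [norm_mul, norm_pow, hζ1, one_pow, one_mul]
    exact hgap b
  have hgeom : ψ * ∑ b ∈ Finset.range p, D.ζ (n + 1) ^ b = φ := by
    rw [hψ, mul_geom_sum, D.ζp]
  have hsum : ∑ b ∈ Finset.range p, D.ζ (n + 1) ^ b = φ / ψ := by
    rw [eq_div_iff hψne, mul_comm]
    exact hgeom
  have hmain : D.T (n + 1) 1 h - K * ψ ^ (p * r + (p - 1)) =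
      K * (φ ^ (r + 1) - ψ ^ (p * (r + 1))) / ψ +
      ∑ b ∈ Finset.range p, D.ζ (n + 1) ^ b * (D.T n 1 (D.hb n w h b) - K * φ ^ r) := by
    have e1 : ∑ b ∈ Finset.range p, D.ζ (n + 1) ^ b * (D.T n 1 (D.hb n w h b) - K * φ ^ r) =
        D.T (n + 1) 1 h - K * φ ^ r * (φ / ψ) := by
      rw [← hsum, hrec, Finset.mul_sum, ← Finset.sum_sub_distrib]
      refine Finset.sum_congr rfl fun b _ => ?_
      ring
    have e2 : ψ ^ (p * (r + 1)) = ψ ^ (p * r + (p - 1)) * ψ := by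
      rw [← pow_succ]
      congr 1
      rw [mul_add, mul_one, add_assoc]
      congr 1
      omega
    rw [e1, e2]
    field_simp
    ring
  have hexp : p * r + (p - 1) < p * (r + 1) := by
    rw [mul_add, mul_one]
    omega
  rw [hmain]
  refine (IsUltrametricDist.norm_add_le_max _ _).trans_lt (max_lt ?_ (herr.trans_lt ?_))
  · rw [norm_div, norm_mul, div_lt_iff₀ hψ0]
    have h1 := phi_pow D n (r + 1) hn1
    have h2 : ‖ψ‖ ^ (p * (r + 1)) = ‖ψ‖ ^ (p * r + (p - 1)) * ‖ψ‖ := by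
      rw [← pow_succ]
      congr 1
      rw [mul_add, mul_one, add_assoc]
      congr 1
      omega
    rw [← h2]
    calc ‖K‖ * ‖φ ^ (r + 1) - ψ ^ (p * (r + 1))‖ ≤ 1 * ‖φ ^ (r + 1) - ψ ^ (p * (r + 1))‖ := by
          gcongr
      _ = ‖φ ^ (r + 1) - ψ ^ (p * (r + 1))‖ := one_mul _
      _ < ‖ψ‖ ^ (p * (r + 1)) := h1
  · rw [hφ, phi_norm_succ D n hn1, ← pow_mul, ← hψ]
    exact pow_lt_pow_right_of_lt_one₀ hψ0 hψ1 hexp

end SSF
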