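import Pool.Agent.Lib.SSG.F.W3

/-! # SSG/F/W4 : low coefficients of `w ^ m h` -/

open Polynomial
open scoped Classical

namespace SSF

variable {p : ℕ} [Fact p.Prime] {R : ℕ → Type} [∀ N, CommRing (R N)] [∀ N, Fintype (R N)]
  {L : Type} [NormedField L] [IsUltrametricDist L] (D : LTD p R L)

/-- `w ^ m h` and `h` agree modulo the maximal ideal in degrees `< p^M (p+1)`. PROOF. In `κ[X]`,
`w̄ = 1 + X^n u`, `n = p^M(p+1)` (by `w_coeff` the coefficients of `w̄ - 1` in degrees `< n` vanish;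
`Polynomial.X_pow_dvd_iff`; note `n ≤ p^M(p^2-1)`), so `X^n ∣ w̄^m - 1` (`sub_one_dvd..`,
`w̄ - 1 ∣ w̄^m - 1`) and `X^n ∣ w̄^m h̄ - h̄`; `coeff_map`. -/
theorem w_low (hp3 : 3 ≤ p) (M : ℕ) (w h : D.W[X]) (hw : D.IsW (M + 1) w) (m j : ℕ)
    (hj : j < p ^ M * (p + 1)) :
    D.res ((w ^ m * h).coeff j) = D.res (h.coeff j) := by
  have hp2 : p + 1 ≤ p ^ 2 - 1 := by
    have : 3 * p ≤ p ^ 2 := by nlinarith
    omega
  obtain ⟨h0, h1, -⟩ := w_coeff D hp3 M w hw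
  have hX : (X : D.κ[X]) ^ (p ^ M * (p + 1)) ∣ w.map D.res - 1 := by
    rw [X_pow_dvd_iff]
    intro d hd
    rw [coeff_sub, coeff_map, coeff_one]
    split_ifs with h2
    · rw [h2, h0, sub_self]
    · rw [h1 d (Nat.pos_of_ne_zero h2) (lt_of_lt_of_le hd (Nat.mul_le_mul_left _ hp2)) (Or.inr hd), sub_zero]
  have h3 : w.map D.res - 1 ∣ (w.map D.res) ^ m - 1 := by
    have := sub_dvd_pow_sub_pow (w.map D.res) 1 m
    rwa [one_pow] at this
  have h4 : (X : D.κ[X]) ^ (p ^ M * (p + 1)) ∣ (w.map D.res) ^ m * h.map D.res - h.map D.res := by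
    have e : (w.map D.res) ^ m * h.map D.res - h.map D.res = ((w.map D.res) ^ m - 1) * h.map D.res := by ring
    rw [e]
    exact (hX.trans h3).mul_right _
  have h5 := (X_pow_dvd_iff.1 h4) j hj
  rw [← Polynomial.map_pow, ← Polynomial.map_mul, coeff_sub, coeff_map, coeff_map, sub_eq_zero] at h5
  exact h5

end SSF
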