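import Pool.Agent.Lib.SSG.F.D2
import Pool.Agent.Lib.SSG.F.W4
import Pool.Agent.Lib.SSG.F.E0
import Pool.Agent.Lib.SSG.F.A4B

/-! # SSG/F/E2A : coefficients of `h_b`, `n` odd -/

open Polynomial
open scoped Classical

namespace SSF

variable {p : ℕ} [Fact p.Prime] {R : ℕ → Type} [∀ N, CommRing (R N)] [∀ N, Fintype (R N)]
  {L : Type} [NormedField L] [IsUltrametricDist L] (D : LTD p R L)

/-- For `n = 2 M + 1` (so `w = w_(n+1)`, `n + 1 = 2M+2`) the relevant coefficient of `h_b` is minus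
the one of `h`: `p^2 (p^(2M) - 1) + (p^2 - 1) = p^(2M+2) - 1 < p^(2M+1) (p+1)`. PROOF. `res_Ct`,
then `w_low` with `M' = 2 M + 1` (`w` is `IsW (2M+1+1)`). -/
theorem hb_coeff_odd (hp3 : 3 ≤ p) (M : ℕ) (w h : D.W[X]) (hw : D.IsW (2 * M + 2) w) (b : ℕ) :
    D.res ((D.hb (2 * M + 1) w h b).coeff (p ^ (2 * M) - 1)) =
      - D.res (h.coeff (p ^ (2 * (M + 1)) - 1)) := by
  have hp : 0 < p := by omega
  unfold LTD.hb
  rw [res_Ct D (by omega)]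
  have h1 : p ^ 2 * (p ^ (2 * M) - 1) + (p ^ 2 - 1) = p ^ (2 * (M + 1)) - 1 := by
    have e1 : p ^ (2 * (M + 1)) = p ^ 2 * p ^ (2 * M) := by rw [← pow_add]; congr 1; ring
    have e2 : 1 ≤ p ^ (2 * M) := Nat.one_le_pow _ _ hp
    have e3 : 1 ≤ p ^ 2 := Nat.one_le_pow _ _ hp
    rw [e1, Nat.mul_sub, mul_one]
    have e4 : p ^ 2 ≤ p ^ 2 * p ^ (2 * M) := Nat.le_mul_of_pos_right _ (by omega)
    omega
  rw [h1]
  congr 1
  refine w_low D hp3 (2 * M + 1) w h hw _ _ ?_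
  have e5 : p ^ (2 * M + 1) * (p + 1) = p ^ (2 * (M + 1)) + p ^ (2 * M + 1) := by
    rw [mul_add, mul_one, ← pow_succ]
    congr 2
  have e6 : 1 ≤ p ^ (2 * (M + 1)) := Nat.one_le_pow _ _ hp
  omega

end SSF
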