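import Pool.Agent.Lib.SSG.F.E3A
import Pool.Agent.Lib.SSG.F.C13
import Pool.Agent.Lib.SSG.F.B3B
import Pool.Agent.Lib.SSG.F.C3

/-! # SSG/F/E3 : the leading term, step from even to odd level -/

open Polynomial
open scoped Classical

namespace SSF

variable {p : ℕ} [Fact p.Prime] {R : ℕ → Type} [∀ N, CommRing (R N)] [∀ N, Fintype (R N)]
  {L : Type} [NormedField L] [IsUltrametricDist L] (D : LTD p R L)

omit [Fact p.Prime] in
/-- `T` is additive in the polynomial (finite sums, `eval₂_finset_sum`, `Finset.sum_comm`). -/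
theorem T_sum (n : ℕ) (a : ZMod (p ^ n)) (s : Finset ℕ) (f : ℕ → D.W[X]) :
    D.T n a (∑ b ∈ s, f b) = ∑ b ∈ s, D.T n a (f b) := by
  unfold LTD.T LTD.ev
  rw [Finset.sum_comm]
  refine Finset.sum_congr rfl fun x _ => ?_
  rw [eval₂_finsetSum]

omit [Fact p.Prime] in
theorem e3_sum_lt (s : Finset ℕ) (f : ℕ → L) (B : ℝ) (hB : 0 < B) (h : ∀ i ∈ s, ‖f i‖ < B) :
    ‖∑ i ∈ s, f i‖ < B := by
  induction s using Finset.induction_on with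
  | empty => simpa using hB
  | insert a s ha ih =>
    rw [Finset.sum_insert ha]
    refine (IsUltrametricDist.norm_add_le_max _ _).trans_lt (max_lt ?_ ?_)
    · exact h a (Finset.mem_insert_self a s)
    · exact ih fun i hi => h i (Finset.mem_insert_of_mem hi)

/-- Step from `n = 2M ≥ 2` to `n + 1`. PROOF. Let `r = p^n/(p+1)`, `φ = ζ n - 1`,
`ψ = ζ (n+1) - 1`, `w` from `exists_w`. By `T_rec` (`a = 1`)
`T (n+1) 1 h = sum_b ζ_(n+1)^b T n 1 h_b`. Every `T n 1 h_b` has norm `≤ ‖φ‖^r` (by `H`), and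
`‖ζ_(n+1)^b - 1‖ ≤ ‖ψ‖ < 1` (`norm_pow_sub_one_le`), so up to terms of norm `< ‖φ‖^r` it is
`sum_b T n 1 h_b = T n 1 (sum_b h_b)` (`T_sum`), which by `H` and `hb_sum_even` (`res_eq_iff`) is
`(-1)^M h_(p^(2M)-1) φ^r` up to smaller terms (`n/2 = M = (n+1)/2`). Finally `φ^r ≈ ψ^(p r)`
(`phi_pow`), `‖φ‖^r = ‖ψ‖^(p r)` (`phi_norm_succ`), `p r = r_(n+1)` (`r_even`). -/
theorem lead_even_odd (hp3 : 3 ≤ p) (M : ℕ) (hM : 1 ≤ M) (H : D.Lead (2 * M)) :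
    D.Lead (2 * M + 1) := by
  intro h
  obtain ⟨w, hw⟩ := exists_w D (2 * M)
  have hr : p ^ (2 * M + 1) / (p + 1) = p * (p ^ (2 * M) / (p + 1)) :=
    r_even (2 * M) (even_two_mul M) (by omega)
  have hn2 : (2 * M + 1) / 2 = M := by omega
  have hn2' : (2 * M) / 2 = M := by omega
  rw [hr, hn2]
  have hφψ : ‖D.ζ (2 * M) - 1‖ = ‖D.ζ (2 * M + 1) - 1‖ ^ p := phi_norm_succ D (2 * M) (by omega)
  have hpp := phi_pow D (2 * M) (p ^ (2 * M) / (p + 1)) (by omega)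
  have hψ := phi_pos D (2 * M + 1) (by omega)
  have hT := T_rec D (2 * M) (by omega) w hw 1 h
  have hH := fun b => H (D.hb (2 * M) w h b)
  have hS := H (∑ b ∈ Finset.range p, D.hb (2 * M) w h b)
  have hres := (res_eq_iff D _ _).1 (hb_sum_even D hp3 M w h hw)
  have hz : ‖D.ζ (2 * M + 1)‖ = 1 :=
    norm_root _ (p ^ (2 * M + 1)) (pow_ne_zero _ (by omega)) (D.ζprim (2 * M + 1)).pow_eq_one
  have hzb : ∀ b : ℕ, ‖D.ζ (2 * M + 1) ^ b - 1‖ ≤ ‖D.ζ (2 * M + 1) - 1‖ :=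
    fun b => norm_pow_sub_one_le _ hz b
  rw [T_sum] at hS
  simp only [hn2'] at hH hS
  have hlt : 1 < p ^ (2 * M + 1) := Nat.one_lt_pow (by omega) (by omega)
  have hf : Fact (1 < p ^ (2 * M + 1)) := ⟨hlt⟩
  rw [Units.val_one, ZMod.val_one, map_one] at hT
  simp only [one_mul] at hT
  have hc1 : ∀ c : D.W, ‖(c : L)‖ ≤ 1 := fun c => c.2.2
  have hcc := hc1 (h.coeff (p ^ (2 * M) - 1))
  have hm1 : ‖((-1 : L)) ^ M‖ = 1 := by rw [norm_pow, norm_neg, norm_one, one_pow]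
  have hφr : ‖D.ζ (2 * M) - 1‖ ^ (p ^ (2 * M) / (p + 1)) =
      ‖D.ζ (2 * M + 1) - 1‖ ^ (p * (p ^ (2 * M) / (p + 1))) := by
    rw [hφψ, ← pow_mul]
  generalize p ^ (2 * M) / (p + 1) = r at *
  have hB : 0 < ‖D.ζ (2 * M + 1) - 1‖ ^ (p * r) := pow_pos hψ.1 _
  rw [hT]
  rw [hφr] at hS
  have ht : ∀ b, ‖D.T (2 * M) 1 (D.hb (2 * M) w h b)‖ ≤ ‖D.ζ (2 * M + 1) - 1‖ ^ (p * r) := by
    intro b
    have h4 := hH b
    rw [hφr] at h4
    have h5 : ‖(-1) ^ M * (((D.hb (2 * M) w h b).coeff (p ^ (2 * M) - 1) : D.W) : L) *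
        (D.ζ (2 * M) - 1) ^ r‖ ≤ ‖D.ζ (2 * M + 1) - 1‖ ^ (p * r) := by
      rw [norm_mul, norm_mul, hm1, one_mul, norm_pow, hφr]
      exact mul_le_of_le_one_left hB.le (hc1 _)
    have h6 := IsUltrametricDist.norm_add_le_max (D.T (2 * M) 1 (D.hb (2 * M) w h b) -
      (-1) ^ M * (((D.hb (2 * M) w h b).coeff (p ^ (2 * M) - 1) : D.W) : L) *
        (D.ζ (2 * M) - 1) ^ r) ((-1) ^ M *
        (((D.hb (2 * M) w h b).coeff (p ^ (2 * M) - 1) : D.W) : L) * (D.ζ (2 * M) - 1) ^ r)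
    rw [sub_add_cancel] at h6
    exact h6.trans (max_le h4.le h5)
  have e1 : ‖∑ b ∈ Finset.range p, (D.ζ (2 * M + 1) ^ b - 1) *
      D.T (2 * M) 1 (D.hb (2 * M) w h b)‖ < ‖D.ζ (2 * M + 1) - 1‖ ^ (p * r) := by
    refine e3_sum_lt _ _ _ hB fun b _ => ?_
    rw [norm_mul]
    calc ‖D.ζ (2 * M + 1) ^ b - 1‖ * ‖D.T (2 * M) 1 (D.hb (2 * M) w h b)‖
        ≤ ‖D.ζ (2 * M + 1) - 1‖ * ‖D.ζ (2 * M + 1) - 1‖ ^ (p * r) :=
          mul_le_mul (hzb b) (ht b) (norm_nonneg _) (norm_nonneg _)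
      _ < 1 * ‖D.ζ (2 * M + 1) - 1‖ ^ (p * r) := mul_lt_mul_of_pos_right hψ.2 hB
      _ = ‖D.ζ (2 * M + 1) - 1‖ ^ (p * r) := one_mul _
  have e3 : ‖(-1) ^ M * ((((∑ b ∈ Finset.range p, D.hb (2 * M) w h b).coeff
      (p ^ (2 * M) - 1) : D.W) : L) - ((h.coeff (p ^ (2 * M) - 1) : D.W) : L)) *
        (D.ζ (2 * M) - 1) ^ r‖ < ‖D.ζ (2 * M + 1) - 1‖ ^ (p * r) := by
    rw [norm_mul, norm_mul, hm1, one_mul, norm_pow, hφr]
    calc _ < 1 * ‖D.ζ (2 * M + 1) - 1‖ ^ (p * r) := mul_lt_mul_of_pos_right hres hB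
      _ = ‖D.ζ (2 * M + 1) - 1‖ ^ (p * r) := one_mul _
  have e4 : ‖(-1) ^ M * ((h.coeff (p ^ (2 * M) - 1) : D.W) : L) *
      ((D.ζ (2 * M) - 1) ^ r - (D.ζ (2 * M + 1) - 1) ^ (p * r))‖ <
        ‖D.ζ (2 * M + 1) - 1‖ ^ (p * r) := by
    rw [norm_mul, norm_mul, hm1, one_mul]
    exact (mul_le_of_le_one_left (norm_nonneg _) hcc).trans_lt hpp
  have key : ∑ b ∈ Finset.range p, D.ζ (2 * M + 1) ^ b *
      D.T (2 * M) 1 (Ct p (w ^ (p ^ (2 * M + 1) - b) * h)) -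
      (-1) ^ M * ((h.coeff (p ^ (2 * M) - 1) : D.W) : L) * (D.ζ (2 * M + 1) - 1) ^ (p * r) =
      ((∑ b ∈ Finset.range p, (D.ζ (2 * M + 1) ^ b - 1) *
        D.T (2 * M) 1 (D.hb (2 * M) w h b)) +
      (∑ b ∈ Finset.range p, D.T (2 * M) 1 (D.hb (2 * M) w h b) -
        (-1) ^ M * (((∑ b ∈ Finset.range p, D.hb (2 * M) w h b).coeff
          (p ^ (2 * M) - 1) : D.W) : L) * (D.ζ (2 * M) - 1) ^ r)) +
      ((-1) ^ M * ((((∑ b ∈ Finset.range p, D.hb (2 * M) w h b).coeff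
        (p ^ (2 * M) - 1) : D.W) : L) - ((h.coeff (p ^ (2 * M) - 1) : D.W) : L)) *
          (D.ζ (2 * M) - 1) ^ r +
      (-1) ^ M * ((h.coeff (p ^ (2 * M) - 1) : D.W) : L) *
        ((D.ζ (2 * M) - 1) ^ r - (D.ζ (2 * M + 1) - 1) ^ (p * r))) := by
    have k1 : ∑ b ∈ Finset.range p, D.ζ (2 * M + 1) ^ b *
        D.T (2 * M) 1 (Ct p (w ^ (p ^ (2 * M + 1) - b) * h)) =
        (∑ b ∈ Finset.range p, (D.ζ (2 * M + 1) ^ b - 1) *
        D.T (2 * M) 1 (D.hb (2 * M) w h b)) +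
        ∑ b ∈ Finset.range p, D.T (2 * M) 1 (D.hb (2 * M) w h b) := by
      rw [← Finset.sum_add_distrib]
      refine Finset.sum_congr rfl fun b _ => ?_
      change _ = (D.ζ (2 * M + 1) ^ b - 1) *
        D.T (2 * M) 1 (Ct p (w ^ (p ^ (2 * M + 1) - b) * h)) +
        D.T (2 * M) 1 (Ct p (w ^ (p ^ (2 * M + 1) - b) * h))
      ring
    rw [k1]
    ring
  rw [key]
  refine (IsUltrametricDist.norm_add_le_max _ _).trans_lt (max_lt ?_ ?_)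
  · exact (IsUltrametricDist.norm_add_le_max _ _).trans_lt (max_lt e1 hS)
  · exact (IsUltrametricDist.norm_add_le_max _ _).trans_lt (max_lt e3 e4)

end SSF
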