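import Pool.Agent.Lib.SSG.F.W3

/-! # SSG/F/W5 : the coefficient of `Ξ h`, `Ξ = sum of w^(-b)` -/

open Polynomial
open scoped Classical

namespace SSF

variable {p : ℕ} [Fact p.Prime] {R : ℕ → Type} [∀ N, CommRing (R N)] [∀ N, Fintype (R N)]
  {L : Type} [NormedField L] [IsUltrametricDist L] (D : LTD p R L)

theorem w5_zmod : (∑ b ∈ Finset.range p, (X : (ZMod p)[X]) ^ b) = (X - 1) ^ (p - 1) := by
  have hX : (X - 1 : (ZMod p)[X]) ≠ 0 := by
    have := Polynomial.X_sub_C_ne_zero (1 : ZMod p)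
    simpa using this
  apply mul_right_cancel₀ hX
  have hp := (Fact.out : p.Prime)
  rw [geom_sum_mul, ← pow_succ, Nat.sub_add_cancel hp.one_le, sub_pow_char, one_pow]

/-- In a commutative ring of characteristic `p` (prime): `sum_(b<p) x^b = (x - 1)^(p-1)`. PROOF.
In `(ZMod p)[X]`: `(X - 1) sum X^b = X^p - 1 = (X - 1)^p`, cancel `X - 1` (domain); evaluate at
`x` (`Polynomial.aeval`, `ZMod.algebra`/`ZMod.castHom`). -/
theorem geom_char {S : Type} [CommRing S] [CharP S p] (x : S) :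
    ∑ b ∈ Finset.range p, x ^ b = (x - 1) ^ (p - 1) := by
  letI := ZMod.algebra S p
  have h := congrArg (Polynomial.aeval x) (w5_zmod (p := p))
  simpa [map_sum] using h

/-- `κ` has characteristic `p` -/
theorem w5_charP : CharP D.κ p := by
  haveI : Nontrivial D.κ := by
    refine ⟨⟨1, 0, ?_⟩⟩
    intro h
    have h1 : D.res 1 = 0 := by rw [map_one]; exact h
    rw [res_eq_zero_iff] at h1
    simp at h1
  exact (CharP.charP_iff_prime_eq_zero (Fact.out : p.Prime)).2 (kappa_p D)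

/-- the formal computation -/
theorem w5_formal {κ : Type} [CommRing κ] [CharP κ p] (hp3 : 3 ≤ p) (M : ℕ) (v g : κ[X]) (c : κ)
    (hc : c ^ (p - 1) = -1) (h0 : v.coeff 0 = 1) (h1 : v.coeff (p ^ (2 * M) * (p + 1)) = c)
    (hz : ∀ d, 0 < d → d ≠ p ^ (2 * M) * (p + 1) → d < p ^ (2 * M) * (p + 2) → v.coeff d = 0) :
    ((∑ b ∈ Finset.range p, v ^ (p ^ (2 * M + 1) - b)) * g).coeff (p ^ (2 * (M + 1)) - 1) =
      - g.coeff (p ^ (2 * M) - 1) := by
  set Q := p ^ (2 * M) with hQdef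
  have hQ : 0 < Q := by rw [hQdef]; positivity
  have hp1 : 1 ≤ p := by omega
  have hP1 : p ^ (2 * M + 1) = Q * p := by rw [hQdef, pow_succ]
  have hP2 : p ^ (2 * (M + 1)) = Q * p ^ 2 := by rw [hQdef, ← pow_add]; ring_nf
  -- the shape of v
  have hd1 : X ^ (Q * (p + 2)) ∣ v - 1 - C c * X ^ (Q * (p + 1)) := by
    rw [Polynomial.X_pow_dvd_iff]
    intro d hd
    rw [Polynomial.coeff_sub, Polynomial.coeff_sub, Polynomial.coeff_C_mul,
      Polynomial.coeff_X_pow, Polynomial.coeff_one]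
    rcases Nat.eq_zero_or_pos d with rfl | hd0
    · have hne : (0 : ℕ) ≠ Q * (p + 1) := by positivity
      simp [h0, hne]
    · by_cases he : d = Q * (p + 1)
      · subst he
        have hne : Q * (p + 1) ≠ 0 := by positivity
        rw [h1, if_neg hne, if_pos rfl]
        ring
      · rw [hz d hd0 he hd, if_neg (by omega), if_neg he]
        ring
  obtain ⟨u, hu⟩ := hd1
  have hv : v - 1 = X ^ (Q * (p + 1)) * (C c + X ^ Q * u) := by
    have : v - 1 = C c * X ^ (Q * (p + 1)) + X ^ (Q * (p + 2)) * u := by rw [← hu]; ring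
    rw [this]
    have e : Q * (p + 2) = Q * (p + 1) + Q := by ring
    rw [e, pow_add]
    ring
  -- the sum
  have hK : Q * p - (p - 1) + (p - 1) = Q * p := by
    apply Nat.sub_add_cancel
    calc p - 1 ≤ p := Nat.sub_le _ _
      _ = 1 * p := (one_mul p).symm
      _ ≤ Q * p := Nat.mul_le_mul_right _ hQ
  have hsum : (∑ b ∈ Finset.range p, v ^ (Q * p - b)) = v ^ (Q * p - (p - 1)) * (v - 1) ^ (p - 1) := by
    rw [← geom_char (p := p) v, ← Finset.sum_range_reflect (fun b => v ^ b) p, Finset.mul_sum]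
    refine Finset.sum_congr rfl fun b hb => ?_
    have hb' := Finset.mem_range.1 hb
    rw [← pow_add]
    congr 1
    omega
  -- congruences modulo X^Q
  have hdv : X ^ Q ∣ v ^ (Q * p - (p - 1)) - 1 := by
    have h2 : v - 1 ∣ v ^ (Q * p - (p - 1)) - 1 ^ (Q * p - (p - 1)) := sub_dvd_pow_sub_pow v 1 _
    rw [one_pow] at h2
    refine dvd_trans ?_ h2
    rw [hv]
    have e : Q * (p + 1) = Q + Q * p := by ring
    rw [e, pow_add, mul_assoc]
    exact dvd_mul_right _ _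
  obtain ⟨u1, hu1⟩ := hdv
  have hdc : X ^ Q ∣ (C c + X ^ Q * u) ^ (p - 1) - (C c) ^ (p - 1) := by
    refine dvd_trans ?_ (sub_dvd_pow_sub_pow (C c + X ^ Q * u) (C c) (p - 1))
    rw [add_sub_cancel_left]
    exact dvd_mul_right _ _
  obtain ⟨u2, hu2⟩ := hdc
  have hXi : (∑ b ∈ Finset.range p, v ^ (Q * p - b)) =
      X ^ (Q * (p ^ 2 - 1)) * (-1 + X ^ Q * (-u1 + u2 + X ^ Q * u1 * u2)) := by
    rw [hsum, hv, mul_pow, ← pow_mul]
    have e : Q * (p + 1) * (p - 1) = Q * (p ^ 2 - 1) := by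
      rw [mul_assoc]
      congr 1
      obtain ⟨k, rfl⟩ : ∃ k, p = k + 1 := ⟨p - 1, by omega⟩
      have : (k + 1) ^ 2 = (k + 1 + 1) * k + 1 := by ring
      rw [this]
      simp
    rw [e]
    have e1 : v ^ (Q * p - (p - 1)) = 1 + X ^ Q * u1 := by rw [← hu1]; ring
    have e2 : (C c + X ^ Q * u) ^ (p - 1) = -1 + X ^ Q * u2 := by
      rw [← hu2, ← C_pow, hc]
      simp
    rw [e1, e2]
    ring
  rw [hP1, hP2, hXi, mul_assoc]
  have hidx : Q * p ^ 2 - 1 = (Q - 1) + Q * (p ^ 2 - 1) := by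
    have h4 : 1 ≤ p ^ 2 := Nat.one_le_pow _ _ hp1
    obtain ⟨k, hk⟩ : ∃ k, p ^ 2 = k + 1 := ⟨p ^ 2 - 1, by omega⟩
    rw [hk, Nat.add_sub_cancel, Nat.mul_add, Nat.mul_one]
    omega
  rw [hidx, Polynomial.coeff_X_pow_mul, add_mul, mul_assoc, Polynomial.coeff_add,
    Polynomial.coeff_X_pow_mul', if_neg (by omega)]
  simp

/-- The coefficient of `Ξ h` of degree `p^(2M+2) - 1` for `Ξ = sum_(b<p) w^(p^(2M+1) - b)`,
`w = w_(2M+1)`. PROOF. Work in `κ[X]`, `Q = p^(2M)`, `κ` has characteristic `p` (`kappa_p`,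
`CharP.ofCharP..`: `κ` is nontrivial since `1 ∉ m`, and `p = 0` in it). By `w_coeff` (with `2 M` for
`M`): `w̄ = 1 + c X^((p+1)Q) + X^((p+2)Q) u` for some `u` (the coefficients in degrees `< (p+2) Q`,
which is `≤ Q (p^2-1)`, are as stated, since the only multiples of `Q` below `(p+2)Q` and
`≥ (p+1) Q` is `(p+1)Q`). So `w̄ - 1 = X^((p+1)Q) (c + X^Q u)`,
`(w̄ - 1)^(p-1) = X^((p^2-1)Q) (c^(p-1) + X^Q u')`, `w̄^(p^(2M+1) - (p-1)) = 1 + X^Q u''`, and
`Ξ̄ = w̄^(p^(2M+1)-(p-1)) sum_(b<p) w̄^b` (reflect the sum: `p^(2M+1) - b =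
(p^(2M+1) - (p-1)) + (p-1-b)`) `= X^((p^2-1)Q) (c^(p-1) + X^Q u3)` by `geom_char`. The
coefficient of `Ξ̄ h̄` in degree `p^2 Q - 1 = (p^2-1) Q + (Q - 1)` is `c^(p-1) h̄_(Q-1) =
- h̄_(Q-1)` (`coeff_X_pow_mul`). -/
theorem Xi_coeff (hp3 : 3 ≤ p) (M : ℕ) (w h : D.W[X]) (hw : D.IsW (2 * M + 1) w) :
    D.res (((∑ b ∈ Finset.range p, w ^ (p ^ (2 * M + 1) - b)) * h).coeff (p ^ (2 * (M + 1)) - 1)) =
      - D.res (h.coeff (p ^ (2 * M) - 1)) := by
  obtain ⟨h0, hz, hc⟩ := w_coeff D hp3 (2 * M) w hw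
  haveI := w5_charP D
  rw [← Polynomial.coeff_map, ← Polynomial.coeff_map, Polynomial.map_mul, Polynomial.map_sum]
  simp only [Polynomial.map_pow]
  apply w5_formal hp3 M (w.map D.res) (h.map D.res)
    (D.res (w.coeff (p ^ (2 * M) * (p + 1)))) hc
  · rw [Polynomial.coeff_map, h0]
  · rw [Polynomial.coeff_map]
  · intro d h1 h2 h3
    rw [Polynomial.coeff_map]
    apply hz d h1
    · exact lt_of_lt_of_le h3 (Nat.mul_le_mul_left _ (by
        have : 3 * p ≤ p ^ 2 := by nlinarith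
        omega))
    · by_cases hd : p ^ (2 * M) ∣ d
      · right
        obtain ⟨e, rfl⟩ := hd
        have hQ : 0 < p ^ (2 * M) := by positivity
        have he : e < p + 2 := lt_of_mul_lt_mul_left h3 (Nat.zero_le _)
        apply Nat.mul_lt_mul_of_pos_left _ hQ
        have hne : e ≠ p + 1 := by
          rintro rfl
          exact h2 rfl
        omega
      · exact Or.inl hd

end SSF
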