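import Pool.Agent.Lib.SSG.F.D2
import Pool.Agent.Lib.SSG.F.W5
import Pool.Agent.Lib.SSG.F.E0
import Pool.Agent.Lib.SSG.F.A4B

/-! # SSG/F/E3A : coefficients of the sum of the `h_b`, `n` even -/

open Polynomial
open scoped Classical

namespace SSF

variable {p : ℕ} [Fact p.Prime] {R : ℕ → Type} [∀ N, CommRing (R N)] [∀ N, Fintype (R N)]
  {L : Type} [NormedField L] [IsUltrametricDist L] (D : LTD p R L)

omit [Fact p.Prime] in
theorem e3a_deg (hp : 1 ≤ p) (M : ℕ) :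
    p ^ 2 * (p ^ (2 * M) - 1) + (p ^ 2 - 1) = p ^ (2 * (M + 1)) - 1 := by
  have h1 : 1 ≤ p ^ (2 * M) := Nat.one_le_pow _ _ hp
  have h2 : 1 ≤ p ^ 2 := Nat.one_le_pow _ _ hp
  have h3 : p ^ (2 * (M + 1)) = p ^ 2 * p ^ (2 * M) := by
    rw [← pow_add]
    congr 1
    ring
  rw [h3, Nat.mul_sub, mul_one]
  have h4 : p ^ 2 * 1 ≤ p ^ 2 * p ^ (2 * M) := Nat.mul_le_mul_left _ h1
  omega

/-- For `n = 2 M` (so `w = w_(2M+1)`): `res` of the coefficient of degree `p^(2M) - 1` of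
`sum_(b<p) h_b` is `res h_(p^(2M)-1)`. PROOF. `sum_b h_b = Ct (Ξ h)` (`Ct_sum`,
`Finset.sum_mul`), `res_Ct` with `k = p^(2M) - 1` (`p^2 k + p^2 - 1 = p^(2(M+1)) - 1`), `Xi_coeff`. -/
theorem hb_sum_even (hp3 : 3 ≤ p) (M : ℕ) (w h : D.W[X]) (hw : D.IsW (2 * M + 1) w) :
    D.res ((∑ b ∈ Finset.range p, D.hb (2 * M) w h b).coeff (p ^ (2 * M) - 1)) =
      D.res (h.coeff (p ^ (2 * M) - 1)) := by
  have h1 : ∑ b ∈ Finset.range p, D.hb (2 * M) w h b =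
      Ct p ((∑ b ∈ Finset.range p, w ^ (p ^ (2 * M + 1) - b)) * h) := by
    rw [Finset.sum_mul, Ct_sum]
    rfl
  rw [h1, res_Ct D (by omega), e3a_deg (by omega) M, Xi_coeff D hp3 M w h hw, neg_neg]

theorem e3a_char : CharP D.κ p := by
  have h1 : Nontrivial D.κ := by
    refine Ideal.Quotient.nontrivial_iff.2 ?_
    rw [Ideal.ne_top_iff_one]
    intro h
    have h2 : ‖((1 : D.W) : L)‖ < 1 := h
    simp at h2
  exact (CharP.charP_iff_prime_eq_zero (Fact.out : p.Prime)).2 (kappa_p D)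

/-- Low coefficients of `f ^ (p^k) g` in characteristic `p`. -/
theorem e3a_gen {S : Type} [CommRing S] [CharP S p] (f g : S[X]) (n k j : ℕ)
    (h0 : f.coeff 0 = 1) (h : ∀ i, 0 < i → i < n → f.coeff i = 0) (hj : j < n * p ^ k) :
    (f ^ p ^ k * g).coeff j = g.coeff j := by
  have h3 : (X : S[X]) ^ n ∣ f - 1 := by
    rw [X_pow_dvd_iff]
    intro d hd
    rw [coeff_sub, coeff_one]
    rcases Nat.eq_zero_or_pos d with rfl | hd0
    · rw [h0, if_pos rfl, sub_self]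
    · rw [h d hd0 hd, if_neg hd0.ne', sub_zero]
  have h5 : f ^ p ^ k - 1 = (f - 1) ^ p ^ k := by
    rw [sub_pow_char_pow, one_pow]
  have h6 : (X : S[X]) ^ (n * p ^ k) ∣ f ^ p ^ k * g - g := by
    have h4 : f ^ p ^ k * g - g = (f ^ p ^ k - 1) * g := by ring
    rw [h4, h5, pow_mul]
    exact (pow_dvd_pow_of_dvd h3 _).mul_right _
  rw [X_pow_dvd_iff] at h6
  have h11 := h6 _ hj
  rwa [coeff_sub, sub_eq_zero] at h11

/-- For `n = 2 M` and the single term `b = 0`: `w^(p^(2M+1) - 0)` takes the value `1` at all units,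
but as a polynomial: `res ((h_0).coeff (p^(2M)-1)) = - res h_(p^(2M+2)-1)`. PROOF. `res_Ct`, and
`w̄^(p^(2M+1)) = (w̄)^(p^(2M+1)) = 1 + X^(p^(2M+1) n) u`, `n = p^(2M)(p+1)`, because `w̄ = 1 + X^n u'`
(characteristic `p`: `(1 + y)^(p^k) = 1 + y^(p^k)`, `add_pow_char_pow`); and
`p^(2M+1) n > p^(2M+2) - 1` for `M ≥ 0` (`p^(2M+1) p^(2M) (p+1) ≥ p^(4M+2)`, `4M+2 ≥ 2M+2`). -/
theorem hb_zero_even (hp3 : 3 ≤ p) (M : ℕ) (w h : D.W[X]) (hw : D.IsW (2 * M + 1) w) :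
    D.res ((D.hb (2 * M) w h 0).coeff (p ^ (2 * M) - 1)) =
      - D.res (h.coeff (p ^ (2 * (M + 1)) - 1)) := by
  have h1 : D.hb (2 * M) w h 0 = Ct p (w ^ (p ^ (2 * M + 1)) * h) := rfl
  rw [h1, res_Ct D (by omega), e3a_deg (by omega) M]
  congr 1
  have h5 : p ^ (2 * (M + 1)) - 1 < p ^ (2 * M) * (p + 1) * p ^ (2 * M + 1) := by
    have h6 : 1 ≤ p ^ (2 * M) := Nat.one_le_pow _ _ (by omega)
    have h7 : p ^ (2 * (M + 1)) = p * p ^ (2 * M + 1) := by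
      rw [← pow_succ']
      congr 1
    have h8 : 1 ≤ p ^ (2 * M + 1) := Nat.one_le_pow _ _ (by omega)
    have h9 : p * p ^ (2 * M + 1) ≤ p ^ (2 * M) * (p + 1) * p ^ (2 * M + 1) := by
      apply Nat.mul_le_mul_right
      nlinarith
    have h10 : 1 ≤ p ^ (2 * (M + 1)) := Nat.one_le_pow _ _ (by omega)
    omega
  obtain ⟨w1, w2, -⟩ := w_coeff D hp3 (2 * M) w hw
  have hc := e3a_char D
  have h4 : p ^ (2 * M) * (p + 1) ≤ p ^ (2 * M) * (p ^ 2 - 1) := by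
    apply Nat.mul_le_mul_left
    have : 3 * p ≤ p ^ 2 := by nlinarith
    omega
  have h11 := e3a_gen (S := D.κ) (w.map D.res) (h.map D.res) (p ^ (2 * M) * (p + 1)) (2 * M + 1)
    (p ^ (2 * (M + 1)) - 1) (by rw [coeff_map, w1]) (fun i hi hi' => by
      rw [coeff_map]
      exact w2 i hi (hi'.trans_le h4) (Or.inr hi')) h5
  rw [coeff_map] at h11
  rw [← h11, ← Polynomial.map_pow, ← Polynomial.map_mul, coeff_map]

end SSF
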