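import Pool.Agent.Lib.SSG.F.E1
import Pool.Agent.Lib.SSG.F.E2
import Pool.Agent.Lib.SSG.F.E3

/-! # SSG/F/E4 : the leading term at all levels -/

open Polynomial
open scoped Classical

namespace SSF

variable {p : ℕ} [Fact p.Prime] {R : ℕ → Type} [∀ N, CommRing (R N)] [∀ N, Fintype (R N)]
  {L : Type} [NormedField L] [IsUltrametricDist L] (D : LTD p R L)

/-- induction: `Lead 1` is `lead_one` (`1/2 = 0`, `p^0 - 1 = 0`, `p^1/(p+1) = 0`), then
`lead_odd_even`, `lead_even_odd` (`n` even or odd). -/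
theorem lead (hp3 : 3 ≤ p) (n : ℕ) (hn : 1 ≤ n) : D.Lead n := by
  induction n, hn using Nat.le_induction with
  | base =>
    intro h
    have h1 := lead_one D h
    have h2 : p ^ 1 / (p + 1) = 0 := Nat.div_eq_of_lt (by rw [pow_one]; omega)
    have h3 : 1 / 2 = 0 := by norm_num
    rw [h2, h3]
    simpa using h1
  | succ n hn ih =>
    rcases Nat.even_or_odd' n with ⟨M, rfl | rfl⟩
    · exact lead_even_odd D hp3 M (by omega) ih
    · exact lead_odd_even D hp3 M ih

end SSF
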