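import Pool.Agent.Lib.SSG.F.D3
import Pool.Agent.Lib.SSG.F.C10
import Pool.Agent.Lib.SSG.F.C6

/-! # SSG/F/L0 : the operator `f ↦ θ σ f - f` on `φ^m O` -/

open Polynomial
open scoped Classical

namespace SSF

variable {p : ℕ} [Fact p.Prime] {R : ℕ → Type} [∀ N, CommRing (R N)] [∀ N, Fintype (R N)]
  {L : Type} [NormedField L] [IsUltrametricDist L] (D : LTD p R L)

omit [IsUltrametricDist L] in
theorem l0_mul (n : ℕ) (a b : ZMod (p ^ n)) :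
    (D.ζ n ^ a.val) ^ b.val = D.ζ n ^ (a * b).val := by
  have hne : NeZero (p ^ n) := ⟨pow_ne_zero _ (Fact.out : p.Prime).ne_zero⟩
  rw [← pow_mul, ZMod.val_mul]
  exact pow_eq_pow_mod _ (D.ζprim n).pow_eq_one

/-- polynomials with coefficients in `W` are contracting. -/
theorem l0_ev (B : D.W[X]) (x y : L) (hx : ‖x‖ ≤ 1) (hy : ‖y‖ ≤ 1) :
    ‖D.ev B x - D.ev B y‖ ≤ ‖x - y‖ := by
  unfold LTD.ev
  induction B using Polynomial.induction_on' with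
  | add P Q hP hQ =>
    rw [eval₂_add, eval₂_add, add_sub_add_comm]
    exact (IsUltrametricDist.norm_add_le_max _ _).trans (max_le hP hQ)
  | monomial k c =>
    rw [eval₂_monomial, eval₂_monomial, ← mul_sub, norm_mul]
    have hc : ‖(D.W.subtype c : L)‖ ≤ 1 := c.2.2
    have hk : ‖x ^ k - y ^ k‖ ≤ ‖x - y‖ := by
      induction k with
      | zero => simp
      | succ k ih =>
        have e1 : x ^ (k + 1) - y ^ (k + 1) = x ^ k * (x - y) + (x ^ k - y ^ k) * y := by ring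
        rw [e1]
        refine (IsUltrametricDist.norm_add_le_max _ _).trans (max_le ?_ ?_)
        · rw [norm_mul, norm_pow]
          exact mul_le_of_le_one_left (norm_nonneg _) (pow_le_one₀ (norm_nonneg _) hx)
        · rw [norm_mul]
          exact (mul_le_of_le_one_right (norm_nonneg _) hy).trans ih
    exact (mul_le_of_le_one_left (norm_nonneg _) hc).trans hk

theorem l0_phi (n : ℕ) : D.φ n ∈ D.O n := ⟨X - 1, fun a => by
  simp [LTD.ev, LTD.φ]⟩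

theorem l0_norm (n : ℕ) : ‖D.ζ n‖ = 1 :=
  norm_root _ (p ^ n) (pow_ne_zero _ (Fact.out : p.Prime).ne_zero) (D.ζprim n).pow_eq_one

/-- translation preserves `O n`: if `f a = B(ζ^a)` then `f (c a) = B'(ζ^a)`, `B' = B.comp (X^c)`
(`eval₂_comp`, exponents mod `p^n`). -/
theorem O_shift (n : ℕ) (c : (ZMod (p ^ n))ˣ) (f : (ZMod (p ^ n))ˣ → L) (hf : f ∈ D.O n) :
    (fun a => f (c * a)) ∈ D.O n := by
  obtain ⟨B, hB⟩ := hf
  refine ⟨B.comp (X ^ (c : ZMod (p ^ n)).val), fun a => ?_⟩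
  show f (c * a) = _
  rw [hB]
  unfold LTD.ev
  rw [eval₂_comp, eval₂_X_pow, l0_mul, Units.val_mul, mul_comm]

/-- For `f ∈ O n` and `c = 1 + p`: `f (c a) - f a = φ^3 z`. PROOF. `f = B(ζ^a)`:
`‖B(ζ^(1+p)) - B(ζ)‖ ≤ ‖ζ^(1+p) - ζ‖` (`Polynomial.sub_dvd_eval_sub`-like: in the ring of
integral elements, or monomial by monomial `x^k - y^k = (x-y) sum`), `= ‖ζ^p - 1‖`, and
`‖ζ_n^p - 1‖ = 0` for `n = 1` and `= ‖φ_(n-1)‖ = ‖φ_n‖^p` for `n ≥ 2` (`phi_norm_succ`,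
`D.ζp`); `p ≥ 3` and `‖φ_n‖ < 1`. The difference is in `O n` (`O_shift`): `O_div` with `m = 3`. -/
theorem O_diff (hp3 : 3 ≤ p) (n : ℕ) (hn : 1 ≤ n) (f : (ZMod (p ^ n))ˣ → L) (hf : f ∈ D.O n) :
    ∃ z ∈ D.O n, ∀ a, f (onep p n * a) = f a + D.φ n a ^ 3 * z a := by
  have hp := (Fact.out : p.Prime)
  have hne : NeZero (p ^ n) := ⟨pow_ne_zero _ hp.ne_zero⟩
  obtain ⟨h0, h1⟩ := phi_pos D n hn
  have hg : (fun a => f (onep p n * a)) - f ∈ D.O n := (D.O n).sub_mem (O_shift D n (onep p n) f hf) hf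
  have hz : ‖D.ζ n ^ p - 1‖ ≤ ‖D.ζ n - 1‖ ^ 3 := by
    by_cases h2 : n = 1
    · subst h2
      have h3 : D.ζ 1 ^ p = 1 := by
        have h4 := (D.ζprim 1).pow_eq_one
        rwa [pow_one] at h4
      rw [h3, sub_self, norm_zero]
      positivity
    · obtain ⟨m, rfl⟩ : ∃ m, n = m + 1 := ⟨n - 1, by omega⟩
      rw [D.ζp m, phi_norm_succ D m (by omega)]
      exact pow_le_pow_of_le_one h0.le h1.le hp3
  have hle : ‖((fun a => f (onep p n * a)) - f) 1‖ ≤ ‖D.ζ n - 1‖ ^ 3 := by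
    obtain ⟨B, hB⟩ := hf
    rw [Pi.sub_apply]
    show ‖f (onep p n * 1) - f 1‖ ≤ _
    rw [hB, hB, mul_one]
    have hn1 : ∀ k : ℕ, ‖D.ζ n ^ k‖ ≤ 1 := fun k => by rw [norm_pow, l0_norm, one_pow]
    refine (l0_ev D B _ _ (hn1 _) (hn1 _)).trans ?_
    have hF : Fact (1 < p ^ n) := ⟨Nat.one_lt_pow (by omega) hp.one_lt⟩
    have e1 : D.ζ n ^ ((onep p n : (ZMod (p ^ n))ˣ) : ZMod (p ^ n)).val = D.ζ n ^ (1 + p) := by
      have e3 : ((onep p n : (ZMod (p ^ n))ˣ) : ZMod (p ^ n)) = ((1 + p : ℕ) : ZMod (p ^ n)) := ZMod.coe_unitOfCoprime _ _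
      rw [e3, ZMod.val_natCast]
      exact (pow_eq_pow_mod _ (D.ζprim n).pow_eq_one).symm
    rw [e1, Units.val_one, ZMod.val_one, pow_one]
    have e2 : D.ζ n ^ (1 + p) - D.ζ n = D.ζ n * (D.ζ n ^ p - 1) := by ring
    rw [e2, norm_mul, l0_norm, one_mul]
    exact hz
  obtain ⟨z, hzO, hz2⟩ := O_div D n hn 3 _ hg hle
  refine ⟨z, hzO, fun a => ?_⟩
  have h3 := congrFun hz2 a
  simp only [Pi.sub_apply, Pi.mul_apply, Pi.pow_apply] at h3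
  rw [← h3]
  ring

/-- `ζ^(a i) = (1 + φ a)^i = 1 + i φ a + φ a ^ 2 z a`, `z ∈ O n` (`add_pow`/`Polynomial`, or
induction on `i`; `D.φ n ∈ D.O n`: `B = X - 1`). -/
theorem theta_shape (n i : ℕ) :
    ∃ z ∈ D.O n, ∀ a : (ZMod (p ^ n))ˣ, D.ζ n ^ ((a : ZMod (p ^ n)).val * i) =
      1 + (i : L) * D.φ n a + D.φ n a ^ 2 * z a := by
  have h1 : ∀ a : (ZMod (p ^ n))ˣ, D.ζ n ^ ((a : ZMod (p ^ n)).val * i) = (1 + D.φ n a) ^ i := by
    intro a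
    rw [pow_mul]
    congr 1
    show _ = 1 + (D.ζ n ^ (a : ZMod (p ^ n)).val - 1)
    ring
  have h2 : ∃ z ∈ D.O n, ∀ a : (ZMod (p ^ n))ˣ, (1 + D.φ n a) ^ i = 1 + (i : L) * D.φ n a + D.φ n a ^ 2 * z a := by
    clear h1
    induction i with
    | zero => exact ⟨0, (D.O n).zero_mem, fun a => by simp⟩
    | succ i ih =>
      obtain ⟨z, hz, h⟩ := ih
      refine ⟨((i : ℕ) : (ZMod (p ^ n))ˣ → L) + z + D.φ n * z,
        (D.O n).add_mem ((D.O n).add_mem (natCast_mem _ i) hz) ((D.O n).mul_mem (l0_phi D n) hz), fun a => ?_⟩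
      rw [pow_succ, h]
      simp only [Pi.add_apply, Pi.mul_apply, Pi.natCast_apply]
      push_cast
      ring
  obtain ⟨z, hz, h⟩ := h2
  exact ⟨z, hz, fun a => (h1 a).trans (h a)⟩

/-- The shape: `θ σ(φ^m y) - φ^m y = i φ^(m+1) y + φ^(m+2) z`. PROOF. By `O_diff` for `D.φ n` and
for `y`: `φ(c a) = φ (1 + φ^2 z1)`, `y(c a) = y + φ^3 z2`, by `theta_shape`
`θ = 1 + i φ + φ^2 z3`; and `(1 + φ^2 z1)^m = 1 + φ^2 z4` (induction on `m`). Multiply out;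
`z` is a polynomial expression in elements of the subring `O n`. -/
theorem shape (hp3 : 3 ≤ p) (n : ℕ) (hn : 1 ≤ n) (i m : ℕ) (y : (ZMod (p ^ n))ˣ → L)
    (hy : y ∈ D.O n) :
    ∃ z ∈ D.O n, ∀ a : (ZMod (p ^ n))ˣ,
      D.ζ n ^ ((a : ZMod (p ^ n)).val * i) * (D.φ n (onep p n * a) ^ m * y (onep p n * a)) -
        D.φ n a ^ m * y a = (i : L) * D.φ n a ^ (m + 1) * y a + D.φ n a ^ (m + 2) * z a := by
  obtain ⟨z1, hz1, h1⟩ := O_diff D hp3 n hn (D.φ n) (l0_phi D n)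
  obtain ⟨z2, hz2, h2⟩ := O_diff D hp3 n hn y hy
  obtain ⟨z3, hz3, h3⟩ := theta_shape D n i
  have h4 : ∃ z4 ∈ D.O n, ∀ a : (ZMod (p ^ n))ˣ, D.φ n (onep p n * a) ^ m = D.φ n a ^ m * (1 + D.φ n a ^ 2 * z4 a) := by
    induction m with
    | zero => exact ⟨0, (D.O n).zero_mem, fun a => by simp⟩
    | succ m ih =>
      obtain ⟨z, hz, h⟩ := ih
      refine ⟨z1 + z + D.φ n ^ 2 * z * z1, (D.O n).add_mem ((D.O n).add_mem hz1 hz)
        ((D.O n).mul_mem ((D.O n).mul_mem ((D.O n).pow_mem (l0_phi D n) 2) hz) hz1), fun a => ?_⟩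
      rw [pow_succ, h, h1]
      simp only [Pi.add_apply, Pi.mul_apply, Pi.pow_apply]
      ring
  obtain ⟨z4, hz4, h4⟩ := h4
  have hφ := l0_phi D n
  have hA : 1 + ((i : ℕ) : (ZMod (p ^ n))ˣ → L) * D.φ n + D.φ n ^ 2 * z3 ∈ D.O n :=
    (D.O n).add_mem ((D.O n).add_mem (D.O n).one_mem ((D.O n).mul_mem (natCast_mem _ i) hφ))
      ((D.O n).mul_mem ((D.O n).pow_mem hφ 2) hz3)
  refine ⟨z3 * y + (1 + ((i : ℕ) : (ZMod (p ^ n))ˣ → L) * D.φ n + D.φ n ^ 2 * z3) *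
    (D.φ n * z2 + z4 * y + D.φ n ^ 3 * (z4 * z2)),
    (D.O n).add_mem ((D.O n).mul_mem hz3 hy) ((D.O n).mul_mem hA ((D.O n).add_mem ((D.O n).add_mem
      ((D.O n).mul_mem hφ hz2) ((D.O n).mul_mem hz4 hy)) ((D.O n).mul_mem ((D.O n).pow_mem hφ 3) ((D.O n).mul_mem hz4 hz2)))),
    fun a => ?_⟩
  rw [h3, h4, h2]
  simp only [Pi.add_apply, Pi.mul_apply, Pi.pow_apply, Pi.one_apply, Pi.natCast_apply]
  ring

end SSF
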