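import Pool.Agent.Lib.SSG.F.D3

/-! # SSG/F/L1 : the functional `ell` is an eigenvector -/

open Polynomial
open scoped Classical

namespace SSF

variable {p : ℕ} [Fact p.Prime] {R : ℕ → Type} [∀ N, CommRing (R N)] [∀ N, Fintype (R N)]
  {L : Type} [NormedField L] [IsUltrametricDist L] (D : LTD p R L)

theorem l1_val (n : ℕ) (a : (ZMod (p ^ (n + 1)))ˣ) :
    ((ZMod.unitsMap (pow_dvd_pow p (Nat.le_succ n)) a : (ZMod (p ^ n))ˣ) : ZMod (p ^ n)).val =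
      (a : ZMod (p ^ (n + 1))).val % p ^ n := by
  rw [ZMod.unitsMap_val, ZMod.cast_eq_val, ZMod.val_natCast]

theorem l1_onep (n : ℕ) :
    ZMod.unitsMap (pow_dvd_pow p (Nat.le_succ n)) (onep p (n + 1)) = onep p n := by
  ext
  rw [ZMod.unitsMap_val]
  unfold onep
  rw [ZMod.coe_unitOfCoprime, ZMod.coe_unitOfCoprime]
  exact map_natCast (ZMod.castHom (pow_dvd_pow p (Nat.le_succ n)) (ZMod (p ^ n))) _

/-- `ell (θ σ f) = χ⁻¹(1+p) ell f`. PROOF. In `sum_a χ(a) ζ_(n+1)^(a i) ζ_n^(ā i) f((1+p) ā)` one has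
`ζ_n^(ā.val i) = ζ_(n+1)^(p a.val i)` (`D.ζp`, `ā.val ≡ a.val` mod `p^n`), so
`ζ_(n+1)^(a i) ζ_n^(ā i) = ζ_(n+1)^(((1+p) a).val i)` (`D.ζprim`, exponents mod `p^(n+1)`). Substitute
`a' = (1+p) a` (`Equiv.mulLeft (onep p (n+1))`, `Fintype.sum_equiv`), `unitsMap (onep (n+1)) = onep n`,
`χ(a) = χ⁻¹(1+p) χ(a')` (`MulChar.inv_apply'`/`χ⁻¹(u) χ(u) = 1` for units). -/
theorem ell_shift (n : ℕ) (χ : DirichletCharacter L (p ^ (n + 1))) (i : ℕ)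
    (f : (ZMod (p ^ n))ˣ → L) :
    D.ell n χ i (fun a => D.ζ n ^ ((a : ZMod (p ^ n)).val * i) * f (onep p n * a)) =
      χ⁻¹ (1 + (p : ZMod (p ^ (n + 1)))) * D.ell n χ i f := by
  have hζn : ∀ k l : ℕ, k % p ^ n = l % p ^ n → D.ζ n ^ k = D.ζ n ^ l := by
    intro k l h
    rw [pow_eq_pow_mod k (D.ζprim n).pow_eq_one, h, ← pow_eq_pow_mod l (D.ζprim n).pow_eq_one]
  have hζn1 : ∀ k l : ℕ, k % p ^ (n + 1) = l % p ^ (n + 1) →
      D.ζ (n + 1) ^ k = D.ζ (n + 1) ^ l := by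
    intro k l h
    rw [pow_eq_pow_mod k (D.ζprim (n + 1)).pow_eq_one, h,
      ← pow_eq_pow_mod l (D.ζprim (n + 1)).pow_eq_one]
  have hu : ((onep p (n + 1) : (ZMod (p ^ (n + 1)))ˣ) : ZMod (p ^ (n + 1))) =
      1 + (p : ZMod (p ^ (n + 1))) := by
    unfold onep
    rw [ZMod.coe_unitOfCoprime]
    push_cast
    rfl
  unfold LTD.ell
  rw [mul_left_comm]
  congr 1
  rw [Finset.mul_sum]
  refine Fintype.sum_equiv (Equiv.mulLeft (onep p (n + 1))) _ _ fun a => ?_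
  have h1 : Equiv.mulLeft (onep p (n + 1)) a = onep p (n + 1) * a := rfl
  rw [h1, map_mul, l1_onep]
  have h2 : D.ζ (n + 1) ^ ((a : ZMod (p ^ (n + 1))).val * i) *
      D.ζ n ^ (((ZMod.unitsMap (pow_dvd_pow p (Nat.le_succ n)) a : (ZMod (p ^ n))ˣ) :
        ZMod (p ^ n)).val * i) =
      D.ζ (n + 1) ^ ((((onep p (n + 1) * a : (ZMod (p ^ (n + 1)))ˣ) :
        ZMod (p ^ (n + 1)))).val * i) := by
    rw [pow_mul, pow_mul, pow_mul, ← mul_pow]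
    congr 1
    rw [l1_val, ← pow_eq_pow_mod _ (D.ζprim n).pow_eq_one]
    have h3 : D.ζ n = D.ζ (n + 1) ^ p := (D.ζp n).symm
    rw [h3, ← pow_mul, ← pow_add]
    apply hζn1
    rw [Units.val_mul, ZMod.val_mul, hu, Nat.mod_mod]
    have h4 : (1 + (p : ZMod (p ^ (n + 1)))) = ((1 + p : ℕ) : ZMod (p ^ (n + 1))) := by
      push_cast; rfl
    rw [h4, ZMod.val_natCast, Nat.mod_mul_mod]
    congr 1
    ring
  have h5 : χ (a : ZMod (p ^ (n + 1))) = χ⁻¹ (1 + (p : ZMod (p ^ (n + 1)))) *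
      χ ((onep p (n + 1) * a : (ZMod (p ^ (n + 1)))ˣ) : ZMod (p ^ (n + 1))) := by
    rw [Units.val_mul, map_mul, ← mul_assoc, ← hu, ← MulChar.mul_apply, inv_mul_cancel,
      MulChar.one_apply (Units.isUnit _), one_mul]
  rw [← h2]
  conv_lhs => rw [h5]
  ring

end SSF
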