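import Pool.Agent.Lib.SSG.F.L2A
import Pool.Agent.Lib.SSG.F.C9

/-! # SSG/F/L2 : `ell` modulo the maximal ideal -/

open Polynomial
open scoped Classical

namespace SSF

variable {p : ℕ} [Fact p.Prime] {R : ℕ → Type} [∀ N, CommRing (R N)] [∀ N, Fintype (R N)]
  {L : Type} [NormedField L] [IsUltrametricDist L] (D : LTD p R L)

/-- a `p^n`-th root of unity `z` in `L` satisfies `‖z - 1‖ < 1`: `z^(p^n) - 1 = 0` and
`(z - 1)^(p^n) ≡ z^(p^n) - 1` modulo `p` (binomial coefficients), `‖z‖ = 1`; or `norm_prim` for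
the order of `z`. -/
theorem norm_root_lt (n : ℕ) (z : L) (hz : z ^ (p ^ n) = 1) (hp1 : ‖(p : L)‖ < 1) : ‖z - 1‖ < 1 := by
  have hp : p.Prime := Fact.out
  obtain ⟨k, _, hk⟩ := (Nat.dvd_prime_pow hp).1 (orderOf_dvd_of_pow_eq_one hz)
  rcases k with _ | k
  · rw [pow_zero, orderOf_eq_one_iff] at hk
    rw [hk, sub_self, norm_zero]
    exact one_pos
  · have hprim : IsPrimitiveRoot z (p ^ (k + 1)) := by
      rw [← hk]
      exact IsPrimitiveRoot.orderOf z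
    have h1 := norm_prim k z hprim
    by_contra hcon
    push Not at hcon
    have h2 : 1 ≤ ‖z - 1‖ ^ (p ^ k * (p - 1)) := one_le_pow₀ hcon
    rw [h1] at h2
    exact absurd hp1 (not_lt.2 h2)

theorem l2_sum_lt (s : Finset ℕ) (g : ℕ → L) (h : ∀ v ∈ s, ‖g v‖ < 1) : ‖∑ v ∈ s, g v‖ < 1 := by
  rcases s.eq_empty_or_nonempty with rfl | hne
  · simp
  · obtain ⟨v, hv, hle⟩ := IsUltrametricDist.exists_norm_finsetSum_le s g
    exact hle.trans_lt (h v (hv hne))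

/-- `‖ell f - f 1‖ < 1` for `f ∈ O n`. PROOF. `f a = B(ζ_n^a) = sum_v B_v ζ_n^(a v)`, and
`ζ_n^(ā v) = ζ_(n+1)^(p a v)`, so `ell f = sum_v B_v χ⁻¹(i + p v)` by `gauss` (divide by
`tau ≠ 0`, `tau_ne`). `i + p v` is a unit, `χ⁻¹` of it is a `p^n`-th root of unity (`h1`), so
congruent to `1` (`norm_root_lt`); `f 1 = sum B_v ζ_n^v`, `‖ζ_n^v - 1‖ < 1`. So both are congruent
to `sum B_v`. -/
theorem ell_congr (n : ℕ) (hn : 1 ≤ n) (χ : DirichletCharacter L (p ^ (n + 1)))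
    (hχ : χ.IsPrimitive) (h1 : χ ^ (p ^ n) = 1) (i : ℕ) (hi : 1 ≤ i) (hip : i < p)
    (f : (ZMod (p ^ n))ˣ → L) (hf : f ∈ D.O n) : ‖D.ell n χ i f - f 1‖ < 1 := by
  have hp : p.Prime := Fact.out
  obtain ⟨B, hB⟩ := hf
  have hζ : D.ζ (n + 1) ^ p = D.ζ n := D.ζp n
  have hζ1 : D.ζ n ^ (p ^ n) = 1 := (D.ζprim n).pow_eq_one
  have hmap : ∀ a : (ZMod (p ^ (n + 1)))ˣ,
      D.ζ n ^ (ZMod.unitsMap (pow_dvd_pow p (Nat.le_succ n)) a : ZMod (p ^ n)).val =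
        D.ζ (n + 1) ^ (p * (a : ZMod (p ^ (n + 1))).val) := by
    intro a
    rw [pow_mul, hζ]
    rw [ZMod.unitsMap_val, ← ZMod.natCast_val, ZMod.val_natCast]
    exact (pow_eq_pow_mod _ hζ1).symm
  have hf1 : ∀ a : (ZMod (p ^ (n + 1)))ˣ, f (ZMod.unitsMap (pow_dvd_pow p (Nat.le_succ n)) a) =
      ∑ v ∈ Finset.range (B.natDegree + 1), (B.coeff v : L) *
        D.ζ (n + 1) ^ ((a : ZMod (p ^ (n + 1))).val * (p * v)) := by
    intro a
    rw [hB, hmap, LTD.ev, eval₂_eq_sum_range]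
    refine Finset.sum_congr rfl fun v _ => ?_
    rw [← pow_mul]
    congr 2
    ring
  have hell : D.ell n χ i f = ∑ v ∈ Finset.range (B.natDegree + 1),
      (B.coeff v : L) * χ⁻¹ ((i + p * v : ℕ) : ZMod (p ^ (n + 1))) := by
    unfold LTD.ell
    have h2 : ∑ a : (ZMod (p ^ (n + 1)))ˣ,
        χ (a : ZMod (p ^ (n + 1))) * D.ζ (n + 1) ^ ((a : ZMod (p ^ (n + 1))).val * i) *
        f (ZMod.unitsMap (pow_dvd_pow p (Nat.le_succ n)) a) =
        ∑ v ∈ Finset.range (B.natDegree + 1), (B.coeff v : L) *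
          (χ⁻¹ ((i + p * v : ℕ) : ZMod (p ^ (n + 1))) * D.tau (n + 1) χ) := by
      calc _ = ∑ a : (ZMod (p ^ (n + 1)))ˣ, ∑ v ∈ Finset.range (B.natDegree + 1),
            (B.coeff v : L) * (χ (a : ZMod (p ^ (n + 1))) *
              D.ζ (n + 1) ^ ((a : ZMod (p ^ (n + 1))).val * (i + p * v))) := by
            refine Finset.sum_congr rfl fun a _ => ?_
            rw [hf1 a, Finset.mul_sum]
            refine Finset.sum_congr rfl fun v _ => ?_
            have h5 : D.ζ (n + 1) ^ ((a : ZMod (p ^ (n + 1))).val * (i + p * v)) =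
                D.ζ (n + 1) ^ ((a : ZMod (p ^ (n + 1))).val * i) *
                D.ζ (n + 1) ^ ((a : ZMod (p ^ (n + 1))).val * (p * v)) := by
              rw [← pow_add, ← mul_add]
            rw [h5]
            ring
        _ = ∑ v ∈ Finset.range (B.natDegree + 1), ∑ a : (ZMod (p ^ (n + 1)))ˣ,
            (B.coeff v : L) * (χ (a : ZMod (p ^ (n + 1))) *
              D.ζ (n + 1) ^ ((a : ZMod (p ^ (n + 1))).val * (i + p * v))) := Finset.sum_comm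
        _ = _ := by
            refine Finset.sum_congr rfl fun v _ => ?_
            rw [← Finset.mul_sum, gauss D (n + 1) χ hχ (i + p * v)]
    rw [h2, Finset.mul_sum]
    refine Finset.sum_congr rfl fun v _ => ?_
    have hne := tau_ne D (n + 1) χ hχ
    field_simp
  have hf11 : f 1 = ∑ v ∈ Finset.range (B.natDegree + 1), (B.coeff v : L) *
      (D.ζ n ^ ((1 : (ZMod (p ^ n))ˣ) : ZMod (p ^ n)).val) ^ v := by
    rw [hB, LTD.ev, eval₂_eq_sum_range]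
    rfl
  rw [hell, hf11, ← Finset.sum_sub_distrib]
  apply l2_sum_lt
  intro v _
  rw [← mul_sub, norm_mul]
  have hBv : ‖(B.coeff v : L)‖ ≤ 1 := (B.coeff v).2.2
  have hunit : IsUnit ((i + p * v : ℕ) : ZMod (p ^ (n + 1))) := by
    rw [ZMod.isUnit_iff_coprime]
    apply Nat.Coprime.pow_right
    rw [Nat.coprime_add_mul_left_left]
    apply Nat.Coprime.symm
    rw [Nat.Prime.coprime_iff_not_dvd hp]
    exact Nat.not_dvd_of_pos_of_lt hi hip
  have hz1 : ‖χ⁻¹ ((i + p * v : ℕ) : ZMod (p ^ (n + 1))) - 1‖ < 1 := by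
    apply norm_root_lt (p := p) n _ _ D.hp1
    rw [← MulChar.pow_apply' χ⁻¹ (pow_ne_zero n hp.ne_zero), inv_pow, h1, inv_one]
    exact MulChar.one_apply hunit
  have hz2 : ‖(D.ζ n ^ ((1 : (ZMod (p ^ n))ˣ) : ZMod (p ^ n)).val) ^ v - 1‖ < 1 := by
    apply norm_root_lt (p := p) n _ _ D.hp1
    rw [← pow_mul, ← pow_mul, mul_comm _ (v * p ^ n), mul_comm v (p ^ n), pow_mul, pow_mul, hζ1,
      one_pow, one_pow]
  have hz3 : ‖χ⁻¹ ((i + p * v : ℕ) : ZMod (p ^ (n + 1))) -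
      (D.ζ n ^ ((1 : (ZMod (p ^ n))ˣ) : ZMod (p ^ n)).val) ^ v‖ < 1 := by
    have h3 : χ⁻¹ ((i + p * v : ℕ) : ZMod (p ^ (n + 1))) -
      (D.ζ n ^ ((1 : (ZMod (p ^ n))ˣ) : ZMod (p ^ n)).val) ^ v =
      (χ⁻¹ ((i + p * v : ℕ) : ZMod (p ^ (n + 1))) - 1) -
      ((D.ζ n ^ ((1 : (ZMod (p ^ n))ˣ) : ZMod (p ^ n)).val) ^ v - 1) := by ring
    rw [h3]
    have h4 := IsUltrametricDist.norm_add_le_max (χ⁻¹ ((i + p * v : ℕ) : ZMod (p ^ (n + 1))) - 1)
      (-((D.ζ n ^ ((1 : (ZMod (p ^ n))ˣ) : ZMod (p ^ n)).val) ^ v - 1))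
    rw [← sub_eq_add_neg, norm_neg] at h4
    exact h4.trans_lt (max_lt hz1 hz2)
  calc _ ≤ 1 * ‖χ⁻¹ ((i + p * v : ℕ) : ZMod (p ^ (n + 1))) -
      (D.ζ n ^ ((1 : (ZMod (p ^ n))ˣ) : ZMod (p ^ n)).val) ^ v‖ :=
        mul_le_mul_of_nonneg_right hBv (norm_nonneg _)
    _ < 1 := by rwa [one_mul]

/-- `ell` is additive and homogeneous (`Finset.sum_add_distrib`, `Finset.mul_sum`). -/
theorem ell_add (n : ℕ) (χ : DirichletCharacter L (p ^ (n + 1))) (i : ℕ)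
    (f g : (ZMod (p ^ n))ˣ → L) : D.ell n χ i (f + g) = D.ell n χ i f + D.ell n χ i g := by
  unfold LTD.ell
  rw [← mul_add, ← Finset.sum_add_distrib]
  congr 1
  refine Finset.sum_congr rfl fun a _ => ?_
  rw [Pi.add_apply, mul_add]

/-- `ell (c f) = c ell f` for a constant `c : L`. -/
theorem ell_smul (n : ℕ) (χ : DirichletCharacter L (p ^ (n + 1))) (i : ℕ) (c : L)
    (f : (ZMod (p ^ n))ˣ → L) : D.ell n χ i (fun a => c * f a) = c * D.ell n χ i f := by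
  unfold LTD.ell
  rw [mul_left_comm, Finset.mul_sum (a := c)]
  congr 1
  refine Finset.sum_congr rfl fun a _ => ?_
  ring

end SSF
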