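import Pool.Agent.Lib.SSG.F.D3

/-! # SSG/F/L2A : Gauss sums -/

open Polynomial
open scoped Classical

namespace SSF

variable {p : ℕ} [Fact p.Prime] {R : ℕ → Type} [∀ N, CommRing (R N)] [∀ N, Fintype (R N)]
  {L : Type} [NormedField L] [IsUltrametricDist L] (D : LTD p R L)

omit [IsUltrametricDist L] in
theorem l2a_one (N : ℕ) : D.ζ N ^ (p ^ N) = 1 := (D.ζprim N).pow_eq_one

/-- the additive character -/
noncomputable def l2a_e (N : ℕ) : AddChar (ZMod (p ^ N)) L := AddChar.zmodChar (p ^ N) (l2a_one D N)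

omit [IsUltrametricDist L] in
theorem l2a_tau (N : ℕ) (χ : DirichletCharacter L (p ^ N)) :
    D.tau N χ = gaussSum χ (l2a_e D N) := rfl

omit [IsUltrametricDist L] in
theorem l2a_prim (N : ℕ) : (l2a_e D N).IsPrimitive :=
  AddChar.zmodChar_primitive_of_primitive_root (p ^ N) (D.ζprim N)

omit [IsUltrametricDist L] in
/-- The Gauss sum formula. PROOF. With `e = AddChar.zmodChar (p^N) _` (`e a = ζ^(a.val)`)
`D.tau N χ = gaussSum χ e`, and `gaussSum_mulShift_of_isPrimitive` (Mathlib) for `(v : ZMod (p^N))`: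
`sum_a χ(a) e(v a) = χ⁻¹(v) gaussSum χ e`. The sum over all `a` is the sum over the units, as `χ`
vanishes on the others (`MulChar.map_nonunit`); `e (v a) = ζ^(a.val v)`. -/
theorem l2a_gauss (N : ℕ) (χ : DirichletCharacter L (p ^ N)) (hχ : χ.IsPrimitive) (v : ℕ) :
    ∑ a : (ZMod (p ^ N))ˣ, χ (a : ZMod (p ^ N)) * D.ζ N ^ ((a : ZMod (p ^ N)).val * v) =
      χ⁻¹ (v : ZMod (p ^ N)) * D.tau N χ := by
  rw [l2a_tau, ← gaussSum_mulShift_of_isPrimitive (l2a_e D N) hχ (v : ZMod (p ^ N))]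
  unfold gaussSum
  have h1 : ∀ a : ZMod (p ^ N), AddChar.mulShift (l2a_e D N) (v : ZMod (p ^ N)) a =
      D.ζ N ^ (a.val * v) := by
    intro a
    rw [AddChar.mulShift_apply]
    have h2 : (v : ZMod (p ^ N)) * a = ((a.val * v : ℕ) : ZMod (p ^ N)) := by
      rw [Nat.cast_mul, ZMod.natCast_zmod_val, mul_comm]
    rw [h2]
    exact AddChar.zmodChar_apply' (l2a_one D N) _
  simp only [h1]
  symm
  have h3 : ∀ a : ZMod (p ^ N), a ∉ Set.range ((↑) : (ZMod (p ^ N))ˣ → ZMod (p ^ N)) →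
      χ a * D.ζ N ^ (a.val * v) = 0 := by
    intro a ha
    rw [χ.map_nonunit (fun hu => ha ⟨hu.unit, rfl⟩), zero_mul]
  exact (Fintype.sum_of_injective (fun a : (ZMod (p ^ N))ˣ => (a : ZMod (p ^ N)))
    Units.val_injective _ _ h3 (fun _ => rfl)).symm

theorem gauss (N : ℕ) (χ : DirichletCharacter L (p ^ N)) (hχ : χ.IsPrimitive) (v : ℕ) :
    ∑ a : (ZMod (p ^ N))ˣ, χ (a : ZMod (p ^ N)) * D.ζ N ^ ((a : ZMod (p ^ N)).val * v) =
      χ⁻¹ (v : ZMod (p ^ N)) * D.tau N χ :=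
  l2a_gauss D N χ hχ v

/-- `tau χ tau χ⁻¹ χ(-1) = p^N`. -/
theorem tau_mul (N : ℕ) (χ : DirichletCharacter L (p ^ N)) (hχ : χ.IsPrimitive) :
    D.tau N χ * D.tau N χ⁻¹ * χ (-1) = (p : L) ^ N := by
  have hm1 : χ⁻¹ (-1) = χ (-1) := by
    have h1 : χ (-1) * χ (-1) = 1 := by rw [← map_mul]; simp
    have h2 : χ (-1) * χ⁻¹ (-1) = 1 := by
      rw [← MulChar.mul_apply, mul_inv_cancel]
      exact MulChar.one_apply isUnit_one.neg
    have h3 : χ (-1) ≠ 0 := fun h => by rw [h, zero_mul] at h1; exact zero_ne_one h1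
    exact mul_left_cancel₀ h3 (h2.trans h1.symm)
  have hb : ∀ b : ZMod (p ^ N), χ⁻¹ b * l2a_e D N b * (D.tau N χ * χ (-1)) =
      ∑ a : ZMod (p ^ N), χ a * l2a_e D N (b * (1 - a)) := by
    intro b
    have h1 := gaussSum_mulShift_of_isPrimitive (l2a_e D N) hχ (-b)
    have h2 : χ⁻¹ (-b) = χ⁻¹ b * χ (-1) := by
      rw [← hm1, ← map_mul]; simp
    rw [h2] at h1
    have h3 : χ⁻¹ b * l2a_e D N b * (D.tau N χ * χ (-1)) =
        l2a_e D N b * (χ⁻¹ b * χ (-1) * gaussSum χ (l2a_e D N)) := by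
      rw [l2a_tau]; ring
    rw [h3, ← h1]
    unfold gaussSum
    rw [Finset.mul_sum]
    refine Finset.sum_congr rfl fun a _ => ?_
    rw [AddChar.mulShift_apply]
    have h4 : b * (1 - a) = b + -b * a := by ring
    rw [h4, AddChar.map_add_eq_mul]
    ring
  have h5 : D.tau N χ * D.tau N χ⁻¹ * χ (-1) =
      ∑ b : ZMod (p ^ N), χ⁻¹ b * l2a_e D N b * (D.tau N χ * χ (-1)) := by
    rw [← Finset.sum_mul]
    have : ∑ b : ZMod (p ^ N), χ⁻¹ b * l2a_e D N b = D.tau N χ⁻¹ := rfl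
    rw [this]; ring
  rw [h5, Finset.sum_congr rfl fun b _ => hb b, Finset.sum_comm]
  have h6 : ∀ a : ZMod (p ^ N), ∑ b : ZMod (p ^ N), χ a * l2a_e D N (b * (1 - a)) =
      if a = 1 then (p : L) ^ N else 0 := by
    intro a
    rw [← Finset.mul_sum, AddChar.sum_mulShift (1 - a) (l2a_prim D N)]
    by_cases ha : a = 1
    · subst ha
      simp [ZMod.card]
    · have : (1 - a : ZMod (p ^ N)) ≠ 0 := fun h => ha (sub_eq_zero.1 h).symm
      simp [this, ha]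
  rw [Finset.sum_congr rfl fun a _ => h6 a]
  simp

/-- from `tau_mul`, `D.hp0`. -/
theorem tau_ne (N : ℕ) (χ : DirichletCharacter L (p ^ N)) (hχ : χ.IsPrimitive) :
    D.tau N χ ≠ 0 := by
  intro h
  have h1 := tau_mul D N χ hχ
  rw [h, zero_mul, zero_mul] at h1
  exact pow_ne_zero N D.hp0 h1.symm

end SSF
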