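import Pool.Agent.Lib.SSG.F.L2A
import Pool.Agent.Lib.SSG.F.C6

/-! # SSG/F/L2B : the norm of the Gauss sum -/

open Polynomial
open scoped Classical

namespace SSF

variable {p : ℕ} [Fact p.Prime] {R : ℕ → Type} [∀ N, CommRing (R N)] [∀ N, Fintype (R N)]
  {L : Type} [NormedField L] [IsUltrametricDist L] (D : LTD p R L)

omit [IsUltrametricDist L] in
theorem l2b_m1 (N : ℕ) (χ : DirichletCharacter L (p ^ N)) : ‖χ (-1)‖ = 1 := by
  have h1 : χ (-1) * χ (-1) = 1 := by rw [← map_mul]; simp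
  have h2 : ‖χ (-1)‖ * ‖χ (-1)‖ = 1 := by rw [← norm_mul, h1, norm_one]
  nlinarith [norm_nonneg (χ (-1))]

/-- `‖tau χ‖^2 = ‖p‖^N` for `χ` primitive with `χ^(p^M) = 1`, `M ≤ N`. PROOF. `N = 0` is trivial (`tau = 1`, one
element); let `N ≥ 1`. By `gal_cyc` there is `σ ∈ G` with `σ ζ = ζ^(-1)` (exponent `(-1 : ZMod).val`).
Each value `χ(a)`, `a` a unit, satisfies `χ(a)^(p^N) = 1`, so it is a power of `ζ_N`
(`IsPrimitiveRoot.eq_pow_of_pow_eq_one`) and `σ (χ(a)) = χ(a)⁻¹ = χ⁻¹(a)`. So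
`σ (tau χ) = sum χ⁻¹(a) ζ^(-a) = χ(-1) tau χ⁻¹` (substitute `a → -a`), hence
`‖tau χ‖ = ‖tau χ⁻¹‖` (`D.giso`, `‖χ(-1)‖ = 1`), and `tau_mul`. -/
theorem tau_norm (N : ℕ) (χ : DirichletCharacter L (p ^ N)) (hχ : χ.IsPrimitive)
    (M : ℕ) (hM : M ≤ N) (h1 : χ ^ (p ^ M) = 1) : ‖D.tau N χ‖ ^ 2 = ‖(p : L)‖ ^ N := by
  have hmul := congrArg norm (tau_mul D N χ hχ)
  rw [norm_mul, norm_mul, l2b_m1 N χ, mul_one, norm_pow] at hmul
  suffices h : ‖D.tau N χ⁻¹‖ = ‖D.tau N χ‖ by rw [← hmul, h, pow_two]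
  rcases Nat.eq_zero_or_pos N with h0 | h0
  · subst h0
    have h2 : χ⁻¹ = χ := by
      have h3 : Subsingleton (ZMod (p ^ 0))ˣ := by
        rw [pow_zero]; infer_instance
      ext a
      have h4 : a = 1 := Subsingleton.elim _ _
      subst h4
      rw [Units.val_one]
      exact (map_one _).trans (map_one _).symm
    rw [h2]
  · obtain ⟨σ, hσ, hσζ⟩ := gal_cyc D N h0 (-1)
    have hval : ∀ a : ZMod (p ^ N), σ (D.ζ N ^ a.val) = l2a_e D N (-a) := by
      intro a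
      rw [map_pow, hσζ, ← pow_mul]
      have h2 := AddChar.zmodChar_apply' (l2a_one D N) (((-1 : (ZMod (p ^ N))ˣ) : ZMod (p ^ N)).val * a.val)
      rw [← h2]
      congr 1
      rw [Nat.cast_mul, ZMod.natCast_zmod_val, ZMod.natCast_zmod_val]
      simp
    have hchi : ∀ a : ZMod (p ^ N), σ (χ a) = χ⁻¹ a := by
      intro a
      by_cases ha : IsUnit a
      · have h2 : χ a ^ (p ^ N) = 1 := by
          have h3 : χ ^ (p ^ N) = 1 :=
            orderOf_dvd_iff_pow_eq_one.1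
              ((orderOf_dvd_of_pow_eq_one h1).trans (pow_dvd_pow p hM))
          rw [← MulChar.pow_apply' χ (pow_ne_zero N (Fact.out : p.Prime).ne_zero) a, h3,
            MulChar.one_apply ha]
        have hpos : 0 < p ^ N := pow_pos (Fact.out : p.Prime).pos N
        have : NeZero (p ^ N) := ⟨hpos.ne'⟩
        obtain ⟨k, _, hk⟩ := (D.ζprim N).eq_pow_of_pow_eq_one h2
        have h4 : σ (D.ζ N) * D.ζ N = 1 := by
          have h5 := hval 1
          have h6 : D.ζ N ^ (1 : ZMod (p ^ N)).val = D.ζ N := by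
            have h7 := AddChar.zmodChar_apply' (l2a_one D N) 1
            rw [pow_one, Nat.cast_one] at h7
            exact h7
          rw [h6] at h5
          rw [h5]
          have h8 : l2a_e D N 1 = D.ζ N := h6
          rw [← h8, ← AddChar.map_add_eq_mul]
          simp
        have h9 : σ (χ a) * χ a = 1 := by
          rw [← hk, map_pow, ← mul_pow, h4, one_pow]
        have h10 : χ⁻¹ a * χ a = 1 := by
          rw [← MulChar.mul_apply, inv_mul_cancel, MulChar.one_apply ha]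
        have h11 : χ a ≠ 0 := right_ne_zero_of_mul_eq_one h9
        exact mul_right_cancel₀ h11 (h9.trans h10.symm)
      · rw [χ.map_nonunit ha, map_zero, MulChar.map_nonunit _ ha]
    have h12 : σ (D.tau N χ) = χ⁻¹ (-1) * D.tau N χ⁻¹ := by
      have h13 : D.tau N χ = ∑ a : ZMod (p ^ N), χ a * D.ζ N ^ a.val := rfl
      have h14 : D.tau N χ⁻¹ = ∑ a : ZMod (p ^ N), χ⁻¹ a * l2a_e D N a := rfl
      rw [h13, map_sum, h14, Finset.mul_sum]
      refine Fintype.sum_equiv (Equiv.neg _) _ _ fun a => ?_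
      rw [map_mul, hval, hchi]
      change χ⁻¹ a * l2a_e D N (-a) = χ⁻¹ (-1) * (χ⁻¹ (-a) * l2a_e D N (-a))
      rw [← mul_assoc, ← map_mul]
      simp
    have h15 := D.giso σ hσ (D.tau N χ)
    rw [h12, norm_mul, l2b_m1 N χ⁻¹, one_mul] at h15
    exact h15

end SSF
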