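import Pool.Agent.Lib.SSG.F.D1

/-! # SSG/F/L3 : the abstract eigenvector lemma -/

open Polynomial
open scoped Classical

namespace SSF

variable {p : ℕ} [Fact p.Prime] {R : ℕ → Type} [∀ N, CommRing (R N)] [∀ N, Fintype (R N)]
  {L : Type} [NormedField L] [IsUltrametricDist L] (D : LTD p R L)

omit [Fact p.Prime] in
/-- Abstract lemma. `A y` plays the role of `θ σ(y)`. PROOF. Let `s m = ⨆ y, ‖ℓ (φ^m y)‖ ≤ 1`
(bounded by `hb`); `s` is antitone (`φ^(m+1) y = φ^m (φ y)`). From `hA` (for `φ^m y`) and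
`hshape`: `η ℓ(φ^m y) = ℓ(A(φ^m y) - φ^m y) = i ℓ(φ^(m+1) y) + ℓ(φ^(m+2) z)` (`ℓ (i x) = i ℓ x`, additive), so
(*) `i ℓ(φ^(m+1) y) = η ℓ(φ^m y) - ℓ(φ^(m+2) z)` and `s (m+1) ≤ max (‖η‖ s m) (s (m+2))`.
CLAIM `s (m+1) ≤ ‖η‖ s m` for all `m`. Otherwise take `m` with `s (m+1) > ‖η‖ s m`; then
`s (m+1) ≤ s (m+2)`, so `s (m+2) = s (m+1) =: c > 0`, and `s (m+2) = c > ‖η‖ c = ‖η‖ s (m+1)`; by
induction `s (m+1+j) = c` for all `j`, a contradiction to `hlim`. So `s m ≤ ‖η‖^m`, and by (*)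
`‖ℓ(φ^(m+1) y) - (η/i) ℓ(φ^m y)‖ ≤ s (m+2) ≤ ‖η‖^(m+2)`. Induction on `m`:
`ℓ(φ^(m+1) y) - (η/i)^(m+1) ℓ y = (ℓ(φ^(m+1) y) - (η/i) ℓ(φ^m y)) + (η/i)(ℓ(φ^m y) - (η/i)^m ℓ y)`. -/
theorem eigen {Q : Type} [CommRing Q] (ℓ : Q →+ L) (φ : Q) (η : L) (i : ℕ) (A : Q → Q)
    (hA : ∀ y, ℓ (A y) = (η + 1) * ℓ y)
    (hshape : ∀ (m : ℕ) (y : Q), ∃ z, A (φ ^ m * y) - φ ^ m * y =
      (i : Q) * φ ^ (m + 1) * y + φ ^ (m + 2) * z)
    (hi : ‖(i : L)‖ = 1) (hη0 : 0 < ‖η‖) (hη : ‖η‖ < 1) (hb : ∀ y, ‖ℓ y‖ ≤ 1)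
    (hlim : ∀ ε > 0, ∃ m : ℕ, ∀ y, ‖ℓ (φ ^ m * y)‖ < ε) (m : ℕ) (y : Q) :
    ‖ℓ (φ ^ m * y) - (η / i) ^ m * ℓ y‖ ≤ ‖η‖ ^ (m + 1) := by
  have hQ : Nonempty Q := ⟨0⟩
  have hi0 : (i : L) ≠ 0 := by
    intro h
    rw [h, norm_zero] at hi
    exact zero_ne_one hi
  have hstar : ∀ (m : ℕ) (y : Q), ∃ z, (i : L) * ℓ (φ ^ (m + 1) * y) =
      η * ℓ (φ ^ m * y) - ℓ (φ ^ (m + 2) * z) := by
    intro m y
    obtain ⟨z, hz⟩ := hshape m y
    refine ⟨z, ?_⟩
    have h1 := congrArg ℓ hz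
    rw [map_sub, map_add, hA] at h1
    have h2 : ℓ ((i : Q) * φ ^ (m + 1) * y) = (i : L) * ℓ (φ ^ (m + 1) * y) := by
      rw [mul_assoc, ← nsmul_eq_mul, map_nsmul, nsmul_eq_mul]
    rw [h2] at h1
    linear_combination -h1
  set s : ℕ → ℝ := fun m => ⨆ y, ‖ℓ (φ ^ m * y)‖ with hs
  have hbdd : ∀ m, BddAbove (Set.range fun y => ‖ℓ (φ ^ m * y)‖) := by
    intro m
    exact ⟨1, by rintro _ ⟨y, rfl⟩; exact hb _⟩
  have hle : ∀ m y, ‖ℓ (φ ^ m * y)‖ ≤ s m := fun m y => le_ciSup (hbdd m) y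
  have hs0 : ∀ m, 0 ≤ s m := fun m => (norm_nonneg _).trans (hle m 0)
  have hanti : ∀ m, s (m + 1) ≤ s m := by
    intro m
    refine ciSup_le fun y => ?_
    have : φ ^ (m + 1) * y = φ ^ m * (φ * y) := by ring
    rw [this]
    exact hle m _
  have hanti' : ∀ m j, s (m + j) ≤ s m := by
    intro m j
    induction j with
    | zero => exact le_refl _
    | succ j ih => exact (hanti (m + j)).trans ih
  have hmax : ∀ m, s (m + 1) ≤ max (‖η‖ * s m) (s (m + 2)) := by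
    intro m
    refine ciSup_le fun y => ?_
    obtain ⟨z, hz⟩ := hstar m y
    have h1 : ‖ℓ (φ ^ (m + 1) * y)‖ = ‖(i : L) * ℓ (φ ^ (m + 1) * y)‖ := by
      rw [norm_mul, hi, one_mul]
    rw [h1, hz, sub_eq_add_neg]
    refine (IsUltrametricDist.norm_add_le_max _ _).trans (max_le_max ?_ ?_)
    · rw [norm_mul]
      exact mul_le_mul_of_nonneg_left (hle _ _) (norm_nonneg _)
    · rw [norm_neg]
      exact hle _ _
  have hclaim : ∀ m, s (m + 1) ≤ ‖η‖ * s m := by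
    intro m
    by_contra hcon
    rw [not_le] at hcon
    have hc0 : 0 < s (m + 1) := lt_of_le_of_lt (mul_nonneg (norm_nonneg _) (hs0 m)) hcon
    have hP : ∀ j, s (m + 1 + j) = s (m + 1) ∧ s (m + 2 + j) = s (m + 1) := by
      intro j
      induction j with
      | zero =>
        refine ⟨rfl, le_antisymm (hanti (m + 1)) ?_⟩
        rcases le_max_iff.mp (hmax m) with h | h
        · exact absurd h (not_le.mpr hcon)
        · exact h
      | succ j ih =>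
        obtain ⟨ih1, ih2⟩ := ih
        have e1 : m + 1 + (j + 1) = m + 2 + j := by ring
        have e2 : m + 2 + (j + 1) = m + 1 + j + 2 := by ring
        have e3 : m + 2 + j = m + 1 + j + 1 := by ring
        rw [e1, e2]
        refine ⟨ih2, ?_⟩
        have h1 := hmax (m + 1 + j)
        rw [← e3, ih1, ih2] at h1
        apply le_antisymm
        · have h2 := hanti (m + 1 + j + 1)
          rw [← e3, ih2] at h2
          have e4 : m + 1 + j + 2 = m + 2 + j + 1 := by ring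
          rw [e4]
          exact h2
        · rcases le_max_iff.mp h1 with h | h
          · exfalso
            have : ‖η‖ * s (m + 1) < 1 * s (m + 1) := mul_lt_mul_of_pos_right hη hc0
            linarith
          · exact h
    obtain ⟨M, hM⟩ := hlim (s (m + 1) / 2) (by linarith)
    have h1 : s M ≤ s (m + 1) / 2 := ciSup_le fun y => (hM y).le
    have h2 : s (M + (m + 1)) ≤ s M := hanti' M (m + 1)
    have h3 := (hP M).1
    rw [add_comm (m + 1) M] at h3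
    linarith
  have hpow : ∀ m, s m ≤ ‖η‖ ^ m := by
    intro m
    induction m with
    | zero =>
      rw [pow_zero]
      exact ciSup_le fun y => hb _
    | succ m ih =>
      refine (hclaim m).trans ?_
      rw [pow_succ']
      exact mul_le_mul_of_nonneg_left ih (norm_nonneg _)
  induction m with
  | zero =>
    rw [pow_zero, pow_zero, one_mul, one_mul, sub_self, norm_zero]
    positivity
  | succ m ih =>
    obtain ⟨z, hz⟩ := hstar m y
    have h1 : ℓ (φ ^ (m + 1) * y) - (η / i) ^ (m + 1) * ℓ y =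
        -(ℓ (φ ^ (m + 2) * z) / i) + η / i * (ℓ (φ ^ m * y) - (η / i) ^ m * ℓ y) := by
      have h2 : ℓ (φ ^ (m + 1) * y) = (η * ℓ (φ ^ m * y) - ℓ (φ ^ (m + 2) * z)) / i := by
        rw [← hz]
        field_simp
      rw [h2, pow_succ']
      ring
    rw [h1]
    refine (IsUltrametricDist.norm_add_le_max _ _).trans (max_le ?_ ?_)
    · rw [norm_neg, norm_div, hi, div_one]
      exact (hle _ _).trans (hpow _)
    · rw [norm_mul, norm_div, hi, div_one]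
      calc ‖η‖ * ‖ℓ (φ ^ m * y) - (η / i) ^ m * ℓ y‖ ≤ ‖η‖ * ‖η‖ ^ (m + 1) :=
            mul_le_mul_of_nonneg_left ih (norm_nonneg _)
        _ = ‖η‖ ^ (m + 1 + 1) := (pow_succ' _ _).symm

end SSF
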