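import Pool.Agent.Lib.SSG.F.D3
import Pool.Agent.Lib.SSG.F.C3

/-! # SSG/F/L5 : the norm of `eta` -/

open Polynomial
open scoped Classical

namespace SSF

variable {p : ℕ} [Fact p.Prime] {R : ℕ → Type} [∀ N, CommRing (R N)] [∀ N, Fintype (R N)]
  {L : Type} [NormedField L] [IsUltrametricDist L] (D : LTD p R L)

omit [IsUltrametricDist L] in
/-- `χ⁻¹(1+p)` is a primitive `p^n`-th root of unity if `χ` mod `p^(n+1)` is primitive,
`χ^(p^n) = 1`, `p` odd, `n ≥ 1`. PROOF. `ξ = χ⁻¹(1+p)`, `ξ^(p^n) = 1`. If `ξ^(p^(n-1)) = 1` then `χ` is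
trivial on `(1+p)^(p^(n-1))`, which generates the kernel of
`(ZMod (p^(n+1)))ˣ → (ZMod (p^n))ˣ`: this kernel has order `p` (elements `1 + p^n t`), and
`(1+p)^(p^(n-1)) = 1 + p^n mod p^(n+1)` (induction, `p` odd; or: `1 + p` has order `p^n` mod
`p^(n+1)`, Mathlib `ZMod.orderOf_one_add_prime`, so its `p^(n-1)`-th power is not `1` and it is in
the kernel). So `χ` factors through `p^n` (`DirichletCharacter.factorsThrough_iff_ker_unitsMap`), a
contradiction to `χ.IsPrimitive` (conductor `= p^(n+1)`). Conclude with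
`IsPrimitiveRoot.of_..`/`orderOf_eq_prime_pow`. -/
theorem xi_prim (hp3 : 3 ≤ p) (n : ℕ) (hn : 1 ≤ n) (χ : DirichletCharacter L (p ^ (n + 1)))
    (hχ : χ.IsPrimitive) (h1 : χ ^ (p ^ n) = 1) :
    IsPrimitiveRoot (χ⁻¹ (1 + (p : ZMod (p ^ (n + 1))))) (p ^ n) := by
  have hp : p.Prime := Fact.out
  have hN0 : p ^ (n + 1) ≠ 0 := pow_ne_zero _ hp.ne_zero
  have : NeZero (p ^ (n + 1)) := ⟨hN0⟩
  have : NeZero (p ^ n) := ⟨pow_ne_zero _ hp.ne_zero⟩
  obtain ⟨m, rfl⟩ : ∃ m, n = m + 1 := ⟨n - 1, by omega⟩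

  have hd : p ^ (m + 1) ∣ p ^ (m + 1 + 1) := pow_dvd_pow p (Nat.le_succ _)
  set u : (ZMod (p ^ (m + 1 + 1)))ˣ := onep p (m + 1 + 1) with hu
  have huv : (u : ZMod (p ^ (m + 1 + 1))) = 1 + (p : ZMod (p ^ (m + 1 + 1))) := by
    rw [hu, onep, ZMod.coe_unitOfCoprime]
    push_cast
    ring
  have hord : orderOf u = p ^ (m + 1) := by
    rw [← orderOf_units, huv]
    exact ZMod.orderOf_one_add_prime hp (by omega) (m + 1)
  have hcinv : ∀ k : ℕ, (χ⁻¹ (u : ZMod (p ^ (m + 1 + 1)))) ^ k = χ⁻¹ ((u ^ k : (ZMod (p ^ (m + 1 + 1)))ˣ) : ZMod (p ^ (m + 1 + 1))) := by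
    intro k
    rw [Units.val_pow_eq_pow_val, map_pow]
  have hfin : (χ⁻¹ (1 + (p : ZMod (p ^ (m + 1 + 1))))) ^ p ^ (m + 1) = 1 := by
    rw [← huv, hcinv, ← hord, pow_orderOf_eq_one, Units.val_one, map_one]
  have hnot : ¬ (χ⁻¹ (1 + (p : ZMod (p ^ (m + 1 + 1))))) ^ p ^ m = 1 := by
    intro hcon
    rw [← huv, hcinv] at hcon
    set v := u ^ p ^ m with hv
    have hv1 : v ≠ 1 := by
      intro h
      have := orderOf_dvd_of_pow_eq_one h
      rw [hord, Nat.pow_dvd_pow_iff_le_right hp.one_lt] at this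
      omega
    have hvker : v ∈ (ZMod.unitsMap hd).ker := by
      rw [MonoidHom.mem_ker, hv, map_pow]
      ext
      rw [Units.val_pow_eq_pow_val, Units.val_one]
      have h2 : ((ZMod.unitsMap hd u : (ZMod (p ^ (m + 1)))ˣ) : ZMod (p ^ (m + 1))) = 1 + (p : ZMod (p ^ (m + 1))) := by
        rw [ZMod.unitsMap_val, huv]
        have h3 := map_add (ZMod.castHom hd (ZMod (p ^ (m + 1)))) 1 (p : ZMod (p ^ (m + 1 + 1)))
        rw [map_one, map_natCast] at h3
        simpa using h3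
      rw [h2, ← ZMod.orderOf_one_add_prime hp (by omega) m]
      exact pow_orderOf_eq_one _
    have hcard : Nat.card (ZMod.unitsMap hd).ker = p := by
      have h1 := Subgroup.card_mul_index (ZMod.unitsMap hd).ker
      rw [Subgroup.index_ker] at h1
      have hsurj : (ZMod.unitsMap hd).range = ⊤ := MonoidHom.range_eq_top.mpr (ZMod.unitsMap_surjective hd)
      rw [hsurj, Nat.card_congr (Subgroup.topEquiv).toEquiv, Nat.card_eq_fintype_card (α := (ZMod (p ^ (m + 1)))ˣ),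
        ZMod.card_units_eq_totient, Nat.card_eq_fintype_card (α := (ZMod (p ^ (m + 1 + 1)))ˣ),
        ZMod.card_units_eq_totient, Nat.totient_prime_pow_succ hp, Nat.totient_prime_pow_succ hp] at h1
      have h3 : 0 < p ^ m * (p - 1) := Nat.mul_pos (pow_pos hp.pos _) (by omega)
      have h4 : Nat.card (ZMod.unitsMap hd).ker * (p ^ m * (p - 1)) = p * (p ^ m * (p - 1)) := by
        rw [h1, pow_succ]; ring
      exact Nat.eq_of_mul_eq_mul_right h3 h4
    have hfac : DirichletCharacter.FactorsThrough χ (p ^ (m + 1)) := by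
      rw [DirichletCharacter.factorsThrough_iff_ker_unitsMap hd]
      intro x hx
      have hmem : (⟨x, hx⟩ : (ZMod.unitsMap hd).ker) ∈ Subgroup.zpowers (⟨v, hvker⟩ : (ZMod.unitsMap hd).ker) :=
        mem_zpowers_of_prime_card hcard (fun h => hv1 (congrArg Subtype.val h))
      obtain ⟨k, hk⟩ := Subgroup.mem_zpowers_iff.mp hmem
      have hk' : v ^ k = x := congrArg Subtype.val hk
      rw [MonoidHom.mem_ker, ← hk', map_zpow]
      have h5 : χ.toUnitHom v = 1 := by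
        ext
        rw [MulChar.coe_toUnitHom, Units.val_one]
        have h6 : χ⁻¹ (v : ZMod (p ^ (m + 1 + 1))) * χ (v : ZMod (p ^ (m + 1 + 1))) = 1 := by
          rw [← MulChar.mul_apply, inv_mul_cancel, MulChar.one_apply_coe]
        rw [hcon, one_mul] at h6
        exact h6
      rw [h5, one_zpow]
    have hdv := DirichletCharacter.conductor_dvd_of_mem_conductorSet χ hfac
    rw [(DirichletCharacter.isPrimitive_def χ).mp hχ, Nat.pow_dvd_pow_iff_le_right hp.one_lt] at hdv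
    omega
  have ho := orderOf_eq_prime_pow hnot hfin
  rw [← ho]
  exact IsPrimitiveRoot.orderOf _

/-- `‖eta‖ = ‖ζ_n - 1‖` (`xi_prim`, `norm_prim` for both: equal `E`-th powers, `n = m+1`). -/
theorem eta_norm (hp3 : 3 ≤ p) (n : ℕ) (hn : 1 ≤ n) (χ : DirichletCharacter L (p ^ (n + 1)))
    (hχ : χ.IsPrimitive) (h1 : χ ^ (p ^ n) = 1) : ‖D.eta (n + 1) χ‖ = ‖D.ζ n - 1‖ := by
  have hp : p.Prime := Fact.out
  have h2 := xi_prim hp3 n hn χ hχ h1
  have h3 := D.ζprim n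
  obtain ⟨m, rfl⟩ : ∃ m, n = m + 1 := ⟨n - 1, by omega⟩
  have h4 := norm_prim m _ h2
  have h5 := norm_prim m _ h3
  have hE : p ^ m * (p - 1) ≠ 0 := Nat.mul_ne_zero (pow_ne_zero _ hp.ne_zero) (by omega)
  have h6 := h4.trans h5.symm
  exact (pow_left_inj₀ (norm_nonneg _) (norm_nonneg _) hE).mp h6

end SSF
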