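import Pool.Agent.Lib.SSG.F.L0
import Pool.Agent.Lib.SSG.F.L1
import Pool.Agent.Lib.SSG.F.L2
import Pool.Agent.Lib.SSG.F.L3
import Pool.Agent.Lib.SSG.F.L5

/-! # SSG/F/L4 : the functional on `φ^J O` -/

open Polynomial
open scoped Classical

namespace SSF

variable {p : ℕ} [Fact p.Prime] {R : ℕ → Type} [∀ N, CommRing (R N)] [∀ N, Fintype (R N)]
  {L : Type} [NormedField L] [IsUltrametricDist L] (D : LTD p R L)

omit [Fact p.Prime] in
theorem l4_phi_mem (n : ℕ) : D.φ n ∈ D.O n :=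
  ⟨X - 1, fun a => by simp [LTD.ev, LTD.φ]⟩

omit [Fact p.Prime] in
theorem l4_theta_mem (n i : ℕ) :
    (fun a : (ZMod (p ^ n))ˣ => D.ζ n ^ ((a : ZMod (p ^ n)).val * i)) ∈ D.O n :=
  ⟨X ^ i, fun a => by simp [LTD.ev, pow_mul]⟩

theorem l4_phi_one (n : ℕ) (hn : 1 ≤ n) : D.φ n 1 = D.ζ n - 1 := by
  have hp := (Fact.out : p.Prime)
  haveI : Fact (1 < p ^ n) := ⟨Nat.one_lt_pow (by omega) hp.one_lt⟩
  simp only [LTD.φ, Units.val_one, ZMod.val_one, pow_one]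

include D in
/-- integers prime to `p` have norm `1` -/
theorem l4_norm_nat (i : ℕ) (hi : 1 ≤ i) (hip : i < p) : ‖(i : L)‖ = 1 := by
  have hp := (Fact.out : p.Prime)
  have hcop : IsCoprime (i : ℤ) (p : ℤ) :=
    Nat.isCoprime_iff_coprime.2 ((hp.coprime_iff_not_dvd.2 (Nat.not_dvd_of_pos_of_lt hi hip)).symm)
  obtain ⟨a, b, hab⟩ := hcop
  have h1 : (a : L) * (i : L) + (b : L) * (p : L) = 1 := by exact_mod_cast congrArg (Int.cast : ℤ → L) hab
  have ha : ‖(a : L)‖ ≤ 1 := IsUltrametricDist.norm_intCast_le_one _ a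
  have hb : ‖(b : L)‖ ≤ 1 := IsUltrametricDist.norm_intCast_le_one _ b
  have hile : ‖(i : L)‖ ≤ 1 := IsUltrametricDist.norm_natCast_le_one _ i
  have hbp : ‖(b : L) * (p : L)‖ < 1 := by
    rw [norm_mul]
    calc ‖(b : L)‖ * ‖(p : L)‖ ≤ 1 * ‖(p : L)‖ := by gcongr
      _ < 1 := by rw [one_mul]; exact D.hp1
  by_contra hne
  have hlt : ‖(i : L)‖ < 1 := lt_of_le_of_ne hile hne
  have hai : ‖(a : L) * (i : L)‖ < 1 := by
    rw [norm_mul]
    calc ‖(a : L)‖ * ‖(i : L)‖ ≤ 1 * ‖(i : L)‖ := by gcongr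
      _ < 1 := by rw [one_mul]; exact hlt
  have := (IsUltrametricDist.norm_add_le_max ((a : L) * (i : L)) ((b : L) * (p : L))).trans_lt
    (max_lt hai hbp)
  rw [h1, norm_one] at this
  exact lt_irrefl _ this

include D in
theorem l4_fermat (i J : ℕ) (hi : 1 ≤ i) (hip : i < p) (hJ : (p - 1) ∣ J) :
    ‖(i : L) ^ J - 1‖ < 1 := by
  have hp := (Fact.out : p.Prime)
  have hz : ((i : ℕ) : ZMod p) ≠ 0 := by
    rw [Ne, ZMod.natCast_eq_zero_iff]
    exact Nat.not_dvd_of_pos_of_lt hi hip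
  have h1 : ((((i : ℤ) ^ J - 1 : ℤ)) : ZMod p) = 0 := by
    obtain ⟨k, rfl⟩ := hJ
    push_cast
    rw [pow_mul, ZMod.pow_card_sub_one_eq_one hz, one_pow, sub_self]
  rw [ZMod.intCast_zmod_eq_zero_iff_dvd] at h1
  obtain ⟨c, hc⟩ := h1
  have h2 : (i : L) ^ J - 1 = (p : L) * (c : L) := by
    exact_mod_cast congrArg (Int.cast : ℤ → L) hc
  rw [h2, norm_mul]
  calc ‖(p : L)‖ * ‖(c : L)‖ ≤ ‖(p : L)‖ * 1 := by
        gcongr
        exact IsUltrametricDist.norm_intCast_le_one _ c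
    _ < 1 := by rw [mul_one]; exact D.hp1

/-- `φ^(E k) y = p^k y'` with `y' ∈ O n`, `E = p^(n-1)(p-1)`. PROOF. `u = φ^E / p` is equivariant
with `‖u 1‖ = 1` (`phi_e`), so `u ∈ O n` (`mem_O_of_Eqv`), `y' = u^k y`. -/
theorem phi_pow_p (n : ℕ) (hn : 1 ≤ n) (k : ℕ) (y : (ZMod (p ^ n))ˣ → L) (hy : y ∈ D.O n) :
    ∃ y' ∈ D.O n, ∀ a, D.φ n a ^ (p ^ (n - 1) * (p - 1) * k) * y a = (p : L) ^ k * y' a := by
  have hu : (fun a => D.φ n a ^ (p ^ (n - 1) * (p - 1)) / (p : L)) ∈ D.O n := by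
    apply mem_O_of_Eqv D n hn
    · intro σ hσ c hc a
      have h := Eqv_of_mem D n _ (l4_phi_mem D n) σ hσ c hc a
      simp only [map_div₀, map_pow, map_natCast, h]
    · rw [norm_div, norm_pow, l4_phi_one D n hn, phi_e D n hn, div_self]
      exact norm_ne_zero_iff.2 D.hp0
  refine ⟨(fun a => D.φ n a ^ (p ^ (n - 1) * (p - 1)) / (p : L)) ^ k * y,
    (D.O n).mul_mem ((D.O n).pow_mem hu k) hy, fun a => ?_⟩
  have hp0 := D.hp0
  simp only [Pi.mul_apply, Pi.pow_apply, div_pow, pow_mul]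
  field_simp

/-- The value of `ell` on `φ^J y`, `(p-1) ∣ J`. PROOF. `eigen` with `Q = D.O n` (the subring as a
type), `ℓ` = `ell` restricted (`ell_add`), `φ = ⟨D.φ n, _⟩`, `η = D.eta (n+1) χ`,
`A y = θ y(onep · a)` (in `O n`: `O_shift`, `theta_shape`), `hA`: `ell_shift` (`η + 1 = χ⁻¹(1+p)`),
`hshape`: `shape`; `‖(i : L)‖ = 1` as `1 ≤ i < p` (`p ∤ i`: `i u = 1 + p v`), `hη`: `eta_norm`,
`phi_pos`; `hb`: `ell_congr` and `O_norm`; `hlim`: `phi_pow_p`, `ell_smul`. Then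
`(η/i)^J = η^J / i^J`, `‖i^J - 1‖ < 1` (Fermat: `p ∣ i^(p-1) - 1`, `(p-1) ∣ J`), and
`‖ell y - y 1‖ < 1` (`ell_congr`). -/
theorem ell_phi (hp3 : 3 ≤ p) (n : ℕ) (hn : 1 ≤ n) (χ : DirichletCharacter L (p ^ (n + 1)))
    (hχ : χ.IsPrimitive) (h1 : χ ^ (p ^ n) = 1) (i : ℕ) (hi : 1 ≤ i) (hip : i < p)
    (J : ℕ) (hJ : (p - 1) ∣ J) (y : (ZMod (p ^ n))ˣ → L) (hy : y ∈ D.O n) :
    ‖D.ell n χ i (fun a => D.φ n a ^ J * y a) - D.eta (n + 1) χ ^ J * y 1‖ <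
      ‖D.eta (n + 1) χ‖ ^ J := by
  have hphi := phi_pos D n hn
  have heta := eta_norm D hp3 n hn χ hχ h1
  have hη0 : 0 < ‖D.eta (n + 1) χ‖ := by rw [heta]; exact hphi.1
  have hη1 : ‖D.eta (n + 1) χ‖ < 1 := by rw [heta]; exact hphi.2
  have hi1 : ‖(i : L)‖ = 1 := l4_norm_nat D i hi hip
  have hi0 : (i : L) ≠ 0 := by
    rw [← norm_ne_zero_iff, hi1]; exact one_ne_zero
  have hbd : ∀ f ∈ D.O n, ‖D.ell n χ i f‖ ≤ 1 := by
    intro f hf
    have h2 := ell_congr D n hn χ hχ h1 i hi hip f hf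
    have h3 := (O_norm D n hn f hf 1).1
    have h4 : D.ell n χ i f = (D.ell n χ i f - f 1) + f 1 := by ring
    rw [h4]
    exact (IsUltrametricDist.norm_add_le_max _ _).trans (max_le h2.le h3)
  let ℓ : D.O n →+ L :=
    { toFun := fun f => D.ell n χ i f.1
      map_zero' := by
        change D.ell n χ i (fun _ => (0 : L)) = 0
        have := ell_smul D n χ i 0 (fun _ => (0 : L))
        simpa using this
      map_add' := fun f g => ell_add D n χ i f.1 g.1 }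
  let φ : D.O n := ⟨D.φ n, l4_phi_mem D n⟩
  let A : D.O n → D.O n := fun y => ⟨_, (D.O n).mul_mem (l4_theta_mem D n i)
    (O_shift D n (onep p n) y.1 y.2)⟩
  have hE := eigen ℓ φ (D.eta (n + 1) χ) i A
    (by
      intro y
      have := ell_shift D n χ i y.1
      rw [show D.eta (n + 1) χ + 1 = χ⁻¹ (1 + (p : ZMod (p ^ (n + 1)))) by
        simp [LTD.eta]]
      exact this)
    (by
      intro m y
      obtain ⟨z, hz, hz2⟩ := shape D hp3 n hn i m y.1 y.2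
      refine ⟨⟨z, hz⟩, ?_⟩
      apply Subtype.ext
      funext a
      exact hz2 a)
    hi1 hη0 hη1 (fun y => hbd y.1 y.2)
    (by
      intro ε hε
      obtain ⟨k, hk⟩ := exists_pow_lt_of_lt_one hε D.hp1
      refine ⟨p ^ (n - 1) * (p - 1) * k, fun y => ?_⟩
      obtain ⟨y', hy', hyy⟩ := phi_pow_p D n hn k y.1 y.2
      have h5 : ℓ (φ ^ (p ^ (n - 1) * (p - 1) * k) * y) = (p : L) ^ k * D.ell n χ i y' := by
        rw [← ell_smul]
        change D.ell n χ i _ = _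
        congr 1
        funext a
        exact hyy a
      rw [h5, norm_mul, norm_pow]
      calc ‖(p : L)‖ ^ k * ‖D.ell n χ i y'‖ ≤ ‖(p : L)‖ ^ k * 1 := by
            gcongr
            exact hbd y' hy'
        _ < ε := by rw [mul_one]; exact hk)
    J ⟨y, hy⟩
  have hE1 : ‖D.ell n χ i (fun a => D.φ n a ^ J * y a) -
      (D.eta (n + 1) χ / i) ^ J * D.ell n χ i y‖ < ‖D.eta (n + 1) χ‖ ^ J := by
    refine lt_of_le_of_lt hE ?_
    rw [pow_succ]
    exact mul_lt_of_lt_one_right (pow_pos hη0 J) hη1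
  have hc := ell_congr D n hn χ hχ h1 i hi hip y hy
  have hy1 := (O_norm D n hn y hy 1).1
  have hF := l4_fermat D i J hi hip hJ
  have hE2 : ‖(D.eta (n + 1) χ / i) ^ J * D.ell n χ i y - D.eta (n + 1) χ ^ J * y 1‖ <
      ‖D.eta (n + 1) χ‖ ^ J := by
    have e : (D.eta (n + 1) χ / i) ^ J * D.ell n χ i y - D.eta (n + 1) χ ^ J * y 1 =
        D.eta (n + 1) χ ^ J * (((D.ell n χ i y - y 1) + (-(((i : L) ^ J - 1) * y 1))) / (i : L) ^ J) := by
      have hiJ : (i : L) ^ J ≠ 0 := pow_ne_zero _ hi0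
      rw [div_pow, mul_div_assoc', eq_div_iff hiJ, sub_mul, div_mul_eq_mul_div, div_mul_cancel₀ _ hiJ]
      ring
    rw [e, norm_mul, norm_pow]
    apply mul_lt_of_lt_one_right (pow_pos hη0 J)
    rw [norm_div, norm_pow, hi1, one_pow, div_one]
    refine (IsUltrametricDist.norm_add_le_max _ _).trans_lt (max_lt hc ?_)
    rw [norm_neg, norm_mul]
    calc ‖(i : L) ^ J - 1‖ * ‖y 1‖ ≤ ‖(i : L) ^ J - 1‖ * 1 := by gcongr
      _ < 1 := by rw [mul_one]; exact hF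
  have e2 : D.ell n χ i (fun a => D.φ n a ^ J * y a) - D.eta (n + 1) χ ^ J * y 1 =
      (D.ell n χ i (fun a => D.φ n a ^ J * y a) - (D.eta (n + 1) χ / i) ^ J * D.ell n χ i y) +
      ((D.eta (n + 1) χ / i) ^ J * D.ell n χ i y - D.eta (n + 1) χ ^ J * y 1) := by ring
  rw [e2]
  exact (IsUltrametricDist.norm_add_le_max _ _).trans_lt (max_lt hE1 hE2)

end SSF
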