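import Pool.Agent.Lib.SSG.F.D3
import Pool.Agent.Lib.SSG.F.B3B
import Pool.Agent.Lib.SSG.F.L2A
import Pool.Agent.Lib.SSG.F.C6

/-! # SSG/F/M1 : decomposition of `S` -/

open Polynomial
open scoped Classical

namespace SSF

variable {p : ℕ} [Fact p.Prime] {R : ℕ → Type} [∀ N, CommRing (R N)] [∀ N, Fintype (R N)]
  {L : Type} [NormedField L] [IsUltrametricDist L] (D : LTD p R L)

/-- `χ` primitive kills functions of `a mod p^n`. PROOF. `Z = sum_a χ(a) f(ā)`. There is a unit `c`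
with `c̄ = 1` and `χ(c) ≠ 1` (otherwise `χ` factors through `p^n`,
`DirichletCharacter.factorsThrough_iff_ker_unitsMap`, against primitivity: the conductor would be
`≤ p^n < p^(n+1)`). Substituting `a → c a` gives `Z = χ(c) Z`, so `Z = 0`. -/
theorem kill (n : ℕ) (χ : DirichletCharacter L (p ^ (n + 1))) (hχ : χ.IsPrimitive)
    (f : (ZMod (p ^ n))ˣ → L) :
    ∑ a : (ZMod (p ^ (n + 1)))ˣ, χ (a : ZMod (p ^ (n + 1))) *
      f (ZMod.unitsMap (pow_dvd_pow p (Nat.le_succ n)) a) = 0 := by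
  have hp1 : 1 < p := (Fact.out : p.Prime).one_lt
  have : NeZero (p ^ (n + 1)) := ⟨pow_ne_zero _ (by omega)⟩
  obtain ⟨c, hc1, hc2⟩ : ∃ c : (ZMod (p ^ (n + 1)))ˣ,
      ZMod.unitsMap (pow_dvd_pow p (Nat.le_succ n)) c = 1 ∧ χ (c : ZMod (p ^ (n + 1))) ≠ 1 := by
    by_contra hcon
    push Not at hcon
    have h1 : χ.FactorsThrough (p ^ n) := by
      rw [DirichletCharacter.factorsThrough_iff_ker_unitsMap (pow_dvd_pow p (Nat.le_succ n))]
      intro c hc
      rw [MonoidHom.mem_ker] at hc ⊢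
      apply Units.ext
      rw [MulChar.coe_toUnitHom, Units.val_one]
      exact hcon c hc
    have h2 : χ.conductor ≤ p ^ n := Nat.sInf_le ((DirichletCharacter.mem_conductorSet_iff χ).2 h1)
    rw [DirichletCharacter.isPrimitive_def] at hχ
    rw [hχ] at h2
    have h3 : p ^ n < p ^ (n + 1) := Nat.pow_lt_pow_right hp1 (by omega)
    omega
  set Z := ∑ a : (ZMod (p ^ (n + 1)))ˣ, χ (a : ZMod (p ^ (n + 1))) *
      f (ZMod.unitsMap (pow_dvd_pow p (Nat.le_succ n)) a) with hZ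
  have h1 : χ (c : ZMod (p ^ (n + 1))) * Z = Z := by
    rw [hZ, Finset.mul_sum]
    conv_rhs => rw [← Equiv.sum_comp (Equiv.mulLeft c)]
    refine Finset.sum_congr rfl fun a _ => ?_
    rw [Equiv.coe_mulLeft, Units.val_mul, map_mul, map_mul, hc1, one_mul, mul_assoc]
  have h2 : (χ (c : ZMod (p ^ (n + 1))) - 1) * Z = 0 := by
    rw [sub_mul, h1, one_mul, sub_self]
  exact (mul_eq_zero.1 h2).resolve_left (sub_ne_zero.2 hc2)

theorem m1_units {N : ℕ} [NeZero N] (χ : DirichletCharacter L N) (g : ZMod N → L) :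
    ∑ a : ZMod N, χ a * g a = ∑ a : (ZMod N)ˣ, χ (a : ZMod N) * g (a : ZMod N) := by
  have h1 : ∑ b : (ZMod N)ˣ, χ (b : ZMod N) * g (b : ZMod N) =
      ∑ b ∈ (Finset.univ : Finset (ZMod N)ˣ).map
        ⟨fun u : (ZMod N)ˣ => (u : ZMod N), fun _ _ h => Units.ext h⟩, χ b * g b := by
    rw [Finset.sum_map]
    rfl
  rw [h1]
  symm
  apply Finset.sum_subset (Finset.subset_univ _)
  intro b _ hb
  rw [MulChar.map_nonunit, zero_mul]
  rintro ⟨u, rfl⟩
  apply hb
  rw [Finset.mem_map]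
  exact ⟨u, Finset.mem_univ _, rfl⟩

/-- Decomposition. PROOF. `S = sum over units a of χ(a) T (n+1) a h` (`Finset.sum_fiberwise` over
`nm`, `χ` vanishes on non-units; sum over `ZMod` of a function supported on units = sum over units).
By `T_rec`: `= sum_(b<p) sum_a χ(a) ζ^(a.val b) Tf n (h_b)(ā)` (`castHom` of a unit is
`ZMod.unitsMap`); `b = 0` gives `0` (`kill`), `b ≥ 1` gives `tau · ell χ b (Tf n h_b)` (definition of
`ell`, `tau ≠ 0` by `tau_ne`). -/
theorem S_decomp (n : ℕ) (hn : 1 ≤ n) (χ : DirichletCharacter L (p ^ (n + 1)))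
    (hχ : χ.IsPrimitive) (w : D.W[X]) (hw : D.IsW (n + 1) w) (h : D.W[X]) :
    D.S (n + 1) χ h =
      D.tau (n + 1) χ * ∑ b ∈ Finset.Ico 1 p, D.ell n χ b (D.Tf n (D.hb n w h b)) := by
  have hp1 : 1 < p := (Fact.out : p.Prime).one_lt
  have : NeZero (p ^ (n + 1)) := ⟨pow_ne_zero _ (by omega)⟩
  have hτ := tau_ne D (n + 1) χ hχ
  have h1 : D.S (n + 1) χ h = ∑ a : ZMod (p ^ (n + 1)), χ a * D.T (n + 1) a h := by
    unfold LTD.S LTD.T
    rw [← Finset.sum_fiberwise (s := Finset.univ) (g := fun x : R (n + 1) => D.nm (n + 1) x)]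
    refine Finset.sum_congr rfl fun a _ => ?_
    rw [Finset.mul_sum]
    refine Finset.sum_congr rfl fun x hx => ?_
    rw [(Finset.mem_filter.1 hx).2]
  rw [h1, m1_units]
  have h2 : ∀ a : (ZMod (p ^ (n + 1)))ˣ, χ (a : ZMod (p ^ (n + 1))) *
      D.T (n + 1) (a : ZMod (p ^ (n + 1))) h = ∑ b ∈ Finset.range p,
        χ (a : ZMod (p ^ (n + 1))) * D.ζ (n + 1) ^ ((a : ZMod (p ^ (n + 1))).val * b) *
          D.Tf n (D.hb n w h b) (ZMod.unitsMap (pow_dvd_pow p (Nat.le_succ n)) a) := by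
    intro a
    rw [T_rec D n hn w hw a h, Finset.mul_sum]
    refine Finset.sum_congr rfl fun b _ => ?_
    rw [mul_assoc]
    rfl
  rw [Finset.sum_congr rfl fun a _ => h2 a, Finset.sum_comm]
  have h3 : Finset.range p = insert 0 (Finset.Ico 1 p) := by
    ext b
    rw [Finset.mem_range, Finset.mem_insert, Finset.mem_Ico]
    omega
  rw [h3, Finset.sum_insert (by simp)]
  have h4 : ∑ a : (ZMod (p ^ (n + 1)))ˣ, χ (a : ZMod (p ^ (n + 1))) *
      D.ζ (n + 1) ^ ((a : ZMod (p ^ (n + 1))).val * 0) *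
        D.Tf n (D.hb n w h 0) (ZMod.unitsMap (pow_dvd_pow p (Nat.le_succ n)) a) = 0 := by
    rw [← kill n χ hχ (D.Tf n (D.hb n w h 0))]
    refine Finset.sum_congr rfl fun a _ => ?_
    rw [mul_zero, pow_zero, mul_one]
  rw [h4, zero_add, Finset.mul_sum]
  refine Finset.sum_congr rfl fun b _ => ?_
  unfold LTD.ell
  rw [← mul_assoc, mul_inv_cancel₀ hτ, one_mul]

end SSF
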