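import Pool.Agent.Lib.SSG.F.L4
import Pool.Agent.Lib.SSG.F.E4
import Pool.Agent.Lib.SSG.F.E0
import Pool.Agent.Lib.SSG.F.C10
import Pool.Agent.Lib.SSG.F.C13

/-! # SSG/F/M2 : `ell` of `T` -/

open Polynomial
open scoped Classical

namespace SSF

variable {p : ℕ} [Fact p.Prime] {R : ℕ → Type} [∀ N, CommRing (R N)] [∀ N, Fintype (R N)]
  {L : Type} [NormedField L] [IsUltrametricDist L] (D : LTD p R L)

/-- `ell (Tf n h) ≈ (-1)^(n/2) h_(q^(n/2)-1) η^J`, `J = p^n/(p+1)`. PROOF. By `lead` and `O_div`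
(`‖Tf n h 1‖ ≤ ‖φ‖^J`, `Tf_mem`; `Tf n h 1 = T n 1 h`, `Units.val_one`) `Tf n h = φ^J y`, `y ∈ O n`, and dividing `lead` by `φ^J`:
`‖y 1 - (-1)^(n/2) h_(q^(n/2)-1)‖ < 1` (`D.φ n 1 = ζ n - 1`: `(1 : ZMod (p^n)).val = 1`, `n ≥ 1`).
`ell_phi` with `r_dvd`. -/
theorem ell_Tf (hp3 : 3 ≤ p) (n : ℕ) (hn : 1 ≤ n) (χ : DirichletCharacter L (p ^ (n + 1)))
    (hχ : χ.IsPrimitive) (h1 : χ ^ (p ^ n) = 1) (i : ℕ) (hi : 1 ≤ i) (hip : i < p) (h : D.W[X]) :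
    ‖D.ell n χ i (D.Tf n h) - (-1) ^ (n / 2) * (h.coeff (p ^ (2 * (n / 2)) - 1) : L) *
      D.eta (n + 1) χ ^ (p ^ n / (p + 1))‖ < ‖D.eta (n + 1) χ‖ ^ (p ^ n / (p + 1)) := by
  set J : ℕ := p ^ n / (p + 1) with hJ
  set c : L := (-1) ^ (n / 2) * (h.coeff (p ^ (2 * (n / 2)) - 1) : L) with hc
  have hp : p.Prime := Fact.out
  have hc1 : ‖c‖ ≤ 1 := by
    rw [hc, norm_mul, norm_pow, norm_neg, norm_one, one_pow, one_mul]
    exact (h.coeff (p ^ (2 * (n / 2)) - 1)).2.2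
  have hl := lead D hp3 n hn h
  rw [← hJ, ← hc] at hl
  have hφ : 0 < ‖D.ζ n - 1‖ ^ J := (norm_nonneg _).trans_lt hl
  have hT : ‖D.Tf n h 1‖ ≤ ‖D.ζ n - 1‖ ^ J := by
    have e : D.Tf n h 1 = (D.T n 1 h - c * (D.ζ n - 1) ^ J) + c * (D.ζ n - 1) ^ J := by
      rw [sub_add_cancel]
      unfold LTD.Tf
      rw [Units.val_one]
    rw [e]
    refine (IsUltrametricDist.norm_add_le_max _ _).trans (max_le hl.le ?_)
    rw [norm_mul, norm_pow]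
    exact mul_le_of_le_one_left hφ.le hc1
  obtain ⟨y, hy, hTy⟩ := O_div D n hn J (D.Tf n h) (Tf_mem D n hn h) hT
  have hne : p ^ n ≠ 1 := by
    have := Nat.one_lt_pow (n := n) (by omega) hp.one_lt
    omega
  have hφ1 : D.φ n 1 = D.ζ n - 1 := by
    unfold LTD.φ
    rw [Units.val_one, ZMod.val_one'' hne, pow_one]
  have h1T : D.T n 1 h = (D.ζ n - 1) ^ J * y 1 := by
    have h2 := congrFun hTy 1
    rw [Pi.mul_apply, Pi.pow_apply, hφ1] at h2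
    rw [← h2]
    unfold LTD.Tf
    rw [Units.val_one]
  have hy1 : ‖y 1 - c‖ < 1 := by
    have e : D.T n 1 h - c * (D.ζ n - 1) ^ J = (D.ζ n - 1) ^ J * (y 1 - c) := by
      rw [h1T]
      ring
    rw [e, norm_mul, norm_pow] at hl
    by_contra hcon
    exact absurd hl (not_lt.2 (le_mul_of_one_le_right hφ.le (not_lt.1 hcon)))
  have hell := ell_phi D hp3 n hn χ hχ h1 i hi hip J (r_dvd n (by omega)) y hy
  have hfun : D.Tf n h = fun a => D.φ n a ^ J * y a := hTy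
  rw [← hfun] at hell
  have hη : 0 < ‖D.eta (n + 1) χ‖ ^ J := (norm_nonneg _).trans_lt hell
  have e : D.ell n χ i (D.Tf n h) - c * D.eta (n + 1) χ ^ J =
      (D.ell n χ i (D.Tf n h) - D.eta (n + 1) χ ^ J * y 1) + D.eta (n + 1) χ ^ J * (y 1 - c) := by
    ring
  rw [e]
  refine (IsUltrametricDist.norm_add_le_max _ _).trans_lt (max_lt hell ?_)
  rw [norm_mul, norm_pow]
  exact mul_lt_of_lt_one_right hη hy1

end SSF
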