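import Pool.Agent.Lib.SSG.F.E2A
import Pool.Agent.Lib.SSG.F.E3A

/-! # SSG/F/M3 : the sum of the coefficients -/

open Polynomial
open scoped Classical

namespace SSF

variable {p : ℕ} [Fact p.Prime] {R : ℕ → Type} [∀ N, CommRing (R N)] [∀ N, Fintype (R N)]
  {L : Type} [NormedField L] [IsUltrametricDist L] (D : LTD p R L)

/-- the set of exponents `{N/2, (N+1)/2}`. -/
def Eset (N : ℕ) : Finset ℕ := {N / 2, (N + 1) / 2}

theorem m3_cast : ((p : ℕ) : D.κ) = 0 := by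
  rw [← map_natCast D.res, Ideal.Quotient.eq_zero_iff_mem]
  have h : ‖(((p : ℕ) : D.W) : L)‖ < 1 := by
    rw [Subring.coe_natCast]
    exact D.hp1
  exact h

/-- `n` odd, `n = 2M + 1`, `N = 2M + 2`: the sum of the `p - 1` coefficients
`- h_(p^(2(M+1))-1)` is `h_(..)` modulo the maximal ideal (`hb_coeff_odd`, `(p - 1 : κ) = -1`),
and `Eset (2M+2) = {M + 1}`. -/
theorem sum_coeff_odd (hp3 : 3 ≤ p) (M : ℕ) (w h : D.W[X]) (hw : D.IsW (2 * M + 2) w) :
    D.res (∑ b ∈ Finset.Ico 1 p, (D.hb (2 * M + 1) w h b).coeff (p ^ (2 * M) - 1)) =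
      D.res (∑ e ∈ Eset (2 * M + 2), h.coeff (p ^ (2 * e) - 1)) := by
  have h1 : Eset (2 * M + 2) = {M + 1} := by
    unfold Eset
    have h2 : (2 * M + 2) / 2 = M + 1 := by omega
    have h3 : (2 * M + 2 + 1) / 2 = M + 1 := by omega
    rw [h2, h3, Finset.pair_eq_singleton]
  rw [h1, Finset.sum_singleton, map_sum, Finset.sum_congr rfl fun b _ => hb_coeff_odd D hp3 M w h hw b,
    Finset.sum_const, Nat.card_Ico, nsmul_eq_mul]
  have h2 : ((p : ℕ) : D.κ) = 0 := m3_cast D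
  have h3 : ((p - 1 : ℕ) : D.κ) = -1 := by
    rw [Nat.cast_sub (by omega), h2, Nat.cast_one, zero_sub]
  rw [h3]
  ring

/-- `n = 2 M`, `N = 2M + 1`: the sum over `1 ≤ b < p` is the sum over `b < p` (`hb_sum_even`) minus
the term `b = 0` (`hb_zero_even`), so `h_(p^(2M)-1) + h_(p^(2M+2)-1)`; `Eset (2M+1) = {M, M+1}`. -/
theorem sum_coeff_even (hp3 : 3 ≤ p) (M : ℕ) (w h : D.W[X]) (hw : D.IsW (2 * M + 1) w) :
    D.res (∑ b ∈ Finset.Ico 1 p, (D.hb (2 * M) w h b).coeff (p ^ (2 * M) - 1)) =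
      D.res (∑ e ∈ Eset (2 * M + 1), h.coeff (p ^ (2 * e) - 1)) := by
  have h1 : Eset (2 * M + 1) = {M, M + 1} := by
    unfold Eset
    have h2 : (2 * M + 1) / 2 = M := by omega
    have h3 : (2 * M + 1 + 1) / 2 = M + 1 := by omega
    rw [h2, h3]
  have hne : M ≠ M + 1 := by omega
  have h0 := hb_zero_even D hp3 M w h hw
  have h2 := hb_sum_even D hp3 M w h hw
  rw [Polynomial.finset_sum_coeff, map_sum] at h2
  have h3 : ∑ b ∈ Finset.range p, D.res ((D.hb (2 * M) w h b).coeff (p ^ (2 * M) - 1)) =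
      D.res ((D.hb (2 * M) w h 0).coeff (p ^ (2 * M) - 1)) +
        ∑ b ∈ Finset.Ico 1 p, D.res ((D.hb (2 * M) w h b).coeff (p ^ (2 * M) - 1)) := by
    rw [Finset.range_eq_Ico, Finset.sum_eq_sum_Ico_succ_bot (by omega)]
  rw [h3, h0] at h2
  rw [h1, Finset.sum_pair hne, map_add, map_sum, ← h2]
  ring

end SSF
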