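import Pool.Agent.Lib.SSG.F.M1
import Pool.Agent.Lib.SSG.F.M2
import Pool.Agent.Lib.SSG.F.M3

/-! # SSG/F/M4 : the one-variable theorem -/

open Polynomial
open scoped Classical

namespace SSF

variable {p : ℕ} [Fact p.Prime] {R : ℕ → Type} [∀ N, CommRing (R N)] [∀ N, Fintype (R N)]
  {L : Type} [NormedField L] [IsUltrametricDist L] (D : LTD p R L)

omit [Fact p.Prime] [∀ N, CommRing (R N)] [∀ N, Fintype (R N)] in
theorem m4_sum_lt (s : Finset ℕ) (g : ℕ → L) (C : ℝ) (hC : 0 < C) (h : ∀ v ∈ s, ‖g v‖ < C) :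
    ‖∑ v ∈ s, g v‖ < C := by
  rcases s.eq_empty_or_nonempty with rfl | hne
  · simpa using hC
  · obtain ⟨v, hv, hle⟩ := IsUltrametricDist.exists_norm_finsetSum_le s g
    exact hle.trans_lt (h v (hv hne))

/-- the residue of the sum of the coefficients, in both parities -/
theorem m4_coeff (hp3 : 3 ≤ p) (n : ℕ) (w h : D.W[X]) (hw : D.IsW (n + 1) w) :
    ‖(∑ b ∈ Finset.Ico 1 p, ((D.hb n w h b).coeff (p ^ (2 * (n / 2)) - 1) : L)) -
      ∑ e ∈ Eset (n + 1), (h.coeff (p ^ (2 * e) - 1) : L)‖ < 1 := by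
  have key : D.res (∑ b ∈ Finset.Ico 1 p, (D.hb n w h b).coeff (p ^ (2 * (n / 2)) - 1)) =
      D.res (∑ e ∈ Eset (n + 1), h.coeff (p ^ (2 * e) - 1)) := by
    rcases Nat.even_or_odd' n with ⟨M, rfl | rfl⟩
    · have e1 : 2 * M / 2 = M := by omega
      rw [e1]
      exact sum_coeff_even D hp3 M w h hw
    · have e1 : (2 * M + 1) / 2 = M := by omega
      rw [e1]
      exact sum_coeff_odd D hp3 M w h hw
  have h2 := (res_eq_iff D _ _).1 key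
  rw [AddSubmonoidClass.coe_finsetSum, AddSubmonoidClass.coe_finsetSum] at h2
  exact h2

/-- The one-variable theorem: `S_χ(h) ≈ tau η^J rho sum_(e ∈ Eset N) h_(q^e - 1)`, `N = n + 1`,
`rho = -(-1)^((N+1)/2)`. PROOF. `w` from `exists_w n`; `S_decomp`; for every `b` `ell_Tf` with
`h_b`; the sum of the coefficients by `sum_coeff_odd` / `sum_coeff_even` (`n` odd or even, `n/2 = M`),
`res_eq_iff`. Sign: `n = 2M + 1`: `(-1)^M = -(-1)^(M+1) = -(-1)^((N+1)/2)` (`N + 1 = 2M+3`,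
`(N+1)/2 = M + 1`); `n = 2M`: `(-1)^M = -(-1)^(M+1)`, `(N+1)/2 = (2M+2)/2 = M+1`. -/
theorem one_var (hp3 : 3 ≤ p) (n : ℕ) (hn : 1 ≤ n) (χ : DirichletCharacter L (p ^ (n + 1)))
    (hχ : χ.IsPrimitive) (h1 : χ ^ (p ^ n) = 1) (h : D.W[X]) :
    ‖D.S (n + 1) χ h - D.tau (n + 1) χ * D.eta (n + 1) χ ^ (p ^ n / (p + 1)) *
      (-(-1) ^ ((n + 2) / 2) * ∑ e ∈ Eset (n + 1), (h.coeff (p ^ (2 * e) - 1) : L))‖ <
        ‖D.tau (n + 1) χ * D.eta (n + 1) χ ^ (p ^ n / (p + 1))‖ := by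
  obtain ⟨w, hw⟩ := exists_w D n
  rw [S_decomp D n hn χ hχ w hw h]
  set t : L := D.tau (n + 1) χ with ht
  set η : L := D.eta (n + 1) χ with hη
  set J : ℕ := p ^ n / (p + 1) with hJ
  set cb : ℕ → L := fun b => ((D.hb n w h b).coeff (p ^ (2 * (n / 2)) - 1) : L) with hcb
  set E : L := ∑ e ∈ Eset (n + 1), (h.coeff (p ^ (2 * e) - 1) : L) with hE
  have ht0 : t ≠ 0 := tau_ne D (n + 1) χ hχ
  have hb : ∀ b ∈ Finset.Ico 1 p, ‖D.ell n χ b (D.Tf n (D.hb n w h b)) -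
      (-1) ^ (n / 2) * cb b * η ^ J‖ < ‖η‖ ^ J := by
    intro b hb
    rw [Finset.mem_Ico] at hb
    exact ell_Tf D hp3 n hn χ hχ h1 b hb.1 hb.2 _
  have hpos : 0 < ‖η‖ ^ J := by
    have h3 := hb 1 (by rw [Finset.mem_Ico]; omega)
    exact (norm_nonneg _).trans_lt h3
  have hsum := m4_sum_lt (Finset.Ico 1 p) _ _ hpos hb
  rw [Finset.sum_sub_distrib, ← Finset.sum_mul, ← Finset.mul_sum] at hsum
  have hco : ‖(∑ b ∈ Finset.Ico 1 p, cb b) - E‖ < 1 := m4_coeff D hp3 n w h hw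
  have hsign : (-(-1 : L) ^ ((n + 2) / 2)) = (-1) ^ (n / 2) := by
    have e1 : (n + 2) / 2 = n / 2 + 1 := by omega
    rw [e1, pow_succ]
    ring
  rw [hsign]
  set A : L := ∑ b ∈ Finset.Ico 1 p, D.ell n χ b (D.Tf n (D.hb n w h b)) with hA
  set B : L := ∑ b ∈ Finset.Ico 1 p, cb b with hB
  have hdec : t * A - t * η ^ J * ((-1) ^ (n / 2) * E) =
      t * ((A - (-1) ^ (n / 2) * B * η ^ J) + (-1) ^ (n / 2) * (B - E) * η ^ J) := by ring
  rw [hdec, norm_mul, norm_mul, norm_pow]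
  refine mul_lt_mul_of_pos_left ?_ (norm_pos_iff.2 ht0)
  refine (IsUltrametricDist.norm_add_le_max _ _).trans_lt (max_lt hsum ?_)
  rw [norm_mul, norm_mul, norm_pow, norm_neg, norm_one, one_pow, one_mul, norm_pow]
  calc ‖B - E‖ * ‖η‖ ^ J < 1 * ‖η‖ ^ J := mul_lt_mul_of_pos_right hco hpos
    _ = ‖η‖ ^ J := one_mul _

end SSF
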