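import Pool.Agent.Lib.SSG.F.Defs

open NumberField

namespace SSG

/-- (F) integrality of the functionals `T_e` -/
theorem F_int {F : Type} [Field F] [NumberField F] (h2 : Module.finrank ℚ F = 2)
    {C : Type} [NormedField C] [IsUltrametricDist C]
    {p : ℕ} [hp : Fact p.Prime] (h3 : 3 ≤ p) (hin : (Ideal.span {(p : 𝓞 F)}).IsPrime) (hpC : ‖(p : C)‖ < 1)
    (L : LTF F C) (hL : L.Ok p) {N : ℕ}
    {ι : Type} [Fintype ι] {T : Finset (𝓞 F)} (hT : Rep p N T) (e : ι → ℕ) (he : ∀ i, e i ≤ N)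
    {H : (ι → 𝓞 F) → C} (hH : L.Fn N ι H) : ‖TH p N ι T e H‖ ≤ 1 := by
  sorry

/-- (F) the main theorem: with `|κ|^(2 (p-1) p^(N-2)) = |p|^(N (p-1) p^(N-2) + 2 J_(N-1))`,
`S(H) ≡ κ^g Σ_e T_e(H)` modulo `m κ^g`, the sum over `e : ι → {e : |2 e - N| ≤ 1}` -/
theorem F_main {F : Type} [Field F] [NumberField F] (h2 : Module.finrank ℚ F = 2)
    {C : Type} [NormedField C] [IsUltrametricDist C]
    {p : ℕ} [hp : Fact p.Prime] (h3 : 3 ≤ p) (hin : (Ideal.span {(p : 𝓞 F)}).IsPrime) (hpC : ‖(p : C)‖ < 1)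
    (L : LTF F C) (hL : L.Ok p) {N : ℕ} (hN : 2 ≤ N)
    (χ : DirichletCharacter C (p ^ N)) (hχ : orderOf χ = p ^ (N - 1)) :
    ∃ κ : C, ‖κ‖ ^ (2 * (p - 1) * p ^ (N - 2)) = ‖(p : C)‖ ^ (N * (p - 1) * p ^ (N - 2) + 2 * Jn p (N - 1)) ∧
      ∀ (ι : Type) [Fintype ι] [DecidableEq ι] (T : Finset (𝓞 F)), Rep p N T → ∀ H : (ι → 𝓞 F) → C, L.Fn N ι H →
        ‖SH χ ι T H - κ ^ Fintype.card ι * ∑ e ∈ Fintype.piFinset (fun _ : ι => EN N), TH p N ι T e H‖ <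
          ‖κ‖ ^ Fintype.card ι := by
  sorry

end SSG
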