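import Pool.Agent.Lib.SSG.F.D5

/-! # SSG/F/R1 : the norm modulo `p^N` -/

open Polynomial NumberField
open scoped Classical

namespace SSF

open SSG

variable (F : Type) [Field F] [NumberField F] (p : ℕ) [Fact p.Prime]

omit [Fact p.Prime] in
theorem r1_key (N : ℕ) (a c : 𝓞 F) :
    ((Algebra.norm ℤ (a + (p : 𝓞 F) ^ N * c) : ℤ) : ZMod (p ^ N)) = ((Algebra.norm ℤ a : ℤ) : ZMod (p ^ N)) := by
  have h := fun x => Algebra.norm_eq_matrix_det (RingOfIntegers.basis F) x
  have hc : ∀ M : Matrix (Module.Free.ChooseBasisIndex ℤ (𝓞 F)) (Module.Free.ChooseBasisIndex ℤ (𝓞 F)) ℤ,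
      ((M.det : ℤ) : ZMod (p ^ N)) = ((Int.castRingHom (ZMod (p ^ N))).mapMatrix M).det := fun M =>
    RingHom.map_det (Int.castRingHom (ZMod (p ^ N))) M
  rw [h, h, hc, hc]
  have e1 : (p : 𝓞 F) ^ N * c = ((p ^ N : ℕ) : ℤ) • c := by
    rw [zsmul_eq_mul]
    push_cast
    rfl
  have e2 : (Int.castRingHom (ZMod (p ^ N))).mapMatrix (Algebra.leftMulMatrix (RingOfIntegers.basis F)
      (a + (p : 𝓞 F) ^ N * c)) =
      (Int.castRingHom (ZMod (p ^ N))).mapMatrix (Algebra.leftMulMatrix (RingOfIntegers.basis F) a) := by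
    rw [e1, map_add, map_add, map_zsmul, map_zsmul]
    have e3 : ∀ M : Matrix (Module.Free.ChooseBasisIndex ℤ (𝓞 F)) (Module.Free.ChooseBasisIndex ℤ (𝓞 F)) (ZMod (p ^ N)),
        ((p ^ N : ℕ) : ℤ) • M = 0 := by
      intro M
      ext i j
      rw [Matrix.smul_apply, zsmul_eq_mul, Int.cast_natCast, ZMod.natCast_self, zero_mul]
      rfl
    rw [e3, add_zero]
  rw [e2]

/-- PROOF. Let `b = RingOfIntegers.basis F` (a `ℤ`-basis), `Algebra.norm_eq_matrix_det b`,
`M a = Algebra.leftMulMatrix b a` (a ring hom). If `a' = a + p^N c` then `M a' = M a + p^N • M c`, so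
after `(Int.castRingHom (ZMod (p^N))).mapMatrix` they coincide (`(p^N : ZMod (p^N)) = 0`) and so do
their determinants (`RingHom.map_det`). So `a ↦ (norm a : ZMod (p^N))` factors through the quotient;
it is multiplicative (`map_mul`) and maps `1` to `1`: define the hom by `Quotient.out` or
`Quotient.liftOn'` and check with surjectivity of `mkF`. -/
theorem exists_nm (N : ℕ) : ∃ nm : RF F p N →* ZMod (p ^ N),
    ∀ a : 𝓞 F, nm (mkF p N a) = ((Algebra.norm ℤ a : ℤ) : ZMod (p ^ N)) := by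
  have hs : Function.Surjective (mkF p N : 𝓞 F → RF F p N) := Ideal.Quotient.mk_surjective
  have hinv : ∀ x, mkF p N (Function.surjInv hs x) = x := Function.surjInv_eq hs
  have key : ∀ a : 𝓞 F, ((Algebra.norm ℤ (Function.surjInv hs (mkF p N a)) : ℤ) : ZMod (p ^ N))
      = ((Algebra.norm ℤ a : ℤ) : ZMod (p ^ N)) := by
    intro a
    have h1 := hinv (mkF p N a)
    have h2 : Function.surjInv hs (mkF p N a) - a ∈ Ideal.span {((p : 𝓞 F)) ^ N} := Ideal.Quotient.eq.1 h1
    obtain ⟨c, hc⟩ := Ideal.mem_span_singleton.1 h2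
    have h3 : Function.surjInv hs (mkF p N a) = a + (p : 𝓞 F) ^ N * c := by rw [← hc]; ring
    rw [h3, r1_key]
  refine ⟨{ toFun := fun x => ((Algebra.norm ℤ (Function.surjInv hs x) : ℤ) : ZMod (p ^ N)),
            map_one' := ?_, map_mul' := ?_ }, fun a => key a⟩
  · have h1 := key 1
    rw [show (mkF p N (1 : 𝓞 F) : RF F p N) = 1 from map_one _, map_one, Int.cast_one] at h1
    exact h1
  · intro x y
    have h1 : x * y = mkF p N (Function.surjInv hs x * Function.surjInv hs y) := by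
      have e := (Ideal.Quotient.mk (Ideal.span {((p : 𝓞 F)) ^ N})).map_mul (Function.surjInv hs x)
        (Function.surjInv hs y)
      calc x * y = mkF p N (Function.surjInv hs x) * mkF p N (Function.surjInv hs y) := by rw [hinv, hinv]
        _ = mkF p N (Function.surjInv hs x * Function.surjInv hs y) := e.symm
    show ((Algebra.norm ℤ (Function.surjInv hs (x * y)) : ℤ) : ZMod (p ^ N)) = _
    conv_lhs => rw [h1]
    rw [key, map_mul, Int.cast_mul]

/-- the norm map of `𝓞 F / p ^ N` -/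
noncomputable def nmF (N : ℕ) : RF F p N →* ZMod (p ^ N) := (exists_nm F p N).choose

theorem nmF_mk (N : ℕ) (a : 𝓞 F) :
    nmF F p N (mkF p N a) = ((Algebra.norm ℤ a : ℤ) : ZMod (p ^ N)) :=
  (exists_nm F p N).choose_spec a

omit [Fact p.Prime] in
theorem span_le (N : ℕ) : Ideal.span {((p : 𝓞 F)) ^ (N + 1)} ≤ Ideal.span {((p : 𝓞 F)) ^ N} := by
  rw [Ideal.span_singleton_le_span_singleton]
  exact pow_dvd_pow _ (Nat.le_succ N)

/-- reduction -/
noncomputable def redF (N : ℕ) : RF F p (N + 1) →+* RF F p N := Ideal.Quotient.factor (span_le F p N)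

omit [Fact p.Prime] in
theorem redF_mk (N : ℕ) (a : 𝓞 F) : redF F p N (mkF p (N + 1) a) = mkF p N a := rfl

end SSF
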