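import Pool.Agent.Lib.SSG.F.R1

/-! # SSG/F/R2 : ring facts of `𝓞 F / p^N` -/

open Polynomial NumberField
open scoped Classical

namespace SSF

open SSG

variable (F : Type) [Field F] [NumberField F] (p : ℕ) [Fact p.Prime]

/-- `card (𝓞 F / p^N) = p^(2N)`: `Ideal.absNorm` of `span {p^N}` (`Ideal.absNorm_apply`,
`Submodule.cardQuot_apply`, `Ideal.absNorm_span_singleton`), `norm_ℤ (p^N) = p^(N * 2)`
(`Algebra.norm_algebraMap`/`Algebra.norm` of an integer, `finrank ℤ (𝓞 F) = finrank ℚ F = 2`,
`RingOfIntegers.rank`). -/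
theorem card_RF (h2 : Module.finrank ℚ F = 2) (N : ℕ) : Nat.card (RF F p N) = p ^ (2 * N) := by
  have h1 : Nat.card (RF F p N) = Ideal.absNorm (Ideal.span {((p : 𝓞 F)) ^ N}) := by
    rw [Ideal.absNorm_apply, Submodule.cardQuot_apply]
  have h3 : Algebra.norm ℤ (p : 𝓞 F) = (p : ℤ) ^ 2 := by
    have e1 := Algebra.norm_algebraMap_of_basis (RingOfIntegers.basis F) (p : ℤ)
    have e2 : Fintype.card (Module.Free.ChooseBasisIndex ℤ (𝓞 F)) = 2 := by
      rw [← Module.finrank_eq_card_basis (RingOfIntegers.basis F), RingOfIntegers.rank, h2]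
    rw [e2] at e1
    rw [← e1]
    congr 1
    simp
  rw [h1, Ideal.absNorm_span_singleton, map_pow, h3, Int.natAbs_pow, Int.natAbs_pow, Int.natAbs_natCast, ← pow_mul]

/-- the fibres of the surjective homomorphism `redF` are cosets of the kernel: all have the same
number of elements `card (R (N+1)) / card (R N) = p^2` (`card_RF`; e.g. the fibre over `y` is in
bijection with the fibre over `0` by translation, and the sum over all `y`). -/
theorem fib_RF (h2 : Module.finrank ℚ F = 2) (N : ℕ) (y : RF F p N) :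
    Nat.card {x : RF F p (N + 1) // redF F p N x = y} = p ^ 2 := by
  have hp : p.Prime := Fact.out
  have hsurj : Function.Surjective (redF F p N) := by
    intro z
    obtain ⟨a, rfl⟩ := Ideal.Quotient.mk_surjective z
    exact ⟨mkF p (N + 1) a, rfl⟩
  -- all fibres have the same number of elements
  have h3 : ∀ z : RF F p N, Nat.card {x : RF F p (N + 1) // redF F p N x = z}
      = Nat.card {x : RF F p (N + 1) // redF F p N x = y} := by
    intro z
    obtain ⟨w, hw⟩ := hsurj (y - z)
    refine Nat.card_congr ⟨fun x => ⟨x.1 + w, ?_⟩, fun x => ⟨x.1 - w, ?_⟩, fun x => ?_, fun x => ?_⟩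
    · rw [map_add, x.2, hw]; ring
    · rw [map_sub, x.2, hw]; ring
    · apply Subtype.ext; simp
    · apply Subtype.ext; simp
  have h4 : Nat.card (RF F p (N + 1)) = ∑ z : RF F p N, Nat.card {x : RF F p (N + 1) // redF F p N x = z} := by
    rw [Nat.card_congr (Equiv.sigmaFiberEquiv (redF F p N)).symm, Nat.card_sigma]
  rw [Finset.sum_congr rfl fun z _ => h3 z, Finset.sum_const, Finset.card_univ, ← Nat.card_eq_fintype_card,
    card_RF F p h2, card_RF F p h2, smul_eq_mul, mul_add, mul_one, pow_add] at h4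
  exact (Nat.eq_of_mul_eq_mul_left (pow_pos hp.pos _) h4).symm

/-- `R 0` is the zero ring (`span {p^0} = ⊤`), or `card_RF` with `N = 0`. -/
theorem card0_RF (h2 : Module.finrank ℚ F = 2) : Nat.card (RF F p 0) = 1 := by
  rw [card_RF F p h2, mul_zero, pow_zero]

end SSF
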