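import Pool.Agent.Lib.SSG.F.R2

/-! # SSG/F/R2B : ring facts of `𝓞 F / p^N`, second part -/

open Polynomial NumberField
open scoped Classical

namespace SSF

open SSG

variable (F : Type) [Field F] [NumberField F] (p : ℕ) [Fact p.Prime]

/-- on classes of integers: `nmF_mk`, `redF_mk`, `map_intCast`. -/
theorem nmred_RF (N : ℕ) (x : RF F p (N + 1)) :
    ZMod.castHom (pow_dvd_pow p (Nat.le_succ N)) (ZMod (p ^ N)) (nmF F p (N + 1) x) =
      nmF F p N (redF F p N x) := by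
  obtain ⟨a, rfl⟩ := Ideal.Quotient.mk_surjective x
  have h1 := nmF_mk F p (N + 1) a
  have h2 := nmF_mk F p N a
  have h3 := redF_mk F p N a
  unfold mkF at h1 h2 h3
  rw [h3, h1, h2, map_intCast]

/-- `x = mk a`; `a` divides `(Ideal.absNorm (span {a}) : 𝓞 F)` (`Ideal.absNorm_mem`), i.e. `± norm a`.
If `norm a` is a unit modulo `p^N`: `norm a * c = 1 + p^N d` in `ℤ`, so `a` divides `1 + p^N d` up to
sign and `mk a` is a unit. -/
theorem nmu_RF (N : ℕ) (x : RF F p N) (h : IsUnit (nmF F p N x)) : IsUnit x := by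
  obtain ⟨a, rfl⟩ := Ideal.Quotient.mk_surjective x
  have h1 : nmF F p N (Ideal.Quotient.mk _ a) = ((Algebra.norm ℤ a : ℤ) : ZMod (p ^ N)) := nmF_mk F p N a
  rw [h1] at h
  -- `a ∣ norm a`
  have h2 : a ∣ ((Algebra.norm ℤ a : ℤ) : 𝓞 F) := by
    have e1 := Ideal.absNorm_mem (Ideal.span {a})
    rw [Ideal.mem_span_singleton, Ideal.absNorm_span_singleton] at e1
    rcases Int.natAbs_eq (Algebra.norm ℤ a) with e2 | e2
    · rw [e2]
      rw [Int.cast_natCast]
      exact e1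
    · rw [e2]
      rw [Int.cast_neg, Int.cast_natCast, dvd_neg]
      exact e1
  obtain ⟨b, hb⟩ := h2
  obtain ⟨c, hc⟩ := h.exists_right_inv
  obtain ⟨c, rfl⟩ := ZMod.intCast_surjective c
  rw [← Int.cast_mul] at hc
  have h3 : ((Algebra.norm ℤ a * c - 1 : ℤ) : ZMod (p ^ N)) = 0 := by
    rw [Int.cast_sub, hc, Int.cast_one, sub_self]
  rw [ZMod.intCast_zmod_eq_zero_iff_dvd] at h3
  obtain ⟨d, hd⟩ := h3
  refine IsUnit.of_mul_eq_one (Ideal.Quotient.mk _ (b * (c : 𝓞 F))) ?_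
  rw [← map_mul, ← map_one (Ideal.Quotient.mk (Ideal.span {((p : 𝓞 F)) ^ N})), Ideal.Quotient.eq,
    Ideal.mem_span_singleton]
  refine ⟨(d : 𝓞 F), ?_⟩
  have h4 := congrArg (fun z : ℤ => (z : 𝓞 F)) hd
  simp only [Int.cast_sub, Int.cast_mul, Int.cast_one, Int.cast_natCast, Int.cast_pow, Nat.cast_pow] at h4
  rw [← h4, hb]
  ring

/-- `(p)` is a nonzero prime ideal, so maximal; `R 1` is a field with `p^2` elements (`card_RF`), the
units are the nonzero elements. -/
theorem card1_RF (h2 : Module.finrank ℚ F = 2) (hin : (Ideal.span {(p : 𝓞 F)}).IsPrime) :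
    Nat.card {x : RF F p 1 // IsUnit x} = p ^ 2 - 1 := by
  have hp : p.Prime := Fact.out
  have h0 : (p : 𝓞 F) ≠ 0 := by exact_mod_cast hp.ne_zero
  have hmax : (Ideal.span {((p : 𝓞 F)) ^ 1}).IsMaximal := by
    rw [pow_one]
    exact hin.isMaximal (by rwa [Ne, Ideal.span_singleton_eq_bot])
  letI : Field (RF F p 1) := Ideal.Quotient.field _
  have hc := card_RF F p h2 1
  have e1 : Nat.card {x : RF F p 1 // IsUnit x} = Nat.card {x : RF F p 1 // x ≠ 0} := by
    refine Nat.card_congr (Equiv.subtypeEquivRight fun x => ?_)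
    exact isUnit_iff_ne_zero
  rw [e1, Nat.card_eq_fintype_card, Fintype.card_subtype_compl, ← Nat.card_eq_fintype_card, hc, mul_one]
  simp

end SSF
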