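import Pool.Agent.Lib.SSG.F.R2

/-! # SSG/F/R3 : the norm modulo an inert prime is `x ↦ x^(p+1)` -/

open Polynomial NumberField
open scoped Classical

namespace SSF

open SSG

variable (F : Type) [Field F] [NumberField F] (p : ℕ) [Fact p.Prime]

omit [Fact p.Prime] in
/-- Cayley-Hamilton. -/
theorem r3_ch (h2 : Module.finrank ℚ F = 2) (a : 𝓞 F) :
    ∃ t : ℤ, a ^ 2 - (t : 𝓞 F) * a + ((Algebra.norm ℤ a : ℤ) : 𝓞 F) = 0 := by
  have hr : Module.finrank ℤ (𝓞 F) = 2 := (RingOfIntegers.rank F).trans h2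
  let b : Module.Basis (Fin 2) ℤ (𝓞 F) := Module.finBasisOfFinrankEq ℤ (𝓞 F) hr
  let M := Algebra.leftMulMatrix b a
  refine ⟨M.trace, ?_⟩
  apply Algebra.leftMulMatrix_injective b
  have hn : Algebra.norm ℤ a = M.det := Algebra.norm_eq_matrix_det b a
  have hint : ∀ n : ℤ, Algebra.leftMulMatrix b (n : 𝓞 F) = (n : Matrix (Fin 2) (Fin 2) ℤ) := fun n => map_intCast _ n
  rw [map_add, map_sub, map_mul, map_pow, map_zero, hint, hint, hn]
  show M ^ 2 - (M.trace : Matrix (Fin 2) (Fin 2) ℤ) * M + (M.det : Matrix (Fin 2) (Fin 2) ℤ) = 0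
  have h3 : ∀ n : ℤ, (n : Matrix (Fin 2) (Fin 2) ℤ) = Matrix.diagonal fun _ => n := fun n => (Matrix.diagonal_intCast n).symm
  rw [h3, h3]
  ext i j
  fin_cases i <;> fin_cases j <;>
    simp [sq, Matrix.mul_apply, Fin.sum_univ_two, Matrix.trace, Matrix.det_fin_two] <;> ring

/-- `p ∣ norm a - a^(p+1)` in `𝓞 F`. PROOF. `a^2 - t a + n = 0` with `t = trace a`, `n = norm a`
integers (Cayley-Hamilton for the 2 x 2 matrix of multiplication: `Matrix.aeval_self_charpoly`,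
`Matrix.charpoly_fin_two`; or `Algebra.leftMulMatrix` with a basis of two elements; then `ā ↦` the
matrix is injective). In the field `κ = 𝓞 F / p` with `p^2` elements Frobenius gives
`ā^(2p) - t ā^p + n = 0` (integers are fixed by `x ↦ x^p` in characteristic `p`). If `ā^p ≠ ā` then
subtracting: `(ā^p - ā)(ā^p + ā - t) = 0`, so `t = ā + ā^p` and `n = t ā - ā^2 = ā^(p+1)`. If
`ā^p = ā`, then `ā` is one of the `p` roots of `T^p - T`, which are the classes of integers: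
`a = m + p c`, `norm a ≡ m^2` (`nmF_mk` with `N = 1`, `norm m = m^2`) and `m^2 ≡ m^(p+1)` (Fermat). -/
theorem norm_frob (h2 : Module.finrank ℚ F = 2) (hin : (Ideal.span {(p : 𝓞 F)}).IsPrime) (a : 𝓞 F) :
    (p : 𝓞 F) ∣ ((Algebra.norm ℤ a : ℤ) : 𝓞 F) - a ^ (p + 1) := by
  have hp := (Fact.out : p.Prime)
  have h0 : Ideal.span {(p : 𝓞 F)} ≠ ⊥ := by
    rw [Ne, Ideal.span_singleton_eq_bot]
    exact Nat.cast_ne_zero.2 hp.ne_zero
  have hm : (Ideal.span {(p : 𝓞 F)}).IsMaximal := hin.isMaximal h0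
  let _ : Field (𝓞 F ⧸ Ideal.span {(p : 𝓞 F)}) := Ideal.Quotient.field _
  have hp0 : (p : 𝓞 F ⧸ Ideal.span {(p : 𝓞 F)}) = 0 := by
    rw [← map_natCast (Ideal.Quotient.mk (Ideal.span {(p : 𝓞 F)})), Ideal.Quotient.eq_zero_iff_mem]
    exact Ideal.mem_span_singleton_self _
  have hchar : CharP (𝓞 F ⧸ Ideal.span {(p : 𝓞 F)}) p := (CharP.charP_iff_prime_eq_zero hp).2 hp0
  have hfr : ∀ n : ℤ, ((n : 𝓞 F ⧸ Ideal.span {(p : 𝓞 F)})) ^ p = n := fun n => by
    rw [← frobenius_def, map_intCast]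
  rw [← Ideal.mem_span_singleton, ← Ideal.Quotient.eq_zero_iff_mem, map_sub, map_pow, map_intCast, sub_eq_zero]
  obtain ⟨x, hx⟩ : ∃ x, x = Ideal.Quotient.mk (Ideal.span {(p : 𝓞 F)}) a := ⟨_, rfl⟩
  rw [← hx]
  obtain ⟨t, ht⟩ := r3_ch F h2 a
  have h3 := congrArg (Ideal.Quotient.mk (Ideal.span {(p : 𝓞 F)})) ht
  rw [map_add, map_sub, map_mul, map_pow, map_zero, map_intCast, map_intCast, ← hx] at h3
  have h4 := congrArg (frobenius (𝓞 F ⧸ Ideal.span {(p : 𝓞 F)}) p) h3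
  rw [map_add, map_sub, map_mul, map_pow, map_zero, map_intCast, map_intCast, frobenius_def] at h4
  by_cases hxp : x ^ p = x
  · obtain ⟨m, hm'⟩ : ∃ m : ℤ, x = m := by
      have h5 : x ∈ (⊥ : Subfield (𝓞 F ⧸ Ideal.span {(p : 𝓞 F)})) := (Subfield.mem_bot_iff_pow_eq_self (𝓞 F ⧸ Ideal.span {(p : 𝓞 F)}) p).2 hxp
      let _ : Algebra (ZMod p) (𝓞 F ⧸ Ideal.span {(p : 𝓞 F)}) := ZMod.algebra _ p
      have h6 : (⊥ : Subfield (𝓞 F ⧸ Ideal.span {(p : 𝓞 F)})) ≤ (algebraMap (ZMod p) (𝓞 F ⧸ Ideal.span {(p : 𝓞 F)})).fieldRange := bot_le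
      obtain ⟨y, hy⟩ := h6 h5
      obtain ⟨m, rfl⟩ := ZMod.intCast_surjective y
      exact ⟨m, by rw [← hy, map_intCast]⟩
    have h7 : mkF p 1 a = mkF p 1 (m : 𝓞 F) := by
      rw [mkF, mkF, Ideal.Quotient.eq, pow_one, ← Ideal.Quotient.eq, ← hx, hm', map_intCast]
    have h8 := nmF_mk F p 1 a
    rw [h7, nmF_mk] at h8
    have h9 : Algebra.norm ℤ (m : 𝓞 F) = m ^ 2 := by
      have h10 := Algebra.norm_algebraMap (S := 𝓞 F) m
      rw [RingOfIntegers.rank, h2] at h10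
      exact h10
    rw [h9, ZMod.intCast_eq_intCast_iff_dvd_sub, pow_one] at h8
    obtain ⟨c, hc⟩ := h8
    have h10 : Algebra.norm ℤ a = m ^ 2 + p * c := by rw [← hc]; ring
    have h11 : (m : 𝓞 F ⧸ Ideal.span {(p : 𝓞 F)}) ^ (p + 1) = m * m := by rw [pow_succ, hfr]
    rw [h10, hm', h11]
    push_cast
    rw [hp0]
    ring
  · have h5 : (x ^ p - x) * (x ^ p + x - t) = 0 := by
      linear_combination h4 - h3
    have h6 := (mul_eq_zero.1 h5).resolve_left (sub_ne_zero.2 hxp)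
    rw [pow_succ]
    linear_combination h3 - x * h6

end SSF
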