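import Pool.Agent.Lib.SSG.F.R3
import Pool.Agent.Lib.SSG.F.R2B

/-! # SSG/F/R3B : elements of norm one modulo `p` -/

open Polynomial NumberField
open scoped Classical

namespace SSF

open SSG

variable (F : Type) [Field F] [NumberField F] (p : ℕ) [Fact p.Prime]

theorem r3b_int (hin : (Ideal.span {(p : 𝓞 F)}).IsPrime) (m : ℤ) (h : (p : 𝓞 F) ∣ (m : 𝓞 F)) : (p : ℤ) ∣ m := by
  have hp : p.Prime := Fact.out
  by_contra hc
  have hcop : IsCoprime (p : ℤ) m := (Nat.prime_iff_prime_int.1 hp).coprime_iff_not_dvd.2 hc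
  obtain ⟨u, v, huv⟩ := hcop
  apply hin.ne_top
  rw [Ideal.eq_top_iff_one, Ideal.mem_span_singleton]
  have h1 := congrArg (fun z : ℤ => (z : 𝓞 F)) huv
  simp only [Int.cast_add, Int.cast_mul, Int.cast_one, Int.cast_natCast] at h1
  rw [← h1]
  exact dvd_add (dvd_mul_left _ _) (h.mul_left _)

/-- `p + 1` elements of norm one. PROOF. By `norm_frob`: `nmF F p 1 x = 1` iff `x^(p+1) = 1` in the
field `R 1` (`norm a ≡ 1` mod `p` in `ℤ` iff mod `p` in `𝓞 F`: an integer divisible by `p` in `𝓞 F`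
is divisible by `p` in `ℤ`, take norms). The units of `R 1` form a cyclic group of order
`p^2 - 1 = (p+1)(p-1)`, so exactly `p + 1` of them satisfy `x^(p+1) = 1`
(`IsCyclic.card_pow_eq_one..`/`card_nthRoots`, `IsPrimitiveRoot` of order `p+1`). -/
theorem norm1_RF (h2 : Module.finrank ℚ F = 2) (hin : (Ideal.span {(p : 𝓞 F)}).IsPrime) :
    Nat.card {x : RF F p 1 // nmF F p 1 x = 1} = p + 1 := by
  have hp : p.Prime := Fact.out
  have h0 : (p : 𝓞 F) ≠ 0 := by exact_mod_cast hp.ne_zero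
  have hiff : ∀ x : RF F p 1, nmF F p 1 x = 1 ↔ x ^ (p + 1) = 1 := by
    intro x
    obtain ⟨a, rfl⟩ := Ideal.Quotient.mk_surjective x
    have h1 : nmF F p 1 (Ideal.Quotient.mk _ a) = ((Algebra.norm ℤ a : ℤ) : ZMod (p ^ 1)) := nmF_mk F p 1 a
    have hf := norm_frob F p h2 hin a
    rw [h1]
    have e1 : ((Algebra.norm ℤ a : ℤ) : ZMod (p ^ 1)) = 1 ↔ (p : ℤ) ∣ Algebra.norm ℤ a - 1 := by
      rw [← sub_eq_zero, ← Int.cast_one (R := ZMod (p ^ 1)), ← Int.cast_sub, ZMod.intCast_zmod_eq_zero_iff_dvd,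
        Nat.cast_pow, pow_one]
    have e2 : (Ideal.Quotient.mk (Ideal.span {((p : 𝓞 F)) ^ 1}) a) ^ (p + 1) = 1 ↔ (p : 𝓞 F) ∣ a ^ (p + 1) - 1 := by
      rw [← map_pow, ← map_one (Ideal.Quotient.mk (Ideal.span {((p : 𝓞 F)) ^ 1})), Ideal.Quotient.eq,
        Ideal.mem_span_singleton, pow_one]
    rw [e1, e2]
    constructor
    · rintro ⟨c, hc⟩
      have h3 : (p : 𝓞 F) ∣ ((Algebra.norm ℤ a : ℤ) : 𝓞 F) - 1 := by
        refine ⟨(c : 𝓞 F), ?_⟩
        have h4 := congrArg (fun z : ℤ => (z : 𝓞 F)) hc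
        simp only [Int.cast_sub, Int.cast_mul, Int.cast_one, Int.cast_natCast] at h4
        exact h4
      have h5 := dvd_sub h3 hf
      have h6 : ((Algebra.norm ℤ a : ℤ) : 𝓞 F) - 1 - (((Algebra.norm ℤ a : ℤ) : 𝓞 F) - a ^ (p + 1)) = a ^ (p + 1) - 1 := by
        ring
      rwa [h6] at h5
    · intro h3
      apply r3b_int F p hin
      have h5 := dvd_add hf h3
      have h6 : ((Algebra.norm ℤ a : ℤ) : 𝓞 F) - a ^ (p + 1) + (a ^ (p + 1) - 1) = ((Algebra.norm ℤ a - 1 : ℤ) : 𝓞 F) := by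
        push_cast
        ring
      rwa [h6] at h5
  have hmax : (Ideal.span {((p : 𝓞 F)) ^ 1}).IsMaximal := by
    rw [pow_one]
    exact hin.isMaximal (by rwa [Ne, Ideal.span_singleton_eq_bot])
  rw [Nat.card_congr (Equiv.subtypeEquivRight hiff)]
  letI : Field (RF F p 1) := Ideal.Quotient.field _
  have hcard : Nat.card (RF F p 1)ˣ = p ^ 2 - 1 := by
    rw [Nat.card_units, card_RF F p h2 1, mul_one]
  obtain ⟨g, hg⟩ := IsCyclic.exists_generator (α := (RF F p 1)ˣ)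
  have hord : orderOf g = p ^ 2 - 1 := by rw [orderOf_eq_card_of_forall_mem_zpowers hg, hcard]
  have hprod : p ^ 2 - 1 = (p - 1) * (p + 1) := by
    obtain ⟨q, rfl⟩ : ∃ q, p = q + 1 := ⟨p - 1, by have := hp.pos; omega⟩
    rw [Nat.add_sub_cancel]
    have : (q + 1) ^ 2 = q * (q + 1 + 1) + 1 := by ring
    rw [this, Nat.add_sub_cancel]
  have hprim : IsPrimitiveRoot g (p ^ 2 - 1) := by rw [← hord]; exact IsPrimitiveRoot.orderOf g
  have h2' := hp.two_le
  have hpos : 0 < p ^ 2 - 1 := by rw [hprod]; exact Nat.mul_pos (by omega) (by omega)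
  have h3 : IsPrimitiveRoot (g ^ (p - 1)) (p + 1) := hprim.pow hpos hprod
  have h4 : IsPrimitiveRoot ((g ^ (p - 1) : (RF F p 1)ˣ) : RF F p 1) (p + 1) := IsPrimitiveRoot.coe_units_iff.2 h3
  have h5 := h4.card_nthRootsFinset
  have h6 : Nat.card {x : RF F p 1 // x ^ (p + 1) = 1} = Nat.card {x : RF F p 1 // x ∈ nthRootsFinset (p + 1) (1 : RF F p 1)} := by
    refine Nat.card_congr (Equiv.subtypeEquivRight fun x => ?_)
    rw [mem_nthRootsFinset (by omega)]
  have h7 : Nat.card {x : RF F p 1 // x ∈ nthRootsFinset (p + 1) (1 : RF F p 1)} = p + 1 := by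
    rw [Nat.card_eq_fintype_card, Fintype.card_coe, h5]
  exact h6.trans h7

end SSF
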