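import Pool.Agent.Lib.SSG.F.C8
import Pool.Agent.Lib.SSG.F.A4B

/-! # SSG/F/W1 : the step from `w_N` to `w_(N+1)` modulo the maximal ideal -/

open Polynomial
open scoped Classical

namespace SSF

variable {p : ℕ} [Fact p.Prime] {R : ℕ → Type} [∀ N, CommRing (R N)] [∀ N, Fintype (R N)]
  {L : Type} [NormedField L] [IsUltrametricDist L] (D : LTD p R L)

theorem w1_nontriv : Nontrivial D.κ := by
  refine ⟨⟨0, 1, ?_⟩⟩
  intro h
  have h1 : D.res 1 = 0 := by rw [map_one]; exact h.symm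
  rw [res_eq_zero_iff] at h1
  have h2 : ((1 : D.W) : L) = 1 := rfl
  rw [h2, norm_one] at h1
  exact lt_irrefl _ h1

theorem w1_char : CharP D.κ p := by
  have := w1_nontriv D
  exact (CharP.charP_iff_prime_eq_zero (Fact.out : p.Prime)).2 (kappa_p D)

theorem w1_ev_pow (w : D.W[X]) (x : L) (k : ℕ) : D.ev (w ^ k) x = D.ev w x ^ k := by
  simp [LTD.ev, eval₂_pow]

theorem w1_res_F (w w' : D.W[X]) :
    (w ^ p - w'.comp (X ^ (p ^ 2) - C (p : D.W) * X)).map D.res =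
      (w.map D.res) ^ p - (w'.map D.res).comp (X ^ (p ^ 2)) := by
  have h : D.res (p : D.W) = 0 := by
    rw [map_natCast]
    exact kappa_p D
  rw [Polynomial.map_sub, Polynomial.map_pow, Polynomial.map_comp, Polynomial.map_sub,
    Polynomial.map_pow, Polynomial.map_mul, Polynomial.map_C, Polynomial.map_X, h, map_zero,
    zero_mul, sub_zero]

/-- The coefficients of `w_(N+1)` and `w_N` (`N = M + 1 ≥ 1`): for `p i < E = p^(2(M+1))(p^2-1)`
`res(a_i)^p = res(a'_(i/p))` if `p ∣ i`, and `= 0` otherwise. PROOF. Put `t = X (M+2) 1`,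
`‖t‖^E = ‖p‖` (`norm_X`, `1` is a unit). `F = w^p - w'.comp (X^q - p X)` in `W[X]` vanishes at `t`:
`w(t)^p = ζ_(M+2)^p = ζ_(M+1)` (`nm 1 = 1`, `D.ζp`) and `w'(t^q - p t) = w'(X (M+1) (red 1)) =
ζ_(M+1)` (`D.Xg`). The terms `F_j t^j` with `j ≥ E` have norm `≤ ‖t‖^E = ‖p‖`, so
`‖sum_(j<E) F_j t^j‖ ≤ ‖p‖` and `‖F_j‖ < 1`, i.e. `res F_j = 0`, for all `j < E`
(`basis_small`). In `κ[X]` (characteristic `p`, `kappa_p`): `(w^p).map res = (w.map res)^p =
sum res(a_i)^p X^(p i)` (`Polynomial.expand_char`-like / `Polynomial.map_frobenius_expand` :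
`expand κ p (map (frobenius κ p) f) = f^p`) and `(w'.comp (X^q - p X)).map res =
(w'.map res).comp (X^q)` (`expand`), whose coefficient at `p i` is `res (a'_(i/p))` if `q ∣ p i`
and `0` otherwise (`Polynomial.coeff_expand`, `q = p^2`, `p^2 ∣ p i ↔ p ∣ i`). -/
theorem w_step (M : ℕ) (w w' : D.W[X]) (hw : D.IsW (M + 2) w) (hw' : D.IsW (M + 1) w') (i : ℕ)
    (hi : p * i < p ^ (2 * (M + 1)) * (p ^ 2 - 1)) :
    D.res (w.coeff i) ^ p = if p ∣ i then D.res (w'.coeff (i / p)) else 0 := by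
  have hpp : p.Prime := Fact.out
  have hp2 : 2 ≤ p := hpp.two_le
  set E : ℕ := p ^ (2 * (M + 1)) * (p ^ 2 - 1) with hE
  have hE0 : 0 < E := by
    have h1 : 0 < p ^ (2 * (M + 1)) := by positivity
    have h2 : 0 < p ^ 2 - 1 := by
      have : 2 * 2 ≤ p ^ 2 := by nlinarith
      omega
    exact Nat.mul_pos h1 h2
  have hF1 : Fact (1 < p ^ (M + 2)) := ⟨Nat.one_lt_pow (by omega) (by omega)⟩
  have hF2 : Fact (1 < p ^ (M + 1)) := ⟨Nat.one_lt_pow (by omega) (by omega)⟩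
  set t : L := D.X (M + 2) 1 with ht
  have htE : ‖t‖ ^ E = ‖(p : L)‖ := norm_X D (M + 1) 1 isUnit_one
  have ht1 : ‖t‖ < 1 := norm_X_lt D (M + 1) 1 isUnit_one
  set Fp : D.W[X] := w ^ p - w'.comp (X ^ (p ^ 2) - C (p : D.W) * X) with hFp
  have hev : D.ev Fp t = 0 := by
    have h1 : D.ev w t = D.ζ (M + 2) := by
      rw [hw.2 1 isUnit_one, map_one, ZMod.val_one, pow_one]
    have h2 : D.ev w' (D.X (M + 1) (D.red (M + 1) 1)) = D.ζ (M + 1) := by
      rw [map_one, hw'.2 1 isUnit_one, map_one, ZMod.val_one, pow_one]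
    have h3 : D.ev (w'.comp (X ^ (p ^ 2) - C (p : D.W) * X)) t =
        D.ev w' (t ^ (p ^ 2) - (p : L) * t) := by
      unfold LTD.ev
      rw [eval₂_comp]
      congr 1
      simp
    have h4 : D.ev Fp t = D.ev (w ^ p) t - D.ev (w'.comp (X ^ (p ^ 2) - C (p : D.W) * X)) t := by
      unfold LTD.ev
      rw [hFp, eval₂_sub]
    rw [h4, w1_ev_pow, h1, h3, ht, D.Xg, h2]
    rw [D.ζp, sub_self]
  have hsmall : ∀ j < E, D.res (Fp.coeff j) = 0 := by
    intro j hj
    rw [res_eq_zero_iff]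
    refine basis_small D t E hE0 htE (fun j => (Fp.coeff j : L)) (fun i => (Fp.coeff i).2.1) ?_ j hj
    set N₁ : ℕ := max E (Fp.natDegree + 1) with hN₁
    have h1 : ∑ j ∈ Finset.range N₁, (Fp.coeff j : L) * t ^ j = 0 := by
      rw [← hev, LTD.ev, eval₂_eq_sum_range' D.W.subtype
        (lt_of_lt_of_le (Nat.lt_succ_self _) (le_max_right E _)) t]
      rfl
    have h2 := Finset.sum_range_add_sum_Ico (fun j => (Fp.coeff j : L) * t ^ j)
      (le_max_left E (Fp.natDegree + 1))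
    rw [← hN₁, h1] at h2
    rw [eq_neg_of_add_eq_zero_left h2, norm_neg]
    refine IsUltrametricDist.norm_sum_le_of_forall_le_of_nonneg (norm_nonneg _) fun k hk => ?_
    rw [norm_mul, norm_pow, ← htE]
    have hkE : E ≤ k := (Finset.mem_Ico.1 hk).1
    calc ‖(Fp.coeff k : L)‖ * ‖t‖ ^ k ≤ 1 * ‖t‖ ^ E := by
          refine mul_le_mul (Fp.coeff k).2.2 ?_ (by positivity) zero_le_one
          exact pow_le_pow_of_le_one (norm_nonneg _) ht1.le hkE
      _ = ‖t‖ ^ E := one_mul _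
  have h1 := hsmall (p * i) hi
  rw [← Polynomial.coeff_map, hFp, w1_res_F, coeff_sub, sub_eq_zero] at h1
  have hch := w1_char D
  have hex : ExpChar D.κ p := ExpChar.prime hpp
  have h2 : ((w.map D.res) ^ p).coeff (p * i) = D.res (w.coeff i) ^ p := by
    rw [← Polynomial.map_frobenius_expand, Polynomial.coeff_map, mul_comm p i,
      Polynomial.coeff_expand_mul hpp.pos, Polynomial.coeff_map, frobenius_def]
  rw [h2] at h1
  rw [h1, ← Polynomial.expand_eq_comp_X_pow, Polynomial.coeff_expand (by positivity)]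
  have h3 : p ^ 2 ∣ p * i ↔ p ∣ i := by
    rw [sq]
    exact Nat.mul_dvd_mul_iff_left hpp.pos
  have h4 : p * i / p ^ 2 = i / p := by
    rw [sq]
    exact Nat.mul_div_mul_left _ _ hpp.pos
  rw [h4, Polynomial.coeff_map]
  by_cases h5 : p ∣ i
  · rw [if_pos h5, if_pos (h3.2 h5)]
  · rw [if_neg h5, if_neg (fun h => h5 (h3.1 h))]

end SSF
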