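import Pool.Agent.Lib.SSG.F.C8
import Pool.Agent.Lib.SSG.F.C2B
import Pool.Agent.Lib.SSG.F.A4B
import Pool.Agent.Lib.SSG.F.C3

/-! # SSG/F/W2 : the coefficients of `w_1` -/

open Polynomial
open scoped Classical

namespace SSF

variable {p : ℕ} [Fact p.Prime] {R : ℕ → Type} [∀ N, CommRing (R N)] [∀ N, Fintype (R N)]
  {L : Type} [NormedField L] [IsUltrametricDist L] (D : LTD p R L)

omit [Fact p.Prime] in
theorem w2_pow_sub {x y : L} {ρ : ℝ} (hx : ‖x‖ ≤ ρ) (hy : ‖y‖ ≤ ρ) (m : ℕ) :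
    ‖x ^ (m + 1) - y ^ (m + 1)‖ ≤ ‖x - y‖ * ρ ^ m := by
  have hρ : 0 ≤ ρ := (norm_nonneg x).trans hx
  induction m with
  | zero => simp
  | succ m ih =>
    have e : x ^ (m + 1 + 1) - y ^ (m + 1 + 1) =
        x * (x ^ (m + 1) - y ^ (m + 1)) + (x - y) * y ^ (m + 1) := by ring
    rw [e]
    refine (IsUltrametricDist.norm_add_le_max _ _).trans (max_le ?_ ?_)
    · rw [norm_mul]
      calc ‖x‖ * ‖x ^ (m + 1) - y ^ (m + 1)‖ ≤ ρ * (‖x - y‖ * ρ ^ m) := by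
            gcongr
        _ = ‖x - y‖ * ρ ^ (m + 1) := by ring
    · rw [norm_mul, norm_pow]
      gcongr

omit [Fact p.Prime] in
/-- elements of `k` of norm less than one have norm at most `‖p‖`. -/
theorem w2_gap {x : L} (hx : x ∈ D.k) (h : ‖x‖ < 1) : ‖x‖ ≤ ‖(p : L)‖ := by
  by_cases h0 : x = 0
  · rw [h0, norm_zero]
    exact norm_nonneg _
  · obtain ⟨n, hn⟩ := D.kval x hx h0
    have hp0 : 0 < ‖(p : L)‖ := norm_pos_iff.2 D.hp0
    have h1 : 1 ≤ n := by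
      by_contra hcon
      have h2 : n ≤ 0 := by omega
      rw [hn] at h
      have h3 : 1 ≤ ‖(p : L)‖ ^ n := by
        have := zpow_le_zpow_right_of_le_one₀ hp0 D.hp1.le h2
        rwa [zpow_zero] at this
      linarith
    rw [hn]
    have := zpow_le_zpow_right_of_le_one₀ hp0 D.hp1.le h1
    rwa [zpow_one] at this

/-- `w_1 = 1 + c Z^(p+1) + ..` modulo the maximal ideal, `c^(p-1) = -1`. PROOF. `t = X 1 1`,
`‖t‖^(q-1) = ‖p‖`, in fact `t^(q-1) = p` (`t ≠ 0`, `t^q - p t = X 0 (red 1) = 0` as `R 0` has one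
element and `X 0 0 = 0`). `φ = ζ_1 - 1 = w(t) - 1` (`nm 1 = 1`, `(1 : ZMod (p^1)).val = 1`) and
`‖φ‖^(p-1) = ‖p‖` (`phi_e`), so `‖φ‖ = ‖t‖^(p+1)` (equal `(p-1)`-th powers, `q - 1 = (p-1)(p+1)`).
`deg w < q - 1`, so `φ = (a_0 - 1) + sum_(0<i<q-1) a_i t^i` and by `basis_norm` (coefficients
`a_0 - 1`, `a_i`) `‖a_0 - 1‖ ≤ ‖t‖^(p+1) < 1` and `‖a_i‖ ‖t‖^i ≤ ‖t‖^(p+1)`, so `‖a_i‖ < 1` for
`0 < i < p + 1`; elements of `W` of norm `< 1` have norm `≤ ‖p‖ = ‖t‖^(q-1)` (`D.kval`), and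
`q - 1 > p + 1`. So all terms other than `c t^(p+1)`, `c = a_(p+1)`, have norm `< ‖t‖^(p+1)`
(for `i > p + 1`: `‖t^i‖ ≤ ‖t‖^(p+2)`): `‖φ - c t^(p+1)‖ < ‖t‖^(p+1)`, so `‖c‖ = 1`. Hence
`‖φ^(p-1) - c^(p-1) t^(q-1)‖ < ‖p‖` with `t^(q-1) = p`, and `‖φ^(p-1) + p‖ < ‖p‖` (`prim_one` for
`ζ 1`, `p ^ 1 = p`). So `‖c^(p-1) + 1‖ < 1`. -/
theorem w_base (hp3 : 3 ≤ p) (w : D.W[X]) (hw : D.IsW 1 w) :
    D.res (w.coeff 0) = 1 ∧ (∀ i, 0 < i → i < p + 1 → D.res (w.coeff i) = 0) ∧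
      D.res (w.coeff (p + 1)) ^ (p - 1) = -1 := by
  have hpp : p.Prime := Fact.out
  have hF1 : Fact (1 < p ^ 1) := ⟨by rw [pow_one]; exact hpp.one_lt⟩
  set E : ℕ := p ^ 2 - 1 with hE
  obtain ⟨m, hm⟩ : ∃ m, p = m + 1 := ⟨p - 1, by omega⟩
  have hpm : p - 1 = m := by omega
  have hEm : E = (p + 1) * (p - 1) := by
    rw [hE, hpm, hm]
    have : (m + 1) ^ 2 = (m + 1 + 1) * m + 1 := by ring
    omega
  have hEp : p + 1 < E := by
    rw [hEm]
    nlinarith [show 2 ≤ p - 1 by omega]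
  have hE0 : 0 < E := by omega
  set t : L := D.X 1 1 with ht
  have htE : ‖t‖ ^ E = ‖(p : L)‖ := by
    have h1 := norm_X D 0 1 isUnit_one
    rw [mul_zero, pow_zero, one_mul] at h1
    exact h1
  have ht1 : ‖t‖ < 1 := norm_X_lt D 0 1 isUnit_one
  have hp0 : 0 < ‖(p : L)‖ := norm_pos_iff.2 D.hp0
  have ht0 : 0 < ‖t‖ := by
    rcases (norm_nonneg t).lt_or_eq with h1 | h1
    · exact h1
    · rw [← h1, zero_pow hE0.ne'] at htE
      rw [← htE] at hp0
      exact absurd hp0 (lt_irrefl _)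
  have htne : t ≠ 0 := norm_pos_iff.1 ht0
  have htp : t ^ E = (p : L) := by
    have hsub : D.red 0 1 = 0 := by
      have h1 : Subsingleton (R 0) := (Nat.card_eq_one_iff_unique.1 D.card0).1
      exact Subsingleton.elim _ _
    have h1 := D.Xg 0 1
    rw [hsub, D.X0, sub_eq_zero] at h1
    have h2 : t ^ E * t = (p : L) * t := by
      rw [← pow_succ]
      have : E + 1 = p ^ 2 := by
        have : 1 ≤ p ^ 2 := Nat.one_le_pow _ _ hpp.pos
        omega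
      rw [this]
      exact h1
    exact mul_right_cancel₀ htne h2
  set φ : L := D.ζ 1 - 1 with hφ
  have hφn : ‖φ‖ ^ (p - 1) = ‖(p : L)‖ := by
    have h1 := phi_e D 1 le_rfl
    rw [Nat.sub_self, pow_zero, one_mul] at h1
    exact h1
  have hφt : ‖φ‖ = ‖t‖ ^ (p + 1) := by
    have h1 : ‖φ‖ ^ (p - 1) = (‖t‖ ^ (p + 1)) ^ (p - 1) := by
      rw [hφn, ← pow_mul, ← hEm, htE]
    exact (pow_left_inj₀ (norm_nonneg _) (by positivity) (by omega)).1 h1
  have hev : D.ev w t = D.ζ 1 := by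
    rw [hw.2 1 isUnit_one, map_one, ZMod.val_one, pow_one]
  have hdeg : w.natDegree < E := by
    have h1 := hw.1
    rw [Nat.sub_self, mul_zero, pow_zero, one_mul] at h1
    exact h1
  set a : ℕ → L := fun i => if i = 0 then (w.coeff 0 : L) - 1 else (w.coeff i : L) with ha
  have ha0 : a 0 = (w.coeff 0 : L) - 1 := rfl
  have hai : ∀ i, 0 < i → a i = (w.coeff i : L) := fun i hi => if_neg hi.ne'
  have hak : ∀ i, a i ∈ D.k := by
    intro i
    by_cases hi : i = 0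
    · rw [hi, ha0]
      exact D.k.sub_mem (w.coeff 0).2.1 D.k.one_mem
    · rw [hai i (Nat.pos_of_ne_zero hi)]
      exact (w.coeff i).2.1
  obtain ⟨E', hE'⟩ : ∃ E', E = E' + 1 := ⟨E - 1, by omega⟩
  have hsum : ∑ i ∈ Finset.range E, a i * t ^ i = φ := by
    have h1 : D.ev w t = ∑ i ∈ Finset.range E, (w.coeff i : L) * t ^ i := by
      rw [LTD.ev, eval₂_eq_sum_range' D.W.subtype hdeg t]
      rfl
    rw [hφ, ← hev, h1, hE', Finset.sum_range_succ', Finset.sum_range_succ', ha0]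
    have h2 : ∑ k ∈ Finset.range E', a (k + 1) * t ^ (k + 1) =
        ∑ k ∈ Finset.range E', (w.coeff (k + 1) : L) * t ^ (k + 1) := by
      refine Finset.sum_congr rfl fun k _ => ?_
      rw [hai (k + 1) (Nat.succ_pos k)]
    rw [h2, pow_zero]
    ring
  obtain ⟨hb, -⟩ := basis_norm D t E hE0 htE a hak
  rw [hsum, hφt] at hb
  have hc0 : ‖a 0‖ < 1 := by
    have h1 := hb 0 hE0
    rw [pow_zero, mul_one] at h1
    exact h1.trans_lt (pow_lt_one₀ (norm_nonneg _) ht1 (by omega))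
  have hci : ∀ i, 0 < i → i < p + 1 → ‖a i‖ < 1 := by
    intro i hi hi2
    have h1 := hb i (hi2.trans hEp)
    have h2 : ‖t‖ ^ (p + 1) = ‖t‖ ^ (p + 1 - i) * ‖t‖ ^ i := by
      rw [← pow_add]
      congr 1
      omega
    rw [h2] at h1
    have h3 := le_of_mul_le_mul_right h1 (pow_pos ht0 i)
    exact h3.trans_lt (pow_lt_one₀ (norm_nonneg _) ht1 (by omega))
  refine ⟨?_, ?_, ?_⟩
  · have h1 : D.res (w.coeff 0 - 1) = 0 := by
      rw [res_eq_zero_iff]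
      exact hc0
    rw [map_sub, map_one, sub_eq_zero] at h1
    exact h1
  · intro i hi hi2
    rw [res_eq_zero_iff, ← hai i hi]
    exact hci i hi hi2
  set c : L := (w.coeff (p + 1) : L) with hc
  have hcle : ‖c‖ ≤ 1 := (w.coeff (p + 1)).2.2
  have hlt : ‖φ - c * t ^ (p + 1)‖ < ‖t‖ ^ (p + 1) := by
    have h1 : φ - c * t ^ (p + 1) =
        ∑ i ∈ (Finset.range E).erase (p + 1), a i * t ^ i := by
      rw [← hsum, ← Finset.sum_erase_add (Finset.range E) _ (Finset.mem_range.2 hEp),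
        hai (p + 1) (Nat.succ_pos p)]
      ring
    rw [h1]
    have h2 : ‖∑ i ∈ (Finset.range E).erase (p + 1), a i * t ^ i‖ ≤ ‖t‖ ^ (p + 2) := by
      refine IsUltrametricDist.norm_sum_le_of_forall_le_of_nonneg (by positivity) fun i hi => ?_
      rw [Finset.mem_erase, Finset.mem_range] at hi
      rw [norm_mul, norm_pow]
      rcases lt_or_gt_of_ne hi.1 with h3 | h3
      · have h4 : ‖a i‖ ≤ ‖(p : L)‖ := by
          refine w2_gap D (hak i) ?_
          by_cases h5 : i = 0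
          · rw [h5]
            exact hc0
          · exact hci i (Nat.pos_of_ne_zero h5) h3
        calc ‖a i‖ * ‖t‖ ^ i ≤ ‖(p : L)‖ * 1 := by
              refine mul_le_mul h4 (pow_le_one₀ (norm_nonneg _) ht1.le) (by positivity)
                (norm_nonneg _)
          _ = ‖t‖ ^ E := by rw [mul_one, htE]
          _ ≤ ‖t‖ ^ (p + 2) := pow_le_pow_of_le_one (norm_nonneg _) ht1.le (by omega)
      · rw [hai i (by omega)]
        calc ‖(w.coeff i : L)‖ * ‖t‖ ^ i ≤ 1 * ‖t‖ ^ (p + 2) := by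
              refine mul_le_mul (w.coeff i).2.2 ?_ (by positivity) zero_le_one
              exact pow_le_pow_of_le_one (norm_nonneg _) ht1.le (by omega)
          _ = ‖t‖ ^ (p + 2) := one_mul _
    exact h2.trans_lt (pow_lt_pow_right_of_lt_one₀ ht0 ht1 (by omega))
  have hpow : ‖φ ^ (p - 1) - (c * t ^ (p + 1)) ^ (p - 1)‖ < ‖(p : L)‖ := by
    obtain ⟨m', hm'⟩ : ∃ m', p - 1 = m' + 1 := ⟨p - 2, by omega⟩
    have h1 : ‖c * t ^ (p + 1)‖ ≤ ‖t‖ ^ (p + 1) := by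
      rw [norm_mul, norm_pow]
      calc ‖c‖ * ‖t‖ ^ (p + 1) ≤ 1 * ‖t‖ ^ (p + 1) := by gcongr
        _ = ‖t‖ ^ (p + 1) := one_mul _
    have h2 := w2_pow_sub hφt.le h1 m'
    rw [hm']
    refine h2.trans_lt ?_
    have h3 : ‖(p : L)‖ = ‖t‖ ^ (p + 1) * (‖t‖ ^ (p + 1)) ^ m' := by
      rw [← pow_succ', ← pow_mul, ← hm', ← hEm, htE]
    rw [h3]
    exact mul_lt_mul_of_pos_right hlt (by positivity)
  have hprim : ‖φ ^ (p - 1) + (p : L)‖ < ‖(p : L)‖ := by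
    have h1 := D.ζprim 1
    rw [pow_one] at h1
    exact prim_one (D.ζ 1) h1 D.hp0 D.hp1
  have hcp : (c * t ^ (p + 1)) ^ (p - 1) = c ^ (p - 1) * (p : L) := by
    rw [mul_pow, ← pow_mul, ← hEm, htp]
  have hfin : ‖(p : L) * (c ^ (p - 1) + 1)‖ < ‖(p : L)‖ := by
    have e : (p : L) * (c ^ (p - 1) + 1) =
        (φ ^ (p - 1) + (p : L)) + ((c * t ^ (p + 1)) ^ (p - 1) - φ ^ (p - 1)) := by
      rw [hcp]
      ring
    rw [norm_sub_rev] at hpow
    rw [e]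
    exact (IsUltrametricDist.norm_add_le_max _ _).trans_lt (max_lt hprim hpow)
  rw [norm_mul] at hfin
  have hfin2 : ‖c ^ (p - 1) + 1‖ < 1 := by
    by_contra hcon
    push Not at hcon
    have := mul_le_mul_of_nonneg_left hcon hp0.le
    linarith
  have hres : D.res (w.coeff (p + 1) ^ (p - 1) + 1) = 0 := by
    rw [res_eq_zero_iff]
    push_cast
    exact hfin2
  rw [map_add, map_pow, map_one] at hres
  exact eq_neg_of_add_eq_zero_left hres

end SSF
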