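import Pool.Agent.Lib.SSG.F.W1
import Pool.Agent.Lib.SSG.F.W2

/-! # SSG/F/W3 : the coefficients of `w_N` -/

open Polynomial
open scoped Classical

namespace SSF

variable {p : ℕ} [Fact p.Prime] {R : ℕ → Type} [∀ N, CommRing (R N)] [∀ N, Fintype (R N)]
  {L : Type} [NormedField L] [IsUltrametricDist L] (D : LTD p R L)

/-- `κ` is reduced: `x ^ p = 0` implies `x = 0` (lift to `W`: `‖a^p‖ < 1` implies `‖a‖ < 1`);
and `(x + y)^p = x^p + y^p` (characteristic `p`). -/
theorem kappa_red (x : D.κ) (h : x ^ p = 0) : x = 0 := by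
  obtain ⟨a, rfl⟩ := Ideal.Quotient.mk_surjective x
  have h1 : D.res (a ^ p) = 0 := by
    rw [map_pow]
    exact h
  rw [res_eq_zero_iff] at h1
  have h2 : D.res a = 0 := by
    rw [res_eq_zero_iff]
    by_contra hc
    push Not at hc
    have h3 : 1 ≤ ‖(a : L)‖ ^ p := one_le_pow₀ hc
    have h4 : ‖((a ^ p : D.W) : L)‖ = ‖(a : L)‖ ^ p := by
      rw [Subring.coe_pow, norm_pow]
    rw [h4] at h1
    linarith
  exact h2

theorem w3_char : CharP D.κ p := by
  have hne : Nontrivial D.κ := by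
    rw [Ideal.Quotient.nontrivial_iff]
    intro htop
    have h1 : (1 : D.W) ∈ D.m := by
      rw [htop]
      exact Submodule.mem_top
    have h2 : ‖((1 : D.W) : L)‖ < 1 := h1
    simp at h2
  exact (CharP.charP_iff_prime_eq_zero (Fact.out : p.Prime)).mpr (kappa_p D)

theorem w3_add (x y : D.κ) : (x + y) ^ p = x ^ p + y ^ p := by
  have := w3_char D
  exact add_pow_char x y p

theorem w3_sub (x y : D.κ) : (x - y) ^ p = x ^ p - y ^ p := by
  have := w3_char D
  exact sub_pow_char x y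

/-- The coefficients of `w_(M+1)` modulo the maximal ideal, in degrees `< p^M (p^2 - 1)`: they are
`1` in degree `0`; `0` in degrees not divisible by `p^M` and in degrees between `0` and
`p^M (p+1)`; and `c^(p-1) = -1` for the one of degree `p^M (p+1)`. PROOF. Induction on `M`, start
`w_base`. Step: take `w'` from `exists_w M` and use `w_step` (note
`p · i < p^(2(M+1)) (p^2-1)` for `i < p^(M+1) (p^2-1)`, because `p · p^(M+1) ≤ p^(2(M+1))`):
`res(a_0)^p = res(a'_0) = 1`, so `(res a_0 - 1)^p = 0` (`sub_pow_char`-like, `kappa_red`) and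
`res a_0 = 1`. If `p ∤ i` then `res(a_i)^p = 0`. If `i = p j`: `res(a_i)^p = res(a'_j)`, and
`p^(M+1) ∣ i` iff `p^M ∣ j`, `i < p^(M+1)(p+1)` iff `j < p^M(p+1)`. For `i = p^(M+1)(p+1)`:
`(c^(p-1))^p = c'^(p-1) = -1 = (-1)^p` (`p` odd), so `(c^(p-1) + 1)^p = 0`. -/
theorem w_coeff (hp3 : 3 ≤ p) (M : ℕ) (w : D.W[X]) (hw : D.IsW (M + 1) w) :
    D.res (w.coeff 0) = 1 ∧
      (∀ i, 0 < i → i < p ^ M * (p ^ 2 - 1) → (¬ p ^ M ∣ i ∨ i < p ^ M * (p + 1)) →
        D.res (w.coeff i) = 0) ∧
      D.res (w.coeff (p ^ M * (p + 1))) ^ (p - 1) = -1 := by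
  have hp : p.Prime := Fact.out
  have hp0 : 0 < p := hp.pos
  have hsq : p ^ 2 - 1 = (p - 1) * (p + 1) := by
    obtain ⟨k, rfl⟩ : ∃ k, p = k + 1 := ⟨p - 1, by omega⟩
    have : (k + 1) ^ 2 = k * (k + 1 + 1) + 1 := by ring
    rw [this]
    simp
  have hsq1 : p + 1 < p ^ 2 - 1 := by
    rw [hsq]
    have h2 : 2 ≤ p - 1 := by omega
    nlinarith
  induction M generalizing w with
  | zero =>
    obtain ⟨a1, a2, a3⟩ := w_base D hp3 w hw
    refine ⟨a1, ?_, ?_⟩
    · intro i hi0 _ hi
      rw [pow_zero, one_mul] at hi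
      rcases hi with hi | hi
      · exact absurd (one_dvd i) hi
      · exact a2 i hi0 hi
    · rw [pow_zero, one_mul]
      exact a3
  | succ M ih =>
    obtain ⟨w', hw'⟩ := exists_w D M
    obtain ⟨b1, b2, b3⟩ := ih w' hw'
    have hstep := fun i hi => w_step D M w w' hw hw' i hi
    have hP : 0 < p ^ M := pow_pos hp0 M
    have hbig : ∀ i, i < p ^ (M + 1) * (p ^ 2 - 1) → p * i < p ^ (2 * (M + 1)) * (p ^ 2 - 1) := by
      intro i hi
      have h1 : p * i < p * (p ^ (M + 1) * (p ^ 2 - 1)) := Nat.mul_lt_mul_of_pos_left hi hp0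
      have h2 : p * (p ^ (M + 1) * (p ^ 2 - 1)) = p ^ (M + 2) * (p ^ 2 - 1) := by
        rw [pow_succ p (M + 1)]
        ring
      have h3 : p ^ (M + 2) ≤ p ^ (2 * (M + 1)) := Nat.pow_le_pow_right hp0 (by omega)
      rw [h2] at h1
      exact lt_of_lt_of_le h1 (Nat.mul_le_mul_right _ h3)
    refine ⟨?_, ?_, ?_⟩
    · have h1 := hstep 0 (hbig 0 (Nat.mul_pos (pow_pos hp0 _) (by omega)))
      rw [if_pos (dvd_zero p), Nat.zero_div, b1] at h1
      have h2 : (D.res (w.coeff 0) - 1) ^ p = 0 := by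
        rw [w3_sub D, h1, one_pow, sub_self]
      exact sub_eq_zero.mp (kappa_red D _ h2)
    · intro i hi0 hi1 hi2
      apply kappa_red D
      rw [hstep i (hbig i hi1)]
      split_ifs with hdvd
      · obtain ⟨j, rfl⟩ := hdvd
        rw [Nat.mul_div_cancel_left _ hp0]
        have hj0 : 0 < j := Nat.pos_of_mul_pos_left hi0
        refine b2 j hj0 ?_ ?_
        · have h1 : p * j < p * (p ^ M * (p ^ 2 - 1)) := by
            calc p * j < p ^ (M + 1) * (p ^ 2 - 1) := hi1
              _ = p * (p ^ M * (p ^ 2 - 1)) := by rw [pow_succ]; ring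
          exact lt_of_mul_lt_mul_left h1 (Nat.zero_le p)
        · rcases hi2 with h1 | h1
          · left
            intro h2
            apply h1
            rw [pow_succ, mul_comm]
            exact Nat.mul_dvd_mul_left p h2
          · right
            have h2 : p * j < p * (p ^ M * (p + 1)) := by
              calc p * j < p ^ (M + 1) * (p + 1) := h1
                _ = p * (p ^ M * (p + 1)) := by rw [pow_succ]; ring
            exact lt_of_mul_lt_mul_left h2 (Nat.zero_le p)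
      · rfl
    · have hlt : p ^ (M + 1) * (p + 1) < p ^ (M + 1) * (p ^ 2 - 1) :=
        Nat.mul_lt_mul_of_pos_left hsq1 (pow_pos hp0 _)
      have h1 := hstep (p ^ (M + 1) * (p + 1)) (hbig _ hlt)
      have h2 : p ^ (M + 1) * (p + 1) = p * (p ^ M * (p + 1)) := by rw [pow_succ]; ring
      rw [if_pos (by rw [h2]; exact Nat.dvd_mul_right p _)] at h1
      have h3 : p ^ (M + 1) * (p + 1) / p = p ^ M * (p + 1) := by
        rw [h2, Nat.mul_div_cancel_left _ hp0]
      rw [h3] at h1
      set c := D.res (w.coeff (p ^ (M + 1) * (p + 1))) with hc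
      have h4 : (c ^ (p - 1) + 1) ^ p = 0 := by
        rw [w3_add D, one_pow, ← pow_mul, mul_comm (p - 1) p, pow_mul, h1, b3]
        ring
      have h5 := kappa_red D _ h4
      exact eq_neg_of_add_eq_zero_left h5

end SSF
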