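import Pool.Agent.Lib.SSG.F.C8
import Pool.Agent.Lib.SSG.F.D5

/-! # SSG/F/X1 : all coordinates have norm `< 1` -/

open Polynomial NumberField
open scoped Classical

namespace SSF

open SSG

variable {F : Type} [Field F] [NumberField F] {p : ℕ} [Fact p.Prime]
  {L₀ : Type} [NormedField L₀] [IsUltrametricDist L₀] (D : LTD p (RF F p) L₀)

/-- the class of an element prime to `p` is a unit -/
theorem x1_unit (hin : (Ideal.span {(p : 𝓞 F)}).IsPrime) (N : ℕ) (a : 𝓞 F)
    (ha : ¬ (p : 𝓞 F) ∣ a) : IsUnit (mkF p N a) := by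
  have hp : p.Prime := Fact.out
  have hne : Ideal.span {(p : 𝓞 F)} ≠ ⊥ := by
    rw [Ne, Ideal.span_singleton_eq_bot]
    exact_mod_cast hp.ne_zero
  have hmax : (Ideal.span {(p : 𝓞 F)}).IsMaximal := Ideal.IsPrime.isMaximal hin hne
  have ha' : a ∉ Ideal.span {(p : 𝓞 F)} := fun h => ha (Ideal.mem_span_singleton.1 h)
  obtain ⟨y, i, hi, hyi⟩ := hmax.exists_inv ha'
  obtain ⟨c, hc⟩ := Ideal.mem_span_singleton.1 hi
  have h1 : mkF p N y * mkF p N a = 1 - mkF p N i := by
    have h2 : mkF p N (y * a + i) = 1 := by rw [hyi]; exact map_one _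
    rw [← h2]
    simp [mkF, map_add, map_mul]
  have h3 : IsNilpotent (mkF p N i) := by
    refine ⟨N, ?_⟩
    have h4 : mkF p N i ^ N = mkF p N (i ^ N) := (map_pow _ _ _).symm
    rw [h4, hc, mul_pow]
    exact Ideal.Quotient.eq_zero_iff_mem.2
      (Ideal.mem_span_singleton.2 (Dvd.intro _ rfl))
  have h5 : IsUnit (mkF p N y * mkF p N a) := by
    rw [h1]; exact h3.isUnit_one_sub
  exact isUnit_of_mul_isUnit_right h5

/-- all coordinates have norm `< 1`: induction on `N`; `N = 0`: `R 0` has one element, `X 0 0 = 0`.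
`N + 1`: a unit: `norm_X_lt`. A non-unit is `x = -p y`: (`x = mk a`; if `p ∤ a` then `a` is a unit
modulo `p^(N+1)`, because `(p)` is prime, hence maximal: `Ideal.Quotient` of a power of a maximal
ideal is local, or: `a b = 1 + p c`, and `1 + p c` is a unit as `p` is nilpotent). So
`X (N+1) x = X N (red y)` by `D.Xpi`. -/
theorem X_lt (hin : (Ideal.span {(p : 𝓞 F)}).IsPrime) (N : ℕ) (x : RF F p N) : ‖D.X N x‖ < 1 := by
  induction N with
  | zero =>
    have hs : Subsingleton (RF F p 0) := (Nat.card_eq_one_iff_unique.1 D.card0).1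
    rw [Subsingleton.elim x 0, D.X0, norm_zero]
    exact one_pos
  | succ N ih =>
    by_cases hx : IsUnit x
    · exact norm_X_lt D N x hx
    · obtain ⟨a, rfl⟩ := Ideal.Quotient.mk_surjective x
      have ha : (p : 𝓞 F) ∣ a := by
        by_contra h
        exact hx (x1_unit hin (N + 1) a h)
      obtain ⟨b, rfl⟩ := ha
      have h1 : (Ideal.Quotient.mk (Ideal.span {((p : 𝓞 F)) ^ (N + 1)}) ((p : 𝓞 F) * b)) =
          -(p : RF F p (N + 1)) * mkF p (N + 1) (-b) := by
        simp [mkF]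
      rw [h1, D.Xpi]
      exact ih _

end SSF
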