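import Pool.Agent.Lib.SSG.F.D5

/-! # SSG/F/Y1 : characters of order `p^(N-1)` -/

open Polynomial NumberField
open scoped Classical

namespace SSF

open SSG

/-- A character modulo `p^N` of order `p^(N-1)`, `N ≥ 2`, is primitive. PROOF. `conductor ∣ p^N`, so
it is `p^M`, `M ≤ N` (`Nat.dvd_prime_pow`). If `M ≤ N - 1` then `χ` factors through `p^M`
(`DirichletCharacter.factorsThrough_conductor`), `χ = changeLevel χ'`, so for every unit `a`
`χ(a)^(card (ZMod (p^M))ˣ) = 1`, i.e. `χ^c = 1` with `c = card (ZMod (p^M))ˣ = φ(p^M)`, which divides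
`p^(N-2) (p-1)` (`M = 0`: `1`; `M ≥ 1`: `p^(M-1)(p-1)`, `ZMod.card_units_eq_totient`,
`Nat.totient_prime_pow`). So `p^(N-1) ∣ p^(N-2)(p-1)` (`orderOf_dvd_of_pow_eq_one`), `p ∣ p - 1`,
a contradiction. The second claim is `pow_orderOf_eq_one`. -/
theorem prim_of_order {K : Type} [Field K] {p : ℕ} [Fact p.Prime] (N : ℕ) (hN : 2 ≤ N)
    (χ : DirichletCharacter K (p ^ N)) (hχ : orderOf χ = p ^ (N - 1)) :
    χ.IsPrimitive ∧ χ ^ (p ^ (N - 1)) = 1 := by
  have hp : p.Prime := Fact.out
  refine ⟨?_, by rw [← hχ]; exact pow_orderOf_eq_one χ⟩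
  rw [DirichletCharacter.isPrimitive_def]
  obtain ⟨M, hM, hc⟩ := (Nat.dvd_prime_pow hp).1 (DirichletCharacter.conductor_dvd_level χ)
  rcases eq_or_lt_of_le hM with h | h
  · rw [hc, h]
  · exfalso
    have hf := DirichletCharacter.factorsThrough_conductor χ
    rw [hc] at hf
    haveI : NeZero (p ^ M) := ⟨pow_ne_zero M hp.ne_zero⟩
    have h1 : χ ^ (Fintype.card (ZMod (p ^ M))ˣ) = 1 := by
      rw [hf.eq_changeLevel, ← map_pow, MulChar.pow_card_eq_one, map_one]
    have h2 : p ^ (N - 1) ∣ Nat.totient (p ^ M) := by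
      rw [← hχ, ← ZMod.card_units_eq_totient]
      exact orderOf_dvd_of_pow_eq_one h1
    rcases Nat.eq_zero_or_pos M with h0 | h0
    · subst h0
      rw [pow_zero, Nat.totient_one] at h2
      have h3 : p ^ (N - 1) = 1 := Nat.dvd_one.1 h2
      have h4 : 1 < p ^ (N - 1) := Nat.one_lt_pow (by omega) hp.one_lt
      omega
    · rw [Nat.totient_prime_pow hp h0] at h2
      have hcop : Nat.Coprime (p ^ (N - 1)) (p - 1) := by
        apply Nat.Coprime.pow_left
        rw [Nat.Prime.coprime_iff_not_dvd hp]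
        intro hd
        have := Nat.le_of_dvd (by have := hp.two_le; omega) hd
        have := hp.two_le
        omega
      have h3 := hcop.dvd_of_dvd_mul_right h2
      have h4 := (Nat.pow_dvd_pow_iff_le_right hp.one_lt).1 h3
      omega

end SSF
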