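import Pool.Agent.Lib.SSG.F.Y1

/-! # SSG/F/Y2 : descent of the character -/

open Polynomial NumberField
open scoped Classical

namespace SSF

open SSG

/-- If `L₀` contains a primitive `p^N`-th root of unity, a character of `p`-power order with values
in `K` comes from `L₀`. PROOF. For a unit `a` `χ(a)^(p^N) = 1` (the order divides `p^N`), so
`χ(a) = j(ζ)^k` for some `k` (`j ζ` is a primitive root: `IsPrimitiveRoot.map_of_injective`,
`IsPrimitiveRoot.eq_pow_of_pow_eq_one`), so `χ(a) = j(c a)` with a unique unit `c a : L₀ˣ` (`j` is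
injective), and `a ↦ c a` is multiplicative because `j` is injective: a hom
`(ZMod (p^N))ˣ →* L₀ˣ`, `χ₀ = MulChar.ofUnitHom`. `j (χ₀ a) = χ a` also for non-units (both `0`).
`orderOf χ₀ = orderOf χ` (`j` injective; or `χ₀^m = 1 ↔ χ^m = 1`), `prim_of_order` for `χ₀`. -/
theorem char_descent {L₀ K : Type} [Field L₀] [Field K] (j : L₀ →+* K) {p : ℕ} [Fact p.Prime]
    (N : ℕ) (hN : 2 ≤ N) (ζ : L₀) (hζ : IsPrimitiveRoot ζ (p ^ N))
    (χ : DirichletCharacter K (p ^ N)) (hχ : orderOf χ = p ^ (N - 1)) :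
    ∃ χ₀ : DirichletCharacter L₀ (p ^ N), (∀ a, j (χ₀ a) = χ a) ∧ χ₀.IsPrimitive ∧
      χ₀ ^ (p ^ (N - 1)) = 1 := by
  have hp : p.Prime := Fact.out
  have hj : Function.Injective j := j.injective
  have hpos : 0 < p ^ N := pow_pos hp.pos N
  have hne : NeZero (p ^ N) := ⟨hpos.ne'⟩
  have h1 : ∀ a : (ZMod (p ^ N))ˣ, ∃ c : L₀, c ≠ 0 ∧ j c = χ (a : ZMod (p ^ N)) := by
    intro a
    have h2 : χ ^ (p ^ N) = 1 := by
      rw [← orderOf_dvd_iff_pow_eq_one, hχ]
      exact pow_dvd_pow p (Nat.sub_le N 1)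
    have h3 : χ (a : ZMod (p ^ N)) ^ (p ^ N) = 1 := by
      rw [← MulChar.pow_apply_coe, h2, MulChar.one_apply_coe]
    obtain ⟨k, _, hk⟩ := (hζ.map_of_injective hj).eq_pow_of_pow_eq_one h3
    refine ⟨ζ ^ k, pow_ne_zero k (hζ.ne_zero hpos.ne'), ?_⟩
    rw [map_pow, hk]
  choose c hc0 hc using h1
  let f : (ZMod (p ^ N))ˣ →* L₀ˣ :=
    { toFun := fun a => Units.mk0 (c a) (hc0 a)
      map_one' := by
        apply Units.ext
        apply hj
        rw [Units.val_mk0, hc, Units.val_one, Units.val_one, map_one, map_one]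
      map_mul' := by
        intro a b
        apply Units.ext
        apply hj
        rw [Units.val_mul, Units.val_mk0, Units.val_mk0, Units.val_mk0, map_mul, hc, hc, hc,
          Units.val_mul, map_mul] }
  have hf : ∀ a : ZMod (p ^ N), j (MulChar.ofUnitHom f a) = χ a := by
    intro a
    by_cases ha : IsUnit a
    · obtain ⟨u, rfl⟩ := ha
      rw [MulChar.ofUnitHom_coe]
      exact hc u
    · rw [MulChar.map_nonunit _ ha, MulChar.map_nonunit _ ha, map_zero]
  have ho : orderOf (MulChar.ofUnitHom f : DirichletCharacter L₀ (p ^ N)) = p ^ (N - 1) := by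
    rw [← hχ, orderOf_eq_orderOf_iff]
    intro m
    constructor
    · intro hm
      ext a
      have h2 := congrArg (fun ψ : MulChar (ZMod (p ^ N)) L₀ => j (ψ (a : ZMod (p ^ N)))) hm
      simp only [MulChar.pow_apply_coe, MulChar.one_apply_coe, map_pow, hf, map_one] at h2
      rw [MulChar.pow_apply_coe, MulChar.one_apply_coe, h2]
    · intro hm
      ext a
      apply hj
      have h2 := congrArg (fun ψ : MulChar (ZMod (p ^ N)) K => ψ (a : ZMod (p ^ N))) hm
      simp only [MulChar.pow_apply_coe, MulChar.one_apply_coe] at h2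
      rw [MulChar.pow_apply_coe, MulChar.one_apply_coe, map_pow, hf, h2, map_one]
  obtain ⟨h5, h6⟩ := prim_of_order N hN (MulChar.ofUnitHom f : DirichletCharacter L₀ (p ^ N)) ho
  exact ⟨MulChar.ofUnitHom f, hf, h5, h6⟩

end SSF
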