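import Pool.Agent.Lib.SSG.F.D5

/-! # SSG/F/Y3 : sums over representatives -/

open Polynomial NumberField
open scoped Classical

namespace SSF

open SSG

variable {F : Type} [Field F] [NumberField F] {p : ℕ} [Fact p.Prime]

/-- `T → 𝓞 F / p^N` is a bijection (`Rep`, `Ideal.Quotient.eq`, `Ideal.mem_span_singleton`), so
`Fintype.piFinset (fun _ => T) → (ι → 𝓞 F / p^N)` is one: `Finset.sum_bij` / `Finset.sum_nbij`. -/
theorem rep_sum {K : Type} [AddCommMonoid K] (N : ℕ) (T : Finset (𝓞 F)) (hT : Rep p N T)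
    (ι : Type) [Fintype ι] [DecidableEq ι] (f : (ι → RF F p N) → K) :
    ∑ a ∈ Fintype.piFinset (fun _ : ι => T), f (fun i => mkF p N (a i)) =
      ∑ x : ι → RF F p N, f x := by
  have key : ∀ a b : 𝓞 F, mkF p N a = mkF p N b ↔ (p : 𝓞 F) ^ N ∣ a - b := by
    intro a b
    rw [Ideal.Quotient.eq, Ideal.mem_span_singleton]
  refine Finset.sum_bij (fun a _ => fun i => mkF p N (a i)) ?_ ?_ ?_ ?_
  · intro a _
    exact Finset.mem_univ _
  · intro a ha b hb hab
    funext i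
    have h1 := congrFun hab i
    have h2 : (p : 𝓞 F) ^ N ∣ a i - b i := (key _ _).1 h1
    obtain ⟨t, _, ht2⟩ := hT (a i)
    have h3 := ht2 (a i) ⟨Fintype.mem_piFinset.1 ha i, by rw [sub_self]; exact dvd_zero _⟩
    have h4 := ht2 (b i) ⟨Fintype.mem_piFinset.1 hb i, h2⟩
    rw [h3, h4]
  · intro x _
    have h1 : ∀ i, ∃ t : 𝓞 F, t ∈ T ∧ mkF p N t = x i := by
      intro i
      obtain ⟨r, hr⟩ := Ideal.Quotient.mk_surjective (x i)
      obtain ⟨t, ⟨ht, ht1⟩, _⟩ := hT r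
      exact ⟨t, ht, ((key _ _).2 ht1).symm.trans hr⟩
    choose t ht ht1 using h1
    exact ⟨t, Fintype.mem_piFinset.2 ht, funext ht1⟩
  · intro a _
    rfl

/-- `N ≥ 1`: the exponents `e ≤ N` with `N ≤ 2e+1`, `2e ≤ N+1` are `N/2` and `(N+1)/2`
(`Finset.ext`, `omega`). `Eset` is defined in `M3.lean`: `{N / 2, (N + 1) / 2}`. -/
theorem EN_eq (N : ℕ) (hN : 1 ≤ N) : EN N = {N / 2, (N + 1) / 2} := by
  ext e
  rw [EN, Finset.mem_filter, Finset.mem_range, Finset.mem_insert, Finset.mem_singleton]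
  omega

end SSF
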