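import Pool.Agent.Lib.SSG.F.D4
import Pool.Agent.Lib.SSG.F.D1

/-! # SSG/F/Z1 : `S` and `T_e` of monomials -/

open Polynomial
open scoped Classical

namespace SSF

variable {p : ℕ} [Fact p.Prime] {R : ℕ → Type} [∀ N, CommRing (R N)] [∀ N, Fintype (R N)]
  {L : Type} [NormedField L] [IsUltrametricDist L] (D : LTD p R L)

variable {K : Type} [NormedField K] (j : L →+* K)

/-- `S` of a monomial is a product of one-variable sums. PROOF. `Finset.prod_univ_sum`
(`prod_i sum_a f i a = sum over x ∈ Fintype.piFinset univ`, and `Fintype.piFinset_univ`),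
`Finset.prod_mul_distrib`, `map_sum, map_mul, map_pow`; `D.ev (X^m) x = x^m`. -/
theorem SK_mono (N : ℕ) (ι : Type) [Fintype ι] (χ : DirichletCharacter L (p ^ N)) (m : ι → ℕ) (c : K) :
    D.SK j N ι χ (fun x => c * ∏ i, j (D.X N (x i)) ^ m i) =
      c * ∏ i, j (D.S N χ (X ^ m i)) := by
  classical
  unfold LTD.SK LTD.S
  have hev : ∀ (k : ℕ) (x : R N), D.ev (X ^ k) (D.X N x) = D.X N x ^ k := fun k x => by
    simp [LTD.ev]
  have h1 : ∀ i, j (∑ x : R N, χ (D.nm N x) * D.ev (X ^ m i) (D.X N x)) =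
      ∑ x : R N, j (χ (D.nm N x)) * j (D.X N x) ^ m i := by
    intro i
    rw [map_sum]
    refine Finset.sum_congr rfl fun x _ => ?_
    rw [map_mul, hev, map_pow]
  simp only [h1]
  rw [Finset.prod_univ_sum, Fintype.piFinset_univ, Finset.mul_sum]
  refine Finset.sum_congr rfl fun x _ => ?_
  rw [Finset.prod_mul_distrib]
  ring

/-- the same for `T_e`: the filter is the `piFinset` of the one-variable filters
(`Fintype.mem_piFinset`). -/
theorem TK_mono (N : ℕ) (ι : Type) [Fintype ι] (e : ι → ℕ) (m : ι → ℕ) (c : K) :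
    D.TK N ι e (fun x => c * ∏ i, j (D.X N (x i)) ^ m i) =
      c * ∏ i, j (((-(p : L)) ^ (e i))⁻¹ * ∑ x ∈ Finset.univ.filter
        (fun x : R N => ∃ y : R N, x = (p : R N) ^ (N - e i) * y), D.ev (X ^ m i) (D.X N x)) := by
  classical
  unfold LTD.TK
  have hev : ∀ (k : ℕ) (x : R N), D.ev (X ^ k) (D.X N x) = D.X N x ^ k := fun k x => by
    simp [LTD.ev]
  have h1 : ∀ i, j (((-(p : L)) ^ (e i))⁻¹ * ∑ x ∈ Finset.univ.filter
        (fun x : R N => ∃ y : R N, x = (p : R N) ^ (N - e i) * y), D.ev (X ^ m i) (D.X N x)) =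
      ((-(p : K)) ^ (e i))⁻¹ * ∑ x ∈ Finset.univ.filter
        (fun x : R N => ∃ y : R N, x = (p : R N) ^ (N - e i) * y), j (D.X N x) ^ m i := by
    intro i
    rw [map_mul, map_inv₀, map_pow, map_neg, map_natCast, map_sum]
    congr 1
    refine Finset.sum_congr rfl fun x _ => ?_
    rw [hev, map_pow]
  simp only [h1]
  rw [Finset.prod_mul_distrib, Finset.prod_univ_sum]
  have h2 : Finset.univ.filter (fun x : ι → R N => ∀ i, ∃ y : R N, x i = (p : R N) ^ (N - e i) * y) =
      Fintype.piFinset fun i => Finset.univ.filter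
        (fun x : R N => ∃ y : R N, x = (p : R N) ^ (N - e i) * y) := by
    ext x
    simp only [Fintype.mem_piFinset, Finset.mem_filter, Finset.mem_univ, true_and]
  rw [h2, ← Finset.mul_sum]
  ring

end SSF
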