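import Pool.Agent.Lib.SSG.F.Z1
import Pool.Agent.Lib.SSG.F.Z2
import Pool.Agent.Lib.SSG.F.M4
import Pool.Agent.Lib.SSG.F.M5
import Pool.Agent.Lib.SSG.F.L2B

/-! # SSG/F/Z3 : the main theorem for monomials -/

open Polynomial
open scoped Classical

namespace SSF

variable {p : ℕ} [Fact p.Prime] {R : ℕ → Type} [∀ N, CommRing (R N)] [∀ N, Fintype (R N)]
  {L : Type} [NormedField L] [IsUltrametricDist L] (D : LTD p R L)

/-- the main constant `kappa = tau eta^J`. -/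
noncomputable def LTD.kap (D : LTD p R L) (n : ℕ) (χ : DirichletCharacter L (p ^ (n + 1))) : L :=
  D.tau (n + 1) χ * D.eta (n + 1) χ ^ (p ^ n / (p + 1))

/-- `kap ≠ 0` (`tau_ne`; `eta_norm`, `phi_pos`) and its norm: with `E = p^(n-1)(p-1)`,
`‖kap‖^(2E) = (‖tau‖^2)^E (‖eta‖^E)^(2J) = ‖p‖^((n+1)E) ‖p‖^(2J)` (`tau_norm`, `eta_norm`, `phi_e`). -/
theorem kap_norm (hp3 : 3 ≤ p) (n : ℕ) (hn : 1 ≤ n) (χ : DirichletCharacter L (p ^ (n + 1)))
    (hχ : χ.IsPrimitive) (h1 : χ ^ (p ^ n) = 1) :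
    D.kap n χ ≠ 0 ∧ ‖D.kap n χ‖ ^ (2 * (p ^ (n - 1) * (p - 1))) =
      ‖(p : L)‖ ^ ((n + 1) * (p ^ (n - 1) * (p - 1)) + 2 * (p ^ n / (p + 1))) := by
  obtain ⟨h0, hl⟩ := phi_pos D n hn
  have he := eta_norm D hp3 n hn χ hχ h1
  have ht := tau_norm D (n + 1) χ hχ n (Nat.le_succ n) h1
  have hφ := phi_e D n hn
  constructor
  · refine mul_ne_zero (tau_ne D (n + 1) χ hχ) (pow_ne_zero _ ?_)
    rw [← norm_pos_iff, he]
    exact h0
  · unfold LTD.kap
    rw [norm_mul, norm_pow, he, mul_pow, pow_mul, ht, ← pow_mul, ← pow_mul,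
      show p ^ n / (p + 1) * (2 * (p ^ (n - 1) * (p - 1))) = (p ^ (n - 1) * (p - 1)) * (2 * (p ^ n / (p + 1))) by ring,
      pow_mul ‖D.ζ n - 1‖, hφ, ← pow_add]

variable {K : Type} [NormedField K] [IsUltrametricDist K] (j : L →+* K) (hj : ∀ x, ‖j x‖ = ‖x‖)

include hj in
/-- The main theorem for a monomial. PROOF. `N = n + 1`, `d_e(m) = 1` if `m = p^(2e) - 1` and `0`
otherwise (`(X^m).coeff`). `SK = c prod_i j(S(X^(m_i)))` (`SK_mono`), and by `one_var` divided by `kap`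
`a_i = j(S(X^(m_i)))/j(kap)` satisfies `‖a_i - rho sum_(e ∈ Eset N) d_e(m_i)‖ < 1`. `TK e = c prod_i t`
(`TK_mono`) with `‖t_(e_i)(m_i) - d_(e_i)(m_i)‖ < 1` (`Te_congr`, `e_i ≤ N`; `Eset N ⊆ {e ≤ N}`).
`prod_approx` for both; `prod_i rho sum_(e) d_e(m_i) = rho^g sum_(e ∈ piFinset) prod_i d_(e_i)(m_i)`
(`Finset.prod_univ_sum`). `‖c‖ ≤ 1`. -/
theorem main_mono (hp3 : 3 ≤ p) (n : ℕ) (hn : 1 ≤ n) (χ : DirichletCharacter L (p ^ (n + 1)))
    (hχ : χ.IsPrimitive) (h1 : χ ^ (p ^ n) = 1) (ι : Type) [Fintype ι] (m : ι → ℕ) (c : K) (hc : ‖c‖ ≤ 1) :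
    (∀ e : ι → ℕ, (∀ i, e i ≤ n + 1) →
      ‖D.TK (n + 1) ι e (fun x => c * ∏ i, j (D.X (n + 1) (x i)) ^ m i)‖ ≤ 1) ∧
    ‖D.SK j (n + 1) ι χ (fun x => c * ∏ i, j (D.X (n + 1) (x i)) ^ m i) / j (D.kap n χ) ^ Fintype.card ι -
      (rho (n + 1) : K) ^ Fintype.card ι * ∑ e ∈ Fintype.piFinset (fun _ : ι => Eset (n + 1)),
        D.TK (n + 1) ι e (fun x => c * ∏ i, j (D.X (n + 1) (x i)) ^ m i)‖ < 1 := by
  let t : ℕ → ℕ → L := fun e k => ((-(p : L)) ^ e)⁻¹ * ∑ x ∈ Finset.univ.filter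
    (fun x : R (n + 1) => ∃ y : R (n + 1), x = (p : R (n + 1)) ^ (n + 1 - e) * y), D.ev (X ^ k) (D.X (n + 1) x)
  let d : ℕ → ℕ → L := fun e k => (((X : D.W[X]) ^ k).coeff (p ^ (2 * e) - 1) : D.W)
  have hd : ∀ e k, ‖j (d e k)‖ ≤ 1 := fun e k => by
    rw [hj]
    exact (((X : D.W[X]) ^ k).coeff (p ^ (2 * e) - 1)).2.2
  have ht : ∀ e k, e ≤ n + 1 → ‖j (t e k) - j (d e k)‖ < 1 := fun e k he => by
    rw [← map_sub, hj]
    exact Te_congr D (n + 1) e he (X ^ k)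
  have hTK : ∀ e : ι → ℕ, D.TK (n + 1) ι e (fun x => c * ∏ i, j (D.X (n + 1) (x i)) ^ m i) =
      c * ∏ i, j (t (e i) (m i)) := fun e => TK_mono D j (n + 1) ι e m c
  have hcm : ∀ z : K, ‖z‖ < 1 → ‖c * z‖ < 1 := fun z hz => by
    rw [norm_mul]
    exact (mul_le_of_le_one_left (norm_nonneg _) hc).trans_lt hz
  constructor
  · intro e he
    rw [hTK, norm_mul]
    exact mul_le_one₀ hc (norm_nonneg _) (prod_approx Finset.univ (fun i => j (t (e i) (m i))) (fun i => j (d (e i) (m i)))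
      (fun i _ => ht _ _ (he i)) (fun i _ => hd _ _)).2
  · obtain ⟨hk, -⟩ := kap_norm D hp3 n hn χ hχ h1
    have hk' : 0 < ‖D.kap n χ‖ := norm_pos_iff.2 hk
    have hjk : j (D.kap n χ) ≠ 0 := (map_ne_zero j).2 hk
    have hes : ∀ e ∈ Eset (n + 1), e ≤ n + 1 := by
      intro e he
      simp only [Eset, Finset.mem_insert, Finset.mem_singleton] at he
      omega
    have hr1 : ‖((rho (n + 1) : ℤ) : K)‖ ≤ 1 := IsUltrametricDist.norm_intCast_le_one K _
    have hA : ∀ i, ‖j (D.S (n + 1) χ (X ^ m i)) / j (D.kap n χ) - (rho (n + 1) : K) * ∑ e ∈ Eset (n + 1), j (d e (m i))‖ < 1 := by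
      intro i
      have h3 := one_var D hp3 n hn χ hχ h1 (X ^ m i)
      have h4 : j (D.S (n + 1) χ (X ^ m i)) / j (D.kap n χ) - (rho (n + 1) : K) * ∑ e ∈ Eset (n + 1), j (d e (m i)) =
          j ((D.S (n + 1) χ (X ^ m i) - D.kap n χ * (-(-1) ^ ((n + 2) / 2) * ∑ e ∈ Eset (n + 1), d e (m i))) / D.kap n χ) := by
        rw [sub_div, mul_div_cancel_left₀ _ hk, map_sub, map_div₀, map_mul, map_neg, map_pow, map_neg, map_one, map_sum]
        unfold rho
        push_cast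
        rfl
      rw [h4, hj, norm_div, div_lt_one hk']
      exact h3
    have hB : ∀ i, ‖(rho (n + 1) : K) * ∑ e ∈ Eset (n + 1), j (d e (m i))‖ ≤ 1 := by
      intro i
      rw [norm_mul]
      refine mul_le_one₀ hr1 (norm_nonneg _) ?_
      exact IsUltrametricDist.norm_sum_le_of_forall_le_of_nonneg zero_le_one fun e _ => hd _ _
    have hp1 := (prod_approx Finset.univ (fun i => j (D.S (n + 1) χ (X ^ m i)) / j (D.kap n χ))
      (fun i => (rho (n + 1) : K) * ∑ e ∈ Eset (n + 1), j (d e (m i))) (fun i _ => hA i) (fun i _ => hB i)).1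
    have hprod : ∏ i : ι, ((rho (n + 1) : K) * ∑ e ∈ Eset (n + 1), j (d e (m i))) =
        (rho (n + 1) : K) ^ Fintype.card ι * ∑ e ∈ Fintype.piFinset (fun _ : ι => Eset (n + 1)), ∏ i, j (d (e i) (m i)) := by
      rw [Finset.prod_mul_distrib, Finset.prod_const, Finset.card_univ, Finset.prod_univ_sum]
    rw [hprod] at hp1
    have hsum : ‖∑ e ∈ Fintype.piFinset (fun _ : ι => Eset (n + 1)), (∏ i, j (t (e i) (m i)) - ∏ i, j (d (e i) (m i)))‖ < 1 := by
      have hgen : ∀ (s : Finset (ι → ℕ)) (f : (ι → ℕ) → K), (∀ e ∈ s, ‖f e‖ < 1) → ‖∑ e ∈ s, f e‖ < 1 := by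
        intro s f
        induction s using Finset.induction_on with
        | empty => intro _; simp
        | insert a s ha ih =>
          intro h
          rw [Finset.sum_insert ha]
          exact (IsUltrametricDist.norm_add_le_max _ _).trans_lt (max_lt (h a (Finset.mem_insert_self a s))
            (ih fun e he => h e (Finset.mem_insert_of_mem he)))
      refine hgen _ _ fun e he => ?_
      rw [Fintype.mem_piFinset] at he
      exact (prod_approx Finset.univ (fun i => j (t (e i) (m i))) (fun i => j (d (e i) (m i)))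
        (fun i _ => ht _ _ (hes _ (he i))) (fun i _ => hd _ _)).1
    have hS : D.SK j (n + 1) ι χ (fun x => c * ∏ i, j (D.X (n + 1) (x i)) ^ m i) / j (D.kap n χ) ^ Fintype.card ι =
        c * ∏ i, (j (D.S (n + 1) χ (X ^ m i)) / j (D.kap n χ)) := by
      rw [SK_mono, Finset.prod_div_distrib, Finset.prod_const, Finset.card_univ, mul_div_assoc]
    rw [hS, Finset.sum_congr rfl fun e _ => hTK e, ← Finset.mul_sum]
    have key : c * ∏ i, (j (D.S (n + 1) χ (X ^ m i)) / j (D.kap n χ)) -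
        (rho (n + 1) : K) ^ Fintype.card ι * (c * ∑ e ∈ Fintype.piFinset (fun _ : ι => Eset (n + 1)), ∏ i, j (t (e i) (m i))) =
        c * (∏ i, (j (D.S (n + 1) χ (X ^ m i)) / j (D.kap n χ)) -
          (rho (n + 1) : K) ^ Fintype.card ι * ∑ e ∈ Fintype.piFinset (fun _ : ι => Eset (n + 1)), ∏ i, j (d (e i) (m i))) -
        c * ((rho (n + 1) : K) ^ Fintype.card ι *
          ∑ e ∈ Fintype.piFinset (fun _ : ι => Eset (n + 1)), (∏ i, j (t (e i) (m i)) - ∏ i, j (d (e i) (m i)))) := by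
      rw [Finset.sum_sub_distrib]
      ring
    rw [key, sub_eq_add_neg]
    refine (IsUltrametricDist.norm_add_le_max _ _).trans_lt (max_lt (hcm _ hp1) ?_)
    rw [norm_neg]
    refine hcm _ ?_
    rw [norm_mul, norm_pow]
    exact (mul_le_of_le_one_left (norm_nonneg _) (pow_le_one₀ (norm_nonneg _) hr1)).trans_lt hsum

end SSF
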